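import Pool.Agent.Lib.MP_a54f13_nt.Hp.Hk2

/-!
# Package `HS` (the fourth moment without hypothesis), the square amplifier, part 1: cosets without backtracking

MP_a54f13_nt. The `p (p + 1)` products `r_j r_j'` of two coset representatives of determinant `p` which are not
divisible by `p`. All matrices that occur are primitive.
-/

set_option autoImplicit false

namespace Pool.Agent.A54.HS

open MeasureTheory Filter Topology Set
open scoped ContDiff ComplexConjugate UpperHalfPlane MatrixGroups ENNReal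
open Pool.Agent.A54.Dyn (G fl base ze io mk4 dom)
open Pool.Agent.A54.Av (Mat NonSc)
open Pool.Agent.A54.Hp Pool.Agent.A54.Hp.Hk Pool.Agent.A54.Hp.A2M

noncomputable section

/-- the product of two representatives -/
def rr (p : ℕ) (x : Option (Fin p) × Option (Fin p)) : Mat := rp p x.1 * rp p x.2

lemma rr_det (p : ℕ) (x : Option (Fin p) × Option (Fin p)) : (rr p x).det = (p : ℤ) * p := by
  unfold rr
  rw [Matrix.det_mul, rp_det, rp_det]

lemma rr_pos {p : ℕ} (hp : 0 < p) (x : Option (Fin p) × Option (Fin p)) : 0 < (rr p x).det := by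
  rw [rr_det]
  have : (0 : ℤ) < p := by exact_mod_cast hp
  positivity

open Classical in
/-- the pairs without backtracking -/
def Np (p : ℕ) : Finset (Option (Fin p) × Option (Fin p)) :=
  Finset.univ.filter (fun x => ¬ PD p (rr p x))

lemma PD_mul_left {p : ℕ} (m : Mat) {r : Mat} (h : PD p r) : PD p (m * r) := by
  intro i j
  rw [Matrix.mul_apply, Fin.sum_univ_two]
  exact (Dvd.dvd.mul_left (h 0 j) _).add (Dvd.dvd.mul_left (h 1 j) _)

lemma PD_of_mul {p : ℕ} (hp : p.Prime) {m r : Mat} (hm : ¬ (p : ℤ) ∣ m.det) (h : PD p (m * r)) :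
    PD p r := by
  have hpp : Prime (p : ℤ) := Nat.prime_iff_prime_int.1 hp
  have h1 : PD p (m.adjugate * (m * r)) := PD_mul_left _ h
  rw [← Matrix.mul_assoc, Matrix.adjugate_mul, Matrix.smul_mul, Matrix.one_mul] at h1
  intro i j
  have h2 := h1 i j
  rw [Matrix.smul_apply, smul_eq_mul] at h2
  exact (hpp.dvd_or_dvd h2).resolve_left hm

lemma PD_mul_right {p : ℕ} {m : Mat} (r : Mat) (h : PD p m) : PD p (m * r) := by
  intro i j
  rw [Matrix.mul_apply, Fin.sum_univ_two]
  exact (Dvd.dvd.mul_right (h i 0) _).add (Dvd.dvd.mul_right (h i 1) _)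

lemma PD_of_mul_right {p : ℕ} (hp : p.Prime) {m r : Mat} (hr : ¬ (p : ℤ) ∣ r.det) (h : PD p (m * r)) :
    PD p m := by
  have hpp : Prime (p : ℤ) := Nat.prime_iff_prime_int.1 hp
  have h1 : PD p (m * r * r.adjugate) := PD_mul_right _ h
  rw [Matrix.mul_assoc, Matrix.mul_adjugate, Matrix.mul_smul, Matrix.mul_one] at h1
  intro i j
  have h2 := h1 i j
  rw [Matrix.smul_apply, smul_eq_mul] at h2
  exact (hpp.dvd_or_dvd h2).resolve_left hr

lemma PD_adj {p : ℕ} {s : Mat} : PD p s.adjugate ↔ PD p s := by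
  have key : ∀ s : Mat, PD p s → PD p s.adjugate := by
    intro s h
    rw [Matrix.adjugate_fin_two]
    intro i j
    fin_cases i <;> fin_cases j
    · exact h 1 1
    · exact (dvd_neg).2 (h 0 1)
    · exact (dvd_neg).2 (h 1 0)
    · exact h 0 0
  refine ⟨fun h => ?_, key s⟩
  have h1 := key _ h
  have h2 : s.adjugate.adjugate = s := by
    rw [Matrix.adjugate_fin_two, Matrix.adjugate_fin_two]
    ext i j
    fin_cases i <;> fin_cases j <;> simp
  rwa [h2] at h1

lemma PD_smul_self {p : ℕ} (t : Mat) : PD p ((p : ℤ) • t) := fun i j => ⟨t i j, rfl⟩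

/-- primitive -/
def Pr (s : Mat) : Prop := ∀ ℓ : ℕ, ℓ.Prime → ¬ PD ℓ s

/-- primitive away from `p` -/
def Pq (p : ℕ) (s : Mat) : Prop := ∀ ℓ : ℕ, ℓ.Prime → ℓ ≠ p → ¬ PD ℓ s

lemma Pr_iff {p : ℕ} (hp : p.Prime) (s : Mat) : Pr s ↔ ¬ PD p s ∧ Pq p s := by
  constructor
  · intro h
    exact ⟨h p hp, fun ℓ hℓ _ => h ℓ hℓ⟩
  · rintro ⟨h1, h2⟩ ℓ hℓ
    by_cases h : ℓ = p
    · rw [h]
      exact h1
    · exact h2 ℓ hℓ h

lemma Pr_adj (s : Mat) : Pr s.adjugate ↔ Pr s := by
  unfold Pr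
  exact forall_congr' fun ℓ => forall_congr' fun _ => not_congr PD_adj

lemma not_dvd_sq {p ℓ : ℕ} (hp : p.Prime) (hℓ : ℓ.Prime) (h : ℓ ≠ p) : ¬ (ℓ : ℤ) ∣ (p : ℤ) * p := by
  intro hd
  have hpp : Prime (ℓ : ℤ) := Nat.prime_iff_prime_int.1 hℓ
  have h1 : (ℓ : ℤ) ∣ (p : ℤ) := by
    rcases hpp.dvd_or_dvd hd with h | h <;> exact h
  exact h ((Nat.prime_dvd_prime_iff_eq hℓ hp).1 (by exact_mod_cast h1))

lemma Pq_mul {p : ℕ} (hp : p.Prime) (m : Mat) (x : Option (Fin p) × Option (Fin p)) :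
    Pq p (m * rr p x) ↔ Pq p m := by
  refine forall_congr' fun ℓ => forall_congr' fun hℓ => forall_congr' fun hne => not_congr ?_
  refine ⟨fun h => PD_of_mul_right hℓ ?_ h, fun h => PD_mul_right _ h⟩
  rw [rr_det]
  exact not_dvd_sq hp hℓ hne

lemma Pq_smul {p : ℕ} (hp : p.Prime) (t : Mat) : Pq p ((p : ℤ) • t) ↔ Pq p t := by
  refine forall_congr' fun ℓ => forall_congr' fun hℓ => forall_congr' fun hne => not_congr ?_
  have hpp : Prime (ℓ : ℤ) := Nat.prime_iff_prime_int.1 hℓ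
  constructor
  · intro h i j
    have h1 := h i j
    rw [Matrix.smul_apply, smul_eq_mul] at h1
    refine (hpp.dvd_or_dvd h1).resolve_left fun h2 => hne ?_
    exact (Nat.prime_dvd_prime_iff_eq hℓ hp).1 (by exact_mod_cast h2)
  · intro h i j
    rw [Matrix.smul_apply, smul_eq_mul]
    exact Dvd.dvd.mul_left (h i j) _

/-- both conditions -/
lemma Pq_adj {p : ℕ} (s : Mat) : Pq p s.adjugate ↔ Pq p s :=
  forall_congr' fun _ => forall_congr' fun _ => forall_congr' fun _ => not_congr PD_adj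

lemma det_nd {p n : ℕ} (hn : ¬ p ∣ n) (m : Mn n) : ¬ (p : ℤ) ∣ m.1.det := by
  rw [m.2]
  exact_mod_cast hn

/-- the sum over all pairs of cosets, `p ∤ n` -/
lemma all_coprime {p : ℕ} (hp : p.Prime) {n : ℕ} (hn : ¬ p ∣ n) (f : Mat → ℝ≥0∞) :
    ∑ x, ∑' m : Mn n, f (m.1 * rr p x) =
      (∑' s : Mn (p * (p * n)), f s.1) + (p : ℝ≥0∞) * ∑' t : Mn n, f ((p : ℤ) • t.1) := by
  rw [← sum_dvd hp n f, Fintype.sum_prod_type, Finset.sum_comm]
  refine Finset.sum_congr rfl fun j' _ => ?_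
  rw [← sum_coprime hp hn (fun s => f (s * rp p j'))]
  refine Finset.sum_congr rfl fun j _ => tsum_congr fun m => ?_
  unfold rr
  rw [Matrix.mul_assoc]

/-- the sum over all pairs of cosets, level `p² n` -/
lemma all_sq {p : ℕ} (hp : p.Prime) (n : ℕ) (f : Mat → ℝ≥0∞) :
    ∑ x, ∑' m : Mn (p * (p * n)), f (m.1 * rr p x) =
      (∑' s : Mn (p * (p * (p * (p * n)))), f s.1) +
        (p : ℝ≥0∞) * (∑' t : Mn (p * (p * n)), f ((p : ℤ) • t.1)) +
        (p : ℝ≥0∞) * ((∑' s : Mn (p * (p * n)), f ((p : ℤ) • s.1)) +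
          (p : ℝ≥0∞) * ∑' t : Mn n, f ((p : ℤ) • ((p : ℤ) • t.1))) := by
  rw [← sum_dvd hp n (fun s => f ((p : ℤ) • s)), ← sum_dvd hp (p * (p * n)) f,
    Fintype.sum_prod_type, Finset.sum_comm, Finset.mul_sum, ← Finset.sum_add_distrib]
  refine Finset.sum_congr rfl fun j' _ => ?_
  have h1 := sum_dvd hp (p * n) (fun s => f (s * rp p j'))
  have h2 : ∀ t : Mn (p * n), f ((p : ℤ) • t.1 * rp p j') = f ((p : ℤ) • (t.1 * rp p j')) := fun t => by
    rw [Matrix.smul_mul]
  simp only [h2] at h1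
  rw [← h1]
  refine Finset.sum_congr rfl fun j _ => tsum_congr fun m => ?_
  unfold rr
  rw [Matrix.mul_assoc]

open Classical in
/-- the sum over the pairs without backtracking, `p ∤ n` -/
lemma cos_sum {p : ℕ} (hp : p.Prime) {n : ℕ} (hn : ¬ p ∣ n) (f : Mat → ℝ≥0∞) :
    ∑ x ∈ Np p, ∑' m : Mn n, f (m.1 * rr p x) =
      ∑' s : Mn (p * (p * n)), if PD p s.1 then 0 else f s.1 := by
  have h1 := all_coprime hp hn (fun s => if PD p s then 0 else f s)
  have h2 : ∀ t : Mn n, (if PD p ((p : ℤ) • t.1) then 0 else f ((p : ℤ) • t.1)) = 0 :=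
    fun t => if_pos (PD_smul_self t.1)
  simp only [h2, tsum_zero, mul_zero, add_zero] at h1
  rw [← h1]
  unfold Np
  rw [Finset.sum_filter]
  refine Finset.sum_congr rfl fun x _ => ?_
  by_cases hx : PD p (rr p x)
  · rw [if_neg (not_not.2 hx)]
    symm
    have : ∀ m : Mn n, (if PD p (m.1 * rr p x) then 0 else f (m.1 * rr p x)) = 0 :=
      fun m => if_pos (PD_mul_left _ hx)
    simp only [this, tsum_zero]
  · rw [if_pos hx]
    refine tsum_congr fun m => ?_
    rw [if_neg fun h => hx (PD_of_mul hp (det_nd hn m) h)]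

open Classical in
/-- the same with adjugates -/
lemma cos_adj {p : ℕ} (hp : p.Prime) {n : ℕ} (hn : ¬ p ∣ n) (f : Mat → ℝ≥0∞) :
    ∑ x ∈ Np p, ∑' m : Mn n, f ((rr p x).adjugate * m.1) =
      ∑' s : Mn (p * (p * n)), if PD p s.1 then 0 else f s.1 := by
  have h1 := cos_sum hp hn (fun s => f s.adjugate)
  have h2 : (∑' s : Mn (p * (p * n)), if PD p s.1 then 0 else f s.1) =
      ∑' s : Mn (p * (p * n)), if PD p s.1 then 0 else f s.1.adjugate := by
    rw [← adj_all (p * (p * n)) (fun s => if PD p s then 0 else f s)]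
    refine tsum_congr fun s => ?_
    dsimp only
    by_cases h : PD p s.1
    · rw [if_pos h, if_pos (PD_adj.2 h)]
    · rw [if_neg h, if_neg fun h' => h (PD_adj.1 h')]
  rw [h2, ← h1]
  refine Finset.sum_congr rfl fun x _ => ?_
  rw [← Equiv.tsum_eq (adjE n) (fun m : Mn n => f ((rr p x).adjugate * m.1))]
  refine tsum_congr fun m => ?_
  change f ((rr p x).adjugate * m.1.adjugate) = f (m.1 * rr p x).adjugate
  rw [Matrix.adjugate_mul_distrib]

open Classical in
/-- all matrices of level `p² n`: primitive at `p` or divisible by `p` -/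
lemma split_PD {p : ℕ} (hp : p.Prime) (n : ℕ) (f : Mat → ℝ≥0∞) :
    ∑' s : Mn (p * (p * n)), f s.1 =
      (∑' s : Mn (p * (p * n)), if PD p s.1 then 0 else f s.1) + ∑' t : Mn n, f ((p : ℤ) • t.1) := by
  have h1 : ∀ s : Mn (p * (p * n)), f s.1 = (if PD p s.1 then 0 else f s.1) +
      (Set.range (sc p n)).indicator (fun s : Mn (p * (p * n)) => f s.1) s := by
    intro s
    by_cases h : PD p s.1
    · rw [if_pos h, zero_add, Set.indicator_of_mem ((range_sc hp.pos n s).2 h)]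
    · rw [if_neg h, Set.indicator_of_notMem (fun h' => h ((range_sc hp.pos n s).1 h')), add_zero]
  calc ∑' s : Mn (p * (p * n)), f s.1 = ∑' s : Mn (p * (p * n)), ((if PD p s.1 then 0 else f s.1) +
      (Set.range (sc p n)).indicator (fun s : Mn (p * (p * n)) => f s.1) s) := tsum_congr h1
    _ = _ := by
      rw [ENNReal.tsum_add, ← tsum_subtype (Set.range (sc p n)),
        tsum_range (fun s : Mn (p * (p * n)) => f s.1) (sc_inj hp.pos n)]
      rfl

open Classical in
/-- the sum over the pairs without backtracking, level `p² n`, `p ∤ n`, for functions invariant under `p` -/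
lemma cos_sq {p : ℕ} (hp : p.Prime) {n : ℕ} (hn : ¬ p ∣ n) (f : Mat → ℝ≥0∞)
    (hf : ∀ t : Mat, 0 < t.det → f ((p : ℤ) • t) = f t) (hn0 : 0 < n) :
    ∑ x ∈ Np p, ∑' m : Mn (p * (p * n)), f (m.1 * rr p x) ≤
      (∑' s : Mn (p * (p * (p * (p * n)))), if PD p s.1 then 0 else f s.1) +
        3 * (p : ℝ≥0∞) * (∑' s : Mn (p * (p * n)), if PD p s.1 then 0 else f s.1) +
        4 * (p : ℝ≥0∞) ^ 2 * ∑' s : Mn n, if PD p s.1 then 0 else f s.1 := by
  have hp1 : (1 : ℝ≥0∞) ≤ p := by exact_mod_cast hp.one_lt.le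
  have h0 : ∑ x ∈ Np p, ∑' m : Mn (p * (p * n)), f (m.1 * rr p x) ≤
      ∑ x, ∑' m : Mn (p * (p * n)), f (m.1 * rr p x) :=
    Finset.sum_le_sum_of_subset (Finset.subset_univ _)
  refine h0.trans ?_
  rw [all_sq hp n f]
  have e1 : ∀ t : Mn (p * (p * n)), f ((p : ℤ) • t.1) = f t.1 := fun t =>
    hf _ (det_pos (Nat.mul_pos hp.pos (Nat.mul_pos hp.pos hn0)) t)
  have e2 : ∀ t : Mn n, f ((p : ℤ) • t.1) = f t.1 := fun t => hf _ (det_pos hn0 t)
  have e3 : ∀ t : Mn n, f ((p : ℤ) • ((p : ℤ) • t.1)) = f t.1 := fun t => by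
    rw [hf _ ?_, hf _ (det_pos hn0 t)]
    rw [Matrix.det_smul, Fintype.card_fin]
    have : (0 : ℤ) < p := by exact_mod_cast hp.pos
    have := det_pos hn0 t
    positivity
  simp only [e1, e3]
  rw [split_PD hp (p * (p * n)) f]
  simp only [e1]
  rw [split_PD hp n f]
  simp only [e2]
  have e4 : ∑' t : Mn n, f t.1 = ∑' s : Mn n, if PD p s.1 then 0 else f s.1 := by
    refine tsum_congr fun s => ?_
    rw [if_neg]
    intro h
    obtain ⟨t, ht⟩ := h 0 0
    obtain ⟨t', ht'⟩ := h 1 0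
    apply det_nd hn s
    rw [Matrix.det_fin_two, ht, ht']
    exact ⟨t * s.1 1 1 - s.1 0 1 * t', by ring⟩
  rw [e4]
  set A := ∑' s : Mn (p * (p * (p * (p * n)))), if PD p s.1 then 0 else f s.1
  set B := ∑' s : Mn (p * (p * n)), if PD p s.1 then 0 else f s.1
  set D := ∑' s : Mn n, if PD p s.1 then 0 else f s.1
  set q : ℝ≥0∞ := (p : ℝ≥0∞)
  calc A + (B + D) + q * (B + D) + q * (B + D + q * D)
      = A + (1 + 2 * q) * B + (1 + 2 * q + q ^ 2) * D := by ring
    _ ≤ A + 3 * q * B + 4 * q ^ 2 * D := by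
      refine add_le_add (add_le_add le_rfl (mul_le_mul_left ?_ _)) (mul_le_mul_left ?_ _)
      · calc 1 + 2 * q ≤ q + 2 * q := add_le_add hp1 le_rfl
          _ = 3 * q := by ring
      · have h2 : (1 : ℝ≥0∞) ≤ q ^ 2 := one_le_pow₀ hp1
        have h3 : q ≤ q ^ 2 := by
          calc q = 1 * q := (one_mul _).symm
            _ ≤ q * q := mul_le_mul_left hp1 _
            _ = q ^ 2 := (_root_.sq q).symm
        calc 1 + 2 * q + q ^ 2 ≤ q ^ 2 + 2 * q ^ 2 + q ^ 2 :=
              add_le_add (add_le_add h2 (mul_le_mul_right h3 _)) le_rfl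
          _ = 4 * q ^ 2 := by ring

/-! ### The number of pairs with backtracking -/

lemma rr_none_some (p : ℕ) (b : Fin p) : PD p (rr p (none, some b)) := by
  unfold rr rp
  intro i j
  fin_cases i <;> fin_cases j <;> simp [Matrix.mul_apply, Fin.sum_univ_two]

lemma rr_none_none {p : ℕ} (hp : p.Prime) : ¬ PD p (rr p (none, none)) := by
  intro h
  have h1 := h 1 1
  unfold rr rp at h1
  simp [Matrix.mul_apply, Fin.sum_univ_two] at h1
  have h2 : p ∣ 1 := by exact_mod_cast h1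
  have := Nat.le_of_dvd one_pos h2
  have := hp.one_lt
  omega

lemma rr_some_some {p : ℕ} (hp : p.Prime) (b b' : Fin p) : ¬ PD p (rr p (some b, some b')) := by
  intro h
  have h1 := h 0 0
  unfold rr rp at h1
  simp [Matrix.mul_apply, Fin.sum_univ_two] at h1
  have h2 : p ∣ 1 := by exact_mod_cast h1
  have := Nat.le_of_dvd one_pos h2
  have := hp.one_lt
  omega

lemma rr_some_none {p : ℕ} (b : Fin p) : PD p (rr p (some b, none)) ↔ (b : ℕ) = 0 := by
  constructor
  · intro h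
    have h1 := h 0 1
    unfold rr rp at h1
    simp [Matrix.mul_apply, Fin.sum_univ_two] at h1
    have h2 : p ∣ (b : ℕ) := by exact_mod_cast h1
    exact Nat.eq_zero_of_dvd_of_lt h2 b.2
  · intro h
    unfold rr rp
    intro i j
    fin_cases i <;> fin_cases j <;> simp [Matrix.mul_apply, Fin.sum_univ_two, h]

open Classical in
/-- `p + 1` pairs with backtracking -/
lemma card_back {p : ℕ} (hp : p.Prime) {β : Type} [AddCommMonoid β] (c : β) :
    ∑ x : Option (Fin p) × Option (Fin p), (if PD p (rr p x) then c else 0) = (p + 1) • c := by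
  rw [Fintype.sum_prod_type, Fintype.sum_option]
  have h1 : ∑ y : Option (Fin p), (if PD p (rr p (none, y)) then c else 0) = p • c := by
    rw [Fintype.sum_option, if_neg (rr_none_none hp), zero_add]
    have : ∀ b : Fin p, (if PD p (rr p (none, some b)) then c else 0) = c :=
      fun b => if_pos (rr_none_some p b)
    simp only [this, Finset.sum_const, Finset.card_univ, Fintype.card_fin]
  have h2 : ∀ b : Fin p, ∑ y : Option (Fin p), (if PD p (rr p (some b, y)) then c else 0) =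
      if b = ⟨0, hp.pos⟩ then c else 0 := by
    intro b
    rw [Fintype.sum_option]
    have : ∀ b' : Fin p, (if PD p (rr p (some b, some b')) then c else 0) = 0 :=
      fun b' => if_neg (rr_some_some hp b b')
    simp only [this, Finset.sum_const_zero, add_zero]
    by_cases hb : (b : ℕ) = 0
    · rw [if_pos ((rr_some_none b).2 hb), if_pos (Fin.ext hb)]
    · rw [if_neg fun h => hb ((rr_some_none b).1 h), if_neg fun h => hb (by rw [h])]
  rw [h1]
  simp only [h2]
  rw [Finset.sum_ite_eq' Finset.univ, if_pos (Finset.mem_univ _), add_smul, one_smul]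

/-- a matrix of determinant `p²` divisible by `p` is `p γ` -/
lemma PD_io {p : ℕ} (hp : 0 < p) {s : Mat} (hs : s.det = (p : ℤ) * p) (h : PD p s) :
    ∃ γ : SL(2, ℤ), s = (p : ℤ) • (γ : Mat) := by
  choose t ht using h
  have h1 : s = (p : ℤ) • (Matrix.of t : Mat) := by
    ext i j
    rw [Matrix.smul_apply, Matrix.of_apply, smul_eq_mul, ht]
  have hp0 : (p : ℤ) ≠ 0 := by exact_mod_cast hp.ne'
  have h2 : (Matrix.of t : Mat).det = 1 := by
    rw [h1, Matrix.det_smul, Fintype.card_fin] at hs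
    have h3 : (p : ℤ) * p ≠ 0 := mul_ne_zero hp0 hp0
    apply mul_left_cancel₀ h3
    linear_combination hs
  exact ⟨⟨Matrix.of t, h2⟩, h1⟩

end

end Pool.Agent.A54.HS
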