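import Pool.Agent.Lib.HS.Am1

/-!
# Package `HS`, the square amplifier, part 2: the operators without backtracking
-/

set_option autoImplicit false

namespace Pool.Agent.A54.HS

open MeasureTheory Filter Topology Set
open scoped ContDiff ComplexConjugate UpperHalfPlane MatrixGroups ENNReal
open Pool.Agent.A54.Dyn (G fl base ze io mk4 dom)
open Pool.Agent.A54.Av (Mat NonSc)
open Pool.Agent.A54.Hp Pool.Agent.A54.Hp.Hk Pool.Agent.A54.Hp.A2M

noncomputable section

open Classical in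
/-- the sum over the primitive matrices of determinant `n` -/
def hq (F : G → ℝ≥0∞) (n : ℕ) (y : G) : ℝ≥0∞ := ∑' m : Mn n, if Pr m.1 then F (nm m.1 * y) else 0

/-- the Hecke operator without backtracking, on `SL(2, ℤ)`-invariant functions -/
def T2 (p : ℕ) (h : G → ℝ≥0∞) (y : G) : ℝ≥0∞ := ∑ x ∈ Np p, h (nm (rr p x) * y)

/-- its dual on functions on `G` -/
def T2s (p : ℕ) (F : G → ℝ≥0∞) (y : G) : ℝ≥0∞ := ∑ x ∈ Np p, F ((nm (rr p x))⁻¹ * y)

lemma meas_T2 {h : G → ℝ≥0∞} (hh : Measurable h) (p : ℕ) : Measurable (T2 p h) :=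
  Finset.measurable_sum _ fun _ _ => meas_mul hh _

lemma meas_T2s {F : G → ℝ≥0∞} (hF : Measurable F) (p : ℕ) : Measurable (T2s p F) :=
  Finset.measurable_sum _ fun _ _ => meas_mul hF _

lemma meas_hq {F : G → ℝ≥0∞} (hF : Measurable F) (n : ℕ) : Measurable (hq F n) := by
  classical
  have := countMn n
  refine Measurable.ennreal_tsum fun m => ?_
  by_cases h : Pr m.1
  · simp only [h, if_true]
    exact meas_mul hF _
  · simp only [h, if_false]
    exact measurable_const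

lemma int_T2 (hNu : StmtNuL) {F h : G → ℝ≥0∞} (hF : Measurable F) (hh : Measurable h) (p : ℕ) :
    ∫⁻ x, F x * T2 p h x ∂nu = ∫⁻ x, T2s p F x * h x ∂nu := by
  have := hNu.1
  unfold T2 T2s
  simp only [Finset.mul_sum, Finset.sum_mul]
  have m1 : ∀ j ∈ Np p, Measurable fun x => F x * h (nm (rr p j) * x) :=
    fun j _ => hF.mul (meas_mul hh _)
  have m2 : ∀ j ∈ Np p, Measurable fun x => F ((nm (rr p j))⁻¹ * x) * h x :=
    fun j _ => (meas_mul hF _).mul hh
  rw [lintegral_finsetSum _ m1, lintegral_finsetSum _ m2]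
  refine Finset.sum_congr rfl fun j _ => ?_
  rw [← lintegral_mul_left_eq_self (μ := nu) (fun g => F ((nm (rr p j))⁻¹ * g) * h g) (nm (rr p j))]
  simp only [inv_mul_cancel_left]

/-- `M_1` is primitive -/
lemma Pr_one (m : Mn 1) : Pr m.1 := by
  intro ℓ hℓ h
  obtain ⟨t, ht⟩ := h 0 0
  obtain ⟨t', ht'⟩ := h 1 0
  have h1 := m.2
  rw [Matrix.det_fin_two, ht, ht'] at h1
  have h2 : (ℓ : ℤ) ∣ 1 := ⟨t * m.1 1 1 - m.1 0 1 * t', by
    push_cast at h1
    linear_combination -h1⟩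
  have h3 : ℓ ∣ 1 := by exact_mod_cast h2
  have := Nat.le_of_dvd one_pos h3
  have := hℓ.one_lt
  omega

lemma hq_one (F : G → ℝ≥0∞) : hq F 1 = hs F 1 := by
  funext y
  unfold hq hs
  exact tsum_congr fun m => if_pos (Pr_one m)

/-- for `p ∤ n` primitivity at `p` is automatic -/
lemma Pr_iff_Pq {p : ℕ} (hp : p.Prime) {n : ℕ} (hn : ¬ p ∣ n) (m : Mn n) : Pr m.1 ↔ Pq p m.1 := by
  rw [Pr_iff hp]
  refine ⟨fun h => h.2, fun h => ⟨fun hP => ?_, h⟩⟩
  obtain ⟨t, ht⟩ := hP 0 0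
  obtain ⟨t', ht'⟩ := hP 1 0
  apply det_nd hn m
  rw [Matrix.det_fin_two, ht, ht']
  exact ⟨t * m.1 1 1 - m.1 0 1 * t', by ring⟩

open Classical in
/-- the function `s ↦ 1[s primitive away from p] F(s y)` -/
def fq (F : G → ℝ≥0∞) (p : ℕ) (y : G) (s : Mat) : ℝ≥0∞ := if Pq p s then F (nm s * y) else 0

open Classical in
lemma fq_PD {p : ℕ} (hp : p.Prime) (F : G → ℝ≥0∞) (y : G) (s : Mat) :
    (if PD p s then 0 else fq F p y s) = if Pr s then F (nm s * y) else 0 := by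
  unfold fq
  by_cases h1 : PD p s
  · rw [if_pos h1, if_neg fun h => ((Pr_iff hp s).1 h).1 h1]
  · rw [if_neg h1]
    by_cases h2 : Pq p s
    · rw [if_pos h2, if_pos ((Pr_iff hp s).2 ⟨h1, h2⟩)]
    · rw [if_neg h2, if_neg fun h => h2 ((Pr_iff hp s).1 h).2]

lemma T2_hq_sum (hNm : StmtNm) {p : ℕ} (hp : p.Prime) {n : ℕ} (hn : 0 < n) (F : G → ℝ≥0∞) (y : G)
    (hP : ∀ m : Mn n, Pr m.1 → Pq p m.1) :
    T2 p (hq F n) y ≤ ∑ x ∈ Np p, ∑' m : Mn n, fq F p y (m.1 * rr p x) := by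
  classical
  unfold T2 hq
  refine Finset.sum_le_sum fun x _ => ENNReal.tsum_le_tsum fun m => ?_
  unfold fq
  by_cases h : Pr m.1
  · rw [if_pos h, if_pos ((Pq_mul hp m.1 x).2 (hP m h)), hNm.1 m.1 (rr p x) (det_pos hn m)
      (rr_pos hp.pos x), mul_assoc]
  · rw [if_neg h]
    exact zero_le

/-- the operator multiplies the level by `p²` -/
lemma T2_hq (hNm : StmtNm) {p : ℕ} (hp : p.Prime) {n : ℕ} (hn : 0 < n) (hpn : ¬ p ∣ n)
    (F : G → ℝ≥0∞) (y : G) : T2 p (hq F n) y = hq F (p * (p * n)) y := by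
  classical
  have h1 := cos_sum hp hpn (fq F p y)
  simp only [fq_PD hp] at h1
  change _ = ∑' s : Mn (p * (p * n)), if Pr s.1 then F (nm s.1 * y) else 0
  rw [← h1]
  unfold T2 hq
  refine Finset.sum_congr rfl fun x _ => tsum_congr fun m => ?_
  unfold fq
  by_cases h : Pr m.1
  · rw [if_pos h, if_pos ((Pq_mul hp m.1 x).2 ((Pr_iff_Pq hp hpn m).1 h)),
      hNm.1 m.1 (rr p x) (det_pos hn m) (rr_pos hp.pos x), mul_assoc]
  · rw [if_neg h, if_neg fun h' => h ((Pr_iff_Pq hp hpn m).2 ((Pq_mul hp m.1 x).1 h'))]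

/-- the operator on the level `p² n` -/
lemma T2_hq_sq (hNm : StmtNm) {p : ℕ} (hp : p.Prime) {n : ℕ} (hn : 0 < n) (hpn : ¬ p ∣ n)
    (F : G → ℝ≥0∞) (y : G) : T2 p (hq F (p * (p * n))) y ≤ hq F (p * (p * (p * (p * n)))) y +
      3 * (p : ℝ≥0∞) * hq F (p * (p * n)) y + 4 * (p : ℝ≥0∞) ^ 2 * hq F n y := by
  classical
  refine (T2_hq_sum hNm hp (Nat.mul_pos hp.pos (Nat.mul_pos hp.pos hn)) F y
    fun m h => ((Pr_iff hp m.1).1 h).2).trans ?_
  refine (cos_sq hp hpn (fq F p y) ?_ hn).trans (le_of_eq ?_)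
  · intro t ht
    unfold fq
    by_cases h : Pq p t
    · rw [if_pos h, if_pos ((Pq_smul hp t).2 h), hNm.2.2.2.1 (p : ℤ) t (by exact_mod_cast hp.pos)]
    · rw [if_neg h, if_neg fun h' => h ((Pq_smul hp t).1 h')]
  · simp only [fq_PD hp]
    rfl

/-- the dual operator multiplies the level by `p²` -/
lemma hq_T2s (hNm : StmtNm) {p : ℕ} (hp : p.Prime) {n : ℕ} (hn : 0 < n) (hpn : ¬ p ∣ n)
    (F : G → ℝ≥0∞) (y : G) : hq (T2s p F) n y = hq F (p * (p * n)) y := by
  classical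
  have h1 := cos_adj hp hpn (fq F p y)
  simp only [fq_PD hp] at h1
  change _ = ∑' s : Mn (p * (p * n)), if Pr s.1 then F (nm s.1 * y) else 0
  rw [← h1, ← Summable.tsum_finsetSum fun j _ => ENNReal.summable]
  unfold hq T2s
  refine tsum_congr fun m => ?_
  by_cases h : Pr m.1
  · rw [if_pos h]
    refine Finset.sum_congr rfl fun x _ => ?_
    unfold fq
    rw [if_pos]
    · rw [hNm.1 (rr p x).adjugate m.1 (by rw [adj_det]; exact rr_pos hp.pos x) (det_pos hn m),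
        hNm.2.2.1 (rr p x) (rr_pos hp.pos x), mul_assoc]
    · have h2 : ((rr p x).adjugate * m.1) = (m.1.adjugate * rr p x).adjugate := by
        rw [Matrix.adjugate_mul_distrib]
        congr 1
        rw [Matrix.adjugate_fin_two, Matrix.adjugate_fin_two]
        ext i j
        fin_cases i <;> fin_cases j <;> simp
      rw [h2, Pq_adj, Pq_mul hp, Pq_adj]
      exact (Pr_iff_Pq hp hpn m).1 h
  · rw [if_neg h]
    symm
    refine Finset.sum_eq_zero fun x _ => ?_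
    unfold fq
    rw [if_neg]
    intro h'
    apply h
    have h2 : ((rr p x).adjugate * m.1) = (m.1.adjugate * rr p x).adjugate := by
      rw [Matrix.adjugate_mul_distrib]
      congr 1
      rw [Matrix.adjugate_fin_two, Matrix.adjugate_fin_two]
      ext i j
      fin_cases i <;> fin_cases j <;> simp
    rw [h2, Pq_adj, Pq_mul hp, Pq_adj] at h'
    exact (Pr_iff_Pq hp hpn m).2 h'

open Classical in
/-- the Hecke relation for the operator without backtracking -/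
lemma hecke2 (hNm : StmtNm) {l : ℕ → ℝ} {Φ : G → ℂ} (hE : HE l Φ) {p : ℕ} (hp : p.Prime) (y : G) :
    ∑ x ∈ Np p, Φ (nm (rr p x) * y) = (((p : ℝ) * l p ^ 2 - (p + 1) : ℝ) : ℂ) * Φ y := by
  have hh : ∀ z : G, ∑ j : Option (Fin p), Φ (nm (rp p j) * z) = ((√p * l p : ℝ) : ℂ) * Φ z := by
    intro z
    rw [← hE.hecke p hp z, Fintype.sum_option, Finset.sum_range]
    rfl
  have h1 : ∑ x : Option (Fin p) × Option (Fin p), Φ (nm (rr p x) * y) =
      (((p : ℝ) * l p ^ 2 : ℝ) : ℂ) * Φ y := by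
    rw [Fintype.sum_prod_type, Finset.sum_comm]
    have h2 : ∀ j' : Option (Fin p), ∑ j : Option (Fin p), Φ (nm (rr p (j, j')) * y) =
        ((√p * l p : ℝ) : ℂ) * Φ (nm (rp p j') * y) := by
      intro j'
      rw [← hh (nm (rp p j') * y)]
      refine Finset.sum_congr rfl fun j _ => ?_
      unfold rr
      rw [hNm.1 _ _ (rp_pos hp j) (rp_pos hp j'), mul_assoc]
    simp only [h2]
    rw [← Finset.mul_sum, hh y, ← mul_assoc, ← Complex.ofReal_mul]
    congr 2
    have h3 : √(p : ℝ) * √(p : ℝ) = p := Real.mul_self_sqrt (by positivity)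
    linear_combination (l p ^ 2) * h3
  have h2 : ∑ x : Option (Fin p) × Option (Fin p), (if PD p (rr p x) then Φ (nm (rr p x) * y) else 0) =
      (((p : ℝ) + 1 : ℝ) : ℂ) * Φ y := by
    have h3 : ∀ x : Option (Fin p) × Option (Fin p),
        (if PD p (rr p x) then Φ (nm (rr p x) * y) else 0) = if PD p (rr p x) then Φ y else 0 := by
      intro x
      by_cases h : PD p (rr p x)
      · rw [if_pos h, if_pos h]
        obtain ⟨γ, hγ⟩ := PD_io hp.pos (rr_det p x) h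
        rw [hγ, hNm.2.2.2.1 (p : ℤ) (γ : Mat) (by exact_mod_cast hp.pos), hNm.2.1, hE.inv]
      · rw [if_neg h, if_neg h]
    rw [Finset.sum_congr rfl fun x _ => h3 x, card_back hp, nsmul_eq_mul]
    push_cast
    ring
  have h4 : ∑ x ∈ Np p, Φ (nm (rr p x) * y) +
      ∑ x : Option (Fin p) × Option (Fin p), (if PD p (rr p x) then Φ (nm (rr p x) * y) else 0) =
      ∑ x : Option (Fin p) × Option (Fin p), Φ (nm (rr p x) * y) := by
    unfold Np
    rw [Finset.sum_filter, ← Finset.sum_add_distrib]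
    refine Finset.sum_congr rfl fun x _ => ?_
    by_cases h : PD p (rr p x)
    · rw [if_neg (not_not.2 h), if_pos h, zero_add]
    · rw [if_pos h, if_neg h, add_zero]
  rw [h1, h2] at h4
  rw [eq_sub_of_add_eq h4]
  push_cast
  ring

/-- the pointwise inequality -/
lemma hecke2_le (hNm : StmtNm) {l : ℕ → ℝ} {Φ : G → ℂ} (hE : HE l Φ) {p : ℕ} (hp : p.Prime) (y : G) :
    ENNReal.ofReal |(p : ℝ) * l p ^ 2 - (p + 1)| * ‖Φ y‖ₑ ≤ T2 p (fun z => ‖Φ z‖ₑ) y := by
  have h1 : ENNReal.ofReal |(p : ℝ) * l p ^ 2 - (p + 1)| * ‖Φ y‖ₑ =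
      ‖(((p : ℝ) * l p ^ 2 - (p + 1) : ℝ) : ℂ) * Φ y‖ₑ := by
    rw [enorm_mul]
    congr 1
    rw [← ofReal_norm, Complex.norm_real, Real.norm_eq_abs]
  rw [h1, ← hecke2 hNm hE hp y]
  exact enorm_sum_le _ _

end

end Pool.Agent.A54.HS
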