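import Pool.Agent.Lib.HS.Am2

/-!
# Package `HS`, the square amplifier, part 3: levels, blocks of primes
-/

set_option autoImplicit false

namespace Pool.Agent.A54.HS

open MeasureTheory Filter Topology Set
open scoped ContDiff ComplexConjugate UpperHalfPlane MatrixGroups ENNReal
open Pool.Agent.A54.Dyn (G fl base ze io mk4 dom)
open Pool.Agent.A54.Av (Mat NonSc)
open Pool.Agent.A54.Hp Pool.Agent.A54.Hp.Hk Pool.Agent.A54.Hp.A2M

noncomputable section

/-- `n` is a product of exactly `j` primes of `Q` -/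
def sm (Q : Finset ℕ) (j n : ℕ) : Prop :=
  n ≠ 0 ∧ (∀ ℓ : ℕ, ℓ.Prime → ℓ ∣ n → ℓ ∈ Q) ∧ ArithmeticFunction.cardFactors n = j

lemma sm_one (Q : Finset ℕ) : sm Q 0 1 := by
  refine ⟨one_ne_zero, fun ℓ hℓ h => ?_, ArithmeticFunction.cardFactors_one⟩
  exact absurd (Nat.dvd_one.1 h) hℓ.one_lt.ne'

lemma sm_zero {Q : Finset ℕ} {n : ℕ} (h : sm Q 0 n) : n = 1 := by
  have h1 := h.2.2
  rw [ArithmeticFunction.cardFactors_eq_zero_iff_eq_zero_or_one] at h1
  exact h1.resolve_left h.1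

lemma sm_mul {Q Q' : Finset ℕ} {p j n : ℕ} (hp : p.Prime) (hpQ : p ∈ Q') (hQ : Q ⊆ Q') (h : sm Q j n) :
    sm Q' (j + 1) (p * n) := by
  refine ⟨mul_ne_zero hp.ne_zero h.1, fun ℓ hℓ hd => ?_, ?_⟩
  · rcases (Nat.Prime.dvd_mul hℓ).1 hd with h1 | h1
    · rw [(Nat.prime_dvd_prime_iff_eq hℓ hp).1 h1]
      exact hpQ
    · exact hQ (h.2.1 ℓ hℓ h1)
  · rw [ArithmeticFunction.cardFactors_mul hp.ne_zero h.1, ArithmeticFunction.cardFactors_apply_prime hp,
      h.2.2, add_comm]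

lemma sm_mono {Q Q' : Finset ℕ} {j n : ℕ} (hQ : Q ⊆ Q') (h : sm Q j n) : sm Q' j n :=
  ⟨h.1, fun ℓ hℓ hd => hQ (h.2.1 ℓ hℓ hd), h.2.2⟩

lemma sm_nd {Q : Finset ℕ} {j n p : ℕ} (hp : p.Prime) (hpQ : p ∉ Q) (h : sm Q j n) : ¬ p ∣ n :=
  fun hd => hpQ (h.2.1 p hp hd)

lemma sm_nd_sq {Q : Finset ℕ} {j n p : ℕ} (hp : p.Prime) (hpQ : p ∉ Q) (h : sm Q j n) :
    ¬ p ∣ n * n := fun hd => by
  rcases (Nat.Prime.dvd_mul hp).1 hd with h1 | h1 <;> exact sm_nd hp hpQ h h1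

open Classical in
/-- the sum over the levels -/
def Hl (Q : Finset ℕ) (j : ℕ) (F : G → ℝ≥0∞) (y : G) : ℝ≥0∞ :=
  ∑' n : ℕ, if sm Q j n then hq F (n * n) y else 0

lemma meas_Hl (Q : Finset ℕ) (j : ℕ) {F : G → ℝ≥0∞} (hF : Measurable F) : Measurable (Hl Q j F) := by
  classical
  refine Measurable.ennreal_tsum fun n => ?_
  by_cases h : sm Q j n
  · simp only [h, if_true]
    exact meas_hq hF _
  · simp only [h, if_false]
    exact measurable_const

/-- the dual block operator -/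
def As (P : Finset ℕ) (F : G → ℝ≥0∞) (y : G) : ℝ≥0∞ := ∑ p ∈ P, (p : ℝ≥0∞)⁻¹ * T2s p F y

/-- the block operator -/
def Ao (P : Finset ℕ) (h : G → ℝ≥0∞) (y : G) : ℝ≥0∞ := ∑ p ∈ P, (p : ℝ≥0∞)⁻¹ * T2 p h y

lemma meas_As {F : G → ℝ≥0∞} (hF : Measurable F) (P : Finset ℕ) : Measurable (As P F) :=
  Finset.measurable_sum _ fun p _ => (meas_T2s hF p).const_mul _

lemma meas_Ao {h : G → ℝ≥0∞} (hh : Measurable h) (P : Finset ℕ) : Measurable (Ao P h) :=
  Finset.measurable_sum _ fun p _ => (meas_T2 hh p).const_mul _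

lemma int_Ao (hNu : StmtNuL) {F h : G → ℝ≥0∞} (hF : Measurable F) (hh : Measurable h) (P : Finset ℕ) :
    ∫⁻ x, F x * Ao P h x ∂nu = ∫⁻ x, As P F x * h x ∂nu := by
  have e1 : ∀ x, F x * Ao P h x = ∑ p ∈ P, (p : ℝ≥0∞)⁻¹ * (F x * T2 p h x) := by
    intro x
    unfold Ao
    rw [Finset.mul_sum]
    exact Finset.sum_congr rfl fun p _ => by ring
  have e2 : ∀ x, As P F x * h x = ∑ p ∈ P, (p : ℝ≥0∞)⁻¹ * (T2s p F x * h x) := by
    intro x
    unfold As
    rw [Finset.sum_mul]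
    exact Finset.sum_congr rfl fun p _ => by ring
  have m1 : ∀ p : ℕ, Measurable fun x => F x * T2 p h x := fun p => hF.mul (meas_T2 hh p)
  have m2 : ∀ p : ℕ, Measurable fun x => T2s p F x * h x := fun p => (meas_T2s hF p).mul hh
  simp only [e1, e2]
  rw [lintegral_finsetSum _ fun p _ => (m1 p).const_mul _,
    lintegral_finsetSum _ fun p _ => (m2 p).const_mul _]
  refine Finset.sum_congr rfl fun p _ => ?_
  rw [lintegral_const_mul _ (m1 p), lintegral_const_mul _ (m2 p), int_T2 hNu hF hh p]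

/-- the operators of a list of blocks -/
def AsL : List (Finset ℕ) → (G → ℝ≥0∞) → (G → ℝ≥0∞)
  | [], F => F
  | P :: L, F => AsL L (As P F)

lemma meas_AsL : ∀ (L : List (Finset ℕ)) {F : G → ℝ≥0∞}, Measurable F → Measurable (AsL L F)
  | [], _, hF => hF
  | P :: L, _, hF => meas_AsL L (meas_As hF P)

/-- the eigenvalue of a block -/
def eP (l : ℕ → ℝ) (P : Finset ℕ) : ℝ≥0∞ :=
  ∑ p ∈ P, (p : ℝ≥0∞)⁻¹ * ENNReal.ofReal |(p : ℝ) * l p ^ 2 - (p + 1)|

lemma Ao_le (hNm : StmtNm) {l : ℕ → ℝ} {Φ : G → ℂ} (hE : HE l Φ) {P : Finset ℕ}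
    (hP : ∀ p ∈ P, p.Prime) (y : G) : eP l P * ‖Φ y‖ₑ ≤ Ao P (fun z => ‖Φ z‖ₑ) y := by
  unfold eP Ao
  rw [Finset.sum_mul]
  refine Finset.sum_le_sum fun p hp => ?_
  rw [mul_assoc]
  exact mul_le_mul_right (hecke2_le hNm hE (hP p hp) y) _

/-- the first induction -/
lemma r1 (hNu : StmtNuL) (hUnf : StmtUnf) (hNm : StmtNm) {l : ℕ → ℝ} {Φ : G → ℂ} (hE : HE l Φ) :
    ∀ (L : List (Finset ℕ)), (∀ P ∈ L, ∀ p ∈ P, p.Prime) → ∀ F : G → ℝ≥0∞, Measurable F →
      2 * ((L.map (eP l)).prod * ∫⁻ x, F x * ‖Φ x‖ₑ ∂nu) ≤ ∫⁻ y in FF, hs (AsL L F) 1 y * ‖Φ y‖ₑ ∂nu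
  | [], _, F, hF => by
    rw [List.map_nil, List.prod_nil, one_mul]
    change _ ≤ ∫⁻ y in FF, hs F 1 y * ‖Φ y‖ₑ ∂nu
    rw [unf hUnf hNm hF hE.cont.enorm.measurable fun γ y => by rw [hE.inv]]
  | P :: L, hL, F, hF => by
    have hφ : Measurable fun y => ‖Φ y‖ₑ := hE.cont.enorm.measurable
    have h1 := r1 hNu hUnf hNm hE L (fun P' hP' => hL P' (List.mem_cons_of_mem _ hP')) (As P F)
      (meas_As hF P)
    refine le_trans ?_ h1
    rw [List.map_cons, List.prod_cons]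
    refine mul_le_mul_right ?_ 2
    rw [mul_comm (eP l P), mul_assoc]
    refine mul_le_mul_right ?_ _
    have m0 : Measurable fun x => F x * ‖Φ x‖ₑ := hF.mul hφ
    rw [← int_Ao hNu hF hφ, ← lintegral_const_mul _ m0]
    refine lintegral_mono fun x => ?_
    calc eP l P * (F x * ‖Φ x‖ₑ) = F x * (eP l P * ‖Φ x‖ₑ) := by ring
      _ ≤ _ := mul_le_mul_right (Ao_le hNm hE (hL P List.mem_cons_self) x) _

/-! ### Counting: the maps `(p, q, n) ↦ p q n` -/

open Classical in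
lemma two_to_one {Q P : Finset ℕ} (hP : ∀ p ∈ P, p.Prime) (hd : Disjoint P Q) (j : ℕ)
    (g : ℕ → ℝ≥0∞) :
    ∑ p ∈ P, ∑ q ∈ P, (∑' n : ℕ, if sm Q j n then g (p * (q * n)) else 0) ≤
      2 * ∑' n : ℕ, if sm (Q ∪ P) (j + 2) n then g n else 0 := by
  -- the ordered pairs
  have key : ∑ p ∈ P, ∑ q ∈ P, (if p ≤ q then (∑' n : ℕ, if sm Q j n then g (p * (q * n)) else 0) else 0) ≤
      ∑' n : ℕ, if sm (Q ∪ P) (j + 2) n then g n else 0 := by
    set T : Set (ℕ × ℕ × ℕ) := {t | t.1 ∈ P ∧ t.2.1 ∈ P ∧ t.1 ≤ t.2.1 ∧ sm Q j t.2.2} with hT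
    have hinj : Function.Injective (fun t : T => t.1.1 * (t.1.2.1 * t.1.2.2)) := by
      rintro ⟨⟨p, q, n⟩, hp, hq, hpq, hn⟩ ⟨⟨p', q', n'⟩, hp', hq', hpq', hn'⟩ h
      dsimp only at hp hq hpq hn hp' hq' hpq' hn' h
      have hpP := hP p hp
      have hqP := hP q hq
      have hpP' := hP p' hp'
      have hqP' := hP q' hq'
      have hnQ : ∀ r ∈ P, ∀ m : ℕ, sm Q j m → ¬ r ∣ m := fun r hr m hm =>
        sm_nd (hP r hr) (Finset.disjoint_left.1 hd hr) hm
      have hdv : ∀ r ∈ P, ∀ a b m : ℕ, a.Prime → b.Prime → sm Q j m → r ∣ a * (b * m) →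
          r = a ∨ r = b := by
        intro r hr a b m ha hb hm hdv
        rcases (Nat.Prime.dvd_mul (hP r hr)).1 hdv with h1 | h1
        · exact Or.inl ((Nat.prime_dvd_prime_iff_eq (hP r hr) ha).1 h1)
        · rcases (Nat.Prime.dvd_mul (hP r hr)).1 h1 with h2 | h2
          · exact Or.inr ((Nat.prime_dvd_prime_iff_eq (hP r hr) hb).1 h2)
          · exact absurd h2 (hnQ r hr m hm)
      have a1 := hdv p hp p' q' n' hpP' hqP' hn' (h ▸ Dvd.intro _ rfl)
      have a2 := hdv q hq p' q' n' hpP' hqP' hn' (h ▸ ⟨p * n, by ring⟩)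
      have a3 := hdv p' hp' p q n hpP hqP hn (h.symm ▸ Dvd.intro _ rfl)
      have a4 := hdv q' hq' p q n hpP hqP hn (h.symm ▸ ⟨p' * n', by ring⟩)
      have e1 : p = p' := by omega
      have e2 : q = q' := by omega
      subst e1 e2
      have e3 : n = n' := by
        have h1 := Nat.eq_of_mul_eq_mul_left hpP.pos h
        exact Nat.eq_of_mul_eq_mul_left hqP.pos h1
      subst e3
      rfl
    calc ∑ p ∈ P, ∑ q ∈ P, (if p ≤ q then (∑' n : ℕ, if sm Q j n then g (p * (q * n)) else 0) else 0)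
        ≤ ∑' p : ℕ, ∑' q : ℕ, ∑' n : ℕ,
            (T.indicator (fun t : ℕ × ℕ × ℕ => g (t.1 * (t.2.1 * t.2.2))) (p, q, n)) := by
          have s1 : ∀ p ∈ P, ∑ q ∈ P, (if p ≤ q then (∑' n : ℕ, if sm Q j n then
              g (p * (q * n)) else 0) else 0) ≤ ∑' q : ℕ, ∑' n : ℕ,
              (T.indicator (fun t : ℕ × ℕ × ℕ => g (t.1 * (t.2.1 * t.2.2))) (p, q, n)) := by
            intro p hp
            refine le_trans (Finset.sum_le_sum fun q hq => ?_) (ENNReal.sum_le_tsum P)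
            by_cases hpq : p ≤ q
            · rw [if_pos hpq]
              refine ENNReal.tsum_le_tsum fun n => ?_
              by_cases hn : sm Q j n
              · rw [if_pos hn, Set.indicator_of_mem (show (p, q, n) ∈ T from ⟨hp, hq, hpq, hn⟩)]
              · rw [if_neg hn]
                exact zero_le
            · rw [if_neg hpq]
              exact zero_le
          exact (Finset.sum_le_sum s1).trans (ENNReal.sum_le_tsum P)
      _ = ∑' t : ℕ × ℕ × ℕ, T.indicator (fun t : ℕ × ℕ × ℕ => g (t.1 * (t.2.1 * t.2.2))) t := by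
          rw [ENNReal.tsum_prod']
          refine tsum_congr fun p => ?_
          rw [ENNReal.tsum_prod']
      _ = ∑' t : T, g (t.1.1 * (t.1.2.1 * t.1.2.2)) := by
          rw [← tsum_subtype T]
      _ ≤ ∑' t : T, (fun m : ℕ => if sm (Q ∪ P) (j + 2) m then g m else 0)
            (t.1.1 * (t.1.2.1 * t.1.2.2)) := by
          refine ENNReal.tsum_le_tsum fun t => ?_
          obtain ⟨⟨p, q, n⟩, hp, hq, hpq, hn⟩ := t
          dsimp only at hp hq hn ⊢
          rw [if_pos]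
          have h1 : sm (Q ∪ P) (j + 1) (q * n) :=
            sm_mul (hP q hq) (Finset.mem_union_right _ hq) Finset.subset_union_left hn
          exact sm_mul (hP p hp) (Finset.mem_union_right _ hp) (Finset.Subset.refl _) h1
      _ ≤ _ := ENNReal.tsum_comp_le_tsum_of_injective hinj _
  have key2 : ∑ p ∈ P, ∑ q ∈ P, (if q ≤ p then (∑' n : ℕ, if sm Q j n then g (q * (p * n)) else 0) else 0) ≤
      ∑' n : ℕ, if sm (Q ∪ P) (j + 2) n then g n else 0 := by
    rw [Finset.sum_comm]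
    exact key
  have h2 : ∑ p ∈ P, ∑ q ∈ P, (∑' n : ℕ, if sm Q j n then g (p * (q * n)) else 0) ≤
      ∑ p ∈ P, ∑ q ∈ P, (if p ≤ q then (∑' n : ℕ, if sm Q j n then g (p * (q * n)) else 0) else 0) +
      ∑ p ∈ P, ∑ q ∈ P, (if q ≤ p then (∑' n : ℕ, if sm Q j n then g (q * (p * n)) else 0) else 0) := by
    rw [← Finset.sum_add_distrib]
    refine Finset.sum_le_sum fun p _ => ?_
    rw [← Finset.sum_add_distrib]
    refine Finset.sum_le_sum fun q _ => ?_
    rcases le_total p q with h | h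
    · rw [if_pos h]
      exact le_self_add
    · rw [if_pos h]
      refine le_trans (le_of_eq ?_) le_add_self
      refine tsum_congr fun n => ?_
      rw [Nat.mul_left_comm]
  calc _ ≤ _ := h2
    _ ≤ _ := add_le_add key key2
    _ = _ := (two_mul _).symm

open Classical in
lemma one_to_one {Q P : Finset ℕ} (hP : ∀ p ∈ P, p.Prime) (hd : Disjoint P Q) (j : ℕ)
    (g : ℕ → ℝ≥0∞) :
    ∑ p ∈ P, (∑' n : ℕ, if sm Q j n then g (p * n) else 0) ≤
      ∑' n : ℕ, if sm (Q ∪ P) (j + 1) n then g n else 0 := by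
  set T : Set (ℕ × ℕ) := {t | t.1 ∈ P ∧ sm Q j t.2} with hT
  have hinj : Function.Injective (fun t : T => t.1.1 * t.1.2) := by
    rintro ⟨⟨p, n⟩, hp, hn⟩ ⟨⟨p', n'⟩, hp', hn'⟩ h
    dsimp only at hp hn hp' hn' h
    have hpP := hP p hp
    have hpP' := hP p' hp'
    have e1 : p = p' := by
      have h1 : p ∣ p' * n' := h ▸ Dvd.intro _ rfl
      rcases (Nat.Prime.dvd_mul hpP).1 h1 with h2 | h2
      · exact (Nat.prime_dvd_prime_iff_eq hpP hpP').1 h2
      · exact absurd h2 (sm_nd hpP (Finset.disjoint_left.1 hd hp) hn')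
    subst e1
    have e3 : n = n' := Nat.eq_of_mul_eq_mul_left hpP.pos h
    subst e3
    rfl
  calc ∑ p ∈ P, (∑' n : ℕ, if sm Q j n then g (p * n) else 0)
      ≤ ∑' p : ℕ, ∑' n : ℕ, (T.indicator (fun t : ℕ × ℕ => g (t.1 * t.2)) (p, n)) := by
        refine le_trans (Finset.sum_le_sum fun p hp => ?_) (ENNReal.sum_le_tsum P)
        refine ENNReal.tsum_le_tsum fun n => ?_
        by_cases hn : sm Q j n
        · rw [if_pos hn, Set.indicator_of_mem (show (p, n) ∈ T from ⟨hp, hn⟩)]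
        · rw [if_neg hn]
          exact zero_le
    _ = ∑' t : ℕ × ℕ, T.indicator (fun t : ℕ × ℕ => g (t.1 * t.2)) t := by
        rw [ENNReal.tsum_prod']
    _ = ∑' t : T, g (t.1.1 * t.1.2) := by
        rw [← tsum_subtype T]
    _ ≤ ∑' t : T, (fun m : ℕ => if sm (Q ∪ P) (j + 1) m then g m else 0) (t.1.1 * t.1.2) := by
        refine ENNReal.tsum_le_tsum fun t => ?_
        obtain ⟨⟨p, n⟩, hp, hn⟩ := t
        dsimp only at hp hn ⊢
        rw [if_pos]
        exact sm_mul (hP p hp) (Finset.mem_union_right _ hp) Finset.subset_union_left hn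
    _ ≤ _ := ENNReal.tsum_comp_le_tsum_of_injective hinj _

end

end Pool.Agent.A54.HS
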