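import Pool.Agent.Lib.HS.Am3

/-!
# Package `HS`, the square amplifier, part 4: the square of the amplifier
-/

set_option autoImplicit false

namespace Pool.Agent.A54.HS

open MeasureTheory Filter Topology Set
open scoped ContDiff ComplexConjugate UpperHalfPlane MatrixGroups ENNReal
open Pool.Agent.A54.Dyn (G fl base ze io mk4 dom)
open Pool.Agent.A54.Av (Mat NonSc)
open Pool.Agent.A54.Hp Pool.Agent.A54.Hp.Hk Pool.Agent.A54.Hp.A2M

noncomputable section

/-- linearity -/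
lemma hq_As (P : Finset ℕ) (F : G → ℝ≥0∞) (n : ℕ) (y : G) :
    hq (As P F) n y = ∑ q ∈ P, (q : ℝ≥0∞)⁻¹ * hq (T2s q F) n y := by
  classical
  unfold hq As
  simp only [← ENNReal.tsum_mul_left]
  rw [← Summable.tsum_finsetSum fun j _ => ENNReal.summable]
  refine tsum_congr fun m => ?_
  by_cases h : Pr m.1
  · simp only [h, if_true]
  · simp only [h, if_false, mul_zero, Finset.sum_const_zero]

open Classical in
lemma Hl_As (hNm : StmtNm) {Q P : Finset ℕ} (hP : ∀ p ∈ P, p.Prime) (hd : Disjoint P Q) (j : ℕ)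
    (F : G → ℝ≥0∞) (y : G) : Hl Q j (As P F) y =
      ∑ q ∈ P, (q : ℝ≥0∞)⁻¹ * ∑' n : ℕ, if sm Q j n then hq F (q * (q * (n * n))) y else 0 := by
  unfold Hl
  simp only [← ENNReal.tsum_mul_left]
  rw [← Summable.tsum_finsetSum fun j _ => ENNReal.summable]
  refine tsum_congr fun n => ?_
  by_cases h : sm Q j n
  · simp only [h, if_true]
    rw [hq_As]
    refine Finset.sum_congr rfl fun q hq' => ?_
    rw [hq_T2s hNm (hP q hq') (Nat.mul_pos (Nat.pos_of_ne_zero h.1) (Nat.pos_of_ne_zero h.1))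
      (sm_nd_sq (hP q hq') (Finset.disjoint_left.1 hd hq') h)]
  · simp only [h, if_false, mul_zero, Finset.sum_const_zero]

open Classical in
lemma T2_Hl_As (hNm : StmtNm) {Q P : Finset ℕ} (hP : ∀ p ∈ P, p.Prime) (hd : Disjoint P Q) (j : ℕ)
    (F : G → ℝ≥0∞) (p : ℕ) (y : G) : T2 p (Hl Q j (As P F)) y =
      ∑ q ∈ P, (q : ℝ≥0∞)⁻¹ * ∑' n : ℕ, if sm Q j n then T2 p (hq F (q * (q * (n * n)))) y else 0 := by
  unfold T2
  simp only [Hl_As hNm hP hd j F]
  rw [Finset.sum_comm]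
  refine Finset.sum_congr rfl fun q _ => ?_
  rw [← Finset.mul_sum]
  congr 1
  rw [← Summable.tsum_finsetSum fun j _ => ENNReal.summable]
  refine tsum_congr fun n => ?_
  by_cases h : sm Q j n
  · simp only [h, if_true]
  · simp only [h, if_false, Finset.sum_const_zero]

/-- a single pair -/
lemma T2_pair (hNm : StmtNm) {Q P : Finset ℕ} (hP : ∀ p ∈ P, p.Prime) (hd : Disjoint P Q) {j n : ℕ}
    (hn : sm Q j n) (F : G → ℝ≥0∞) {p q : ℕ} (hp : p ∈ P) (hq' : q ∈ P) (y : G) :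
    T2 p (hq F (q * (q * (n * n)))) y ≤ hq F (p * (q * n) * (p * (q * n))) y +
      if p = q then 3 * (p : ℝ≥0∞) * hq F (p * n * (p * n)) y + 4 * (p : ℝ≥0∞) ^ 2 * hq F (n * n) y
      else 0 := by
  have hn0 : 0 < n * n := Nat.mul_pos (Nat.pos_of_ne_zero hn.1) (Nat.pos_of_ne_zero hn.1)
  have hpn := sm_nd_sq (hP p hp) (Finset.disjoint_left.1 hd hp) hn
  have hqq := (hP q hq').pos
  by_cases hpq : p = q
  · subst hpq
    rw [if_pos rfl]
    have h1 := T2_hq_sq hNm (hP p hp) hn0 hpn F y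
    have e1 : p * (p * (p * (p * (n * n)))) = p * (p * n) * (p * (p * n)) := by ring
    have e2 : p * (p * (n * n)) = p * n * (p * n) := by ring
    rw [e1] at h1
    rw [e2] at h1 ⊢
    rw [← add_assoc]
    exact h1
  · rw [if_neg hpq, add_zero]
    have h1 : ¬ p ∣ q * (q * (n * n)) := by
      intro h
      have hne : ¬ p ∣ q := fun h' => hpq ((Nat.prime_dvd_prime_iff_eq (hP p hp) (hP q hq')).1 h')
      rcases (Nat.Prime.dvd_mul (hP p hp)).1 h with h | h
      · exact hne h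
      · rcases (Nat.Prime.dvd_mul (hP p hp)).1 h with h | h
        · exact hne h
        · exact hpn h
    rw [T2_hq hNm (hP p hp) (Nat.mul_pos hqq (Nat.mul_pos hqq hn0)) h1]
    have e1 : p * (p * (q * (q * (n * n)))) = p * (q * n) * (p * (q * n)) := by ring
    rw [e1]

/-- the inverse of `M` -/
def mi (M : ℝ) : ℝ≥0∞ := (ENNReal.ofReal M)⁻¹

lemma inv_le {M : ℝ} {p : ℕ} (h : M < p) : (p : ℝ≥0∞)⁻¹ ≤ mi M := by
  unfold mi
  rw [ENNReal.inv_le_inv]
  rw [← ENNReal.ofReal_natCast]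
  exact ENNReal.ofReal_le_ofReal h.le

lemma card_le {M : ℝ} (hM : 1 ≤ M) {P : Finset ℕ} (h : ∀ p ∈ P, M < (p : ℝ) ∧ (p : ℝ) ≤ 2 * M) :
    (P.card : ℝ≥0∞) ≤ 2 * ENNReal.ofReal M := by
  have h1 : P ⊆ Finset.Ioc 0 ⌊2 * M⌋₊ := by
    intro p hp
    rw [Finset.mem_Ioc]
    refine ⟨?_, Nat.le_floor (h p hp).2⟩
    have h2 : (0 : ℝ) < p := lt_trans (by linarith) (h p hp).1
    exact_mod_cast h2
  have h2 := Finset.card_le_card h1
  rw [Nat.card_Ioc, Nat.sub_zero] at h2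
  have h3 : (P.card : ℝ) ≤ 2 * M := by
    have h4 : ((⌊2 * M⌋₊ : ℕ) : ℝ) ≤ 2 * M := Nat.floor_le (by linarith)
    have h5 : (P.card : ℝ) ≤ ((⌊2 * M⌋₊ : ℕ) : ℝ) := by exact_mod_cast h2
    linarith
  calc (P.card : ℝ≥0∞) = ENNReal.ofReal (P.card : ℝ) := (ENNReal.ofReal_natCast _).symm
    _ ≤ ENNReal.ofReal (2 * M) := ENNReal.ofReal_le_ofReal h3
    _ = _ := by rw [ENNReal.ofReal_mul (by norm_num)]; norm_num

/-- the square of a block operator -/
lemma block (hNm : StmtNm) {M : ℝ} (hM : 1 ≤ M) {Q P : Finset ℕ} (hP : ∀ p ∈ P, p.Prime)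
    (hPM : ∀ p ∈ P, M < (p : ℝ) ∧ (p : ℝ) ≤ 2 * M) (hd : Disjoint P Q) (j : ℕ)
    (F : G → ℝ≥0∞) (y : G) : Ao P (Hl Q j (As P F)) y ≤
      2 * mi M ^ 2 * Hl (Q ∪ P) (j + 2) F y + 3 * mi M * Hl (Q ∪ P) (j + 1) F y +
        8 * ENNReal.ofReal M * Hl (Q ∪ P) j F y := by
  classical
  have hpos : ∀ p ∈ P, (p : ℝ≥0∞) ≠ 0 := fun p hp => by
    exact_mod_cast (hP p hp).ne_zero
  have hfin : ∀ p : ℕ, (p : ℝ≥0∞) ≠ ⊤ := fun p => ENNReal.natCast_ne_top p
  set g : ℕ → ℝ≥0∞ := fun m => hq F (m * m) y with hg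
  -- the bound for a pair
  have s1 : ∀ p ∈ P, ∀ q ∈ P, (p : ℝ≥0∞)⁻¹ * ((q : ℝ≥0∞)⁻¹ *
      ∑' n : ℕ, if sm Q j n then T2 p (hq F (q * (q * (n * n)))) y else 0) ≤
      mi M ^ 2 * (∑' n : ℕ, if sm Q j n then g (p * (q * n)) else 0) +
        if p = q then 3 * mi M * (∑' n : ℕ, if sm Q j n then g (p * n) else 0) +
          4 * (∑' n : ℕ, if sm Q j n then g n else 0) else 0 := by
    intro p hp q hq'
    have t1 : (∑' n : ℕ, if sm Q j n then T2 p (hq F (q * (q * (n * n)))) y else 0) ≤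
        (∑' n : ℕ, if sm Q j n then g (p * (q * n)) else 0) +
        if p = q then 3 * (p : ℝ≥0∞) * (∑' n : ℕ, if sm Q j n then g (p * n) else 0) +
          4 * (p : ℝ≥0∞) ^ 2 * (∑' n : ℕ, if sm Q j n then g n else 0) else 0 := by
      by_cases hpq : p = q
      · rw [if_pos hpq, ← ENNReal.tsum_mul_left, ← ENNReal.tsum_mul_left, ← ENNReal.tsum_add,
          ← ENNReal.tsum_add]
        refine ENNReal.tsum_le_tsum fun n => ?_
        by_cases hn : sm Q j n
        · simp only [hn, if_true]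
          have h1 := T2_pair hNm hP hd hn F hp hq' y
          rw [if_pos hpq] at h1
          exact h1
        · simp only [hn, if_false]
          exact zero_le
      · rw [if_neg hpq, add_zero]
        refine ENNReal.tsum_le_tsum fun n => ?_
        by_cases hn : sm Q j n
        · simp only [hn, if_true]
          have h1 := T2_pair hNm hP hd hn F hp hq' y
          rw [if_neg hpq, add_zero] at h1
          exact h1
        · simp only [hn, if_false]
          exact zero_le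
    refine (mul_le_mul_right (mul_le_mul_right t1 _) _).trans ?_
    rw [mul_add, mul_add]
    refine add_le_add ?_ ?_
    · rw [← mul_assoc, _root_.sq]
      exact mul_le_mul_left (mul_le_mul' (inv_le (hPM p hp).1) (inv_le (hPM q hq').1)) _
    · by_cases hpq : p = q
      · subst hpq
        rw [if_pos rfl, if_pos rfl, mul_add, mul_add]
        refine add_le_add ?_ ?_
        · set X := ∑' n : ℕ, if sm Q j n then g (p * n) else 0
          calc (p : ℝ≥0∞)⁻¹ * ((p : ℝ≥0∞)⁻¹ * (3 * (p : ℝ≥0∞) * X))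
              = ((p : ℝ≥0∞) * (p : ℝ≥0∞)⁻¹) * (3 * (p : ℝ≥0∞)⁻¹ * X) := by ring
            _ = 3 * (p : ℝ≥0∞)⁻¹ * X := by rw [ENNReal.mul_inv_cancel (hpos p hp) (hfin p), one_mul]
            _ ≤ 3 * mi M * X := mul_le_mul_left (mul_le_mul_right (inv_le (hPM p hp).1) _) _
        · set X := ∑' n : ℕ, if sm Q j n then g n else 0
          calc (p : ℝ≥0∞)⁻¹ * ((p : ℝ≥0∞)⁻¹ * (4 * (p : ℝ≥0∞) ^ 2 * X))
              = ((p : ℝ≥0∞) * (p : ℝ≥0∞)⁻¹) * (((p : ℝ≥0∞) * (p : ℝ≥0∞)⁻¹) * (4 * X)) := by ring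
            _ = 4 * X := by rw [ENNReal.mul_inv_cancel (hpos p hp) (hfin p), one_mul, one_mul]
            _ ≤ 4 * X := le_rfl
      · rw [if_neg hpq, if_neg hpq, mul_zero, mul_zero]
  -- sum
  have s2 : Ao P (Hl Q j (As P F)) y = ∑ p ∈ P, ∑ q ∈ P, (p : ℝ≥0∞)⁻¹ * ((q : ℝ≥0∞)⁻¹ *
      ∑' n : ℕ, if sm Q j n then T2 p (hq F (q * (q * (n * n)))) y else 0) := by
    unfold Ao
    refine Finset.sum_congr rfl fun p _ => ?_
    rw [T2_Hl_As hNm hP hd j F p y, Finset.mul_sum]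
  rw [s2]
  refine (Finset.sum_le_sum fun p hp => Finset.sum_le_sum fun q hq' => s1 p hp q hq').trans ?_
  simp only [Finset.sum_add_distrib, ← Finset.mul_sum]
  have s3 := two_to_one hP hd j g
  have s4 := one_to_one hP hd j g
  have s5 : ∑ p ∈ P, ∑ q ∈ P, (if p = q then 3 * mi M * (∑' n : ℕ, if sm Q j n then g (p * n) else 0) +
          4 * (∑' n : ℕ, if sm Q j n then g n else 0) else 0) =
      3 * mi M * ∑ p ∈ P, (∑' n : ℕ, if sm Q j n then g (p * n) else 0) +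
        4 * ((P.card : ℝ≥0∞) * ∑' n : ℕ, if sm Q j n then g n else 0) := by
    have : ∀ p ∈ P, ∑ q ∈ P, (if p = q then 3 * mi M * (∑' n : ℕ, if sm Q j n then g (p * n) else 0) +
          4 * (∑' n : ℕ, if sm Q j n then g n else 0) else 0) =
          3 * mi M * (∑' n : ℕ, if sm Q j n then g (p * n) else 0) +
          4 * (∑' n : ℕ, if sm Q j n then g n else 0) := by
      intro p hp
      rw [Finset.sum_ite_eq P p, if_pos hp]
    rw [Finset.sum_congr rfl this, Finset.sum_add_distrib, ← Finset.mul_sum, Finset.sum_const,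
      nsmul_eq_mul]
    ring
  have s6 : (∑' n : ℕ, if sm Q j n then g n else 0) ≤ Hl (Q ∪ P) j F y := by
    unfold Hl
    refine ENNReal.tsum_le_tsum fun n => ?_
    by_cases hn : sm Q j n
    · rw [if_pos hn, if_pos (sm_mono Finset.subset_union_left hn)]
    · rw [if_neg hn]
      exact zero_le
  rw [s5]
  calc _ ≤ mi M ^ 2 * (2 * Hl (Q ∪ P) (j + 2) F y) + (3 * mi M * Hl (Q ∪ P) (j + 1) F y +
        4 * ((2 * ENNReal.ofReal M) * Hl (Q ∪ P) j F y)) :=
      add_le_add (mul_le_mul_right s3 _) (add_le_add (mul_le_mul_right s4 _)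
        (mul_le_mul_right (mul_le_mul' (card_le hM hPM) s6) _))
    _ = _ := by ring

end

end Pool.Agent.A54.HS
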