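import Pool.Agent.Lib.HS.Am4
import Pool.Agent.Lib.MP_a54f13_nt.Hp.AIk

/-!
# Package `HS`, the square amplifier, part 5: the amplifier inequality

`AI2`: for a Hecke eigenfunction and a set `Q` of at least `M^(1-κ)` primes of `(M, 2M]` with `|l(p)| ≤ 1/2`,
`(M^k)^(2-2κ) ms(U)² ≤ C_k ∑_{j ≤ 2k} M^k / (M^j M^⌈j/2⌉) ∑_s D(s)`, the sum over the primitive integral matrices `s`
with `det s = n²`, `n` a product of exactly `j` primes of `Q`.
-/

set_option autoImplicit false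

namespace Pool.Agent.A54.HS

open MeasureTheory Filter Topology Set
open scoped ContDiff ComplexConjugate UpperHalfPlane MatrixGroups ENNReal
open Pool.Agent.A54.Dyn (G fl base ze io mk4 dom)
open Pool.Agent.A54.Av (Mat NonSc)
open Pool.Agent.A54.Hp Pool.Agent.A54.Hp.Hk Pool.Agent.A54.Hp.A2M

noncomputable section

/-- the weights -/
def vv (M : ℝ) (k j : ℕ) : ℝ≥0∞ := ENNReal.ofReal M ^ k * (mi M ^ j * mi M ^ ((j + 1) / 2))

lemma mi_mul {M : ℝ} (hM : 1 ≤ M) : ENNReal.ofReal M * mi M = 1 := by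
  unfold mi
  refine ENNReal.mul_inv_cancel ?_ ENNReal.ofReal_ne_top
  rw [Ne, ENNReal.ofReal_eq_zero, not_le]
  linarith

lemma mi_le {M : ℝ} (hM : 1 ≤ M) : mi M ≤ 1 := by
  unfold mi
  rw [ENNReal.inv_le_one]
  rw [← ENNReal.ofReal_one]
  exact ENNReal.ofReal_le_ofReal hM

lemma vv_two {M : ℝ} (hM : 1 ≤ M) (k j : ℕ) : vv M k j * mi M ^ 2 = vv M (k + 1) (j + 2) := by
  unfold vv
  have h1 : (j + 2 + 1) / 2 = (j + 1) / 2 + 1 := by omega
  rw [h1]
  calc ENNReal.ofReal M ^ k * (mi M ^ j * mi M ^ ((j + 1) / 2)) * mi M ^ 2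
      = ENNReal.ofReal M ^ k * (mi M ^ (j + 2) * mi M ^ ((j + 1) / 2)) * 1 := by ring
    _ = ENNReal.ofReal M ^ k * (mi M ^ (j + 2) * mi M ^ ((j + 1) / 2)) * (ENNReal.ofReal M * mi M) := by
        rw [mi_mul hM]
    _ = _ := by ring

lemma vv_one {M : ℝ} (hM : 1 ≤ M) (k j : ℕ) : vv M k j * mi M ≤ vv M (k + 1) (j + 1) := by
  unfold vv
  have h1 : mi M ^ ((j + 1) / 2 + 1) ≤ mi M ^ ((j + 1 + 1) / 2) :=
    pow_le_pow_of_le_one zero_le (mi_le hM) (by omega)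
  calc ENNReal.ofReal M ^ k * (mi M ^ j * mi M ^ ((j + 1) / 2)) * mi M
      = ENNReal.ofReal M ^ k * (mi M ^ j * mi M ^ ((j + 1) / 2 + 1)) * 1 := by ring
    _ = ENNReal.ofReal M ^ k * (mi M ^ j * mi M ^ ((j + 1) / 2 + 1)) * (ENNReal.ofReal M * mi M) := by
        rw [mi_mul hM]
    _ = ENNReal.ofReal M ^ (k + 1) * (mi M ^ (j + 1) * mi M ^ ((j + 1) / 2 + 1)) := by ring
    _ ≤ _ := mul_le_mul_right (mul_le_mul_right h1 _) _

lemma vv_zero {M : ℝ} (k j : ℕ) : vv M k j * ENNReal.ofReal M = vv M (k + 1) j := by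
  unfold vv
  ring

/-- the union of the blocks -/
def UL : List (Finset ℕ) → Finset ℕ
  | [] => ∅
  | P :: L => UL L ∪ P

/-- the blocks are disjoint -/
def DL : List (Finset ℕ) → Prop
  | [] => True
  | P :: L => Disjoint P (UL L) ∧ DL L

lemma shift (a : ℕ → ℝ≥0∞) (i n N : ℕ) (h : i + n ≤ N) :
    ∑ j ∈ Finset.range n, a (j + i) ≤ ∑ j ∈ Finset.range N, a j := by
  calc ∑ j ∈ Finset.range n, a (j + i) = ∑ j ∈ Finset.range n, a (i + j) :=
        Finset.sum_congr rfl fun j _ => by rw [add_comm]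
    _ ≤ (∑ j ∈ Finset.range i, a j) + ∑ j ∈ Finset.range n, a (i + j) := le_add_self
    _ = ∑ j ∈ Finset.range (i + n), a j := (Finset.sum_range_add a i n).symm
    _ ≤ _ := Finset.sum_le_sum_of_subset (Finset.range_mono h)

/-- the second induction -/
lemma r2 (hNu : StmtNuL) (hUnf : StmtUnf) (hNm : StmtNm) {M : ℝ} (hM : 1 ≤ M) :
    ∀ (L : List (Finset ℕ)), (∀ P ∈ L, ∀ p ∈ P, p.Prime ∧ M < (p : ℝ) ∧ (p : ℝ) ≤ 2 * M) → DL L →
    ∀ F1 F2 : G → ℝ≥0∞, Measurable F1 → Measurable F2 →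
    ∫⁻ y in FF, hs (AsL L F1) 1 y * hs (AsL L F2) 1 y ∂nu ≤
      2 * (13 ^ L.length * ∑ j ∈ Finset.range (2 * L.length + 1), vv M L.length j *
        ∫⁻ x, F1 x * Hl (UL L) j F2 x ∂nu)
  | [], _, _, F1, F2, h1, h2 => by
    change ∫⁻ y in FF, hs F1 1 y * hs F2 1 y ∂nu ≤ _
    rw [unf hUnf hNm h1 (meas_hs h2 1) fun γ y => hs_inv hNm F2 one_pos γ y]
    refine mul_le_mul_right ?_ 2
    have e1 : vv M ([] : List (Finset ℕ)).length 0 = 1 := by
      unfold vv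
      simp
    rw [List.length_nil, pow_zero, one_mul, mul_zero, zero_add, Finset.sum_range_one]
    rw [List.length_nil] at e1
    rw [e1, one_mul]
    refine lintegral_mono fun x => mul_le_mul_right ?_ _
    change hs F2 1 x ≤ Hl (UL []) 0 F2 x
    classical
    unfold Hl
    refine le_trans (le_of_eq ?_) (ENNReal.le_tsum 1)
    rw [if_pos (sm_one _), one_mul, hq_one]
  | P :: L, hL, hD, F1, F2, h1, h2 => by
    have ih := r2 hNu hUnf hNm hM L (fun P' hP' => hL P' (List.mem_cons_of_mem _ hP')) hD.2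
      (As P F1) (As P F2) (meas_As h1 P) (meas_As h2 P)
    refine ih.trans (mul_le_mul_right ?_ 2)
    set k := L.length with hk
    have hP : ∀ p ∈ P, p.Prime := fun p hp => (hL P List.mem_cons_self p hp).1
    have hPM : ∀ p ∈ P, M < (p : ℝ) ∧ (p : ℝ) ≤ 2 * M := fun p hp =>
      (hL P List.mem_cons_self p hp).2
    set I : ℕ → ℝ≥0∞ := fun j => ∫⁻ x, F1 x * Hl (UL L ∪ P) j F2 x ∂nu with hI
    have m1 : ∀ j, Measurable fun x => F1 x * Hl (UL L ∪ P) j F2 x := fun j =>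
      h1.mul (meas_Hl _ _ h2)
    have s1 : ∀ j, ∫⁻ x, As P F1 x * Hl (UL L) j (As P F2) x ∂nu ≤
        2 * mi M ^ 2 * I (j + 2) + 3 * mi M * I (j + 1) + 8 * ENNReal.ofReal M * I j := by
      intro j
      rw [← int_Ao hNu h1 (meas_Hl _ _ (meas_As h2 P)) P, hI]
      dsimp only
      have m3 : Measurable fun x => 2 * mi M ^ 2 * (F1 x * Hl (UL L ∪ P) (j + 2) F2 x) +
          3 * mi M * (F1 x * Hl (UL L ∪ P) (j + 1) F2 x) :=
        ((m1 _).const_mul _).add ((m1 _).const_mul _)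
      rw [← lintegral_const_mul _ (m1 _), ← lintegral_const_mul _ (m1 _), ← lintegral_const_mul _ (m1 _),
        ← lintegral_add_left ((m1 _).const_mul _), ← lintegral_add_left m3]
      refine lintegral_mono fun x => ?_
      refine (mul_le_mul_right (block hNm hM hP hPM hD.1 j F2 x) (F1 x)).trans (le_of_eq ?_)
      ring
    have s2 : ∑ j ∈ Finset.range (2 * k + 1), vv M k j * ∫⁻ x, As P F1 x * Hl (UL L) j (As P F2) x ∂nu ≤
        2 * ∑ j ∈ Finset.range (2 * k + 1), vv M (k + 1) (j + 2) * I (j + 2) +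
        3 * ∑ j ∈ Finset.range (2 * k + 1), vv M (k + 1) (j + 1) * I (j + 1) +
        8 * ∑ j ∈ Finset.range (2 * k + 1), vv M (k + 1) j * I j := by
      rw [Finset.mul_sum, Finset.mul_sum, Finset.mul_sum, ← Finset.sum_add_distrib,
        ← Finset.sum_add_distrib]
      refine Finset.sum_le_sum fun j _ => ?_
      refine (mul_le_mul_right (s1 j) _).trans ?_
      rw [mul_add, mul_add]
      refine add_le_add (add_le_add ?_ ?_) ?_
      · rw [← vv_two hM k j]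
        exact le_of_eq (by ring)
      · calc vv M k j * (3 * mi M * I (j + 1)) = 3 * ((vv M k j * mi M) * I (j + 1)) := by ring
          _ ≤ 3 * (vv M (k + 1) (j + 1) * I (j + 1)) :=
            mul_le_mul_right (mul_le_mul_left (vv_one hM k j) _) _
      · rw [← vv_zero k j]
        exact le_of_eq (by ring)
    set S := ∑ j ∈ Finset.range (2 * (k + 1) + 1), vv M (k + 1) j * I j with hS
    have s3 : ∑ j ∈ Finset.range (2 * k + 1), vv M (k + 1) (j + 2) * I (j + 2) ≤ S :=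
      shift (fun j => vv M (k + 1) j * I j) 2 _ _ (by omega)
    have s4 : ∑ j ∈ Finset.range (2 * k + 1), vv M (k + 1) (j + 1) * I (j + 1) ≤ S :=
      shift (fun j => vv M (k + 1) j * I j) 1 _ _ (by omega)
    have s5 : ∑ j ∈ Finset.range (2 * k + 1), vv M (k + 1) j * I j ≤ S :=
      shift (fun j => vv M (k + 1) j * I j) 0 _ _ (by omega)
    have s6 := s2.trans (add_le_add (add_le_add (mul_le_mul_right s3 2) (mul_le_mul_right s4 3))
      (mul_le_mul_right s5 8))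
    have s7 : 2 * S + 3 * S + 8 * S = 13 * S := by ring
    rw [s7] at s6
    calc _ ≤ 13 ^ k * (13 * S) := mul_le_mul_right s6 _
      _ = 13 ^ (k + 1) * S := by ring
      _ = _ := by rw [hS, hI, List.length_cons]; rfl

/-- the level sets -/
def Lv2 (Q : Finset ℕ) (j : ℕ) : Set Mat := {s | Pr s ∧ ∃ n : ℕ, sm Q j n ∧ s.det = (n : ℤ) * n}

lemma Lv2_mono {Q Q' : Finset ℕ} (h : Q ⊆ Q') (j : ℕ) : Lv2 Q j ⊆ Lv2 Q' j :=
  fun _ hs => ⟨hs.1, hs.2.imp fun _ hn => ⟨sm_mono h hn.1, hn.2⟩⟩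

lemma Hl_int {Φ : G → ℂ} (hΦ : Continuous Φ) {U : Set G} (hU : MeasurableSet U) (Q : Finset ℕ) (j : ℕ) :
    ∫⁻ x, AIkM.ff Φ U x * Hl Q j (AIkM.ff Φ U) x ∂nu ≤
      ∑' s : Mat, (Lv2 Q j).indicator (fun s => Dd Φ U (nm s)) s := by
  classical
  have hF := AIkM.ff_meas hΦ hU
  set F := AIkM.ff Φ U with hFd
  have := countMat
  have := fun n => countMn n
  -- the sum over the pairs
  set T : Set (Σ n : ℕ, Mn (n * n)) := {t | sm Q j t.1 ∧ Pr t.2.1} with hT
  have hinj : Function.Injective (fun t : T => (t.1.2.1 : Mat)) := by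
    rintro ⟨⟨n, s⟩, h1⟩ ⟨⟨n', s'⟩, h1'⟩ h
    dsimp only at h
    have e1 : n = n' := by
      have h2 := s.2
      have h3 := s'.2
      rw [h, h3] at h2
      have h4 : n' * n' = n * n := by exact_mod_cast h2
      exact (Nat.mul_self_inj.1 h4).symm
    subst e1
    have e2 : s = s' := Subtype.ext h
    subst e2
    rfl
  have e1 : ∀ x, F x * Hl Q j F x =
      ∑' t : Σ n : ℕ, Mn (n * n), T.indicator (fun t => F x * F (nm t.2.1 * x)) t := by
    intro x
    unfold Hl hq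
    rw [← ENNReal.tsum_mul_left, ENNReal.tsum_sigma']
    refine tsum_congr fun n => ?_
    by_cases hn : sm Q j n
    · rw [if_pos hn, ← ENNReal.tsum_mul_left]
      refine tsum_congr fun s => ?_
      by_cases hs' : Pr s.1
      · rw [if_pos hs', Set.indicator_of_mem (show (⟨n, s⟩ : Σ n : ℕ, Mn (n * n)) ∈ T from ⟨hn, hs'⟩)]
      · rw [if_neg hs', mul_zero, Set.indicator_of_notMem (fun h => hs' h.2)]
    · rw [if_neg hn, mul_zero]
      symm
      simp only [ENNReal.tsum_eq_zero]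
      exact fun s => Set.indicator_of_notMem (fun h => hn h.1) _
  simp only [e1]
  have m1 : ∀ t : Σ n : ℕ, Mn (n * n), Measurable fun x =>
      T.indicator (fun t : Σ n : ℕ, Mn (n * n) => F x * F (nm t.2.1 * x)) t := by
    intro t
    by_cases ht : t ∈ T
    · simp only [Set.indicator_of_mem ht]
      exact hF.mul (meas_mul hF _)
    · simp only [Set.indicator_of_notMem ht]
      exact measurable_const
  rw [lintegral_tsum fun t => (m1 t).aemeasurable]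
  calc ∑' t : Σ n : ℕ, Mn (n * n), ∫⁻ x, T.indicator (fun t => F x * F (nm t.2.1 * x)) t ∂nu
      = ∑' t : Σ n : ℕ, Mn (n * n), T.indicator (fun t => Dd Φ U (nm t.2.1)) t := by
        refine tsum_congr fun t => ?_
        by_cases ht : t ∈ T
        · simp only [Set.indicator_of_mem ht]
          rfl
        · simp only [Set.indicator_of_notMem ht, lintegral_zero]
    _ = ∑' t : T, Dd Φ U (nm t.1.2.1) := by rw [← tsum_subtype T]
    _ ≤ ∑' t : T, (Lv2 Q j).indicator (fun s => Dd Φ U (nm s)) t.1.2.1 := by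
        refine ENNReal.tsum_le_tsum fun t => ?_
        rw [Set.indicator_of_mem]
        refine ⟨t.2.2, t.1.1, t.2.1, ?_⟩
        rw [t.1.2.2]
        push_cast
        rfl
    _ ≤ _ := ENNReal.tsum_comp_le_tsum_of_injective hinj _

/-- the amplifier inequality for a list of blocks -/
lemma amp (hNu : StmtNuL) (hUnf : StmtUnf) (hNm : StmtNm) {l : ℕ → ℝ} {Φ : G → ℂ} (hE : HE l Φ)
    {U : Set G} (hU : MeasurableSet U) {M : ℝ} (hM : 1 ≤ M) (L : List (Finset ℕ))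
    (hL : ∀ P ∈ L, ∀ p ∈ P, p.Prime ∧ M < (p : ℝ) ∧ (p : ℝ) ≤ 2 * M) (hD : DL L) :
    (L.map (eP l)).prod ^ 2 * ms Φ U ^ 2 ≤
      13 ^ L.length * ∑ j ∈ Finset.range (2 * L.length + 1), vv M L.length j *
        ∑' s : Mat, (Lv2 (UL L) j).indicator (fun s => Dd Φ U (nm s)) s := by
  set F := AIkM.ff Φ U with hFd
  have hF : Measurable F := AIkM.ff_meas hE.cont hU
  have hφ : Measurable fun y => ‖Φ y‖ₑ := hE.cont.enorm.measurable
  set Ψ : G → ℝ≥0∞ := hs (AsL L F) 1 with hΨ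
  have hΨm : Measurable Ψ := meas_hs (meas_AsL L hF) 1
  have s1 : 2 * ((L.map (eP l)).prod * ms Φ U) ≤ ∫⁻ y in FF, Ψ y * ‖Φ y‖ₑ ∂nu := by
    have h1 := r1 hNu hUnf hNm hE L (fun P hP p hp => (hL P hP p hp).1) F hF
    rw [AIkM.ms_eq Φ hU] at h1
    exact h1
  have s2 : (2 * ((L.map (eP l)).prod * ms Φ U)) ^ 2 ≤ 2 * ∫⁻ y in FF, Ψ y ^ 2 ∂nu := by
    refine (pow_le_pow_left' s1 2).trans ((AIkM.cs (nu.restrict FF) Ψ _ hΨm hφ).trans ?_)
    rw [mul_comm]
    exact mul_le_mul_left hE.norm _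
  have s3 := r2 hNu hUnf hNm hM L hL hD F F hF hF
  have s4 : ∫⁻ y in FF, Ψ y ^ 2 ∂nu ≤ 2 * (13 ^ L.length * ∑ j ∈ Finset.range (2 * L.length + 1),
      vv M L.length j * ∑' s : Mat, (Lv2 (UL L) j).indicator (fun s => Dd Φ U (nm s)) s) := by
    simp only [_root_.sq]
    refine s3.trans (mul_le_mul_right (mul_le_mul_right (Finset.sum_le_sum fun j _ =>
      mul_le_mul_right (Hl_int hE.cont hU _ _) _) _) 2)
  have s5 := s2.trans (mul_le_mul_right s4 2)
  have s6 : (4 : ℝ≥0∞) * ((L.map (eP l)).prod ^ 2 * ms Φ U ^ 2) ≤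
      4 * (13 ^ L.length * ∑ j ∈ Finset.range (2 * L.length + 1), vv M L.length j *
        ∑' s : Mat, (Lv2 (UL L) j).indicator (fun s => Dd Φ U (nm s)) s) := by
    calc (4 : ℝ≥0∞) * ((L.map (eP l)).prod ^ 2 * ms Φ U ^ 2)
        = (2 * ((L.map (eP l)).prod * ms Φ U)) ^ 2 := by ring
      _ ≤ _ := s5
      _ = _ := by rw [← mul_assoc]; norm_num
  exact (ENNReal.mul_le_mul_iff_right (by norm_num) (by norm_num)).1 s6

/-! ### The choice of the blocks -/

lemma blocks : ∀ (k m : ℕ) (Q : Finset ℕ), k * m ≤ Q.card →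
    ∃ L : List (Finset ℕ), L.length = k ∧ (∀ P ∈ L, P ⊆ Q ∧ P.card = m) ∧ DL L ∧ UL L ⊆ Q
  | 0, _, Q, _ => ⟨[], rfl, by simp, trivial, Finset.empty_subset Q⟩
  | k + 1, m, Q, h => by
    classical
    have h1 : m ≤ Q.card := le_trans (by nlinarith) h
    obtain ⟨P, hPQ, hP⟩ := Finset.exists_subset_card_eq h1
    have h2 : k * m ≤ (Q \ P).card := by
      rw [Finset.card_sdiff_of_subset hPQ, hP]
      have : (k + 1) * m = k * m + m := by ring
      omega
    obtain ⟨L, hL1, hL2, hL3, hL4⟩ := blocks k m (Q \ P) h2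
    refine ⟨P :: L, by rw [List.length_cons, hL1], ?_, ⟨?_, hL3⟩, ?_⟩
    · intro P' hP'
      rcases List.mem_cons.1 hP' with rfl | h'
      · exact ⟨hPQ, hP⟩
      · exact ⟨(hL2 P' h').1.trans Finset.sdiff_subset, (hL2 P' h').2⟩
    · exact Finset.disjoint_of_subset_right hL4 Finset.disjoint_sdiff
    · exact Finset.union_subset (hL4.trans Finset.sdiff_subset) hPQ

lemma eP_ge {l : ℕ → ℝ} {P : Finset ℕ} (hP : ∀ p ∈ P, p.Prime) (hl : ∀ p ∈ P, |l p| ≤ 1 / 2) :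
    ENNReal.ofReal (3 / 4 * (P.card : ℝ)) ≤ eP l P := by
  have h1 : ∀ p ∈ P, ENNReal.ofReal (3 / 4) ≤
      (p : ℝ≥0∞)⁻¹ * ENNReal.ofReal |(p : ℝ) * l p ^ 2 - (p + 1)| := by
    intro p hp
    have hp0 : (0 : ℝ) < p := by exact_mod_cast (hP p hp).pos
    rw [← ENNReal.ofReal_natCast p, ← ENNReal.ofReal_inv_of_pos hp0,
      ← ENNReal.ofReal_mul (by positivity)]
    refine ENNReal.ofReal_le_ofReal ?_
    have h2 : l p ^ 2 ≤ 1 / 4 := by
      have := hl p hp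
      have h3 := abs_nonneg (l p)
      nlinarith [sq_abs (l p)]
    have h3 : 3 / 4 * (p : ℝ) ≤ |(p : ℝ) * l p ^ 2 - (p + 1)| := by
      rw [abs_of_nonpos (by nlinarith)]
      nlinarith
    calc (3 / 4 : ℝ) = (p : ℝ)⁻¹ * (3 / 4 * p) := by field_simp
      _ ≤ _ := mul_le_mul_of_nonneg_left h3 (by positivity)
  unfold eP
  calc ENNReal.ofReal (3 / 4 * (P.card : ℝ)) = ∑ _p ∈ P, ENNReal.ofReal (3 / 4) := by
        rw [Finset.sum_const, nsmul_eq_mul, ← ENNReal.ofReal_natCast,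
          ← ENNReal.ofReal_mul (by positivity)]
        congr 1
        ring
    _ ≤ _ := Finset.sum_le_sum h1

lemma prod_ge {l : ℕ → ℝ} {a : ℝ≥0∞} : ∀ (L : List (Finset ℕ)), (∀ P ∈ L, a ≤ eP l P) →
    a ^ L.length ≤ (L.map (eP l)).prod
  | [], _ => by simp
  | P :: L, h => by
    rw [List.length_cons, List.map_cons, List.prod_cons, pow_succ, mul_comm]
    exact mul_le_mul' (h P List.mem_cons_self)
      (prod_ge L fun P' hP' => h P' (List.mem_cons_of_mem _ hP'))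

/-- **AI2** the amplifier inequality with squares (for the bad case) -/
def StmtAI2 : Prop := ∀ k : ℕ, ∃ C : ℝ, 1 ≤ C ∧ ∀ (l : ℕ → ℝ) (Φ : G → ℂ), HE l Φ → ∀ U : Set G,
  MeasurableSet U → ∀ κ M : ℝ, 0 ≤ κ → κ ≤ 1 / 2 → 1 ≤ M → 2 * (k : ℝ) ≤ M ^ (1 - κ) → ∀ Q : Finset ℕ,
    Q ⊆ Pm M → (∀ p ∈ Q, |l p| ≤ 1 / 2) → M ^ (1 - κ) ≤ (Q.card : ℝ) →
    ENNReal.ofReal ((M ^ k) ^ (2 - 2 * κ)) * ms Φ U ^ 2 ≤ ENNReal.ofReal C *
      ∑ j ∈ Finset.range (2 * k + 1), ENNReal.ofReal (M ^ k / (M ^ j * M ^ ((j + 1) / 2))) *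
        ∑' s : Mat, (Lv2 Q j).indicator (fun s => Dd Φ U (nm s)) s

lemma vv_eq {M : ℝ} (hM : 1 ≤ M) (k j : ℕ) :
    vv M k j = ENNReal.ofReal (M ^ k / (M ^ j * M ^ ((j + 1) / 2))) := by
  have h0 : 0 < M := by linarith
  unfold vv mi
  rw [← ENNReal.ofReal_inv_of_pos h0, ← ENNReal.ofReal_pow h0.le, ← ENNReal.ofReal_pow (by positivity),
    ← ENNReal.ofReal_pow (by positivity), ← ENNReal.ofReal_mul (by positivity),
    ← ENNReal.ofReal_mul (by positivity)]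
  congr 1
  rw [inv_pow, inv_pow, ← mul_inv, div_eq_mul_inv]

theorem stmtAI2 (hNu : StmtNuL) (hUnf : StmtUnf) (hNm : StmtNm) : StmtAI2 := by
  intro k
  set C0 : ℝ := (max 1 (8 * (k : ℝ) / 3)) ^ (2 * k) with hC0
  have hC1 : 1 ≤ C0 := one_le_pow₀ (le_max_left _ _)
  refine ⟨C0 * 13 ^ k, one_le_mul_of_one_le_of_one_le hC1 (one_le_pow₀ (by norm_num)), ?_⟩
  intro l Φ hE U hU κ M hκ hκ1 hM hkM Q hQM hQl hQ
  have hM0 : 0 < M := by linarith
  have hQP : ∀ p ∈ Q, p.Prime ∧ M < (p : ℝ) ∧ (p : ℝ) ≤ 2 * M := by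
    intro p hp
    have h1 := hQM hp
    unfold Pm at h1
    rw [Finset.mem_filter, Finset.mem_Ioc] at h1
    refine ⟨h1.2, (Nat.floor_lt hM0.le).1 h1.1.1, ?_⟩
    exact (Nat.le_floor_iff (by linarith)).1 h1.1.2
  -- the blocks
  obtain ⟨L, hLk, hL1, hL2, hL3⟩ := blocks k (Q.card / k) Q (Nat.mul_div_le _ _)
  have hL : ∀ P ∈ L, ∀ p ∈ P, p.Prime ∧ M < (p : ℝ) ∧ (p : ℝ) ≤ 2 * M := fun P hP p hp =>
    hQP p ((hL1 P hP).1 hp)
  have h1 := amp hNu hUnf hNm hE hU hM L hL hL2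
  rw [hLk] at h1
  -- the eigenvalues
  set a : ℝ := 3 / (8 * (k : ℝ)) * M ^ (1 - κ) with ha
  have ha0 : 0 ≤ a := by positivity
  have h2 : ∀ P ∈ L, ENNReal.ofReal a ≤ eP l P := by
    intro P hP
    have hk0 : 0 < k := by
      rw [← hLk]
      exact List.length_pos_of_mem hP
    have hkR : (0 : ℝ) < k := by exact_mod_cast hk0
    refine le_trans (ENNReal.ofReal_le_ofReal ?_) (eP_ge (fun p hp => (hL P hP p hp).1)
      fun p hp => hQl p ((hL1 P hP).1 hp))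
    rw [(hL1 P hP).2]
    have h3 : (Q.card : ℝ) / k - 1 ≤ ((Q.card / k : ℕ) : ℝ) := by
      have h4 : Q.card < k * (Q.card / k + 1) := Nat.lt_mul_div_succ _ hk0
      have h5 : (Q.card : ℝ) < k * (((Q.card / k : ℕ) : ℝ) + 1) := by exact_mod_cast h4
      have h6 : (Q.card : ℝ) / k < ((Q.card / k : ℕ) : ℝ) + 1 := by
        rw [div_lt_iff₀ hkR]
        linarith
      linarith
    have h4 : 1 ≤ (Q.card : ℝ) / (2 * k) := by
      rw [le_div_iff₀ (by positivity)]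
      linarith
    have h5 : (Q.card : ℝ) / k = 2 * ((Q.card : ℝ) / (2 * k)) := by
      field_simp
    have h6 : M ^ (1 - κ) / (2 * k) ≤ (Q.card : ℝ) / (2 * k) := div_le_div_of_nonneg_right hQ (by positivity)
    have h7 : a = 3 / 4 * (M ^ (1 - κ) / (2 * k)) := by
      rw [ha]
      field_simp
      ring
    rw [h7]
    linarith
  have h3 : ENNReal.ofReal a ^ k ≤ (L.map (eP l)).prod := by
    have := prod_ge L h2
    rwa [hLk] at this
  have h4 : ENNReal.ofReal ((M ^ k) ^ (2 - 2 * κ)) ≤ ENNReal.ofReal C0 * (L.map (eP l)).prod ^ 2 := by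
    refine le_trans ?_ (mul_le_mul_right (pow_le_pow_left' h3 2) _)
    rw [← ENNReal.ofReal_pow ha0, ← ENNReal.ofReal_pow (by positivity),
      ← ENNReal.ofReal_mul (by positivity)]
    refine ENNReal.ofReal_le_ofReal ?_
    have e1 : (M ^ k) ^ (2 - 2 * κ) = (M ^ (1 - κ)) ^ (2 * k) := by
      rw [← Real.rpow_natCast M k, ← Real.rpow_mul hM0.le, ← Real.rpow_natCast (M ^ (1 - κ)) (2 * k),
        ← Real.rpow_mul hM0.le]
      congr 1
      push_cast
      ring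
    have e2 : (a ^ k) ^ 2 = (3 / (8 * (k : ℝ))) ^ (2 * k) * (M ^ (1 - κ)) ^ (2 * k) := by
      rw [ha, ← mul_pow, ← pow_mul, mul_comm k 2]
    rw [e1, e2, hC0, ← mul_assoc, ← mul_pow]
    refine le_mul_of_one_le_left (by positivity) ?_
    rcases Nat.eq_zero_or_pos k with hk0 | hk0
    · rw [hk0]
      simp
    · have hkR : (0 : ℝ) < k := by exact_mod_cast hk0
      refine one_le_pow₀ ?_
      calc (1 : ℝ) = (8 * (k : ℝ) / 3) * (3 / (8 * (k : ℝ))) := by field_simp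
        _ ≤ _ := mul_le_mul_of_nonneg_right (le_max_right _ _) (by positivity)
  have h5 : ∀ j, (∑' s : Mat, (Lv2 (UL L) j).indicator (fun s => Dd Φ U (nm s)) s) ≤
      ∑' s : Mat, (Lv2 Q j).indicator (fun s => Dd Φ U (nm s)) s := fun j =>
    ENNReal.tsum_le_tsum fun s => Set.indicator_le_indicator_of_subset (Lv2_mono hL3 j)
      (fun _ => zero_le) s
  calc ENNReal.ofReal ((M ^ k) ^ (2 - 2 * κ)) * ms Φ U ^ 2
      ≤ ENNReal.ofReal C0 * (L.map (eP l)).prod ^ 2 * ms Φ U ^ 2 := mul_le_mul_left h4 _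
    _ = ENNReal.ofReal C0 * ((L.map (eP l)).prod ^ 2 * ms Φ U ^ 2) := by ring
    _ ≤ ENNReal.ofReal C0 * (13 ^ k * ∑ j ∈ Finset.range (2 * k + 1), vv M k j *
        ∑' s : Mat, (Lv2 (UL L) j).indicator (fun s => Dd Φ U (nm s)) s) := mul_le_mul_right h1 _
    _ ≤ ENNReal.ofReal C0 * (13 ^ k * ∑ j ∈ Finset.range (2 * k + 1), vv M k j *
        ∑' s : Mat, (Lv2 Q j).indicator (fun s => Dd Φ U (nm s)) s) :=
      mul_le_mul_right (mul_le_mul_right (Finset.sum_le_sum fun j _ =>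
        mul_le_mul_right (h5 j) _) _) _
    _ = _ := by
      rw [ENNReal.ofReal_mul (by positivity), ENNReal.ofReal_pow (by norm_num), ← mul_assoc]
      congr 1
      · norm_num
      · exact Finset.sum_congr rfl fun j _ => by rw [vv_eq hM]

end

end Pool.Agent.A54.HS
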