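import Pool.Agent.Lib.HS.Am4

/-!
# Package `HS`, the square amplifier, part 6: powers of one block operator, all levels
-/

set_option autoImplicit false

namespace Pool.Agent.A54.HS

open MeasureTheory Filter Topology Set
open scoped ContDiff ComplexConjugate UpperHalfPlane MatrixGroups ENNReal
open Pool.Agent.A54.Dyn (G fl base ze io mk4 dom)
open Pool.Agent.A54.Av (Mat NonSc)
open Pool.Agent.A54.Hp Pool.Agent.A54.Hp.Hk Pool.Agent.A54.Hp.A2M

noncomputable section

/-! ### One step -/

open Classical in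
/-- one coset step from the matrices primitive at `p` -/
lemma step_prim {p : ℕ} (hp : p.Prime) (n : ℕ) (g : Mat → ℝ≥0∞) :
    ∑ j, ∑' m : Mn (p * n), (if PD p m.1 then 0 else g (m.1 * rp p j)) ≤
      (∑' s : Mn (p * (p * n)), if PD p s.1 then 0 else g s.1) +
        ((p : ℝ≥0∞) + 1) * ∑' t : Mn n, if PD p t.1 then 0 else g ((p : ℤ) • t.1) := by
  set φ : Option (Fin p) → Mn (p * (p * n)) → ℝ≥0∞ := fun j s =>
    if ∃ m : Mn (p * n), Ph p (p * n) j m = s ∧ ¬ PD p m.1 then g s.1 else 0 with hφ
  have h1 : ∀ j, ∑' m : Mn (p * n), (if PD p m.1 then 0 else g (m.1 * rp p j)) ≤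
      ∑' s, φ j s := by
    intro j
    refine le_trans (ENNReal.tsum_le_tsum fun m => ?_)
      (ENNReal.tsum_comp_le_tsum_of_injective (Ph_inj hp.pos (p * n) j) (φ j))
    by_cases hm : PD p m.1
    · rw [if_pos hm]
      exact zero_le
    · rw [if_neg hm]
      simp only [hφ]
      rw [if_pos ⟨m, rfl, hm⟩]
      exact le_rfl
  have h2 : ∀ s : Mn (p * (p * n)), ∑ j, φ j s ≤ (if PD p s.1 then 0 else g s.1) +
      (Set.range (sc p n)).indicator (fun s : Mn (p * (p * n)) =>
        if ∃ t : Mn n, sc p n t = s ∧ ¬ PD p t.1 then ((p : ℝ≥0∞) + 1) * g s.1 else 0) s := by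
    intro s
    by_cases hs' : PD p s.1
    · rw [if_pos hs', zero_add]
      obtain ⟨t, ht⟩ := (range_sc hp.pos n s).2 hs'
      rw [Set.indicator_of_mem (show s ∈ Set.range (sc p n) from ⟨t, ht⟩)]
      by_cases hex : ∃ t : Mn n, sc p n t = s ∧ ¬ PD p t.1
      · rw [if_pos hex]
        calc ∑ j, φ j s ≤ ∑ _j : Option (Fin p), g s.1 := by
              refine Finset.sum_le_sum fun j _ => ?_
              simp only [hφ]
              split_ifs
              · exact le_rfl
              · exact zero_le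
          _ = ((p : ℝ≥0∞) + 1) * g s.1 := by
              rw [Finset.sum_const, Finset.card_univ, Fintype.card_option, Fintype.card_fin,
                nsmul_eq_mul]
              push_cast
              ring
      · rw [if_neg hex]
        refine le_of_eq (Finset.sum_eq_zero fun j _ => ?_)
        simp only [hφ]
        rw [if_neg]
        rintro ⟨m, hm, hmP⟩
        have htP : PD p t.1 := by
          by_contra h
          exact hex ⟨t, ht, h⟩
        apply hmP
        -- `m rp_j = p t`
        have e1 : m.1 * rp p j = (p : ℤ) • t.1 := by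
          have := congrArg Subtype.val (hm.trans ht.symm)
          exact this
        have e2 := congrArg (fun A : Mat => A * (rp p j).adjugate) e1
        simp only [Matrix.mul_assoc, Matrix.mul_adjugate, rp_det, Matrix.mul_smul, Matrix.mul_one,
          Matrix.smul_mul] at e2
        have e3 : m.1 = t.1 * (rp p j).adjugate := by
          ext a b
          have h3 := congrFun (congrFun e2 a) b
          rw [Matrix.smul_apply, Matrix.smul_apply, smul_eq_mul, smul_eq_mul] at h3
          exact mul_left_cancel₀ (by exact_mod_cast hp.ne_zero) h3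
        rw [e3]
        exact PD_mul_right _ htP
    · rw [if_neg hs', Set.indicator_of_notMem (fun h => hs' ((range_sc hp.pos n s).1 h)), add_zero]
      by_cases hj : ∃ j, φ j s ≠ 0
      · obtain ⟨j, hj⟩ := hj
        rw [Finset.sum_eq_single j]
        · simp only [hφ]
          split_ifs
          · exact le_rfl
          · exact zero_le
        · intro j' _ hjj
          have hr : ∀ i, φ i s ≠ 0 → Cd p i s.1 := by
            intro i hi
            simp only [hφ] at hi
            have : ∃ m : Mn (p * n), Ph p (p * n) i m = s ∧ ¬ PD p m.1 := by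
              by_contra h
              exact hi (if_neg h)
            obtain ⟨m, hm, -⟩ := this
            exact (range_Ph hp.pos (p * n) i s).1 ⟨m, hm⟩
          by_contra h
          exact hs' (PD_of_two hp hjj (hr j' h) (hr j hj))
        · intro h
          exact absurd (Finset.mem_univ j) h
      · push Not at hj
        rw [Finset.sum_eq_zero fun j _ => hj j]
        exact zero_le
  calc ∑ j, ∑' m : Mn (p * n), (if PD p m.1 then 0 else g (m.1 * rp p j))
      ≤ ∑ j, ∑' s, φ j s := Finset.sum_le_sum fun j _ => h1 j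
    _ = ∑' s, ∑ j, φ j s := (Summable.tsum_finsetSum fun j _ => ENNReal.summable).symm
    _ ≤ ∑' s : Mn (p * (p * n)), ((if PD p s.1 then 0 else g s.1) +
      (Set.range (sc p n)).indicator (fun s : Mn (p * (p * n)) =>
        if ∃ t : Mn n, sc p n t = s ∧ ¬ PD p t.1 then ((p : ℝ≥0∞) + 1) * g s.1 else 0) s) :=
        ENNReal.tsum_le_tsum h2
    _ = _ := by
      rw [ENNReal.tsum_add, ← tsum_subtype (Set.range (sc p n)),
        tsum_range (fun s : Mn (p * (p * n)) =>
          if ∃ t : Mn n, sc p n t = s ∧ ¬ PD p t.1 then ((p : ℝ≥0∞) + 1) * g s.1 else 0)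
          (sc_inj hp.pos n), ← ENNReal.tsum_mul_left]
      congr 1
      refine tsum_congr fun t => ?_
      by_cases ht : PD p t.1
      · rw [if_pos ht, if_neg, mul_zero]
        rintro ⟨t', h1, h2⟩
        exact h2 (sc_inj hp.pos n h1 ▸ ht)
      · rw [if_neg ht, if_pos ⟨t, rfl, ht⟩]
        rfl

open Classical in
/-- two coset steps from the matrices of level `p² n` primitive at `p` -/
lemma step_two {p : ℕ} (hp : p.Prime) {n : ℕ} (hn0 : 0 < n) (f : Mat → ℝ≥0∞)
    (hf : ∀ t : Mat, 0 < t.det → f ((p : ℤ) • t) = f t) :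
    ∑ x : Option (Fin p) × Option (Fin p), ∑' m : Mn (p * (p * n)),
      (if PD p m.1 then 0 else f (m.1 * rr p x)) ≤
      (∑' s : Mn (p * (p * (p * (p * n)))), if PD p s.1 then 0 else f s.1) +
        3 * (p : ℝ≥0∞) * (∑' s : Mn (p * (p * n)), if PD p s.1 then 0 else f s.1) +
        4 * (p : ℝ≥0∞) ^ 2 * ∑' s : Mn n, if PD p s.1 then 0 else f s.1 := by
  have hpz : (0 : ℤ) < p := by exact_mod_cast hp.pos
  have hp2 : (2 : ℝ≥0∞) ≤ (p : ℝ≥0∞) := by exact_mod_cast hp.two_le
  set A := ∑' s : Mn (p * (p * (p * (p * n)))), if PD p s.1 then 0 else f s.1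
  set B := ∑' s : Mn (p * (p * n)), if PD p s.1 then 0 else f s.1
  set D := ∑' s : Mn n, if PD p s.1 then 0 else f s.1
  set q : ℝ≥0∞ := (p : ℝ≥0∞)
  have e1 : ∀ t : Mn (p * (p * n)), f ((p : ℤ) • t.1) = f t.1 := fun t =>
    hf _ (det_pos (Nat.mul_pos hp.pos (Nat.mul_pos hp.pos hn0)) t)
  have e2 : ∀ t : Mn n, f ((p : ℤ) • t.1) = f t.1 := fun t => hf _ (det_pos hn0 t)
  -- the last step
  have s1 : ∑ j', ∑' m : Mn (p * (p * (p * n))), (if PD p m.1 then 0 else f (m.1 * rp p j')) ≤
      A + (q + 1) * B := by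
    refine (step_prim hp (p * (p * n)) f).trans (le_of_eq ?_)
    simp only [e1]
    rfl
  have s2 : ∑ j', ∑' m : Mn (p * n), (if PD p m.1 then 0 else f (m.1 * rp p j')) ≤
      B + (q + 1) * D := by
    refine (step_prim hp n f).trans (le_of_eq ?_)
    simp only [e2]
    rfl
  -- the first step
  have s3 : ∀ j' : Option (Fin p), ∑ j, ∑' m : Mn (p * (p * n)),
      (if PD p m.1 then 0 else f (m.1 * rr p (j, j'))) ≤
      (∑' m : Mn (p * (p * (p * n))), (if PD p m.1 then 0 else f (m.1 * rp p j'))) +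
        (q + 1) * ∑' m : Mn (p * n), (if PD p m.1 then 0 else f (m.1 * rp p j')) := by
    intro j'
    have h1 := step_prim hp (p * n) (fun s => f (s * rp p j'))
    refine le_trans (le_of_eq ?_) (h1.trans (le_of_eq ?_))
    · refine Finset.sum_congr rfl fun j _ => tsum_congr fun m => ?_
      unfold rr
      dsimp only
      rw [Matrix.mul_assoc]
    · congr 2
      refine tsum_congr fun t => ?_
      by_cases ht : PD p t.1
      · rw [if_pos ht, if_pos ht]
      · rw [if_neg ht, if_neg ht, Matrix.smul_mul, hf]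
        rw [Matrix.det_mul, t.2, rp_det]
        have : 0 < p * n := Nat.mul_pos hp.pos hn0
        positivity
  calc ∑ x : Option (Fin p) × Option (Fin p), ∑' m : Mn (p * (p * n)),
      (if PD p m.1 then 0 else f (m.1 * rr p x))
      = ∑ j', ∑ j, ∑' m : Mn (p * (p * n)), (if PD p m.1 then 0 else f (m.1 * rr p (j, j'))) := by
        rw [Fintype.sum_prod_type, Finset.sum_comm]
    _ ≤ ∑ j', ((∑' m : Mn (p * (p * (p * n))), (if PD p m.1 then 0 else f (m.1 * rp p j'))) +
        (q + 1) * ∑' m : Mn (p * n), (if PD p m.1 then 0 else f (m.1 * rp p j'))) :=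
        Finset.sum_le_sum fun j' _ => s3 j'
    _ ≤ (A + (q + 1) * B) + (q + 1) * (B + (q + 1) * D) := by
        rw [Finset.sum_add_distrib, ← Finset.mul_sum]
        exact add_le_add s1 (mul_le_mul_right s2 _)
    _ = A + 2 * (q + 1) * B + (q + 1) ^ 2 * D := by ring
    _ ≤ A + 3 * q * B + 4 * q ^ 2 * D := by
        have hp1 : (1 : ℝ≥0∞) ≤ q := le_trans (by norm_num) hp2
        refine add_le_add (add_le_add le_rfl (mul_le_mul_left ?_ _)) (mul_le_mul_left ?_ _)
        · calc 2 * (q + 1) = 2 * q + 2 := by ring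
            _ ≤ 2 * q + q := add_le_add le_rfl hp2
            _ = 3 * q := by ring
        · calc (q + 1) ^ 2 ≤ (q + q) ^ 2 := pow_le_pow_left' (add_le_add le_rfl hp1) 2
            _ = 4 * q ^ 2 := by ring

open Classical in
/-- lower bound, all levels -/
lemma cos_ge {p : ℕ} (hp : p.Prime) (n : ℕ) (f : Mat → ℝ≥0∞) :
    (∑' s : Mn (p * (p * n)), if PD p s.1 then 0 else f s.1) ≤
      ∑ x ∈ Np p, ∑' m : Mn n, if PD p m.1 then 0 else f (m.1 * rr p x) := by
  set f' : Mat → ℝ≥0∞ := fun s => if PD p s then 0 else f s with hf'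
  have h1 : ∑' s : Mn (p * (p * n)), f' s.1 ≤ ∑ x : Option (Fin p) × Option (Fin p),
      ∑' m : Mn n, f' (m.1 * rr p x) := by
    refine (le_sum hp (p * n) f').trans ?_
    rw [Fintype.sum_prod_type, Finset.sum_comm]
    refine Finset.sum_le_sum fun j' _ => ?_
    refine (le_sum hp n (fun s => f' (s * rp p j'))).trans (le_of_eq ?_)
    refine Finset.sum_congr rfl fun j _ => tsum_congr fun m => ?_
    unfold rr
    dsimp only
    rw [Matrix.mul_assoc]
  refine h1.trans ?_
  unfold Np
  rw [Finset.sum_filter]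
  refine Finset.sum_le_sum fun x _ => ?_
  by_cases hx : PD p (rr p x)
  · rw [if_neg (not_not.2 hx)]
    have : ∀ m : Mn n, f' (m.1 * rr p x) = 0 := fun m => if_pos (PD_mul_left _ hx)
    simp only [this, tsum_zero]
    exact le_rfl
  · rw [if_pos hx]
    refine ENNReal.tsum_le_tsum fun m => ?_
    simp only [hf']
    by_cases hm : PD p m.1
    · rw [if_pos hm, if_pos (PD_mul_right _ hm)]
    · rw [if_neg hm]
      split_ifs
      · exact zero_le
      · exact le_rfl

/-! ### The operator `T2` on `hq` -/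

/-- upper bound, level `p² n`, all `n` -/
lemma T2_hq_le (hNm : StmtNm) {p : ℕ} (hp : p.Prime) {n : ℕ} (hn : 0 < n)
    (F : G → ℝ≥0∞) (y : G) : T2 p (hq F (p * (p * n))) y ≤ hq F (p * (p * (p * (p * n)))) y +
      3 * (p : ℝ≥0∞) * hq F (p * (p * n)) y + 4 * (p : ℝ≥0∞) ^ 2 * hq F n y := by
  classical
  have h0 : T2 p (hq F (p * (p * n))) y ≤ ∑ x : Option (Fin p) × Option (Fin p),
      ∑' m : Mn (p * (p * n)), (if PD p m.1 then 0 else fq F p y (m.1 * rr p x)) := by
    unfold T2 hq
    refine le_trans ?_ (Finset.sum_le_sum_of_subset (Finset.subset_univ (Np p)))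
    refine Finset.sum_le_sum fun x _ => ENNReal.tsum_le_tsum fun m => ?_
    by_cases h : Pr m.1
    · have h2 := (Pr_iff hp m.1).1 h
      rw [if_pos h, if_neg h2.1]
      unfold fq
      rw [if_pos ((Pq_mul hp m.1 x).2 h2.2),
        hNm.1 m.1 (rr p x) (det_pos (Nat.mul_pos hp.pos (Nat.mul_pos hp.pos hn)) m)
        (rr_pos hp.pos x), mul_assoc]
    · rw [if_neg h]
      exact zero_le
  refine h0.trans ((step_two hp hn (fq F p y) ?_).trans (le_of_eq ?_))
  · intro t ht
    unfold fq
    by_cases h : Pq p t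
    · rw [if_pos h, if_pos ((Pq_smul hp t).2 h), hNm.2.2.2.1 (p : ℤ) t (by exact_mod_cast hp.pos)]
    · rw [if_neg h, if_neg fun h' => h ((Pq_smul hp t).1 h')]
  · simp only [fq_PD hp]
    rfl

/-- lower bound, all levels -/
lemma T2_hq_ge (hNm : StmtNm) {p : ℕ} (hp : p.Prime) {n : ℕ} (hn : 0 < n)
    (F : G → ℝ≥0∞) (y : G) : hq F (p * (p * n)) y ≤ T2 p (hq F n) y := by
  classical
  have h1 := cos_ge hp n (fq F p y)
  simp only [fq_PD hp] at h1
  refine le_trans h1 (le_of_eq ?_)
  unfold T2 hq
  refine Finset.sum_congr rfl fun x _ => tsum_congr fun m => ?_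
  unfold fq
  by_cases h : Pr m.1
  · have h2 := (Pr_iff hp m.1).1 h
    rw [if_pos h, if_neg h2.1, if_pos ((Pq_mul hp m.1 x).2 h2.2),
      hNm.1 m.1 (rr p x) (det_pos hn m) (rr_pos hp.pos x), mul_assoc]
  · rw [if_neg h]
    by_cases h3 : PD p m.1
    · rw [if_pos h3]
    · rw [if_neg h3, if_neg]
      intro h4
      exact h ((Pr_iff hp m.1).2 ⟨h3, (Pq_mul hp m.1 x).1 h4⟩)

end

end Pool.Agent.A54.HS
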