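import Pool.Agent.Lib.HS.Am6

/-!
# Package `HS`, the square amplifier, part 7: the level functions `E_j`, powers of the block operator
-/

set_option autoImplicit false

namespace Pool.Agent.A54.HS

open MeasureTheory Filter Topology Set
open scoped ContDiff ComplexConjugate UpperHalfPlane MatrixGroups ENNReal
open Pool.Agent.A54.Dyn (G fl base ze io mk4 dom)
open Pool.Agent.A54.Av (Mat NonSc)
open Pool.Agent.A54.Hp Pool.Agent.A54.Hp.Hk Pool.Agent.A54.Hp.A2M

noncomputable section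

open Classical in
/-- `E_j = ∑_n n⁻¹ [primitive matrices of determinant n²]`, `n` a product of `j` primes of `Q` -/
def El (Q : Finset ℕ) (j : ℕ) (F : G → ℝ≥0∞) (y : G) : ℝ≥0∞ :=
  ∑' n : ℕ, if sm Q j n then (n : ℝ≥0∞)⁻¹ * hq F (n * n) y else 0

lemma meas_El (Q : Finset ℕ) (j : ℕ) {F : G → ℝ≥0∞} (hF : Measurable F) : Measurable (El Q j F) := by
  classical
  refine Measurable.ennreal_tsum fun n => ?_
  by_cases h : sm Q j n
  · simp only [h, if_true]
    exact (meas_hq hF _).const_mul _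
  · simp only [h, if_false]
    exact measurable_const

lemma sm_dvd {Q : Finset ℕ} (hQ : ∀ p ∈ Q, p.Prime) {j n p : ℕ} (hp : p ∈ Q) :
    sm Q (j + 1) (p * n) ↔ sm Q j n := by
  constructor
  · intro h
    have hn : n ≠ 0 := right_ne_zero_of_mul h.1
    refine ⟨hn, fun ℓ hℓ hd => h.2.1 ℓ hℓ (Dvd.dvd.mul_left hd p), ?_⟩
    have h1 := h.2.2
    rw [ArithmeticFunction.cardFactors_mul (hQ p hp).ne_zero hn,
      ArithmeticFunction.cardFactors_apply_prime (hQ p hp)] at h1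
    omega
  · intro h
    exact sm_mul (hQ p hp) hp (Finset.Subset.refl Q) h

open Classical in
/-- the multiples of `p` -/
lemma pn_sum {Q : Finset ℕ} (hQ : ∀ p ∈ Q, p.Prime) {p : ℕ} (hp : p ∈ Q) (j : ℕ) (g : ℕ → ℝ≥0∞) :
    (∑' n : ℕ, if sm Q (j + 1) n ∧ p ∣ n then g n else 0) = ∑' n : ℕ, if sm Q j n then g (p * n) else 0 := by
  have hinj : Function.Injective (fun n : ℕ => p * n) := fun a b h =>
    Nat.eq_of_mul_eq_mul_left (hQ p hp).pos h
  have hsup : Function.support (fun n : ℕ => if sm Q (j + 1) n ∧ p ∣ n then g n else 0) ⊆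
      Set.range (fun n : ℕ => p * n) := by
    intro n hn
    rw [Function.mem_support] at hn
    have h1 : sm Q (j + 1) n ∧ p ∣ n := by
      by_contra h
      exact hn (if_neg h)
    obtain ⟨t, ht⟩ := h1.2
    exact ⟨t, ht.symm⟩
  rw [← Function.Injective.tsum_eq hinj hsup]
  refine tsum_congr fun n => ?_
  by_cases h : sm Q j n
  · rw [if_pos h, if_pos ⟨(sm_dvd hQ hp).2 h, Dvd.intro _ rfl⟩]
  · rw [if_neg h, if_neg fun h' => h ((sm_dvd hQ hp).1 h'.1)]

open Classical in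
/-- the number of prime divisors -/
lemma card_dvd {Q : Finset ℕ} (hQ : ∀ p ∈ Q, p.Prime) {j n : ℕ} (h : sm Q j n) :
    (Q.filter (fun p => p ∣ n)).card ≤ j := by
  have h1 : Q.filter (fun p => p ∣ n) ⊆ n.primeFactorsList.toFinset := by
    intro p hp
    obtain ⟨h2, h3⟩ := Finset.mem_filter.1 hp
    rw [List.mem_toFinset, Nat.mem_primeFactorsList h.1]
    exact ⟨hQ p h2, h3⟩
  refine (Finset.card_le_card h1).trans ((List.toFinset_card_le _).trans ?_)
  rw [← ArithmeticFunction.cardFactors_apply, h.2.2]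

open Classical in
/-- double sums over `p ∣ n` -/
lemma sum_dvd_le {Q : Finset ℕ} (hQ : ∀ p ∈ Q, p.Prime) (j : ℕ) (g : ℕ → ℝ≥0∞) :
    ∑ p ∈ Q, (∑' n : ℕ, if sm Q j n ∧ p ∣ n then g n else 0) ≤
      (j : ℝ≥0∞) * ∑' n : ℕ, if sm Q j n then g n else 0 := by
  rw [← Summable.tsum_finsetSum fun j _ => ENNReal.summable, ← ENNReal.tsum_mul_left]
  refine ENNReal.tsum_le_tsum fun n => ?_
  by_cases h : sm Q j n
  · simp only [h, true_and, if_true]
    rw [← Finset.sum_filter, Finset.sum_const, nsmul_eq_mul]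
    refine mul_le_mul_left ?_ _
    exact_mod_cast card_dvd hQ h
  · simp only [h, false_and, if_false, Finset.sum_const_zero]
    exact zero_le

open Classical in
lemma le_sum_dvd {Q : Finset ℕ} (j : ℕ) (g : ℕ → ℝ≥0∞) :
    (∑' n : ℕ, if sm Q (j + 1) n then g n else 0) ≤
      ∑ p ∈ Q, (∑' n : ℕ, if sm Q (j + 1) n ∧ p ∣ n then g n else 0) := by
  rw [← Summable.tsum_finsetSum fun j _ => ENNReal.summable]
  refine ENNReal.tsum_le_tsum fun n => ?_
  by_cases h : sm Q (j + 1) n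
  · rw [if_pos h]
    have hn1 : n ≠ 1 := by
      rintro rfl
      have h1 := h.2.2
      rw [ArithmeticFunction.cardFactors_one] at h1
      omega
    have hp := Nat.minFac_prime hn1
    have hpQ := h.2.1 _ hp (Nat.minFac_dvd n)
    calc g n = if sm Q (j + 1) n ∧ n.minFac ∣ n then g n else 0 := by
          rw [if_pos ⟨h, Nat.minFac_dvd n⟩]
      _ ≤ _ := Finset.single_le_sum (f := fun p => if sm Q (j + 1) n ∧ p ∣ n then g n else 0)
          (fun _ _ => zero_le) hpQ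
  · rw [if_neg h]
    exact zero_le

open Classical in
lemma T2_El (F : G → ℝ≥0∞) (Q : Finset ℕ) (j p : ℕ) (y : G) : T2 p (El Q j F) y =
    ∑' n : ℕ, if sm Q j n then (n : ℝ≥0∞)⁻¹ * T2 p (hq F (n * n)) y else 0 := by
  unfold T2 El
  rw [← Summable.tsum_finsetSum fun j _ => ENNReal.summable]
  refine tsum_congr fun n => ?_
  by_cases h : sm Q j n
  · simp only [h, if_true]
    rw [Finset.mul_sum]
  · simp only [h, if_false, Finset.sum_const_zero]

lemma inv_mul_nat {p n : ℕ} (hp : p ≠ 0) :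
    (p : ℝ≥0∞)⁻¹ * (n : ℝ≥0∞)⁻¹ = ((p * n : ℕ) : ℝ≥0∞)⁻¹ := by
  push_cast
  rw [ENNReal.mul_inv (Or.inl (by exact_mod_cast hp)) (Or.inl (ENNReal.natCast_ne_top p))]

/-- upper bound for `b E_j` -/
lemma Ao_El_le (hNm : StmtNm) {Q : Finset ℕ} (hQ : ∀ p ∈ Q, p.Prime) (j : ℕ) (F : G → ℝ≥0∞) (y : G) :
    Ao Q (El Q j F) y ≤ ((j : ℝ≥0∞) + 1) * El Q (j + 1) F y + 3 * (j : ℝ≥0∞) * El Q j F y +
      4 * (Q.card : ℝ≥0∞) * (if j = 0 then 0 else El Q (j - 1) F y) := by
  classical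
  have hfin : ∀ p : ℕ, (p : ℝ≥0∞) ≠ ⊤ := fun p => ENNReal.natCast_ne_top p
  set g : ℕ → ℝ≥0∞ := fun n => (n : ℝ≥0∞)⁻¹ * hq F (n * n) y with hg
  -- the bound for one `p`
  have s1 : ∀ p ∈ Q, (p : ℝ≥0∞)⁻¹ * T2 p (El Q j F) y ≤
      (∑' n : ℕ, if sm Q j n then g (p * n) else 0) +
      3 * (∑' n : ℕ, if sm Q j n ∧ p ∣ n then g n else 0) +
      4 * (if j = 0 then 0 else ∑' n : ℕ, if sm Q (j - 1) n then g n else 0) := by
    intro p hp
    have hpr := hQ p hp
    have hp0 : (p : ℝ≥0∞) ≠ 0 := by exact_mod_cast hpr.ne_zero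
    have t3 : (∑' n : ℕ, if sm Q j n ∧ p ∣ n then 4 * g (n / p) else 0) =
        4 * (if j = 0 then 0 else ∑' n : ℕ, if sm Q (j - 1) n then g n else 0) := by
      rcases Nat.eq_zero_or_pos j with hj | hj
      · subst hj
        rw [if_pos rfl, mul_zero]
        rw [ENNReal.tsum_eq_zero]
        intro n
        rw [if_neg]
        rintro ⟨h1, h2⟩
        rw [sm_zero h1, Nat.dvd_one] at h2
        exact hpr.ne_one h2
      · obtain ⟨i, rfl⟩ : ∃ i, j = i + 1 := ⟨j - 1, by omega⟩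
        rw [if_neg (by omega), Nat.add_sub_cancel, pn_sum hQ hp i (fun n => 4 * g (n / p)),
          ← ENNReal.tsum_mul_left]
        refine tsum_congr fun n => ?_
        by_cases h : sm Q i n
        · rw [if_pos h, if_pos h, Nat.mul_div_cancel_left _ hpr.pos]
        · rw [if_neg h, if_neg h, mul_zero]
    rw [← t3, T2_El, ← ENNReal.tsum_mul_left, ← ENNReal.tsum_mul_left, ← ENNReal.tsum_add,
      ← ENNReal.tsum_add]
    refine ENNReal.tsum_le_tsum fun n => ?_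
    by_cases h : sm Q j n
    · simp only [h, if_true, true_and]
      have hn0 : 0 < n := Nat.pos_of_ne_zero h.1
      by_cases hd : p ∣ n
      · rw [if_pos hd, if_pos hd]
        obtain ⟨m, rfl⟩ := hd
        have hm0 : 0 < m := Nat.pos_of_mul_pos_left hn0
        rw [Nat.mul_div_cancel_left _ hpr.pos]
        have h1 := T2_hq_le hNm hpr (Nat.mul_pos hm0 hm0) F y
        have e1 : p * (p * (p * (p * (m * m)))) = p * (p * m) * (p * (p * m)) := by ring
        have e2 : p * (p * (m * m)) = p * m * (p * m) := by ring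
        rw [e1] at h1
        rw [e2] at h1
        have e3 : ((p * m : ℕ) : ℝ≥0∞)⁻¹ = (p : ℝ≥0∞)⁻¹ * (m : ℝ≥0∞)⁻¹ := (inv_mul_nat hpr.ne_zero).symm
        have e4 : ((p * (p * m) : ℕ) : ℝ≥0∞)⁻¹ = (p : ℝ≥0∞)⁻¹ * ((p * m : ℕ) : ℝ≥0∞)⁻¹ :=
          (inv_mul_nat hpr.ne_zero).symm
        have e5 : (p : ℝ≥0∞) * (p : ℝ≥0∞)⁻¹ = 1 := ENNReal.mul_inv_cancel hp0 (hfin p)
        simp only [hg]
        rw [e4]
        set X := hq F (p * (p * m) * (p * (p * m))) y
        set Y := hq F (p * m * (p * m)) y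
        set Z := hq F (m * m) y
        set a := ((p * m : ℕ) : ℝ≥0∞)⁻¹ with ha
        have e6 : (p : ℝ≥0∞) * a = (m : ℝ≥0∞)⁻¹ := by rw [e3, ← mul_assoc, e5, one_mul]
        calc (p : ℝ≥0∞)⁻¹ * (a * T2 p (hq F (p * m * (p * m))) y)
            ≤ (p : ℝ≥0∞)⁻¹ * (a * (X + 3 * (p : ℝ≥0∞) * Y + 4 * (p : ℝ≥0∞) ^ 2 * Z)) :=
              mul_le_mul_right (mul_le_mul_right h1 _) _
          _ = (p : ℝ≥0∞)⁻¹ * a * X + 3 * ((p : ℝ≥0∞) * (p : ℝ≥0∞)⁻¹) * (a * Y) +
              4 * ((p : ℝ≥0∞) * (p : ℝ≥0∞)⁻¹) * ((p : ℝ≥0∞) * a * Z) := by ring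
          _ = (p : ℝ≥0∞)⁻¹ * a * X + 3 * (a * Y) + 4 * ((m : ℝ≥0∞)⁻¹ * Z) := by
              rw [e5, mul_one, mul_one, e6]
          _ ≤ _ := le_rfl
      · rw [if_neg hd, if_neg hd, mul_zero, add_zero, add_zero]
        have hnn : ¬ p ∣ n * n := fun h' => by
          rcases (Nat.Prime.dvd_mul hpr).1 h' with h'' | h'' <;> exact hd h''
        rw [T2_hq hNm hpr (Nat.mul_pos hn0 hn0) hnn]
        have e1 : p * (p * (n * n)) = p * n * (p * n) := by ring
        simp only [hg]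
        rw [e1, ← mul_assoc, inv_mul_nat hpr.ne_zero]
    · simp only [h, if_false, false_and, mul_zero]
      exact zero_le
  unfold Ao
  refine (Finset.sum_le_sum s1).trans ?_
  rw [Finset.sum_add_distrib, Finset.sum_add_distrib, ← Finset.mul_sum, ← Finset.mul_sum,
    Finset.sum_const, nsmul_eq_mul]
  have s2 : ∑ p ∈ Q, (∑' n : ℕ, if sm Q j n then g (p * n) else 0) ≤
      ((j : ℝ≥0∞) + 1) * El Q (j + 1) F y := by
    have h1 : ∀ p ∈ Q, (∑' n : ℕ, if sm Q j n then g (p * n) else 0) =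
        ∑' n : ℕ, if sm Q (j + 1) n ∧ p ∣ n then g n else 0 := fun p hp => (pn_sum hQ hp j g).symm
    rw [Finset.sum_congr rfl h1]
    refine (sum_dvd_le hQ (j + 1) g).trans (le_of_eq ?_)
    unfold El
    push_cast
    rfl
  have s3 := sum_dvd_le hQ j g
  refine add_le_add (add_le_add s2 ?_) ?_
  · calc 3 * _ ≤ 3 * ((j : ℝ≥0∞) * ∑' n : ℕ, if sm Q j n then g n else 0) := mul_le_mul_right s3 _
      _ = _ := by unfold El; ring
  · unfold El
    refine le_of_eq ?_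
    ring

/-- lower bound for `b E_j` -/
lemma El_le_Ao (hNm : StmtNm) {Q : Finset ℕ} (hQ : ∀ p ∈ Q, p.Prime) (j : ℕ) (F : G → ℝ≥0∞) (y : G) :
    El Q (j + 1) F y ≤ Ao Q (El Q j F) y := by
  classical
  set g : ℕ → ℝ≥0∞ := fun n => (n : ℝ≥0∞)⁻¹ * hq F (n * n) y with hg
  have h1 : El Q (j + 1) F y ≤ ∑ p ∈ Q, (∑' n : ℕ, if sm Q (j + 1) n ∧ p ∣ n then g n else 0) :=
    le_sum_dvd j g
  refine h1.trans ?_
  unfold Ao
  refine Finset.sum_le_sum fun p hp => ?_
  have hpr := hQ p hp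
  rw [pn_sum hQ hp j g, T2_El, ← ENNReal.tsum_mul_left]
  refine ENNReal.tsum_le_tsum fun n => ?_
  by_cases h : sm Q j n
  · rw [if_pos h, if_pos h]
    have hn0 : 0 < n := Nat.pos_of_ne_zero h.1
    have e1 : p * n * (p * n) = p * (p * (n * n)) := by ring
    simp only [hg]
    rw [e1, ← inv_mul_nat hpr.ne_zero, mul_assoc]
    exact mul_le_mul_right (mul_le_mul_right (T2_hq_ge hNm hpr (Nat.mul_pos hn0 hn0) F y) _) _
  · rw [if_neg h, if_neg h, mul_zero]

/-! ### Monotonicity, linearity of the block operator -/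

lemma T2_mono {h h' : G → ℝ≥0∞} (hh : ∀ y, h y ≤ h' y) (p : ℕ) (y : G) : T2 p h y ≤ T2 p h' y :=
  Finset.sum_le_sum fun _ _ => hh _

lemma Ao_mono {h h' : G → ℝ≥0∞} (hh : ∀ y, h y ≤ h' y) (P : Finset ℕ) (y : G) : Ao P h y ≤ Ao P h' y :=
  Finset.sum_le_sum fun p _ => mul_le_mul_right (T2_mono hh p y) _

lemma T2_sum (s : Finset ℕ) (c : ℕ → ℝ≥0∞) (h : ℕ → G → ℝ≥0∞) (p : ℕ) (y : G) :
    T2 p (fun z => ∑ j ∈ s, c j * h j z) y = ∑ j ∈ s, c j * T2 p (h j) y := by
  unfold T2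
  rw [Finset.sum_comm]
  exact Finset.sum_congr rfl fun j _ => by rw [Finset.mul_sum]

lemma Ao_sum (s : Finset ℕ) (c : ℕ → ℝ≥0∞) (h : ℕ → G → ℝ≥0∞) (P : Finset ℕ) (y : G) :
    Ao P (fun z => ∑ j ∈ s, c j * h j z) y = ∑ j ∈ s, c j * Ao P (h j) y := by
  unfold Ao
  simp only [T2_sum, Finset.mul_sum]
  rw [Finset.sum_comm]
  exact Finset.sum_congr rfl fun j _ => Finset.sum_congr rfl fun p _ => by ring

lemma Ao_smul (c : ℝ≥0∞) (h : G → ℝ≥0∞) (P : Finset ℕ) (y : G) :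
    Ao P (fun z => c * h z) y = c * Ao P h y := by
  unfold Ao T2
  simp only [Finset.mul_sum]
  exact Finset.sum_congr rfl fun p _ => Finset.sum_congr rfl fun x _ => by ring

/-- the constants -/
def Ck : ℕ → ℝ≥0∞
  | 0 => 1
  | i + 1 => 8 * ((i : ℝ≥0∞) + 1) * Ck i

lemma Ck_top : ∀ i, Ck i ≠ ⊤
  | 0 => ENNReal.one_ne_top
  | i + 1 => ENNReal.mul_ne_top (ENNReal.mul_ne_top (by norm_num)
      (ENNReal.add_ne_top.2 ⟨ENNReal.natCast_ne_top i, ENNReal.one_ne_top⟩)) (Ck_top i)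

/-- the powers of the block operator: upper bound -/
lemma pow_le (hNm : StmtNm) {Q : Finset ℕ} (hQ : ∀ p ∈ Q, p.Prime) (hQ1 : 1 ≤ Q.card) (F : G → ℝ≥0∞) :
    ∀ (i : ℕ) (y : G), (Ao Q)^[i] (hs F 1) y ≤
      Ck i * ∑ j ∈ Finset.range (i + 1), (Q.card : ℝ≥0∞) ^ ((i - j) / 2) * El Q j F y
  | 0, y => by
    classical
    change hs F 1 y ≤ _
    rw [zero_add, Finset.sum_range_one]
    change hs F 1 y ≤ 1 * ((Q.card : ℝ≥0∞) ^ 0 * El Q 0 F y)
    rw [pow_zero, one_mul, one_mul]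
    unfold El
    refine le_trans (le_of_eq ?_) (ENNReal.le_tsum 1)
    rw [if_pos (sm_one Q), one_mul, hq_one]
    simp
  | i + 1, y => by
    classical
    have hq1 : (1 : ℝ≥0∞) ≤ (Q.card : ℝ≥0∞) := by exact_mod_cast hQ1
    rw [Function.iterate_succ_apply']
    set q : ℝ≥0∞ := (Q.card : ℝ≥0∞) with hq'
    have h1 : Ao Q ((Ao Q)^[i] (hs F 1)) y ≤
        Ck i * ∑ j ∈ Finset.range (i + 1), q ^ ((i - j) / 2) * Ao Q (El Q j F) y := by
      refine (Ao_mono (pow_le hNm hQ hQ1 F i) Q y).trans (le_of_eq ?_)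
      rw [Ao_smul, Ao_sum]
    set S := ∑ j ∈ Finset.range (i + 1 + 1), q ^ ((i + 1 - j) / 2) * El Q j F y with hS
    have h2 : ∑ j ∈ Finset.range (i + 1), q ^ ((i - j) / 2) * Ao Q (El Q j F) y ≤
        ((i : ℝ≥0∞) + 1) * S + 3 * (i : ℝ≥0∞) * S + 4 * S := by
      have t1 : ∑ j ∈ Finset.range (i + 1), q ^ ((i - j) / 2) * (((j : ℝ≥0∞) + 1) * El Q (j + 1) F y) ≤
          ((i : ℝ≥0∞) + 1) * S := by
        rw [hS, Finset.sum_range_succ' _ (i + 1), mul_add, Finset.mul_sum]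
        refine le_trans (Finset.sum_le_sum fun j hj => ?_) le_self_add
        have hj' : j ≤ i := by
          have := Finset.mem_range.1 hj
          omega
        have e1 : i + 1 - (j + 1) = i - j := by omega
        rw [e1]
        have h3 : (j : ℝ≥0∞) + 1 ≤ (i : ℝ≥0∞) + 1 := add_le_add (by exact_mod_cast hj') le_rfl
        calc q ^ ((i - j) / 2) * (((j : ℝ≥0∞) + 1) * El Q (j + 1) F y)
            = ((j : ℝ≥0∞) + 1) * (q ^ ((i - j) / 2) * El Q (j + 1) F y) := by ring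
          _ ≤ _ := mul_le_mul_left h3 _
      have t2 : ∑ j ∈ Finset.range (i + 1), q ^ ((i - j) / 2) * (3 * (j : ℝ≥0∞) * El Q j F y) ≤
          3 * (i : ℝ≥0∞) * S := by
        rw [hS, Finset.sum_range_succ _ (i + 1), mul_add, Finset.mul_sum]
        refine le_trans (Finset.sum_le_sum fun j hj => ?_) le_self_add
        have hj' : j ≤ i := by
          have := Finset.mem_range.1 hj
          omega
        have h3 : (j : ℝ≥0∞) ≤ (i : ℝ≥0∞) := by exact_mod_cast hj'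
        have h4 : q ^ ((i - j) / 2) ≤ q ^ ((i + 1 - j) / 2) := pow_le_pow_right₀ hq1 (by omega)
        calc q ^ ((i - j) / 2) * (3 * (j : ℝ≥0∞) * El Q j F y)
            = 3 * (j : ℝ≥0∞) * (q ^ ((i - j) / 2) * El Q j F y) := by ring
          _ ≤ _ := mul_le_mul' (mul_le_mul_right h3 _) (mul_le_mul_left h4 _)
      have t3 : ∑ j ∈ Finset.range (i + 1), q ^ ((i - j) / 2) *
          (4 * q * (if j = 0 then 0 else El Q (j - 1) F y)) ≤ 4 * S := by
        rw [Finset.sum_range_succ', if_pos rfl, mul_zero, mul_zero, add_zero, hS, Finset.mul_sum]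
        refine le_trans (Finset.sum_le_sum (g := fun j => 4 * (q ^ ((i + 1 - j) / 2) * El Q j F y))
          fun j hj => ?_)
          (Finset.sum_le_sum_of_subset (Finset.range_mono (by omega : i ≤ i + 1 + 1)))
        have hj' := Finset.mem_range.1 hj
        rw [if_neg (by omega), Nat.add_sub_cancel]
        have e1 : (i + 1 - j) / 2 = (i - (j + 1)) / 2 + 1 := by omega
        rw [e1]
        refine le_of_eq ?_
        ring
      calc ∑ j ∈ Finset.range (i + 1), q ^ ((i - j) / 2) * Ao Q (El Q j F) y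
          ≤ ∑ j ∈ Finset.range (i + 1), (q ^ ((i - j) / 2) * (((j : ℝ≥0∞) + 1) * El Q (j + 1) F y) +
            q ^ ((i - j) / 2) * (3 * (j : ℝ≥0∞) * El Q j F y) +
            q ^ ((i - j) / 2) * (4 * q * (if j = 0 then 0 else El Q (j - 1) F y))) := by
            refine Finset.sum_le_sum fun j _ => ?_
            refine (mul_le_mul_right (Ao_El_le hNm hQ j F y) _).trans (le_of_eq ?_)
            rw [mul_add, mul_add]
        _ ≤ _ := by
            rw [Finset.sum_add_distrib, Finset.sum_add_distrib]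
            exact add_le_add (add_le_add t1 t2) t3
    refine h1.trans ((mul_le_mul_right h2 _).trans ?_)
    change _ ≤ 8 * ((i : ℝ≥0∞) + 1) * Ck i * S
    calc Ck i * (((i : ℝ≥0∞) + 1) * S + 3 * (i : ℝ≥0∞) * S + 4 * S)
        = Ck i * ((4 * (i : ℝ≥0∞) + 5) * S) := by ring
      _ ≤ Ck i * ((8 * ((i : ℝ≥0∞) + 1)) * S) := by
        refine mul_le_mul_right (mul_le_mul_left ?_ _) _
        calc 4 * (i : ℝ≥0∞) + 5 ≤ 8 * (i : ℝ≥0∞) + 8 :=
              add_le_add (mul_le_mul_left (by norm_num) _) (by norm_num)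
          _ = _ := by ring
      _ = _ := by ring

/-- the powers of the block operator: lower bound -/
lemma le_pow (hNm : StmtNm) {Q : Finset ℕ} (hQ : ∀ p ∈ Q, p.Prime) (F : G → ℝ≥0∞) :
    ∀ (j : ℕ) (y : G), El Q j F y ≤ (Ao Q)^[j] (hs F 1) y
  | 0, y => by
    classical
    change El Q 0 F y ≤ hs F 1 y
    unfold El
    rw [tsum_eq_single 1]
    · rw [if_pos (sm_one Q), one_mul, hq_one]
      simp
    · intro n hn
      rw [if_neg]
      exact fun h => hn (sm_zero h)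
  | j + 1, y => by
    rw [Function.iterate_succ_apply']
    exact (El_le_Ao hNm hQ j F y).trans (Ao_mono (le_pow hNm hQ F j) Q y)

end

end Pool.Agent.A54.HS
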