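import Pool.Agent.Lib.HS.Am5
import Pool.Agent.Lib.HS.Am7

/-!
# Package `HS`, the square amplifier, part 8: moments, log-convexity, the amplifier inequality without lower terms

`AI3`: `#Q^(2k) ms(U)² ≤ C M^(-2k) ∑_s D(s)`, the sum over the primitive integral matrices `s` with `det s = n²`, `n` a product of
exactly `2k` primes of `Q`, as soon as `#Q^k ms(U) ≥ C`.
-/

set_option autoImplicit false

namespace Pool.Agent.A54.HS

open MeasureTheory Filter Topology Set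
open scoped ContDiff ComplexConjugate UpperHalfPlane MatrixGroups ENNReal
open Pool.Agent.A54.Dyn (G fl base ze io mk4 dom)
open Pool.Agent.A54.Av (Mat NonSc)
open Pool.Agent.A54.Hp Pool.Agent.A54.Hp.Hk Pool.Agent.A54.Hp.A2M

noncomputable section

/-! ### Sizes -/

lemma sm_size {Q : Finset ℕ} {M : ℝ} (hM : 1 ≤ M)
    (hQ : ∀ p ∈ Q, p.Prime ∧ M < (p : ℝ) ∧ (p : ℝ) ≤ 2 * M) : ∀ (j n : ℕ), sm Q j n →
    M ^ j ≤ (n : ℝ) ∧ (n : ℝ) ≤ (2 * M) ^ j
  | 0, n, h => by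
    rw [sm_zero h]
    simp
  | j + 1, n, h => by
    have hn1 : n ≠ 1 := by
      rintro rfl
      have h1 := h.2.2
      rw [ArithmeticFunction.cardFactors_one] at h1
      omega
    have hp := Nat.minFac_prime hn1
    have hpQ := h.2.1 _ hp (Nat.minFac_dvd n)
    obtain ⟨m, hm⟩ := Nat.minFac_dvd n
    have h2 : sm Q j m := by
      rw [hm] at h
      exact (sm_dvd (fun p hp => (hQ p hp).1) hpQ).1 h
    obtain ⟨h3, h4⟩ := sm_size hM hQ j m h2
    obtain ⟨-, h5, h6⟩ := hQ _ hpQ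
    have e1 : (n : ℝ) = (n.minFac : ℝ) * m := by
      have : n = n.minFac * m := hm
      exact_mod_cast this
    rw [e1, pow_succ', pow_succ']
    have hM0 : 0 < M := by linarith
    exact ⟨mul_le_mul h5.le h3 (by positivity) (by positivity),
      mul_le_mul h6 h4 (by positivity) (by positivity)⟩

lemma El_le_Hl {Q : Finset ℕ} {M : ℝ} (hM : 1 ≤ M)
    (hQ : ∀ p ∈ Q, p.Prime ∧ M < (p : ℝ) ∧ (p : ℝ) ≤ 2 * M) (j : ℕ) (F : G → ℝ≥0∞) (y : G) :
    El Q j F y ≤ mi M ^ j * Hl Q j F y := by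
  classical
  unfold El Hl
  rw [← ENNReal.tsum_mul_left]
  refine ENNReal.tsum_le_tsum fun n => ?_
  by_cases h : sm Q j n
  · rw [if_pos h, if_pos h]
    refine mul_le_mul_left ?_ _
    have h1 := (sm_size hM hQ j n h).1
    unfold mi
    rw [← ENNReal.inv_pow, ENNReal.inv_le_inv, ← ENNReal.ofReal_pow (by linarith),
      ← ENNReal.ofReal_natCast n]
    exact ENNReal.ofReal_le_ofReal h1
  · rw [if_neg h, if_neg h, mul_zero]

/-! ### Moments -/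

lemma Ao_hs (hNm : StmtNm) {Q : Finset ℕ} (hQ : ∀ p ∈ Q, p.Prime) (F : G → ℝ≥0∞) :
    Ao Q (hs F 1) = hs (As Q F) 1 := by
  funext y
  rw [← hq_one (As Q F), hq_As]
  unfold Ao
  refine Finset.sum_congr rfl fun p hp => ?_
  have h1 : ¬ p ∣ 1 := fun h => (hQ p hp).one_lt.ne' (Nat.dvd_one.1 h)
  rw [hq_T2s hNm (hQ p hp) one_pos h1, ← hq_one F, T2_hq hNm (hQ p hp) one_pos h1]

lemma Ao_iter_hs (hNm : StmtNm) {Q : Finset ℕ} (hQ : ∀ p ∈ Q, p.Prime) (F : G → ℝ≥0∞) :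
    ∀ i, (Ao Q)^[i] (hs F 1) = hs ((As Q)^[i] F) 1
  | 0 => rfl
  | i + 1 => by
    rw [Function.iterate_succ_apply', Function.iterate_succ_apply', Ao_iter_hs hNm hQ F i, Ao_hs hNm hQ]

lemma meas_As_iter {F : G → ℝ≥0∞} (hF : Measurable F) (Q : Finset ℕ) : ∀ i, Measurable ((As Q)^[i] F)
  | 0 => hF
  | i + 1 => by
    rw [Function.iterate_succ_apply']
    exact meas_As (meas_As_iter hF Q i) Q

lemma meas_Ao_iter {h : G → ℝ≥0∞} (hh : Measurable h) (Q : Finset ℕ) : ∀ i, Measurable ((Ao Q)^[i] h)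
  | 0 => hh
  | i + 1 => by
    rw [Function.iterate_succ_apply']
    exact meas_Ao (meas_Ao_iter hh Q i) Q

lemma int_iter (hNu : StmtNuL) (Q : Finset ℕ) {h : G → ℝ≥0∞} (hh : Measurable h) :
    ∀ (i : ℕ) {F : G → ℝ≥0∞}, Measurable F →
      ∫⁻ x, F x * (Ao Q)^[i] h x ∂nu = ∫⁻ x, (As Q)^[i] F x * h x ∂nu
  | 0, _, _ => rfl
  | i + 1, F, hF => by
    rw [Function.iterate_succ_apply' (Ao Q), Function.iterate_succ_apply (As Q),
      int_Ao hNu hF (meas_Ao_iter hh Q i), int_iter hNu Q hh i (meas_As hF Q)]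

/-- the moments -/
def aa (Q : Finset ℕ) (F : G → ℝ≥0∞) (i : ℕ) : ℝ≥0∞ := ∫⁻ x, F x * (Ao Q)^[i] (hs F 1) x ∂nu

lemma FF_prod (hNu : StmtNuL) (hUnf : StmtUnf) (hNm : StmtNm) {Q : Finset ℕ} (hQ : ∀ p ∈ Q, p.Prime)
    {F : G → ℝ≥0∞} (hF : Measurable F) (i j : ℕ) :
    ∫⁻ y in FF, hs ((As Q)^[i] F) 1 y * hs ((As Q)^[j] F) 1 y ∂nu = 2 * aa Q F (i + j) := by
  rw [unf hUnf hNm (meas_As_iter hF Q i) (meas_hs (meas_As_iter hF Q j) 1)
    fun γ y => hs_inv hNm _ one_pos γ y]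
  rw [← int_iter hNu Q (meas_hs (meas_As_iter hF Q j) 1) i hF, ← Ao_iter_hs hNm hQ F j]
  unfold aa
  rw [Function.iterate_add_apply]

lemma aa_cs (hNu : StmtNuL) (hUnf : StmtUnf) (hNm : StmtNm) {Q : Finset ℕ} (hQ : ∀ p ∈ Q, p.Prime)
    {F : G → ℝ≥0∞} (hF : Measurable F) (i j : ℕ) :
    aa Q F (i + j) ^ 2 ≤ aa Q F (2 * i) * aa Q F (2 * j) := by
  have m : ∀ i, Measurable (hs ((As Q)^[i] F) 1) := fun i => meas_hs (meas_As_iter hF Q i) 1
  have h1 := AIkM.cs (nu.restrict FF) (hs ((As Q)^[i] F) 1) (hs ((As Q)^[j] F) 1) (m i) (m j)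
  rw [FF_prod hNu hUnf hNm hQ hF i j] at h1
  simp only [_root_.sq] at h1
  rw [FF_prod hNu hUnf hNm hQ hF i i, FF_prod hNu hUnf hNm hQ hF j j, ← two_mul, ← two_mul] at h1
  have h2 : (4 : ℝ≥0∞) * aa Q F (i + j) ^ 2 ≤ 4 * (aa Q F (2 * i) * aa Q F (2 * j)) := by
    calc (4 : ℝ≥0∞) * aa Q F (i + j) ^ 2 = 2 * aa Q F (i + j) * (2 * aa Q F (i + j)) := by ring
      _ ≤ _ := h1
      _ = _ := by ring
  exact (ENNReal.mul_le_mul_iff_right (by norm_num) (by norm_num)).1 h2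

lemma Ao_pow_le (hNm : StmtNm) {l : ℕ → ℝ} {Φ : G → ℂ} (hE : HE l Φ) {Q : Finset ℕ}
    (hQ : ∀ p ∈ Q, p.Prime) : ∀ (k : ℕ) (y : G), eP l Q ^ k * ‖Φ y‖ₑ ≤ (Ao Q)^[k] (fun z => ‖Φ z‖ₑ) y
  | 0, y => by
    rw [pow_zero, one_mul]
    exact le_rfl
  | k + 1, y => by
    rw [Function.iterate_succ_apply']
    refine le_trans ?_ (Ao_mono (Ao_pow_le hNm hE hQ k) Q y)
    rw [Ao_smul, pow_succ, mul_assoc]
    exact mul_le_mul_right (Ao_le hNm hE hQ y) _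

/-- the lower bound for the top moment -/
lemma aa_ge (hNu : StmtNuL) (hUnf : StmtUnf) (hNm : StmtNm) {l : ℕ → ℝ} {Φ : G → ℂ} (hE : HE l Φ)
    {U : Set G} (hU : MeasurableSet U) {Q : Finset ℕ} (hQ : ∀ p ∈ Q, p.Prime) (k : ℕ) :
    eP l Q ^ (2 * k) * ms Φ U ^ 2 ≤ aa Q (AIkM.ff Φ U) (2 * k) := by
  set F := AIkM.ff Φ U with hFd
  have hF : Measurable F := AIkM.ff_meas hE.cont hU
  have hφ : Measurable fun y => ‖Φ y‖ₑ := hE.cont.enorm.measurable
  set Ψ : G → ℝ≥0∞ := hs ((As Q)^[k] F) 1 with hΨ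
  have hΨm : Measurable Ψ := meas_hs (meas_As_iter hF Q k) 1
  have s1 : 2 * (eP l Q ^ k * ms Φ U) ≤ ∫⁻ y in FF, Ψ y * ‖Φ y‖ₑ ∂nu := by
    rw [hΨ, unf hUnf hNm (meas_As_iter hF Q k) hφ fun γ y => by rw [hE.inv],
      ← int_iter hNu Q hφ k hF, ← AIkM.ms_eq Φ hU]
    have m0 : Measurable fun x => AIkM.ff Φ U x * ‖Φ x‖ₑ := hF.mul hφ
    rw [← lintegral_const_mul _ m0]
    refine mul_le_mul_right (lintegral_mono fun x => ?_) 2
    calc eP l Q ^ k * (F x * ‖Φ x‖ₑ) = F x * (eP l Q ^ k * ‖Φ x‖ₑ) := by ring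
      _ ≤ _ := mul_le_mul_right (Ao_pow_le hNm hE hQ k x) _
  have s2 : (2 * (eP l Q ^ k * ms Φ U)) ^ 2 ≤ 2 * ∫⁻ y in FF, Ψ y ^ 2 ∂nu := by
    refine (pow_le_pow_left' s1 2).trans ((AIkM.cs (nu.restrict FF) Ψ _ hΨm hφ).trans ?_)
    rw [mul_comm]
    exact mul_le_mul_left hE.norm _
  have s3 : ∫⁻ y in FF, Ψ y ^ 2 ∂nu = 2 * aa Q F (2 * k) := by
    simp only [_root_.sq]
    rw [hΨ, FF_prod hNu hUnf hNm hQ hF k k, ← two_mul]
  rw [s3] at s2
  have h2 : (4 : ℝ≥0∞) * (eP l Q ^ (2 * k) * ms Φ U ^ 2) ≤ 4 * aa Q F (2 * k) := by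
    calc (4 : ℝ≥0∞) * (eP l Q ^ (2 * k) * ms Φ U ^ 2) = (2 * (eP l Q ^ k * ms Φ U)) ^ 2 := by ring
      _ ≤ _ := s2
      _ = _ := by rw [← mul_assoc]; norm_num
  exact (ENNReal.mul_le_mul_iff_right (by norm_num) (by norm_num)).1 h2

/-! ### Convexity -/

lemma convex_max (k : ℕ) (c : ℕ → ℝ) (hc : ∀ n, 0 ≤ c n)
    (h : ∀ n, 0 < n → n < k → c n ^ 2 ≤ c (n - 1) * c (n + 1)) (h0 : c 0 ≤ c k) :
    ∀ n, n ≤ k → c n ≤ c k := by
  obtain ⟨m, hm, hmax⟩ := Finset.exists_max_image (Finset.range (k + 1)) c ⟨0, Finset.mem_range.2 (by omega)⟩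
  have hm' : m ≤ k := by
    have := Finset.mem_range.1 hm
    omega
  have hmx : ∀ n, n ≤ k → c n ≤ c m := fun n hn => hmax n (Finset.mem_range.2 (by omega))
  suffices hkm : c m ≤ c k from fun n hn => (hmx n hn).trans hkm
  by_contra hlt
  rw [not_le] at hlt
  classical
  set P : ℕ → Prop := fun n => c n = c m with hP
  set n := Nat.findGreatest P k with hn
  have h1 : P n := Nat.findGreatest_spec (P := P) hm' rfl
  have h2 : n ≤ k := Nat.findGreatest_le k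
  have h3 : n ≠ k := fun h => by
    have : c k = c m := h ▸ h1
    linarith
  have h4 : n < k := lt_of_le_of_ne h2 h3
  have h5 : ¬ P (n + 1) := Nat.findGreatest_is_greatest (P := P) (Nat.lt_succ_self n) h4
  have h6 : 0 < n := by
    rcases Nat.eq_zero_or_pos n with h | h
    · rw [h] at h1
      have : c 0 = c m := h1
      linarith
    · exact h
  have h7 := h n h6 h4
  have h8 : c n = c m := h1
  rw [h8] at h7
  have h9 := hmx (n - 1) (by omega)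
  have h10 := hmx (n + 1) h4
  have h11 : 0 < c m := lt_of_le_of_lt (hc k) hlt
  apply h5
  show c (n + 1) = c m
  refine le_antisymm h10 ?_
  have h12 : c (n - 1) * c (n + 1) ≤ c m * c (n + 1) := mul_le_mul_of_nonneg_right h9 (hc _)
  nlinarith

/-- consequences of log-convexity -/
lemma convex_all (k : ℕ) (a : ℕ → ℝ) (ha : ∀ n, 0 ≤ a n) (h : ∀ i j, a (i + j) ^ 2 ≤ a (2 * i) * a (2 * j))
    {r : ℝ} (hr : 0 < r) (h0 : r ^ (2 * k) * a 0 ≤ a (2 * k)) :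
    ∀ j, j ≤ 2 * k → r ^ (2 * k - j) * a j ≤ a (2 * k) := by
  have hev : ∀ n, n ≤ k → r ^ (2 * (k - n)) * a (2 * n) ≤ a (2 * k) := by
    have h1 := convex_max k (fun n => r ^ (2 * (k - n)) * a (2 * n)) (fun n => by
      have := ha (2 * n)
      positivity) ?_ ?_
    · intro n hn
      have := h1 n hn
      simpa using this
    · intro n hn hnk
      have h2 := h (n - 1) (n + 1)
      have e1 : n - 1 + (n + 1) = 2 * n := by omega
      rw [e1] at h2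
      have e2 : r ^ (2 * (k - (n - 1))) * r ^ (2 * (k - (n + 1))) = (r ^ (2 * (k - n))) ^ 2 := by
        rw [← pow_add, ← pow_mul]
        congr 1
        omega
      calc (r ^ (2 * (k - n)) * a (2 * n)) ^ 2 = (r ^ (2 * (k - n))) ^ 2 * a (2 * n) ^ 2 := by ring
        _ ≤ (r ^ (2 * (k - n))) ^ 2 * (a (2 * (n - 1)) * a (2 * (n + 1))) :=
          mul_le_mul_of_nonneg_left h2 (by positivity)
        _ = _ := by rw [← e2]; ring
    · simpa using h0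
  intro j hj
  rcases Nat.even_or_odd' j with ⟨n, rfl | rfl⟩
  · have h1 := hev n (by omega)
    have e1 : 2 * k - 2 * n = 2 * (k - n) := by omega
    rw [e1]
    exact h1
  · have h1 := hev n (by omega)
    have h2 := hev (n + 1) (by omega)
    have h3 := h n (n + 1)
    have e1 : n + (n + 1) = 2 * n + 1 := by omega
    rw [e1] at h3
    have e2 : (r ^ (2 * k - (2 * n + 1))) ^ 2 = r ^ (2 * (k - n)) * r ^ (2 * (k - (n + 1))) := by
      rw [← pow_add, ← pow_mul]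
      congr 1
      omega
    have h4 : (r ^ (2 * k - (2 * n + 1)) * a (2 * n + 1)) ^ 2 ≤ a (2 * k) ^ 2 := by
      calc (r ^ (2 * k - (2 * n + 1)) * a (2 * n + 1)) ^ 2
          = (r ^ (2 * k - (2 * n + 1))) ^ 2 * a (2 * n + 1) ^ 2 := by ring
        _ ≤ (r ^ (2 * k - (2 * n + 1))) ^ 2 * (a (2 * n) * a (2 * (n + 1))) :=
          mul_le_mul_of_nonneg_left h3 (by positivity)
        _ = (r ^ (2 * (k - n)) * a (2 * n)) * (r ^ (2 * (k - (n + 1))) * a (2 * (n + 1))) := by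
          rw [e2]
          ring
        _ ≤ a (2 * k) * a (2 * k) := mul_le_mul h1 h2 (by
            have := ha (2 * (n + 1))
            positivity) (ha _)
        _ = a (2 * k) ^ 2 := by ring
    exact (pow_le_pow_iff_left₀ (by
      have := ha (2 * n + 1)
      positivity) (ha _) (by norm_num)).1 h4

/-! ### Finiteness -/

lemma finite_box (B : ℝ) : {s : Mat | ∀ i j, |((s i j : ℤ) : ℝ)| ≤ B}.Finite := by
  have h1 : (Set.pi Set.univ (fun _ : Fin 2 => Set.pi Set.univ (fun _ : Fin 2 =>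
      Set.Icc (-(⌈B⌉ : ℤ)) ⌈B⌉)) : Set (Fin 2 → Fin 2 → ℤ)).Finite :=
    Set.Finite.pi fun _ => Set.Finite.pi fun _ => Set.finite_Icc _ _
  refine Set.Finite.subset h1 ?_
  intro s hs i _ j _
  have h2 := abs_le.1 (hs i j)
  have h3 : B ≤ ((⌈B⌉ : ℤ) : ℝ) := Int.le_ceil B
  constructor
  · have : (-(⌈B⌉ : ℤ) : ℝ) ≤ ((s i j : ℤ) : ℝ) := by linarith
    exact_mod_cast this
  · have : ((s i j : ℤ) : ℝ) ≤ ((⌈B⌉ : ℤ) : ℝ) := by linarith
    exact_mod_cast this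

lemma Dd_sum_top (hNm : StmtNm) (hDds : StmtDds) {Φ : G → ℂ} (hΦ : Continuous Φ) {R : ℝ}
    {U : Set G} (hU : MeasurableSet U) (hUR : U ⊆ Om R) (hms : ms Φ U ≠ ⊤) {M : ℝ} (hM : 1 ≤ M)
    {Q : Finset ℕ} (hQ : ∀ p ∈ Q, p.Prime ∧ M < (p : ℝ) ∧ (p : ℝ) ≤ 2 * M) (j : ℕ) :
    ∑' s : Mat, (Lv2 Q j).indicator (fun s => Dd Φ U (nm s)) s ≠ ⊤ := by
  classical
  have hfin := finite_box (2 * R * R * (2 * M) ^ j)
  set T := hfin.toFinset with hT
  have h1 : ∀ s ∉ T, (Lv2 Q j).indicator (fun s => Dd Φ U (nm s)) s = 0 := by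
    intro s hs
    by_cases h : s ∈ Lv2 Q j
    · rw [Set.indicator_of_mem h]
      obtain ⟨-, n, hn, hdet⟩ := h
      have hn0 : 0 < n := Nat.pos_of_ne_zero hn.1
      have hd : 0 < s.det := by
        rw [hdet]
        positivity
      refine ((hDds.1 Φ hΦ U hU (nm s)).2.2 fun x hx hx' => hs ?_)
      rw [hT, Set.Finite.mem_toFinset]
      intro i k
      refine (hNm.2.2.2.2 R R x s hd (hUR hx) (hUR hx') i k).trans ?_
      have h2 : √((s.det : ℤ) : ℝ) = n := by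
        rw [hdet]
        push_cast
        exact Real.sqrt_mul_self (by positivity)
      rw [h2]
      have h3 := (sm_size hM hQ j n hn).2
      have h4 : 0 ≤ R ∨ R < 0 := le_or_gt 0 R
      have h5 : 0 ≤ 2 * R * R := by nlinarith [mul_self_nonneg R]
      exact mul_le_mul_of_nonneg_left h3 h5
    · rw [Set.indicator_of_notMem h]
  rw [tsum_eq_sum (s := T) fun s hs => h1 s hs]
  refine ENNReal.sum_ne_top.2 fun s _ => ?_
  by_cases h : s ∈ Lv2 Q j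
  · rw [Set.indicator_of_mem h]
    exact ne_top_of_le_ne_top hms (hDds.1 Φ hΦ U hU (nm s)).2.1
  · rw [Set.indicator_of_notMem h]
    exact ENNReal.zero_ne_top

lemma El_int {Φ : G → ℂ} (hΦ : Continuous Φ) {U : Set G} (hU : MeasurableSet U) {M : ℝ} (hM : 1 ≤ M)
    {Q : Finset ℕ} (hQ : ∀ p ∈ Q, p.Prime ∧ M < (p : ℝ) ∧ (p : ℝ) ≤ 2 * M) (j : ℕ) :
    ∫⁻ x, AIkM.ff Φ U x * El Q j (AIkM.ff Φ U) x ∂nu ≤
      mi M ^ j * ∑' s : Mat, (Lv2 Q j).indicator (fun s => Dd Φ U (nm s)) s := by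
  have hF := AIkM.ff_meas hΦ hU
  refine le_trans ?_ (mul_le_mul_right (Hl_int hΦ hU Q j) _)
  have m0 : Measurable fun x => AIkM.ff Φ U x * Hl Q j (AIkM.ff Φ U) x := hF.mul (meas_Hl Q j hF)
  rw [← lintegral_const_mul _ m0]
  refine lintegral_mono fun x => ?_
  calc AIkM.ff Φ U x * El Q j (AIkM.ff Φ U) x
      ≤ AIkM.ff Φ U x * (mi M ^ j * Hl Q j (AIkM.ff Φ U) x) := mul_le_mul_right (El_le_Hl hM hQ j _ x) _
    _ = _ := by ring

end

end Pool.Agent.A54.HS
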