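import Pool.Agent.Lib.HS.Am8

/-!
# Package `HS`, the square amplifier, part 9: the amplifier inequality without lower terms (AI3)
-/

set_option autoImplicit false

namespace Pool.Agent.A54.HS

open MeasureTheory Filter Topology Set
open scoped ContDiff ComplexConjugate UpperHalfPlane MatrixGroups ENNReal
open Pool.Agent.A54.Dyn (G fl base ze io mk4 dom)
open Pool.Agent.A54.Av (Mat NonSc)
open Pool.Agent.A54.Hp Pool.Agent.A54.Hp.Hk Pool.Agent.A54.Hp.A2M

noncomputable section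

/-- **AI3** the amplifier inequality with squares, only the top level (for the bad case) -/
def StmtAI3 : Prop := ∀ (k : ℕ) (R : ℝ), 1 ≤ k → 1 ≤ R → ∃ C : ℝ, 1 ≤ C ∧ ∀ (l : ℕ → ℝ) (Φ : G → ℂ), HE l Φ →
  ∀ U : Set G, MeasurableSet U → U ⊆ Om R → ∀ M : ℝ, 1 ≤ M → ∀ Q : Finset ℕ, Q ⊆ Pm M →
    (∀ p ∈ Q, |l p| ≤ 1 / 2) → ENNReal.ofReal C ≤ (Q.card : ℝ≥0∞) ^ k * ms Φ U →
      (Q.card : ℝ≥0∞) ^ (2 * k) * ms Φ U ^ 2 ≤ ENNReal.ofReal (C / M ^ (2 * k)) *
        ∑' s : Mat, (Lv2 Q (2 * k)).indicator (fun s => Dd Φ U (nm s)) s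

/-- the real variable part: absorption of the lower terms -/
lemma absorb (k : ℕ) (hk : 1 ≤ k) {K0 B q : ℝ} (hK0 : 1 ≤ K0) (hB : B = 4 * k * K0) (hq : 1 ≤ q)
    (a e : ℕ → ℝ) (ha : ∀ n, 0 ≤ a n) (he0 : ∀ n, 0 ≤ e n) (he : ∀ n, e n ≤ a n)
    (h : ∀ i j, a (i + j) ^ 2 ≤ a (2 * i) * a (2 * j))
    (h0 : (B ^ 2 * q) ^ k * a 0 ≤ a (2 * k))
    (hup : a (2 * k) ≤ K0 * ∑ j ∈ Finset.range (2 * k + 1), q ^ ((2 * k - j) / 2) * e j) :
    a (2 * k) ≤ 2 * K0 * e (2 * k) := by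
  have hkR : (1 : ℝ) ≤ k := by exact_mod_cast hk
  have hB1 : 1 ≤ B := by
    rw [hB]
    nlinarith
  have hB0 : 0 < B := by linarith
  set r : ℝ := B * √q with hr
  have hsq : 1 ≤ √q := by
    rw [Real.one_le_sqrt]
    exact hq
  have hr0 : 0 < r := by positivity
  have hrB : B ≤ r := by
    rw [hr]
    nlinarith
  have hr2 : r ^ 2 = B ^ 2 * q := by
    rw [hr, mul_pow, Real.sq_sqrt (by linarith)]
  have h1 := convex_all k a ha h hr0 (by rw [pow_mul, hr2]; exact h0)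
  -- the weights
  have h2 : ∀ m : ℕ, 1 ≤ m → B * q ^ (m / 2) ≤ r ^ m := by
    intro m hm
    have h3 : ∀ i : ℕ, (B * q) ^ i ≤ r ^ (2 * i) := by
      intro i
      rw [pow_mul, hr2]
      refine pow_le_pow_left₀ (by positivity) ?_ i
      have : B ≤ B ^ 2 := by nlinarith
      exact mul_le_mul_of_nonneg_right this (by linarith)
    rcases Nat.even_or_odd' m with ⟨i, rfl | rfl⟩
    · have e1 : 2 * i / 2 = i := by omega
      rw [e1]
      refine le_trans ?_ (h3 i)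
      rw [mul_pow]
      refine mul_le_mul_of_nonneg_right ?_ (by positivity)
      exact le_self_pow₀ hB1 (by omega)
    · have e1 : (2 * i + 1) / 2 = i := by omega
      rw [e1, pow_succ, mul_comm (r ^ (2 * i)) r]
      refine mul_le_mul hrB ?_ (by positivity) hr0.le
      refine le_trans ?_ (h3 i)
      rw [mul_pow]
      exact le_mul_of_one_le_left (by positivity) (one_le_pow₀ hB1)
  -- the lower terms
  have h3 : ∀ j ∈ Finset.range (2 * k), q ^ ((2 * k - j) / 2) * e j ≤ a (2 * k) / B := by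
    intro j hj
    have hj' := Finset.mem_range.1 hj
    have h4 := h1 j (by omega)
    have h5 := h2 (2 * k - j) (by omega)
    rw [le_div_iff₀ hB0]
    calc q ^ ((2 * k - j) / 2) * e j * B = (B * q ^ ((2 * k - j) / 2)) * e j := by ring
      _ ≤ r ^ (2 * k - j) * e j := mul_le_mul_of_nonneg_right h5 (he0 j)
      _ ≤ r ^ (2 * k - j) * a j := mul_le_mul_of_nonneg_left (he j) (by positivity)
      _ ≤ _ := h4
  have h4 : ∑ j ∈ Finset.range (2 * k), q ^ ((2 * k - j) / 2) * e j ≤ 2 * k * (a (2 * k) / B) := by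
    refine (Finset.sum_le_sum h3).trans (le_of_eq ?_)
    rw [Finset.sum_const, Finset.card_range, nsmul_eq_mul]
    push_cast
    ring
  rw [Finset.sum_range_succ, Nat.sub_self, Nat.zero_div, pow_zero, one_mul] at hup
  have h5 : K0 * (2 * k * (a (2 * k) / B)) = a (2 * k) / 2 := by
    rw [hB]
    have : K0 ≠ 0 := by linarith
    have : (k : ℝ) ≠ 0 := by linarith
    field_simp
    ring
  have h6 : K0 * ∑ j ∈ Finset.range (2 * k), q ^ ((2 * k - j) / 2) * e j ≤ a (2 * k) / 2 := by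
    rw [← h5]
    exact mul_le_mul_of_nonneg_left h4 (by linarith)
  nlinarith

theorem stmtAI3 (hNu : StmtNuL) (hUnf : StmtUnf) (hNm : StmtNm) (hDds : StmtDds) (hTot : StmtTot) :
    StmtAI3 := by
  classical
  intro k R hk hR
  obtain ⟨CD, hCD0, hCD⟩ := hDds.2 R hR
  obtain ⟨CT, hCT0, hCT⟩ := hTot R hR
  set K0 : ℝ := max 1 (Ck (2 * k)).toReal with hK0d
  have hK01 : 1 ≤ K0 := le_max_left _ _
  have hkR : (1 : ℝ) ≤ k := by exact_mod_cast hk
  set B : ℝ := 4 * k * K0 with hBd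
  have hB1 : 1 ≤ B := by
    rw [hBd]
    nlinarith
  have hB0 : 0 < B := by linarith
  set C1 : ℝ := (B ^ 2) ^ k * CD * (4 / 3) ^ (2 * k) with hC1
  have hC10 : 0 ≤ C1 := by positivity
  set C2 : ℝ := 2 * K0 * (4 / 3) ^ (2 * k) with hC2
  have hC20 : 0 ≤ C2 := by positivity
  refine ⟨1 + C1 + C2, by linarith, ?_⟩
  intro l Φ hE U hU hUR M hM Q hQM hQl hbig
  have hM0 : 0 < M := by linarith
  have hQ : ∀ p ∈ Q, p.Prime ∧ M < (p : ℝ) ∧ (p : ℝ) ≤ 2 * M := by
    intro p hp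
    have h1 := hQM hp
    unfold Pm at h1
    rw [Finset.mem_filter, Finset.mem_Ioc] at h1
    refine ⟨h1.2, (Nat.floor_lt hM0.le).1 h1.1.1, ?_⟩
    exact (Nat.le_floor_iff (by linarith)).1 h1.1.2
  have hQp : ∀ p ∈ Q, p.Prime := fun p hp => (hQ p hp).1
  -- `ms Φ U` is finite
  have hmsT : ms Φ U ≠ ⊤ := by
    have h1 : ms Φ U ≤ ms Φ (Om R) := lintegral_mono_set hUR
    exact ne_top_of_le_ne_top ENNReal.ofReal_ne_top (h1.trans (hCT l Φ hE))
  set m : ℝ := (ms Φ U).toReal with hm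
  have hms : ms Φ U = ENNReal.ofReal m := (ENNReal.ofReal_toReal hmsT).symm
  have hm0 : 0 ≤ m := ENNReal.toReal_nonneg
  obtain ⟨q, hq⟩ : ∃ q : ℝ, q = (Q.card : ℝ) := ⟨_, rfl⟩
  have hqE : (Q.card : ℝ≥0∞) = ENNReal.ofReal q := by rw [hq]; exact (ENNReal.ofReal_natCast _).symm
  have hqN : ((Q.card : ℝ≥0∞)).toReal = q := by rw [hq]; exact ENNReal.toReal_natCast _
  have hq0 : 0 ≤ q := by rw [hq]; exact Nat.cast_nonneg _
  have hqc : Q.card = 0 → q = 0 := fun h => by rw [hq, h]; simp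
  have hqc1 : 1 ≤ Q.card → 1 ≤ q := fun h => by rw [hq]; exact_mod_cast h
  have hePq : ENNReal.ofReal (3 / 4 * q) ≤ eP l Q := by
    rw [hq]
    exact eP_ge hQp hQl
  clear hq
  have hbigR : 1 + C1 + C2 ≤ q ^ k * m := by
    rw [hqE, hms, ← ENNReal.ofReal_pow hq0, ← ENNReal.ofReal_mul (by positivity)] at hbig
    exact (ENNReal.ofReal_le_ofReal_iff (by positivity)).1 hbig
  have hcard : 1 ≤ Q.card := by
    rcases Nat.eq_zero_or_pos Q.card with h | h
    · exfalso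
      rw [hqc h, zero_pow (by omega), zero_mul] at hbigR
      linarith
    · exact h
  have hq1 : 1 ≤ q := hqc1 hcard
  -- the moments
  set F := AIkM.ff Φ U with hFd
  have hF : Measurable F := AIkM.ff_meas hE.cont hU
  set T : ℝ≥0∞ := ∑' s : Mat, (Lv2 Q (2 * k)).indicator (fun s => Dd Φ U (nm s)) s with hT
  have hTT : T ≠ ⊤ := Dd_sum_top hNm hDds hE.cont hU hUR hmsT hM hQ (2 * k)
  have hmiT : ∀ j : ℕ, mi M ^ j ≠ ⊤ := fun j => ENNReal.pow_ne_top
    (ne_top_of_le_ne_top ENNReal.one_ne_top (mi_le hM))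
  have heT : ∀ j, ∫⁻ x, F x * El Q j F x ∂nu ≠ ⊤ := fun j =>
    ne_top_of_le_ne_top (ENNReal.mul_ne_top (hmiT j)
      (Dd_sum_top hNm hDds hE.cont hU hUR hmsT hM hQ j)) (El_int hE.cont hU hM hQ j)
  have hup : ∀ i, aa Q F i ≤ Ck i * ∑ j ∈ Finset.range (i + 1), (Q.card : ℝ≥0∞) ^ ((i - j) / 2) *
      ∫⁻ x, F x * El Q j F x ∂nu := by
    intro i
    have m1 : ∀ j, Measurable fun x => F x * El Q j F x := fun j => hF.mul (meas_El Q j hF)
    have e1 : Ck i * ∑ j ∈ Finset.range (i + 1), (Q.card : ℝ≥0∞) ^ ((i - j) / 2) *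
        ∫⁻ x, F x * El Q j F x ∂nu = ∫⁻ x, Ck i * ∑ j ∈ Finset.range (i + 1),
          (Q.card : ℝ≥0∞) ^ ((i - j) / 2) * (F x * El Q j F x) ∂nu := by
      rw [lintegral_const_mul _ (Finset.measurable_sum _ fun j _ => (m1 j).const_mul _),
        lintegral_finsetSum _ fun j _ => (m1 j).const_mul _]
      congr 1
      exact Finset.sum_congr rfl fun j _ => (lintegral_const_mul _ (m1 j)).symm
    rw [e1]
    unfold aa
    refine lintegral_mono fun x => ?_
    refine (mul_le_mul_right (pow_le hNm hQp hcard F i x) (F x)).trans (le_of_eq ?_)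
    rw [mul_left_comm, Finset.mul_sum]
    congr 1
    exact Finset.sum_congr rfl fun j _ => by ring
  have haT : ∀ i, aa Q F i ≠ ⊤ := by
    intro i
    refine ne_top_of_le_ne_top (ENNReal.mul_ne_top (Ck_top i) (ENNReal.sum_ne_top.2 fun j _ =>
      ENNReal.mul_ne_top (ENNReal.pow_ne_top (ENNReal.natCast_ne_top _)) (heT j))) (hup i)
  have hea : ∀ j, ∫⁻ x, F x * El Q j F x ∂nu ≤ aa Q F j := fun j =>
    lintegral_mono fun x => mul_le_mul_right (le_pow hNm hQp F j x) (F x)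
  set a : ℕ → ℝ := fun i => (aa Q F i).toReal with had
  set e : ℕ → ℝ := fun j => (∫⁻ x, F x * El Q j F x ∂nu).toReal with hed
  have hcs : ∀ i j, a (i + j) ^ 2 ≤ a (2 * i) * a (2 * j) := by
    intro i j
    have h1 := ENNReal.toReal_mono (ENNReal.mul_ne_top (haT _) (haT _)) (aa_cs hNu hUnf hNm hQp hF i j)
    rw [ENNReal.toReal_pow, ENNReal.toReal_mul] at h1
    exact h1
  -- the top moment
  have hge : (3 / 4 * q) ^ (2 * k) * m ^ 2 ≤ a (2 * k) := by
    have h1 := aa_ge hNu hUnf hNm hE hU hQp k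
    have h2 : ENNReal.ofReal ((3 / 4 * q) ^ (2 * k) * m ^ 2) ≤ aa Q F (2 * k) := by
      refine le_trans ?_ h1
      rw [ENNReal.ofReal_mul (by positivity), ENNReal.ofReal_pow (by positivity),
        ENNReal.ofReal_pow hm0, ← hms]
      exact mul_le_mul_left (pow_le_pow_left' hePq _) _
    exact (ENNReal.ofReal_le_iff_le_toReal (haT _)).1 h2
  -- the bottom moment
  have h00 : a 0 ≤ CD * m := by
    have h1 : aa Q F 0 = ∑' γ : SL(2, ℤ), Dd Φ U (io γ) := by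
      have h2 : aa Q F 0 = AIkM.II F 1 := rfl
      rw [h2, AIkM.II_eq hE.cont hU, ← Equiv.tsum_eq eSL (fun s : Mn 1 => Dd Φ U (nm s.1))]
      refine tsum_congr fun γ => ?_
      change Dd Φ U (nm (γ : Mat)) = _
      rw [hNm.2.1]
    have h2 := hCD Φ hE.cont U hU hUR
    rw [← h1, hms, ← ENNReal.ofReal_mul hCD0] at h2
    exact ENNReal.toReal_le_of_le_ofReal (by positivity) h2
  have h0 : (B ^ 2 * q) ^ k * a 0 ≤ a (2 * k) := by
    refine le_trans ?_ hge
    have h3 : (B ^ 2 * q) ^ k * a 0 ≤ (B ^ 2 * q) ^ k * (CD * m) :=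
      mul_le_mul_of_nonneg_left h00 (by positivity)
    refine h3.trans ?_
    have h4 : C1 ≤ q ^ k * m := by linarith
    have e1 : (3 / 4 : ℝ) ^ (2 * k) * (4 / 3) ^ (2 * k) = 1 := by
      rw [← mul_pow]
      norm_num
    have h5 : (3 / 4 : ℝ) ^ (2 * k) * q ^ k * m * C1 ≤ (3 / 4 : ℝ) ^ (2 * k) * q ^ k * m * (q ^ k * m) :=
      mul_le_mul_of_nonneg_left h4 (by positivity)
    calc (B ^ 2 * q) ^ k * (CD * m) = ((3 / 4 : ℝ) ^ (2 * k) * (4 / 3) ^ (2 * k)) *
          ((B ^ 2) ^ k * q ^ k * (CD * m)) := by rw [e1, mul_pow, one_mul]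
      _ = (3 / 4 : ℝ) ^ (2 * k) * q ^ k * m * C1 := by rw [hC1]; ring
      _ ≤ _ := h5
      _ = _ := by
        have e2 : q ^ (2 * k) = q ^ k * q ^ k := by rw [two_mul, pow_add]
        rw [mul_pow, e2]
        ring
  -- the upper bound
  have hupR : a (2 * k) ≤ K0 * ∑ j ∈ Finset.range (2 * k + 1), q ^ ((2 * k - j) / 2) * e j := by
    have h1 := ENNReal.toReal_mono (ENNReal.mul_ne_top (Ck_top (2 * k)) (ENNReal.sum_ne_top.2 fun j _ =>
      ENNReal.mul_ne_top (ENNReal.pow_ne_top (ENNReal.natCast_ne_top _)) (heT j))) (hup (2 * k))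
    rw [ENNReal.toReal_mul, ENNReal.toReal_sum fun j _ =>
      ENNReal.mul_ne_top (ENNReal.pow_ne_top (ENNReal.natCast_ne_top _)) (heT j)] at h1
    have h2 : ∀ j ∈ Finset.range (2 * k + 1), ((Q.card : ℝ≥0∞) ^ ((2 * k - j) / 2) *
        ∫⁻ x, F x * El Q j F x ∂nu).toReal = q ^ ((2 * k - j) / 2) * e j := by
      intro j _
      rw [ENNReal.toReal_mul, ENNReal.toReal_pow, hqN]
    rw [Finset.sum_congr rfl h2] at h1
    refine h1.trans (mul_le_mul_of_nonneg_right (le_max_right _ _) ?_)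
    exact Finset.sum_nonneg fun j _ => mul_nonneg (by positivity) ENNReal.toReal_nonneg
  have hfin := absorb k hk hK01 hBd hq1 a e (fun _ => ENNReal.toReal_nonneg)
    (fun _ => ENNReal.toReal_nonneg) (fun j => ENNReal.toReal_mono (haT j) (hea j)) hcs h0 hupR
  -- conclusion
  have he2 : e (2 * k) ≤ (M ^ (2 * k))⁻¹ * T.toReal := by
    have h1 := ENNReal.toReal_mono (ENNReal.mul_ne_top (hmiT (2 * k)) hTT) (El_int hE.cont hU hM hQ (2 * k))
    rw [ENNReal.toReal_mul, ENNReal.toReal_pow] at h1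
    unfold mi at h1
    rw [ENNReal.toReal_inv, ENNReal.toReal_ofReal hM0.le, inv_pow] at h1
    exact h1
  have hTr : 0 ≤ T.toReal := ENNReal.toReal_nonneg
  have h9 : q ^ (2 * k) * m ^ 2 ≤ (1 + C1 + C2) / M ^ (2 * k) * T.toReal := by
    have e1 : (3 / 4 : ℝ) ^ (2 * k) * (4 / 3) ^ (2 * k) = 1 := by
      rw [← mul_pow]
      norm_num
    have h1 : (3 / 4 * q) ^ (2 * k) * m ^ 2 ≤ 2 * K0 * ((M ^ (2 * k))⁻¹ * T.toReal) :=
      hge.trans (hfin.trans (mul_le_mul_of_nonneg_left he2 (by positivity)))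
    have h2 := mul_le_mul_of_nonneg_left h1 (by positivity : (0 : ℝ) ≤ (4 / 3) ^ (2 * k))
    have h3 : (4 / 3 : ℝ) ^ (2 * k) * ((3 / 4 * q) ^ (2 * k) * m ^ 2) = q ^ (2 * k) * m ^ 2 := by
      calc (4 / 3 : ℝ) ^ (2 * k) * ((3 / 4 * q) ^ (2 * k) * m ^ 2)
          = ((3 / 4 : ℝ) ^ (2 * k) * (4 / 3) ^ (2 * k)) * (q ^ (2 * k) * m ^ 2) := by
            rw [mul_pow]
            ring
        _ = _ := by rw [e1, one_mul]
    rw [h3] at h2
    refine h2.trans ?_
    calc (4 / 3 : ℝ) ^ (2 * k) * (2 * K0 * ((M ^ (2 * k))⁻¹ * T.toReal))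
        = C2 / M ^ (2 * k) * T.toReal := by
          rw [hC2]
          ring
      _ ≤ _ := by
        refine mul_le_mul_of_nonneg_right ?_ hTr
        exact div_le_div_of_nonneg_right (by linarith) (by positivity)
  rw [hqE, hms, ← ENNReal.ofReal_pow hq0, ← ENNReal.ofReal_pow hm0, ← ENNReal.ofReal_mul (by positivity),
    ← ENNReal.ofReal_toReal hTT, ← ENNReal.ofReal_mul (by positivity)]
  exact ENNReal.ofReal_le_ofReal h9

end

end Pool.Agent.A54.HS
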