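import Pool.Agent.Lib.HS.Cel2
import Pool.Agent.Lib.HS.L.Defs

/-!
# Package `HS`, cells: the amplifier inequality of a system of cells (`HSL.Sys.AI`)
-/

set_option autoImplicit false

namespace Pool.Agent.A54.HS

open MeasureTheory Filter Topology Set
open scoped ContDiff ComplexConjugate UpperHalfPlane MatrixGroups ENNReal
open Pool.Agent.A54.Dyn (G fl base ze io mk4 dom)
open Pool.Agent.A54.Av (Mat NonSc)
open Pool.Agent.A54.Hp Pool.Agent.A54.Hp.Hk Pool.Agent.A54.Hp.A2M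

noncomputable section

/-- the short vectors -/
def Bx (D : ℝ) : Finset (Fin 2 → ℤ) :=
  (Fintype.piFinset fun _ => Finset.Icc (-⌊D⌋) ⌊D⌋).erase 0

lemma mem_Bx {D : ℝ} {u : Fin 2 → ℤ} : u ∈ Bx D ↔ u ≠ 0 ∧ ∀ a, |((u a : ℤ) : ℝ)| ≤ D := by
  unfold Bx
  rw [Finset.mem_erase, Fintype.mem_piFinset]
  refine and_congr_right fun _ => forall_congr' fun a => ?_
  rw [Finset.mem_Icc, abs_le]
  constructor
  · rintro ⟨h1, h2⟩
    refine ⟨?_, Int.le_floor.1 h2⟩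
    have h3 : -(u a) ≤ ⌊D⌋ := by omega
    have h4 := Int.le_floor.1 h3
    push_cast at h4
    linarith
  · rintro ⟨h1, h2⟩
    refine ⟨?_, Int.le_floor.2 h2⟩
    have h3 : -(u a) ≤ ⌊D⌋ := by
      rw [Int.le_floor]
      push_cast
      linarith
    omega

lemma card_Bx {D : ℝ} (hD : 1 ≤ D) : ((Bx D).card : ℝ) ≤ 9 * D ^ 2 := by
  have hf : (1 : ℤ) ≤ ⌊D⌋ := Int.le_floor.2 (by push_cast; exact hD)
  have h1 : (Bx D).card ≤ (2 * ⌊D⌋ + 1).toNat ^ 2 := by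
    unfold Bx
    refine (Finset.card_erase_le).trans ?_
    rw [Fintype.card_piFinset]
    simp only [Int.card_Icc, Finset.prod_const, Finset.card_univ, Fintype.card_fin]
    refine Nat.pow_le_pow_left ?_ 2
    refine le_of_eq ?_
    congr 1
    ring
  have h2 : (((2 * ⌊D⌋ + 1).toNat : ℕ) : ℝ) ≤ 3 * D := by
    have h3 : (((2 * ⌊D⌋ + 1).toNat : ℕ) : ℤ) = 2 * ⌊D⌋ + 1 := Int.toNat_of_nonneg (by omega)
    have h4 : (((2 * ⌊D⌋ + 1).toNat : ℕ) : ℝ) = 2 * (⌊D⌋ : ℝ) + 1 := by exact_mod_cast h3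
    have h5 : (⌊D⌋ : ℝ) ≤ D := Int.floor_le D
    rw [h4]
    linarith
  calc ((Bx D).card : ℝ) ≤ (((2 * ⌊D⌋ + 1).toNat ^ 2 : ℕ) : ℝ) := by exact_mod_cast h1
    _ = (((2 * ⌊D⌋ + 1).toNat : ℕ) : ℝ) ^ 2 := by push_cast; rfl
    _ ≤ (3 * D) ^ 2 := pow_le_pow_left₀ (Nat.cast_nonneg _) h2 2
    _ = _ := by ring

lemma Bx_nd {D : ℝ} {p : ℕ} (hp : D < p) : ∀ u ∈ Bx D, ¬ ∀ i, (p : ℤ) ∣ u i := by
  intro u hu h
  rw [mem_Bx] at hu
  refine hu.1 (funext fun a => ?_)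
  have h1 := hu.2 a
  have h2 : |u a| < (p : ℤ) := by
    have : ((|u a| : ℤ) : ℝ) < (p : ℝ) := by
      push_cast
      exact lt_of_le_of_lt h1 hp
    exact_mod_cast this
  exact Int.eq_zero_of_abs_lt_dvd (h a) h2

lemma Prim_of_Pr {s : Mat} (h : Pr s) : HSL.Prim s := by
  intro r hr
  by_contra hu
  have h1 : r.natAbs ≠ 1 := fun h' => hu (Int.isUnit_iff_natAbs_eq.2 h')
  obtain ⟨p, hp, hpr⟩ := Nat.exists_prime_and_dvd h1
  refine h p hp fun i j => ?_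
  exact dvd_trans (Int.natCast_dvd.2 hpr) (hr i j)

lemma Dir_of_dk {D : ℝ} {p : ℕ} {s : Mat} (h : dk (Bx D) p s) : HSL.Sys.Dir D p s := by
  intro u hu hD
  have h1 := h u (mem_Bx.2 ⟨hu, hD⟩)
  push Not at h1
  exact h1

/-- **the amplifier inequality of the system of cells**, with explicit numerical conditions -/
theorem AI_of (hNm : StmtNm) {R C : ℝ} (hR : 1 ≤ R) (hC1 : 1 ≤ C)
    (hC : ∀ (l : ℕ → ℝ) (Φ : G → ℂ), HE l Φ → ∀ (ι : Type) (c : ι → Set G) (W : Finset ι) (A : ℝ), 0 < A →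
      CelF Φ R A c W → ∀ M : ℝ, 1 ≤ M → ∀ Q : Finset ℕ, Q ⊆ Pm M →
      ∀ B : Finset (Fin 2 → ℤ), (∀ u ∈ B, ∀ p ∈ Q, ¬ ∀ i, (p : ℤ) ∣ u i) → 8 * (B.card : ℝ) ≤ M →
      (∀ p ∈ Q, |l p| ≤ 1 / 2 ∧ C * B.card * l p ^ 2 ≤ A * W.card) →
      ∀ t : ℝ, 0 ≤ t → (∑' s : Mat, (Lv2 Q 1).indicator (fun s => Dd Φ (Un c W) (nm s)) s ≤
        ENNReal.ofReal (A * t)) →
      ∀ T : Finset (ι × ι × Mat), Trp c W (Ld Q B) ⊆ T →
        (Q.card : ℝ) ^ 2 * A * (W.card : ℝ) ^ 2 ≤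
          C * ((T.card : ℝ) / M ^ 2 + t / M + (Q.card : ℝ) * W.card))
    {l : ℕ → ℝ} {Φ : G → ℂ} (hE : HE l Φ) (S : HSL.Sys) (c : S.ι → Set G) {A : ℝ} (hA : 0 < A)
    (hV : CelF Φ R A c S.V)
    (hmc : ∀ i ∈ S.V, ∀ j ∈ S.V, ∀ (m : ℕ) (s : Mat), 0 < m → s.det = (m : ℤ) ^ 2 →
      (∃ x ∈ c i, nm s * x ∈ c j) → HSL.Ret S.C S.w (S.g i) (S.g j) m s)
    {P s0 D σ t : ℝ} {Mm : ℕ} {pool : Finset ℕ} (hP : 1 ≤ P) (hMm : 1 ≤ Mm) (hK : 1 ≤ S.K) (hD : 1 ≤ D)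
    (hpool : pool ⊆ Pm P) (ht : 0 ≤ t) (hV0 : 0 < S.V.card)
    (n1 : ∀ p ∈ pool, |l p| ≤ 1 / 2 ∧ C * (9 * D ^ 2) * l p ^ 2 * S.K ^ s0 ≤ A * S.V.card)
    (n3 : 8 * (9 * D ^ 2) ≤ P)
    (n4 : ∑' s : Mat, (Lv2 pool 1).indicator (fun s => Dd Φ (Un c S.V) (nm s)) s ≤ ENNReal.ofReal (A * t))
    (n5 : 3 * C * t * (Mm : ℝ) ^ 2 * (S.K ^ s0) ^ 2 ≤ P * (pool.card : ℝ) ^ 2 * A * (S.V.card : ℝ) ^ 2)
    (n6 : 3 * C * Mm * S.K ^ s0 ≤ (pool.card : ℝ) * A * S.V.card)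
    (n7 : 3 * C * (Mm : ℝ) ^ 2 * P ^ 2 ≤ S.K ^ σ * A * S.V.card * (pool.card : ℝ) ^ 2) :
    S.AI P pool Mm s0 D σ := by
  classical
  intro Q hQ hQc W hW hWc
  have hP0 : 0 < P := by linarith
  have hKs : 0 < S.K ^ s0 := Real.rpow_pos_of_pos (by linarith) _
  have hKσ : 0 < S.K ^ σ := Real.rpow_pos_of_pos (by linarith) _
  obtain ⟨v, hv⟩ : ∃ v : ℝ, v = (S.V.card : ℝ) := ⟨_, rfl⟩
  obtain ⟨x, hx⟩ : ∃ x : ℝ, x = (W.card : ℝ) := ⟨_, rfl⟩
  obtain ⟨q, hq⟩ : ∃ q : ℝ, q = (Q.card : ℝ) := ⟨_, rfl⟩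
  obtain ⟨b, hb⟩ : ∃ b : ℝ, b = (pool.card : ℝ) := ⟨_, rfl⟩
  obtain ⟨m, hm⟩ : ∃ m : ℝ, m = (Mm : ℝ) := ⟨_, rfl⟩
  obtain ⟨κ, hκ⟩ : ∃ κ : ℝ, κ = S.K ^ s0 := ⟨_, rfl⟩
  have hm1 : 1 ≤ m := by rw [hm]; exact_mod_cast hMm
  have hv1 : 0 < v := by rw [hv]; exact_mod_cast hV0
  have hqb : b ≤ m * q := by
    rw [hb, hm, hq]
    exact_mod_cast hQc
  have hWc' : v ≤ κ * x := by rw [hv, hκ, hx]; exact hWc
  have hx0 : 0 ≤ x := by rw [hx]; positivity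
  have hq0 : 0 ≤ q := by rw [hq]; positivity
  have hb0 : 0 ≤ b := by rw [hb]; positivity
  have hκ0 : 0 < κ := by rw [hκ]; exact hKs
  rw [← hκ, ← hv] at n1
  rw [← hκ, ← hv, ← hb, ← hm] at n5 n6
  rw [← hv, ← hb, ← hm] at n7
  have hxp : 0 < x := by
    rcases hx0.eq_or_lt with h | h
    · rw [← h, mul_zero] at hWc'
      linarith
    · exact h
  -- the finite set of the returns
  have hQP : Q ⊆ Pm P := hQ.trans hpool
  have hPp : ∀ p ∈ pool, p.Prime ∧ P < (p : ℝ) ∧ (p : ℝ) ≤ 2 * P := by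
    intro p hp
    have h1 := hpool hp
    unfold Pm at h1
    rw [Finset.mem_filter, Finset.mem_Ioc] at h1
    exact ⟨h1.2, (Nat.floor_lt hP0.le).1 h1.1.1, (Nat.le_floor_iff (by linarith)).1 h1.1.2⟩
  have hfin := Trp_finite hNm (by linarith : (0 : ℝ) ≤ R) (fun i hi => (hV.1 i (hW hi)).2.1)
    (Ld_size hP hQP (Bx D))
  set T0 : Finset (S.ι × S.ι × Mat) := hfin.toFinset with hT0
  have hT0' : Trp c W (Ld Q (Bx D)) ⊆ (T0 : Set (S.ι × S.ι × Mat)) := by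
    rw [hT0, Set.Finite.coe_toFinset]
  have hDlt : ∀ p ∈ Q, D < (p : ℝ) := by
    intro p hp
    have h1 := (hPp p (hQ hp)).2.1
    have h2 : D ≤ 8 * (9 * D ^ 2) := by nlinarith
    linarith
  have hmain := hC l Φ hE S.ι c W A hA (hV.mono hW) P hP Q hQP (Bx D)
    (fun u hu p hp => Bx_nd (hDlt p hp) u hu) (by
      have := card_Bx hD
      linarith) (by
      intro p hp
      obtain ⟨h1, h2⟩ := n1 p (hQ hp)
      refine ⟨h1, ?_⟩
      rw [← hx]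
      have h3 : C * (Bx D).card * l p ^ 2 ≤ C * (9 * D ^ 2) * l p ^ 2 := by
        refine mul_le_mul_of_nonneg_right (mul_le_mul_of_nonneg_left (card_Bx hD) (by linarith)) (sq_nonneg _)
      have h4 : κ * (C * (9 * D ^ 2) * l p ^ 2) ≤ κ * (A * x) := by
        calc κ * (C * (9 * D ^ 2) * l p ^ 2) = C * (9 * D ^ 2) * l p ^ 2 * κ := by ring
          _ ≤ A * v := h2
          _ ≤ A * (κ * x) := mul_le_mul_of_nonneg_left hWc' hA.le
          _ = _ := by ring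
      exact h3.trans (le_of_mul_le_mul_left h4 hκ0)) t ht (by
      refine le_trans ?_ n4
      refine ENNReal.tsum_le_tsum fun s => ?_
      by_cases hs' : s ∈ Lv2 Q 1
      · rw [Set.indicator_of_mem hs', Set.indicator_of_mem (Lv2_mono hQ 1 hs')]
        refine lintegral_mono fun y => ?_
        have hsub : Un c W ⊆ Un c S.V := by
          unfold Un
          exact Set.biUnion_subset_biUnion_left (fun i hi => hW hi)
        exact mul_le_mul' (Set.indicator_le_indicator_of_subset hsub (fun _ => zero_le) y)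
          (Set.indicator_le_indicator_of_subset hsub (fun _ => zero_le) _)
      · rw [Set.indicator_of_notMem hs']
        exact zero_le) T0 hT0'
  rw [← hx, ← hq] at hmain
  -- the numerical part
  have hT : P ^ 2 * q ^ 2 * A * x ^ 2 ≤ 3 * C * T0.card := by
    -- second term
    have h2 : C * (t / P) ≤ q ^ 2 * A * x ^ 2 / 3 := by
      have h3 : m ^ 2 * κ ^ 2 * (3 * C * t) ≤ m ^ 2 * κ ^ 2 * (P * (q ^ 2 * A * x ^ 2)) := by
        calc m ^ 2 * κ ^ 2 * (3 * C * t) = 3 * C * t * m ^ 2 * κ ^ 2 := by ring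
          _ ≤ P * b ^ 2 * A * v ^ 2 := n5
          _ ≤ P * (m * q) ^ 2 * A * (κ * x) ^ 2 := by
              have e1 : b ^ 2 ≤ (m * q) ^ 2 := pow_le_pow_left₀ hb0 hqb 2
              have e2 : v ^ 2 ≤ (κ * x) ^ 2 := pow_le_pow_left₀ hv1.le hWc' 2
              refine mul_le_mul ?_ e2 (by positivity) (by positivity)
              exact mul_le_mul_of_nonneg_right (mul_le_mul_of_nonneg_left e1 hP0.le) hA.le
          _ = _ := by ring
      have h4 := le_of_mul_le_mul_left h3 (by positivity)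
      rw [← mul_div_assoc, div_le_iff₀ hP0]
      linarith
    -- third term
    have h3 : C * (q * x) ≤ q ^ 2 * A * x ^ 2 / 3 := by
      have h4 : (m * κ) * (3 * C) ≤ (m * κ) * (q * A * x) := by
        calc (m * κ) * (3 * C) = 3 * C * m * κ := by ring
          _ ≤ b * A * v := n6
          _ ≤ (m * q) * A * (κ * x) := by
              refine mul_le_mul (mul_le_mul_of_nonneg_right hqb hA.le) hWc' hv1.le (by positivity)
          _ = _ := by ring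
      have h5 := le_of_mul_le_mul_left h4 (by positivity)
      have h6 : 3 * C * (q * x) ≤ (q * A * x) * (q * x) := mul_le_mul_of_nonneg_right h5 (by positivity)
      nlinarith
    have h4 : q ^ 2 * A * x ^ 2 ≤ C * (T0.card / P ^ 2) + (q ^ 2 * A * x ^ 2 / 3 + q ^ 2 * A * x ^ 2 / 3) := by
      calc q ^ 2 * A * x ^ 2 ≤ C * ((T0.card : ℝ) / P ^ 2 + t / P + q * x) := hmain
        _ = C * (T0.card / P ^ 2) + (C * (t / P) + C * (q * x)) := by ring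
        _ ≤ _ := by linarith
    have h5 : q ^ 2 * A * x ^ 2 ≤ 3 * (C * (T0.card / P ^ 2)) := by linarith
    have hP2 : 0 < P ^ 2 := by positivity
    calc P ^ 2 * q ^ 2 * A * x ^ 2 = P ^ 2 * (q ^ 2 * A * x ^ 2) := by ring
      _ ≤ P ^ 2 * (3 * (C * (T0.card / P ^ 2))) := mul_le_mul_of_nonneg_left h5 hP2.le
      _ = (P ^ 2 / P ^ 2) * (3 * C * T0.card) := by ring
      _ = _ := by rw [div_self hP2.ne', one_mul]
  have hfinal : P ^ 4 * x ^ 2 ≤ S.K ^ σ * v * T0.card := by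
    have h1 : (3 * C) * (P ^ 4 * x ^ 2) ≤ (3 * C) * (S.K ^ σ * v * T0.card) := by
      have h2 : m ^ 2 * (3 * C * (P ^ 4 * x ^ 2)) ≤ m ^ 2 * (S.K ^ σ * v * (P ^ 2 * q ^ 2 * A * x ^ 2)) := by
        calc m ^ 2 * (3 * C * (P ^ 4 * x ^ 2)) = (3 * C * m ^ 2 * P ^ 2) * (P ^ 2 * x ^ 2) := by ring
          _ ≤ (S.K ^ σ * A * v * b ^ 2) * (P ^ 2 * x ^ 2) :=
              mul_le_mul_of_nonneg_right n7 (by positivity)
          _ ≤ (S.K ^ σ * A * v * (m * q) ^ 2) * (P ^ 2 * x ^ 2) := by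
              refine mul_le_mul_of_nonneg_right (mul_le_mul_of_nonneg_left
                (pow_le_pow_left₀ hb0 hqb 2) (by positivity)) (by positivity)
          _ = _ := by ring
      have h3 := le_of_mul_le_mul_left h2 (by positivity)
      calc (3 * C) * (P ^ 4 * x ^ 2) ≤ S.K ^ σ * v * (P ^ 2 * q ^ 2 * A * x ^ 2) := h3
        _ ≤ S.K ^ σ * v * (3 * C * T0.card) := mul_le_mul_of_nonneg_left hT (by positivity)
        _ = _ := by ring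
    exact le_of_mul_le_mul_left h1 (by positivity)
  -- the set of steps
  have hst : ∀ a ∈ T0, ∃ p q : ℕ, p ∈ Q ∧ q ∈ Q ∧ a.2.2.det = ((p : ℤ) * q) * (p * q) ∧
      dk (Bx D) p a.2.2 := by
    intro a ha
    rw [hT0, Set.Finite.mem_toFinset] at ha
    obtain ⟨-, -, ⟨-, p, hp, q', hq', hd, hk1, -⟩, -⟩ := ha
    exact ⟨p, q', hp, hq', hd, hk1⟩
  choose! fp fq h1 h2 h3 h4 using hst
  refine ⟨T0.image (fun a => (a.1, a.2.1, fp a, fq a, a.2.2)), ?_, ?_⟩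
  · intro y hy
    rw [Finset.mem_image] at hy
    obtain ⟨a, ha, rfl⟩ := hy
    have ha' := ha
    rw [hT0, Set.Finite.mem_toFinset] at ha'
    obtain ⟨b1, b2, b3, b4⟩ := ha'
    refine ⟨b1, b2, ⟨h1 a ha, h2 a ha, Prim_of_Pr b3.1, ?_⟩, Dir_of_dk (h4 a ha)⟩
    refine hmc _ (hW b1) _ (hW b2) (fp a * fq a) a.2.2
      (Nat.mul_pos (hPp _ (hQ (h1 a ha))).1.pos (hPp _ (hQ (h2 a ha))).1.pos) ?_ b4
    rw [h3 a ha]
    push_cast
    ring
  · rw [Finset.card_image_of_injOn, ← hx, ← hv]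
    · exact hfinal
    · intro a _ a' _ h
      simp only [Prod.mk.injEq] at h
      obtain ⟨e1, e2, -, -, e3⟩ := h
      exact Prod.ext e1 (Prod.ext e2 e3)

end

end Pool.Agent.A54.HS
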