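import Mathlib
import Pool.Agent.Lib.MP_640417_ag.All.Divisor

/-!
# Package `HS`: integral matrices with square determinant in a wide tube, the count

`x = (p, q; r, t)`, `p t - q r = 1`. For an integral matrix `s` the frame coordinates of its traceless part
`(u₀, 2u₁; 2u₂, -u₀)` are `cA, 2 cB, 2 cC`. The number of `s` in a tube of length `T` and radius `ρ ≥ 1`
with `det s = n²`, `n ≤ T`, is at most `C T^(1+ε) ρ²` (lattice points, and the divisor bound for the trace).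
-/

set_option autoImplicit false

namespace Pool.Agent.A54.HS.SnA

open Finset

noncomputable section

abbrev MatZ : Type := Matrix (Fin 2) (Fin 2) ℤ

/-- first frame coordinate -/
def cA (p q r t : ℝ) (u : Fin 3 → ℤ) : ℝ := (p * t + q * r) * u 0 + 2 * r * t * u 1 - 2 * p * q * u 2

/-- second frame coordinate -/
def cB (q t : ℝ) (u : Fin 3 → ℤ) : ℝ := q * t * u 0 + t ^ 2 * u 1 - q ^ 2 * u 2

/-- third frame coordinate -/
def cC (p r : ℝ) (u : Fin 3 → ℤ) : ℝ := -(r * p) * u 0 - r ^ 2 * u 1 + p ^ 2 * u 2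

theorem inv0 {p q r t : ℝ} (h : p * t - q * r = 1) (u : Fin 3 → ℤ) :
    (u 0 : ℝ) = (p * t + q * r) * cA p q r t u + 2 * q * t * cC p r u - 2 * p * r * cB q t u := by
  unfold cA cB cC
  have h2 : (p * t - q * r) ^ 2 = 1 := by rw [h]; norm_num
  linear_combination (-(u 0 : ℝ)) * h2

theorem inv1 {p q r t : ℝ} (h : p * t - q * r = 1) (u : Fin 3 → ℤ) :
    (u 1 : ℝ) = -(p * q) * cA p q r t u - q ^ 2 * cC p r u + p ^ 2 * cB q t u := by
  unfold cA cB cC
  have h2 : (p * t - q * r) ^ 2 = 1 := by rw [h]; norm_num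
  linear_combination (-(u 1 : ℝ)) * h2

theorem inv2 {p q r t : ℝ} (h : p * t - q * r = 1) (u : Fin 3 → ℤ) :
    (u 2 : ℝ) = r * t * cA p q r t u + t ^ 2 * cC p r u - r ^ 2 * cB q t u := by
  unfold cA cB cC
  have h2 : (p * t - q * r) ^ 2 = 1 := by rw [h]; norm_num
  linear_combination (-(u 2 : ℝ)) * h2

theorem disc_eq {p q r t : ℝ} (h : p * t - q * r = 1) (u : Fin 3 → ℤ) :
    cA p q r t u ^ 2 + 4 * (cB q t u * cC p r u) = (u 0 : ℝ) ^ 2 + 4 * (u 1 * u 2) := by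
  unfold cA cB cC
  have h2 : (p * t - q * r) ^ 2 = 1 := by rw [h]; norm_num
  linear_combination ((u 0 : ℝ) ^ 2 + 4 * (u 1 * u 2)) * h2

theorem sub_cA (p q r t : ℝ) (u v : Fin 3 → ℤ) : cA p q r t (u - v) = cA p q r t u - cA p q r t v := by
  unfold cA
  simp only [Pi.sub_apply, Int.cast_sub]
  ring

theorem sub_cB (q t : ℝ) (u v : Fin 3 → ℤ) : cB q t (u - v) = cB q t u - cB q t v := by
  unfold cB
  simp only [Pi.sub_apply, Int.cast_sub]
  ring

theorem sub_cC (p r : ℝ) (u v : Fin 3 → ℤ) : cC p r (u - v) = cC p r u - cC p r v := by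
  unfold cC
  simp only [Pi.sub_apply, Int.cast_sub]
  ring

theorem mul_abs_le {a b A B : ℝ} (ha : |a| ≤ A) (hb : |b| ≤ B) : |a * b| ≤ A * B := by
  rw [abs_mul]
  exact mul_le_mul ha hb (abs_nonneg _) ((abs_nonneg a).trans ha)

theorem size {R p q r t H : ℝ} (hp : |p| ≤ R) (hq : |q| ≤ R) (hr : |r| ≤ R) (ht : |t| ≤ R)
    (h : p * t - q * r = 1) {u : Fin 3 → ℤ} (hA : |cA p q r t u| ≤ H) (hB : |cB q t u| ≤ H)
    (hC : |cC p r u| ≤ H) (i : Fin 3) : |(u i : ℝ)| ≤ 6 * R ^ 2 * H := by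
  have hR : 0 ≤ R := (abs_nonneg p).trans hp
  have hH : 0 ≤ H := (abs_nonneg _).trans hA
  have hRH : 0 ≤ R * R * H := by positivity
  have k1 := fun (a b c : ℝ) (ha : |a| ≤ R) (hb : |b| ≤ R) (hc : |c| ≤ H) =>
    abs_le.1 (mul_abs_le (mul_abs_le ha hb) hc)
  fin_cases i
  · show |(u 0 : ℝ)| ≤ _
    rw [inv0 h u, abs_le]
    have e1 := k1 _ _ _ hp ht hA
    have e2 := k1 _ _ _ hq hr hA
    have e3 := k1 _ _ _ hq ht hC
    have e4 := k1 _ _ _ hp hr hB
    constructor <;> nlinarith [e1.1, e1.2, e2.1, e2.2, e3.1, e3.2, e4.1, e4.2]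
  · show |(u 1 : ℝ)| ≤ _
    rw [inv1 h u, abs_le]
    have e1 := k1 _ _ _ hp hq hA
    have e2 := k1 _ _ _ hq hq hC
    have e3 := k1 _ _ _ hp hp hB
    constructor <;> nlinarith [e1.1, e1.2, e2.1, e2.2, e3.1, e3.2]
  · show |(u 2 : ℝ)| ≤ _
    rw [inv2 h u, abs_le]
    have e1 := k1 _ _ _ hr ht hA
    have e2 := k1 _ _ _ ht ht hC
    have e3 := k1 _ _ _ hr hr hB
    constructor <;> nlinarith [e1.1, e1.2, e2.1, e2.2, e3.1, e3.2]

/-- the number of integers in an interval -/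
theorem card_Icc_le {H : ℝ} (hH : 1 ≤ H) : ((Finset.Icc (-⌊H⌋) ⌊H⌋).card : ℝ) ≤ 3 * H := by
  rw [Int.card_Icc]
  have h0 : 0 ≤ ⌊H⌋ := Int.floor_nonneg.2 (by linarith)
  have h1 : (((⌊H⌋ + 1 - -⌊H⌋).toNat : ℤ) : ℝ) = 2 * (⌊H⌋ : ℝ) + 1 := by
    rw [Int.toNat_of_nonneg (by omega)]
    push_cast
    ring
  have h2 : (((⌊H⌋ + 1 - -⌊H⌋).toNat : ℕ) : ℝ) = 2 * (⌊H⌋ : ℝ) + 1 := by
    rw [← h1]
    norm_cast
  rw [h2]
  have := Int.floor_le H
  linarith

theorem mem_Icc_of {H : ℝ} {a : ℤ} (h : |(a : ℝ)| ≤ H) : a ∈ Finset.Icc (-⌊H⌋) ⌊H⌋ := by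
  have h1 := abs_le.1 h
  rw [Finset.mem_Icc]
  constructor
  · have : -a ≤ ⌊H⌋ := Int.le_floor.2 (by push_cast; linarith)
    omega
  · exact Int.le_floor.2 h1.2

theorem floor_mem {H y : ℝ} (h : |y| ≤ H) : ⌊y⌋ ∈ Finset.Icc (-⌊H + 1⌋) ⌊H + 1⌋ := by
  refine mem_Icc_of ?_
  have h1 := abs_le.1 h
  have h2 := Int.floor_le y
  have h3 := Int.lt_floor_add_one y
  rw [abs_le]
  constructor <;> linarith

/-- **lattice points of a wide tube** -/
theorem tube_card {R : ℝ} (hR : 1 ≤ R) {p q r t : ℝ} (hp : |p| ≤ R) (hq : |q| ≤ R) (hr : |r| ≤ R)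
    (ht : |t| ≤ R) (h : p * t - q * r = 1) {T ρ : ℝ} (hT : 1 ≤ T) (hρ : 1 ≤ ρ)
    (S : Finset (Fin 3 → ℤ)) (hS : ∀ u ∈ S, |cA p q r t u| ≤ T ∧ |cB q t u| ≤ ρ ∧ |cC p r u| ≤ ρ) :
    (S.card : ℝ) ≤ (18 * R ^ 2) ^ 3 * (216 * (T * ρ ^ 2)) := by
  classical
  have hR0 : 0 < R := by linarith
  have hR2 : 1 ≤ 6 * R ^ 2 := by nlinarith
  let φ : (Fin 3 → ℤ) → ℤ × ℤ × ℤ := fun u => (⌊cA p q r t u⌋, ⌊cB q t u⌋, ⌊cC p r u⌋)
  set m : ℤ := ⌊6 * R ^ 2⌋ with hm
  have h1 := Finset.card_le_mul_card_image (f := φ) S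
    (Fintype.piFinset (fun _ : Fin 3 => Finset.Icc (-m) m)).card (by
      intro a ha
      obtain ⟨u₀, hu₀, rfl⟩ := Finset.mem_image.1 ha
      refine Finset.card_le_card_of_injOn (fun u => u - u₀) ?_ ?_
      · intro u hu
        obtain ⟨hu1, hu2⟩ := Finset.mem_filter.1 (Finset.mem_coe.1 hu)
        rw [Finset.mem_coe, Fintype.mem_piFinset]
        intro i
        simp only [φ, Prod.mk.injEq] at hu2
        obtain ⟨e1, e2, e3⟩ := hu2
        have key : ∀ a b : ℝ, ⌊a⌋ = ⌊b⌋ → |a - b| ≤ 1 := by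
          intro a b hab
          have f1 := Int.floor_le a
          have f2 := Int.lt_floor_add_one a
          have f3 := Int.floor_le b
          have f4 := Int.lt_floor_add_one b
          rw [hab] at f1 f2
          rw [abs_le]
          constructor <;> linarith
        have e4 := size hp hq hr ht h (u := u - u₀) (H := 1) (by rw [sub_cA]; exact key _ _ e1)
          (by rw [sub_cB]; exact key _ _ e2) (by rw [sub_cC]; exact key _ _ e3) i
        rw [mul_one] at e4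
        exact mem_Icc_of e4
      · intro u _ v _ huv
        exact sub_left_injective huv)
  have h2 : (S.image φ).card ≤ (Finset.Icc (-⌊T + 1⌋) ⌊T + 1⌋ ×ˢ (Finset.Icc (-⌊ρ + 1⌋) ⌊ρ + 1⌋ ×ˢ
      Finset.Icc (-⌊ρ + 1⌋) ⌊ρ + 1⌋)).card := by
    refine Finset.card_le_card ?_
    intro a ha
    obtain ⟨u, hu, rfl⟩ := Finset.mem_image.1 ha
    obtain ⟨e1, e2, e3⟩ := hS u hu
    exact Finset.mem_product.2 ⟨floor_mem e1, Finset.mem_product.2 ⟨floor_mem e2, floor_mem e3⟩⟩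
  have h3 : ((Fintype.piFinset (fun _ : Fin 3 => Finset.Icc (-m) m)).card : ℝ) ≤ (18 * R ^ 2) ^ 3 := by
    rw [Fintype.card_piFinset, Finset.prod_const, Finset.card_univ, Fintype.card_fin]
    push_cast
    refine pow_le_pow_left₀ (Nat.cast_nonneg _) ?_ 3
    have := card_Icc_le hR2
    rw [hm]
    linarith
  have h4 : (((Finset.Icc (-⌊T + 1⌋) ⌊T + 1⌋ ×ˢ (Finset.Icc (-⌊ρ + 1⌋) ⌊ρ + 1⌋ ×ˢ
      Finset.Icc (-⌊ρ + 1⌋) ⌊ρ + 1⌋)).card : ℕ) : ℝ) ≤ 216 * (T * ρ ^ 2) := by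
    rw [Finset.card_product, Finset.card_product]
    push_cast
    have k1 : ((Finset.Icc (-⌊T + 1⌋) ⌊T + 1⌋).card : ℝ) ≤ 6 * T :=
      (card_Icc_le (by linarith)).trans (by linarith)
    have k2 : ((Finset.Icc (-⌊ρ + 1⌋) ⌊ρ + 1⌋).card : ℝ) ≤ 6 * ρ :=
      (card_Icc_le (by linarith)).trans (by linarith)
    calc _ ≤ 6 * T * (6 * ρ * (6 * ρ)) := by
          refine mul_le_mul k1 (mul_le_mul k2 k2 (Nat.cast_nonneg _) (by linarith)) (by positivity)
            (by linarith)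
      _ = 216 * (T * ρ ^ 2) := by ring
  calc (S.card : ℝ) ≤ (((Fintype.piFinset (fun _ : Fin 3 => Finset.Icc (-m) m)).card *
        (S.image φ).card : ℕ) : ℝ) := by exact_mod_cast h1
    _ ≤ (18 * R ^ 2) ^ 3 * (216 * (T * ρ ^ 2)) := by
        push_cast
        refine mul_le_mul h3 ?_ (Nat.cast_nonneg _) (by positivity)
        refine le_trans ?_ h4
        exact_mod_cast h2

/-- coordinates of the traceless part -/
def uv (s : MatZ) : Fin 3 → ℤ := ![s 0 0 - s 1 1, s 0 1, s 1 0]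

/-- discriminant -/
def ds (u : Fin 3 → ℤ) : ℤ := u 0 ^ 2 + 4 * (u 1 * u 2)

theorem tr_sq (s : MatZ) (n : ℕ) (h : s.det = (n : ℤ) * n) :
    ((s 0 0 + s 1 1) - 2 * n) * ((s 0 0 + s 1 1) + 2 * n) = ds (uv s) := by
  rw [Matrix.det_fin_two] at h
  unfold ds uv
  simp only [Matrix.cons_val_zero, Matrix.cons_val_one, Matrix.cons_val]
  linear_combination (4 : ℤ) * h

theorem ext_uv {s s' : MatZ} (h : uv s = uv s') (ht : s 0 0 + s 1 1 = s' 0 0 + s' 1 1) : s = s' := by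
  have h0 := congrFun h 0
  have h1 := congrFun h 1
  have h2 := congrFun h 2
  simp only [uv, Matrix.cons_val_zero, Matrix.cons_val_one, Matrix.cons_val] at h0 h1 h2
  ext i j
  fin_cases i <;> fin_cases j
  · show s 0 0 = s' 0 0
    omega
  · exact h1
  · exact h2
  · show s 1 1 = s' 1 1
    omega

/-- the number of matrices with square determinant and given traceless part `u`, `ds u ≠ 0` -/
theorem fib_card {u : Fin 3 → ℤ} (hu : ds u ≠ 0) (S : Finset MatZ)
    (hS : ∀ s ∈ S, uv s = u ∧ ∃ n : ℕ, s.det = (n : ℤ) * n) :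
    S.card ≤ 2 * (ds u).natAbs.divisors.card := by
  classical
  choose! n hn using fun s (hs : s ∈ S) => (hS s hs).2
  let e : MatZ → ℤ := fun s => (s 0 0 + s 1 1) - 2 * n s
  have h1 : S.card ≤ (((ds u).natAbs.divisors.image (fun k : ℕ => (k : ℤ))) ∪
      ((ds u).natAbs.divisors.image (fun k : ℕ => -(k : ℤ)))).card := by
    refine Finset.card_le_card_of_injOn e ?_ ?_
    · intro s hs
      have hs' := Finset.mem_coe.1 hs
      have h2 := tr_sq s (n s) (hn s hs')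
      rw [(hS s hs').1] at h2
      have h3 : (e s).natAbs ∈ (ds u).natAbs.divisors := by
        rw [Nat.mem_divisors]
        exact ⟨Int.natAbs_dvd_natAbs.2 ⟨_, h2.symm⟩, Int.natAbs_ne_zero.2 hu⟩
      rw [Finset.mem_coe, Finset.mem_union, Finset.mem_image, Finset.mem_image]
      rcases Int.natAbs_eq (e s) with h4 | h4
      · exact Or.inl ⟨_, h3, h4.symm⟩
      · exact Or.inr ⟨_, h3, h4.symm⟩
    · intro s hs s' hs' he
      have hs1 := Finset.mem_coe.1 hs
      have hs2 := Finset.mem_coe.1 hs'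
      have h2 := tr_sq s (n s) (hn s hs1)
      have h3 := tr_sq s' (n s') (hn s' hs2)
      rw [(hS s hs1).1] at h2
      rw [(hS s' hs2).1] at h3
      simp only [e] at he
      have h4 : (s 0 0 + s 1 1) - 2 * (n s : ℤ) ≠ 0 := by
        intro h0
        rw [h0, zero_mul] at h2
        exact hu h2.symm
      rw [← he] at h3
      have h5 := mul_left_cancel₀ h4 (h2.trans h3.symm)
      refine ext_uv ((hS s hs1).1.trans (hS s' hs2).1.symm) ?_
      omega
  refine h1.trans ((Finset.card_union_le _ _).trans ?_)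
  have h2 := Finset.card_image_le (s := (ds u).natAbs.divisors) (f := fun k : ℕ => (k : ℤ))
  have h3 := Finset.card_image_le (s := (ds u).natAbs.divisors) (f := fun k : ℕ => -(k : ℤ))
  omega

/-- **the count** -/
theorem cnt_sq (R ε : ℝ) (hR : 1 ≤ R) (hε : 0 < ε) : ∃ C : ℝ, 1 ≤ C ∧ ∀ p q r t : ℝ, |p| ≤ R → |q| ≤ R →
    |r| ≤ R → |t| ≤ R → p * t - q * r = 1 → ∀ T ρ : ℝ, 1 ≤ ρ → ρ ≤ T → ∀ S : Finset MatZ,
    (∀ s ∈ S, |cA p q r t (uv s)| ≤ T ∧ |cB q t (uv s)| ≤ ρ ∧ |cC p r (uv s)| ≤ ρ ∧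
      ∃ n : ℕ, (n : ℝ) ≤ T ∧ s.det = (n : ℤ) * n) → (S.card : ℝ) ≤ C * (T ^ (1 + ε) * ρ ^ 2) := by
  classical
  obtain ⟨Cd, hCd, hdiv⟩ := Pool.Agent.Lib.MP_640417_ag.All.divisor_bound (ε / 2) (by linarith)
  have hR0 : 0 < R := by linarith
  set E : ℝ := (180 * R ^ 4) ^ (ε / 2) with hE
  have hE0 : 0 < E := by positivity
  refine ⟨(18 * R ^ 2) ^ 3 * 216 * (2 * (Cd * E)) + 12 * (36 * R ^ 2) ^ 2 + 1, by positivity |> fun (h : 0 ≤
    (18 * R ^ 2) ^ 3 * 216 * (2 * (Cd * E)) + 12 * (36 * R ^ 2) ^ 2) => by linarith, ?_⟩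
  intro p q r t hp hq hr ht hdet T ρ hρ hρT S hS
  have hT : 1 ≤ T := hρ.trans hρT
  have hT0 : 0 < T := by linarith
  have hTe : 1 ≤ T ^ ε := Real.one_le_rpow hT hε.le
  have hT1 : T ^ (1 + ε) = T * T ^ ε := by rw [Real.rpow_add hT0, Real.rpow_one]
  have hR2 : 1 ≤ R ^ 2 := by nlinarith
  -- nonzero discriminant
  set S1 := S.filter (fun s => ds (uv s) ≠ 0) with hS1
  set S0 := S.filter (fun s => ¬ ds (uv s) ≠ 0) with hS0
  have hsum : S1.card + S0.card = S.card := Finset.card_filter_add_card_filter_not _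
  set τ : ℕ := ⌊2 * (Cd * E * T ^ ε)⌋₊ with hτ
  have hτ1 : (τ : ℝ) ≤ 2 * (Cd * E * T ^ ε) := Nat.floor_le (by positivity)
  have a1 : S1.card ≤ τ * (S1.image uv).card := by
    refine Finset.card_le_mul_card_image (f := uv) S1 τ ?_
    intro u hu
    obtain ⟨s₀, hs₀, rfl⟩ := Finset.mem_image.1 hu
    obtain ⟨hs1, hs2⟩ := Finset.mem_filter.1 hs₀
    have h1 := fib_card hs2 (S1.filter (fun s => uv s = uv s₀)) (by
      intro s hs
      obtain ⟨k1, k2⟩ := Finset.mem_filter.1 hs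
      obtain ⟨-, -, -, n, -, hn⟩ := hS s (Finset.mem_filter.1 k1).1
      exact ⟨k2, n, hn⟩)
    refine h1.trans ?_
    rw [hτ, Nat.le_floor_iff (by positivity)]
    push_cast
    have h2 := hdiv (ds (uv s₀)).natAbs (Int.natAbs_pos.2 hs2)
    obtain ⟨b1, b2, b3, -⟩ := hS s₀ hs1
    have c := size hp hq hr ht hdet b1 (b2.trans hρT) (b3.trans hρT)
    have h3 : (((ds (uv s₀)).natAbs : ℕ) : ℝ) ≤ 180 * R ^ 4 * T ^ 2 := by
      rw [Nat.cast_natAbs, Int.cast_abs]
      unfold ds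
      push_cast
      have d0 := mul_abs_le (c 0) (c 0)
      have d1 := mul_abs_le (c 1) (c 2)
      rw [abs_le] at d0 d1 ⊢
      constructor <;> nlinarith [d0.1, d0.2, d1.1, d1.2]
    have h4 : (((ds (uv s₀)).natAbs : ℕ) : ℝ) ^ (ε / 2) ≤ E * T ^ ε := by
      calc _ ≤ (180 * R ^ 4 * T ^ 2) ^ (ε / 2) :=
            Real.rpow_le_rpow (Nat.cast_nonneg _) h3 (by linarith)
        _ = E * T ^ ε := by
            rw [Real.mul_rpow (by positivity) (by positivity), ← hE]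
            congr 1
            rw [← Real.rpow_natCast T 2, ← Real.rpow_mul hT0.le]
            congr 1
            push_cast
            ring
    have h5 : Cd * (((ds (uv s₀)).natAbs : ℕ) : ℝ) ^ (ε / 2) ≤ Cd * (E * T ^ ε) :=
      mul_le_mul_of_nonneg_left h4 hCd.le
    nlinarith
  have a2 := tube_card hR hp hq hr ht hdet hT hρ (S1.image uv) (by
    intro u hu
    obtain ⟨s, hs, rfl⟩ := Finset.mem_image.1 hu
    obtain ⟨b1, b2, b3, -⟩ := hS s (Finset.mem_filter.1 hs).1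
    exact ⟨b1, b2, b3⟩)
  have a3 : (S1.card : ℝ) ≤ (18 * R ^ 2) ^ 3 * 216 * (2 * (Cd * E)) * (T ^ (1 + ε) * ρ ^ 2) := by
    calc (S1.card : ℝ) ≤ (τ : ℝ) * ((S1.image uv).card : ℝ) := by exact_mod_cast a1
      _ ≤ (2 * (Cd * E * T ^ ε)) * ((18 * R ^ 2) ^ 3 * (216 * (T * ρ ^ 2))) :=
          mul_le_mul hτ1 a2 (Nat.cast_nonneg _) (by positivity)
      _ = _ := by rw [hT1]; ring
  -- zero discriminant
  have a4 : (S0.card : ℝ) ≤ 12 * (36 * R ^ 2) ^ 2 * (T ^ (1 + ε) * ρ ^ 2) := by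
    set H : ℝ := 6 * R ^ 2 * (2 * ρ) with hH
    have hH1 : 1 ≤ H := by nlinarith
    let B : Finset (ℤ × ℤ × ℤ × ℕ) := Finset.Icc (-⌊H⌋) ⌊H⌋ ×ˢ (Finset.Icc (-⌊H⌋) ⌊H⌋ ×ˢ
      (Finset.Icc (-⌊2 * T⌋) ⌊2 * T⌋ ×ˢ Finset.range 2))
    have h1 : S0.card ≤ B.card := by
      refine Finset.card_le_card_of_injOn (fun s => (s 0 1, s 1 0, s 0 0 + s 1 1,
        if 0 ≤ s 0 0 - s 1 1 then 0 else 1)) ?_ ?_
      · intro s hs
        obtain ⟨k1, k2⟩ := Finset.mem_filter.1 (Finset.mem_coe.1 hs)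
        rw [not_not] at k2
        obtain ⟨b1, b2, b3, n, hn, hd⟩ := hS s k1
        have e1 := disc_eq hdet (uv s)
        have e2 : ((uv s 0 : ℤ) : ℝ) ^ 2 + 4 * ((uv s 1 : ℤ) * (uv s 2 : ℤ)) = 0 := by
          have : ((ds (uv s) : ℤ) : ℝ) = 0 := by rw [k2]; norm_num
          unfold ds at this
          push_cast at this
          exact this
        rw [e2] at e1
        have e3 : |cA p q r t (uv s)| ≤ 2 * ρ := by
          have f1 := abs_le.1 (mul_abs_le b2 b3)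
          refine abs_le_of_sq_le_sq ?_ (by linarith)
          nlinarith [f1.1]
        have c := size hp hq hr ht hdet e3 (b2.trans (by linarith)) (b3.trans (by linarith))
        have c1 := c 1
        have c2 := c 2
        have e4 := tr_sq s n hd
        rw [k2] at e4
        have e5 : |((s 0 0 + s 1 1 : ℤ) : ℝ)| ≤ 2 * T := by
          rcases mul_eq_zero.1 e4 with e6 | e6
          · have e7 : s 0 0 + s 1 1 = 2 * (n : ℤ) := by linarith
            rw [e7]
            push_cast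
            rw [abs_of_nonneg (by positivity)]
            linarith
          · have e7 : s 0 0 + s 1 1 = -(2 * (n : ℤ)) := by linarith
            rw [e7]
            push_cast
            rw [abs_neg, abs_of_nonneg (by positivity)]
            linarith
        simp only [B, Finset.coe_product, Set.mem_prod, Finset.mem_coe]
        refine ⟨mem_Icc_of c1, mem_Icc_of c2, mem_Icc_of e5, ?_⟩
        rw [Finset.mem_range]
        split_ifs <;> omega
      · intro s hs s' hs' he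
        obtain ⟨k1, k2⟩ := Finset.mem_filter.1 (Finset.mem_coe.1 hs)
        obtain ⟨k1', k2'⟩ := Finset.mem_filter.1 (Finset.mem_coe.1 hs')
        rw [not_not] at k2 k2'
        simp only [Prod.mk.injEq] at he
        obtain ⟨e1, e2, e3, e4⟩ := he
        unfold ds uv at k2 k2'
        simp only [Matrix.cons_val_zero, Matrix.cons_val_one, Matrix.cons_val] at k2 k2'
        have e5 : (s 0 0 - s 1 1) ^ 2 = (s' 0 0 - s' 1 1) ^ 2 := by
          rw [e1, e2] at k2
          linarith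
        have e6 : s 0 0 - s 1 1 = s' 0 0 - s' 1 1 := by
          rcases sq_eq_sq_iff_eq_or_eq_neg.1 e5 with e7 | e7
          · exact e7
          · rcases le_or_gt 0 (s 0 0 - s 1 1) with f1 | f1 <;>
              rcases le_or_gt 0 (s' 0 0 - s' 1 1) with f2 | f2
            · omega
            · rw [if_pos f1, if_neg (not_le.2 f2)] at e4
              omega
            · rw [if_neg (not_le.2 f1), if_pos f2] at e4
              omega
            · omega
        refine ext_uv ?_ e3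
        unfold uv
        rw [e6, e1, e2]
    have h2 : (B.card : ℝ) ≤ (3 * H) * ((3 * H) * ((3 * (2 * T)) * 2)) := by
      simp only [B, Finset.card_product, Finset.card_range]
      push_cast
      have k1 := card_Icc_le hH1
      have k2 := card_Icc_le (H := 2 * T) (by linarith)
      refine mul_le_mul k1 (mul_le_mul k1 (mul_le_mul_of_nonneg_right k2 (by norm_num))
        (by positivity) (by linarith)) (by positivity) (by linarith)
    calc (S0.card : ℝ) ≤ (B.card : ℝ) := by exact_mod_cast h1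
      _ ≤ (3 * H) * ((3 * H) * ((3 * (2 * T)) * 2)) := h2
      _ = 12 * (36 * R ^ 2) ^ 2 * (T * ρ ^ 2) := by rw [hH]; ring
      _ ≤ 12 * (36 * R ^ 2) ^ 2 * (T ^ (1 + ε) * ρ ^ 2) := by
          refine mul_le_mul_of_nonneg_left ?_ (by positivity)
          refine mul_le_mul_of_nonneg_right ?_ (by positivity)
          rw [hT1]
          nlinarith
  have h9 : (S.card : ℝ) = S1.card + S0.card := by exact_mod_cast hsum.symm
  have h10 : 0 ≤ T ^ (1 + ε) * ρ ^ 2 := by positivity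
  rw [h9]
  nlinarith

end

end Pool.Agent.A54.HS.SnA
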