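import Pool.Agent.Lib.MP_a54f13_nt.Hp.SpecL
import Mathlib.NumberTheory.Bertrand

/-!
# Package `HS`: the number of bad primes in a block (Chebyshev)
-/

set_option autoImplicit false

namespace Pool.Agent.A54.HS

open MeasureTheory Filter Topology Set
open Pool.Agent.A54.Hp

noncomputable section

namespace CheM

/-- the central binomial coefficient and the primes of `(n, 2n]` -/
lemma cb_le (n : ℕ) (hn : 2 < n) : Nat.centralBinom n ≤
    (2 * n) ^ Nat.sqrt (2 * n) * 4 ^ (2 * n / 3) * (2 * n) ^ ((Finset.Ioc n (2 * n)).filter Nat.Prime).card := by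
  have n_pos : 0 < n := by omega
  have n2_pos : 1 ≤ 2 * n := by omega
  set f : ℕ → ℕ := fun x => x ^ n.centralBinom.factorization x with hf
  have hf1 : ∀ x, ¬ x.Prime → f x = 1 := fun x hx => by
    simp only [hf]
    rw [Nat.factorization_eq_zero_of_not_prime n.centralBinom hx, Nat.pow_zero]
  have hf2 : ∀ x, f x ≤ 2 * n := fun x => by
    simp only [hf]
    exact Nat.pow_factorization_choose_le (mul_pos two_pos n_pos)
  have h0 : n.centralBinom = ∏ x ∈ Finset.range (2 * n + 1), f x :=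
    n.prod_pow_factorization_centralBinom.symm
  rw [h0, ← Finset.prod_filter_mul_prod_filter_not (Finset.range (2 * n + 1)) (· ≤ 2 * n / 3)]
  refine mul_le_mul' ?_ ?_
  · set S0 := (Finset.range (2 * n + 1)).filter (· ≤ 2 * n / 3) with hS0
    set S := S0.filter Nat.Prime with hS
    have h1 : ∏ x ∈ S0, f x = ∏ x ∈ S, f x := by
      symm
      refine Finset.prod_filter_of_ne fun p _ h => ?_
      by_contra h'
      exact h (hf1 p h')
    rw [h1, ← Finset.prod_filter_mul_prod_filter_not S (· ≤ Nat.sqrt (2 * n))]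
    apply mul_le_mul'
    · refine (Finset.prod_le_prod' fun p _ => hf2 p).trans ?_
      rw [Finset.prod_const]
      have h2 : (Finset.Icc 1 (Nat.sqrt (2 * n))).card = Nat.sqrt (2 * n) := by
        rw [Nat.card_Icc, Nat.add_sub_cancel]
      refine pow_right_mono₀ n2_pos ((Finset.card_le_card fun x hx => ?_).trans h2.le)
      obtain ⟨h3, h4⟩ := Finset.mem_filter.1 hx
      exact Finset.mem_Icc.mpr ⟨(Finset.mem_filter.1 h3).2.one_lt.le, h4⟩
    · refine le_trans ?_ (primorial_le_four_pow (2 * n / 3))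
      refine (Finset.prod_le_prod' fun p hp => (?_ : f p ≤ p)).trans ?_
      · obtain ⟨h3, h4⟩ := Finset.mem_filter.1 hp
        refine (pow_right_mono₀ (Finset.mem_filter.1 h3).2.one_lt.le ?_).trans (pow_one p).le
        exact Nat.factorization_choose_le_one (Nat.sqrt_lt'.mp <| not_le.1 h4)
      · unfold primorial
        refine Finset.prod_le_prod_of_subset_of_one_le' ?_ ?_
        · intro x hx
          obtain ⟨h3, h4⟩ := Finset.mem_filter.1 hx
          obtain ⟨h5, h6⟩ := Finset.mem_filter.1 h3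
          obtain ⟨h7, h8⟩ := Finset.mem_filter.1 h5
          exact Finset.mem_filter.2 ⟨Finset.mem_range.2 (by omega), h6⟩
        · exact fun p hp _ => (Finset.mem_filter.1 hp).2.one_lt.le
  · set S0 := (Finset.range (2 * n + 1)).filter (fun x => ¬ x ≤ 2 * n / 3) with hS0
    have h1 : ∏ x ∈ S0.filter (fun x => x.Prime ∧ n < x), f x = ∏ x ∈ S0, f x := by
      refine Finset.prod_filter_of_ne fun p hp h => ?_
      by_contra h'
      apply h
      rcases not_and_or.1 h' with h2 | h2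
      · exact hf1 p h2
      · obtain ⟨h3, h4⟩ := Finset.mem_filter.1 hp
        simp only [hf]
        rw [Nat.factorization_centralBinom_of_two_mul_self_lt_three_mul hn (by omega) (by omega),
          Nat.pow_zero]
    rw [← h1]
    refine (Finset.prod_le_prod' fun p _ => hf2 p).trans ?_
    rw [Finset.prod_const]
    refine pow_right_mono₀ n2_pos (Finset.card_le_card fun x hx => ?_)
    obtain ⟨h3, h4, h5⟩ := Finset.mem_filter.1 hx
    obtain ⟨h6, h7⟩ := Finset.mem_filter.1 h3
    have h8 := Finset.mem_range.1 h6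
    exact Finset.mem_filter.2 ⟨Finset.mem_Ioc.2 ⟨h5, by omega⟩, h4⟩

lemma log_le (n : ℕ) (hn : 4 ≤ n) : (n : ℝ) * Real.log 4 ≤ Real.log n +
    (√(2 * n) * Real.log (2 * n) + 2 * n / 3 * Real.log 4 +
      (((Finset.Ioc n (2 * n)).filter Nat.Prime).card : ℝ) * Real.log (2 * n)) := by
  have h1 := Nat.four_pow_lt_mul_centralBinom n hn
  have h2 := cb_le n (by omega)
  set c := ((Finset.Ioc n (2 * n)).filter Nat.Prime).card
  have hn0 : (0 : ℝ) < n := by
    have : 0 < n := by omega
    exact_mod_cast this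
  have h3 : (4 : ℝ) ^ n ≤ n * (((2 * (n : ℝ)) ^ Nat.sqrt (2 * n) * 4 ^ (2 * n / 3)) * (2 * n) ^ c) := by
    have h4 : 4 ^ n ≤ n * (((2 * n) ^ Nat.sqrt (2 * n) * 4 ^ (2 * n / 3)) * (2 * n) ^ c) :=
      h1.le.trans (Nat.mul_le_mul_left _ h2)
    exact_mod_cast h4
  have h5 := Real.log_le_log (by positivity) h3
  rw [Real.log_pow, Real.log_mul (by positivity) (by positivity),
    Real.log_mul (by positivity) (by positivity), Real.log_mul (by positivity) (by positivity),
    Real.log_pow, Real.log_pow, Real.log_pow] at h5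
  have h6 : 0 ≤ Real.log (2 * n) := Real.log_nonneg (by
    have : (1 : ℝ) ≤ n := by exact_mod_cast (by omega : 1 ≤ n)
    linarith)
  have h7 : ((Nat.sqrt (2 * n) : ℕ) : ℝ) ≤ √(2 * n) := by
    have := Real.nat_sqrt_le_real_sqrt (a := 2 * n)
    push_cast at this
    exact this
  have h8 : ((2 * n / 3 : ℕ) : ℝ) ≤ 2 * n / 3 := by
    have := Nat.cast_div_le (α := ℝ) (m := 2 * n) (n := 3)
    push_cast at this
    exact this
  have h9 : 0 ≤ Real.log 4 := Real.log_nonneg (by norm_num)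
  have h10 := mul_le_mul_of_nonneg_right h7 h6
  have h11 := mul_le_mul_of_nonneg_right h8 h9
  linarith

lemma log_four : (1.3 : ℝ) ≤ Real.log 4 := by
  have h1 : Real.log 4 = 2 * Real.log 2 := by
    rw [show (4 : ℝ) = 2 ^ 2 by norm_num, Real.log_pow]
    norm_num
  have := Real.log_two_gt_d9
  rw [h1]
  linarith

end CheM

open CheM

/-- **Che** the number of primes in a block -/
theorem card_Pm {κ : ℝ} (hκ : 0 < κ) : ∀ᶠ M : ℝ in atTop, 2 * M ^ (1 - κ) ≤ ((Pm M).card : ℝ) := by
  set r : ℝ := min κ 1 / 4 with hr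
  have hr0 : 0 < r := by positivity
  have hr1 : r ≤ 1 / 4 := by
    rw [hr]
    have := min_le_right κ 1
    linarith
  have hrκ : r < κ := by
    rw [hr]
    have := min_le_left κ 1
    have : 0 < min κ 1 := lt_min hκ one_pos
    linarith
  have e1 : ∀ᶠ x : ℝ in atTop, Real.log x ≤ 1 / 40 * x ^ r := by
    have h := (isLittleO_log_rpow_atTop hr0).bound (c := 1 / 40) (by norm_num)
    filter_upwards [h, eventually_ge_atTop 1] with x hx hx1
    rw [Real.norm_of_nonneg (Real.log_nonneg hx1), Real.norm_of_nonneg (by positivity)] at hx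
    exact hx
  have e2 : ∀ᶠ x : ℝ in atTop, 40 ≤ x ^ (κ - r) :=
    (tendsto_rpow_atTop (sub_pos.2 hrκ)).eventually_ge_atTop 40
  have e3 : Tendsto (fun M : ℝ => 2 * ((⌊M⌋₊ : ℕ) : ℝ)) atTop atTop := by
    refine Tendsto.const_mul_atTop two_pos ?_
    exact tendsto_natCast_atTop_atTop.comp tendsto_nat_floor_atTop
  filter_upwards [e3.eventually e1, e2, eventually_ge_atTop 8] with M hM1 hM2 hM3
  set n := ⌊M⌋₊ with hn
  have hM0 : 0 < M := by linarith
  have hn8 : 8 ≤ n := Nat.le_floor (by exact_mod_cast hM3)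
  have hnM : (n : ℝ) ≤ M := Nat.floor_le hM0.le
  have hMn : M < n + 1 := Nat.lt_floor_add_one M
  have hnR : (8 : ℝ) ≤ n := by exact_mod_cast hn8
  have h1 := log_le n (by omega)
  have hsub : (Finset.Ioc n (2 * n)).filter Nat.Prime ⊆ Pm M := by
    intro p hp
    rw [Finset.mem_filter, Finset.mem_Ioc] at hp
    unfold Pm
    rw [Finset.mem_filter, Finset.mem_Ioc]
    refine ⟨⟨hp.1.1, ?_⟩, hp.2⟩
    refine hp.1.2.trans (Nat.le_floor ?_)
    push_cast
    linarith
  have h2 : (((Finset.Ioc n (2 * n)).filter Nat.Prime).card : ℝ) ≤ ((Pm M).card : ℝ) := by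
    exact_mod_cast Finset.card_le_card hsub
  set c : ℝ := (((Finset.Ioc n (2 * n)).filter Nat.Prime).card : ℝ) with hc
  have hc0 : 0 ≤ c := by positivity
  set x : ℝ := 2 * (n : ℝ) with hx
  have hx1 : 16 ≤ x := by rw [hx]; linarith
  have hx0 : 0 < x := by linarith
  set L := Real.log x with hL
  have hL0 : 0 ≤ L := Real.log_nonneg (by linarith)
  -- the main inequality
  have h3 : Real.log n ≤ L := Real.log_le_log (by linarith) (by rw [hx]; linarith)
  have h4 : x ^ r ≤ √x := by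
    rw [Real.sqrt_eq_rpow]
    exact Real.rpow_le_rpow_of_exponent_le (by linarith) (by linarith)
  have h5 : √x * √x = x := Real.mul_self_sqrt hx0.le
  have h6 : 1 ≤ √x := by
    rw [Real.one_le_sqrt]
    linarith
  have h7 : √x * L ≤ x / 40 := by
    calc √x * L ≤ √x * (1 / 40 * √x) := mul_le_mul_of_nonneg_left (hM1.trans (by linarith)) (by positivity)
      _ = x / 40 := by rw [← mul_assoc, mul_comm (√x) (1 / 40), mul_assoc, h5]; ring
  have h8 : L ≤ x / 40 := by
    calc L = 1 * L := (one_mul L).symm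
      _ ≤ √x * L := mul_le_mul_of_nonneg_right h6 hL0
      _ ≤ _ := h7
  have h9 : (1.3 : ℝ) ≤ Real.log 4 := log_four
  have h10 : x / 10 ≤ c * L := by
    have h11 : (n : ℝ) * Real.log 4 - 2 * n / 3 * Real.log 4 = x / 6 * Real.log 4 := by
      rw [hx]
      ring
    have h12 : x / 6 * 1.3 ≤ x / 6 * Real.log 4 := mul_le_mul_of_nonneg_left h9 (by positivity)
    have h13 : (n : ℝ) * Real.log 4 ≤ Real.log n + (√x * L + 2 * n / 3 * Real.log 4 + c * L) := h1
    nlinarith
  have h11 : 4 * x ≤ c * x ^ r := by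
    have h12 : c * L ≤ c * (1 / 40 * x ^ r) := mul_le_mul_of_nonneg_left hM1 hc0
    nlinarith
  -- conclusion
  have hMx : M ≤ x := by rw [hx]; linarith
  have h12 : x ^ r ≤ 2 * M ^ r := by
    calc x ^ r ≤ (2 * M) ^ r := Real.rpow_le_rpow hx0.le (by rw [hx]; linarith) hr0.le
      _ = 2 ^ r * M ^ r := Real.mul_rpow (by norm_num) hM0.le
      _ ≤ 2 * M ^ r := by
        refine mul_le_mul_of_nonneg_right ?_ (by positivity)
        calc (2 : ℝ) ^ r ≤ 2 ^ (1 : ℝ) := Real.rpow_le_rpow_of_exponent_le (by norm_num) (by linarith)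
          _ = 2 := Real.rpow_one 2
  have h13 : 2 * M ≤ c * M ^ r := by
    have h14 : c * x ^ r ≤ c * (2 * M ^ r) := mul_le_mul_of_nonneg_left h12 hc0
    nlinarith
  refine le_trans ?_ h2
  have h14 : M ^ r * M ^ (1 - r) = M := by
    rw [← Real.rpow_add hM0]
    simp
  have h15 : 2 * M ^ (1 - r) ≤ c := by
    have h16 : 0 < M ^ r := by positivity
    have h17 : M ^ r * (2 * M ^ (1 - r)) ≤ M ^ r * c := by
      calc M ^ r * (2 * M ^ (1 - r)) = 2 * (M ^ r * M ^ (1 - r)) := by ring
        _ = 2 * M := by rw [h14]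
        _ ≤ c * M ^ r := h13
        _ = _ := mul_comm _ _
    exact le_of_mul_le_mul_left h17 h16
  refine le_trans ?_ h15
  refine mul_le_mul_of_nonneg_left ?_ (by norm_num)
  exact Real.rpow_le_rpow_of_exponent_le (by linarith) (by linarith)

/-- the bad primes of the block `(M, 2M]` -/
def Bad (l : ℕ → ℝ) (M : ℝ) : Finset ℕ := (Pm M).filter (fun p => |l p| < M ^ (-(1 / 10000) : ℝ))

/-- **Bd** in a bad block almost all primes are bad -/
def StmtBd : Prop := ∀ κ : ℝ, 0 < κ → ∃ M₀ : ℝ, 1 ≤ M₀ ∧ ∀ (l : ℕ → ℝ) (M : ℝ), M₀ ≤ M → ¬ GdC (1 / 10000) l M →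
  M ^ (1 - κ) ≤ ((Bad l M).card : ℝ) ∧ ∀ p ∈ Bad l M, |l p| ≤ 1 / 2

theorem stmtBd : StmtBd := by
  intro κ hκ
  set κ' := min κ (1 / 10000) with hκ'
  have hκ'0 : 0 < κ' := lt_min hκ (by norm_num)
  have e1 := card_Pm hκ'0
  have e2 : ∀ᶠ M : ℝ in atTop, M ^ (-(1 / 10000) : ℝ) ≤ 1 / 2 :=
    (tendsto_rpow_neg_atTop (by norm_num : (0 : ℝ) < 1 / 10000)).eventually (Iic_mem_nhds (by norm_num))
  obtain ⟨M₁, hM₁⟩ := eventually_atTop.1 (e1.and e2)
  refine ⟨max M₁ 1, le_max_right _ _, fun l M hM hG => ?_⟩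
  obtain ⟨h1, h2⟩ := hM₁ M ((le_max_left _ _).trans hM)
  have hM1 : 1 ≤ M := (le_max_right _ _).trans hM
  constructor
  · unfold GdC at hG
    rw [not_le] at hG
    have h3 : (Pm M).card = ((Pm M).filter (fun p => M ^ (-(1 / 10000) : ℝ) ≤ |l p|)).card +
        (Bad l M).card := by
      unfold Bad
      rw [← Finset.card_filter_add_card_filter_not (s := Pm M) (fun p => M ^ (-(1 / 10000) : ℝ) ≤ |l p|)]
      congr 2
      ext p
      simp only [Finset.mem_filter, not_le]
    have h4 : ((Pm M).card : ℝ) = (((Pm M).filter (fun p => M ^ (-(1 / 10000) : ℝ) ≤ |l p|)).card : ℝ) +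
        ((Bad l M).card : ℝ) := by exact_mod_cast h3
    have h5 : M ^ (1 - 1 / 10000 : ℝ) ≤ M ^ (1 - κ') :=
      Real.rpow_le_rpow_of_exponent_le hM1 (by have := min_le_right κ (1 / 10000); linarith)
    have h6 : M ^ (1 - κ) ≤ M ^ (1 - κ') :=
      Real.rpow_le_rpow_of_exponent_le hM1 (by have := min_le_left κ (1 / 10000); linarith)
    linarith
  · intro p hp
    exact ((Finset.mem_filter.1 hp).2.le).trans h2

end

end Pool.Agent.A54.HS
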