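import Pool.Agent.Lib.HS.Di3

/-!
# Package `HS`, statements: the directional amplifier inequality and the distance two term

`StmtAId` is proved in `HS/Di4.lean`, `StmtDst` in `HS/Dst.lean`.
-/

set_option autoImplicit false

namespace Pool.Agent.A54.HS

open MeasureTheory Filter Topology Set
open scoped ContDiff ComplexConjugate UpperHalfPlane MatrixGroups ENNReal
open Pool.Agent.A54.Dyn (G fl base ze io mk4 dom)
open Pool.Agent.A54.Av (Mat NonSc)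
open Pool.Agent.A54.Hp Pool.Agent.A54.Hp.Hk Pool.Agent.A54.Hp.A2M

noncomputable section

/-- **AI dir** the one step amplifier inequality for primitive steps which do not kill the vectors of `B` -/
def StmtAId : Prop := ∀ R : ℝ, 1 ≤ R → ∃ C : ℝ, 1 ≤ C ∧ ∀ (l : ℕ → ℝ) (Φ : G → ℂ), HE l Φ →
  ∀ W : Set G, MeasurableSet W → W ⊆ Om R → ∀ M : ℝ, 1 ≤ M → ∀ Q : Finset ℕ, Q ⊆ Pm M →
    ∀ B : Finset (Fin 2 → ℤ), (∀ u ∈ B, ∀ p ∈ Q, ¬ ∀ i, (p : ℤ) ∣ u i) → 8 * (B.card : ℝ) ≤ M →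
      (∀ p ∈ Q, |l p| ≤ 1 / 2 ∧ ENNReal.ofReal (C * B.card * l p ^ 2) ≤ ms Φ W) →
        (Q.card : ℝ≥0∞) ^ 2 * ms Φ W ^ 2 ≤ ENNReal.ofReal C *
          (ENNReal.ofReal (1 / M ^ 2) * (∑' s : Mat, (Ld Q B).indicator (fun s => Dd Φ W (nm s)) s) +
            ENNReal.ofReal (1 / M) * (∑' s : Mat, (Lv2 Q 1).indicator (fun s => Dd Φ W (nm s)) s) +
            (Q.card : ℝ≥0∞) * ms Φ W)

/-- **Dst** the distance two term is controlled by the top level (log-convexity of the moments) -/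
def StmtDst : Prop := ∀ (k : ℕ) (R : ℝ), 1 ≤ k → 1 ≤ R → ∃ C : ℝ, 1 ≤ C ∧ ∀ (l : ℕ → ℝ) (Φ : G → ℂ), HE l Φ →
  ∀ V : Set G, MeasurableSet V → V ⊆ Om R → ∀ M : ℝ, 1 ≤ M → ∀ Q : Finset ℕ, Q ⊆ Pm M →
    (∀ p ∈ Q, |l p| ≤ 1 / 2) → ENNReal.ofReal C ≤ (Q.card : ℝ≥0∞) ^ k * ms Φ V →
      (∑' s : Mat, (Lv2 Q 1).indicator (fun s => Dd Φ V (nm s)) s) ^ (2 * k) ≤ ENNReal.ofReal C *
        ∑' s : Mat, (Lv2 Q (2 * k)).indicator (fun s => Dd Φ V (nm s)) s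

end

end Pool.Agent.A54.HS
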