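import Pool.Agent.Lib.HS.Cel1

/-!
# Package `HS`, cells: the directional amplifier inequality and the distance two term for cells
-/

set_option autoImplicit false

namespace Pool.Agent.A54.HS

open MeasureTheory Filter Topology Set
open scoped ContDiff ComplexConjugate UpperHalfPlane MatrixGroups ENNReal
open Pool.Agent.A54.Dyn (G fl base ze io mk4 dom)
open Pool.Agent.A54.Av (Mat NonSc)
open Pool.Agent.A54.Hp Pool.Agent.A54.Hp.Hk Pool.Agent.A54.Hp.A2M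

noncomputable section

/-- a family of disjoint cells of mass between `A` and `2 A` in the box -/
def CelF {ι : Type} (Φ : G → ℂ) (R A : ℝ) (c : ι → Set G) (W : Finset ι) : Prop :=
  (∀ i ∈ W, MeasurableSet (c i) ∧ c i ⊆ Om R ∧ ENNReal.ofReal A ≤ ms Φ (c i) ∧
    ms Φ (c i) ≤ ENNReal.ofReal (2 * A)) ∧ ∀ i ∈ W, ∀ j ∈ W, i ≠ j → Disjoint (c i) (c j)

lemma CelF.mono {ι : Type} {Φ : G → ℂ} {R A : ℝ} {c : ι → Set G} {W W' : Finset ι} (h : CelF Φ R A c W)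
    (hs : W' ⊆ W) : CelF Φ R A c W' :=
  ⟨fun i hi => h.1 i (hs hi), fun i hi j hj => h.2 i (hs hi) j (hs hj)⟩

lemma CelF.ge {ι : Type} {Φ : G → ℂ} {R A : ℝ} {c : ι → Set G} {W : Finset ι} (h : CelF Φ R A c W)
    (hA : 0 ≤ A) : ENNReal.ofReal (A * W.card) ≤ ms Φ (Un c W) := by
  rw [ms_Un Φ (fun i hi => (h.1 i hi).1) h.2]
  calc ENNReal.ofReal (A * W.card) = ∑ _i ∈ W, ENNReal.ofReal A := by
        rw [Finset.sum_const, nsmul_eq_mul, ENNReal.ofReal_mul hA, ENNReal.ofReal_natCast, mul_comm]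
    _ ≤ _ := Finset.sum_le_sum fun i hi => (h.1 i hi).2.2.1

lemma CelF.le {ι : Type} {Φ : G → ℂ} {R A : ℝ} {c : ι → Set G} {W : Finset ι} (h : CelF Φ R A c W)
    (hA : 0 ≤ A) : ms Φ (Un c W) ≤ ENNReal.ofReal (2 * A * W.card) := by
  rw [ms_Un Φ (fun i hi => (h.1 i hi).1) h.2]
  calc ∑ i ∈ W, ms Φ (c i) ≤ ∑ _i ∈ W, ENNReal.ofReal (2 * A) :=
        Finset.sum_le_sum fun i hi => (h.1 i hi).2.2.2
    _ = _ := by
        rw [Finset.sum_const, nsmul_eq_mul, ENNReal.ofReal_mul (p := 2 * A) (by positivity),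
          ENNReal.ofReal_natCast, mul_comm]

/-- **AIc** the directional amplifier inequality for cells -/
theorem aic (hNu : StmtNuL) (h : StmtAId) : ∀ R : ℝ, 1 ≤ R → ∃ C : ℝ, 1 ≤ C ∧
    ∀ (l : ℕ → ℝ) (Φ : G → ℂ), HE l Φ → ∀ (ι : Type) (c : ι → Set G) (W : Finset ι) (A : ℝ), 0 < A →
      CelF Φ R A c W → ∀ M : ℝ, 1 ≤ M → ∀ Q : Finset ℕ, Q ⊆ Pm M →
      ∀ B : Finset (Fin 2 → ℤ), (∀ u ∈ B, ∀ p ∈ Q, ¬ ∀ i, (p : ℤ) ∣ u i) → 8 * (B.card : ℝ) ≤ M →
      (∀ p ∈ Q, |l p| ≤ 1 / 2 ∧ C * B.card * l p ^ 2 ≤ A * W.card) →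
      ∀ t : ℝ, 0 ≤ t → (∑' s : Mat, (Lv2 Q 1).indicator (fun s => Dd Φ (Un c W) (nm s)) s ≤
        ENNReal.ofReal (A * t)) →
      ∀ T : Finset (ι × ι × Mat), Trp c W (Ld Q B) ⊆ T →
        (Q.card : ℝ) ^ 2 * A * (W.card : ℝ) ^ 2 ≤
          C * ((T.card : ℝ) / M ^ 2 + t / M + (Q.card : ℝ) * W.card) := by
  intro R hR
  obtain ⟨C, hC1, hC⟩ := h R hR
  refine ⟨2 * C, by linarith, ?_⟩
  intro l Φ hE ι c W A hA hW M hM Q hQM B hB hBM hQl t ht0 ht T hT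
  have hM0 : 0 < M := by linarith
  have hge := hW.ge hA.le
  have h1 := hC l Φ hE (Un c W) (Un_meas fun i hi => (hW.1 i hi).1) (Un_sub fun i hi => (hW.1 i hi).2.1)
    M hM Q hQM B hB hBM (by
      intro p hp
      refine ⟨(hQl p hp).1, le_trans (ENNReal.ofReal_le_ofReal ?_) hge⟩
      refine le_trans ?_ (hQl p hp).2
      have : 0 ≤ C * B.card * l p ^ 2 := by positivity
      nlinarith)
  have h2 : (Q.card : ℝ≥0∞) ^ 2 * ms Φ (Un c W) ^ 2 ≤ ENNReal.ofReal C *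
      (ENNReal.ofReal (1 / M ^ 2) * (ENNReal.ofReal (2 * A) * (T.card : ℝ≥0∞)) +
        ENNReal.ofReal (1 / M) * ENNReal.ofReal (A * t) +
        (Q.card : ℝ≥0∞) * ENNReal.ofReal (2 * A * W.card)) := by
    refine h1.trans (mul_le_mul_right (add_le_add (add_le_add (mul_le_mul_right ?_ _)
      (mul_le_mul_right ht _)) (mul_le_mul_right (hW.le hA.le) _)) _)
    exact sum_Un hNu hE.cont (fun i hi => (hW.1 i hi).1) (fun i hi => (hW.1 i hi).2.2.2) (Ld Q B) T hT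
  have h3 : ENNReal.ofReal ((Q.card : ℝ) ^ 2 * (A * W.card) ^ 2) ≤
      ENNReal.ofReal (C * (1 / M ^ 2 * (2 * A * T.card) + 1 / M * (A * t) + Q.card * (2 * A * W.card))) := by
    have e1 : ENNReal.ofReal ((Q.card : ℝ) ^ 2 * (A * W.card) ^ 2) =
        (Q.card : ℝ≥0∞) ^ 2 * ENNReal.ofReal (A * W.card) ^ 2 := by
      rw [ENNReal.ofReal_mul (by positivity), ENNReal.ofReal_pow (by positivity),
        ENNReal.ofReal_pow (by positivity), ENNReal.ofReal_natCast]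
    have e2 : ENNReal.ofReal (C * (1 / M ^ 2 * (2 * A * T.card) + 1 / M * (A * t) +
        Q.card * (2 * A * W.card))) = ENNReal.ofReal C *
      (ENNReal.ofReal (1 / M ^ 2) * (ENNReal.ofReal (2 * A) * (T.card : ℝ≥0∞)) +
        ENNReal.ofReal (1 / M) * ENNReal.ofReal (A * t) +
        (Q.card : ℝ≥0∞) * ENNReal.ofReal (2 * A * W.card)) := by
      rw [ENNReal.ofReal_mul (by linarith), ENNReal.ofReal_add (by positivity) (by positivity),
        ENNReal.ofReal_add (by positivity) (by positivity), ENNReal.ofReal_mul (p := 1 / M ^ 2) (by positivity),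
        ENNReal.ofReal_mul (p := 2 * A) (q := (T.card : ℝ)) (by positivity),
        ENNReal.ofReal_mul (p := 1 / M) (by positivity),
        ENNReal.ofReal_mul (p := (Q.card : ℝ)) (by positivity), ENNReal.ofReal_natCast,
        ENNReal.ofReal_natCast]
    rw [e1, e2]
    exact le_trans (mul_le_mul_right (pow_le_pow_left' hge 2) _) h2
  have h4 : (Q.card : ℝ) ^ 2 * (A * W.card) ^ 2 ≤
      C * (1 / M ^ 2 * (2 * A * T.card) + 1 / M * (A * t) + Q.card * (2 * A * W.card)) :=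
    (ENNReal.ofReal_le_ofReal_iff (by positivity)).1 h3
  have h5 : A * ((Q.card : ℝ) ^ 2 * A * (W.card : ℝ) ^ 2) ≤
      A * (2 * C * ((T.card : ℝ) / M ^ 2 + t / M + (Q.card : ℝ) * W.card)) := by
    have e1 : A * ((Q.card : ℝ) ^ 2 * A * (W.card : ℝ) ^ 2) = (Q.card : ℝ) ^ 2 * (A * W.card) ^ 2 := by ring
    have e2 : A * (2 * C * ((T.card : ℝ) / M ^ 2 + t / M + (Q.card : ℝ) * W.card)) =
        C * (1 / M ^ 2 * (2 * A * T.card) + 1 / M * (A * t) + Q.card * (2 * A * W.card)) +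
          C * (1 / M * (A * t)) := by
      ring
    rw [e1, e2]
    have : 0 ≤ C * (1 / M * (A * t)) := by positivity
    linarith
  exact le_of_mul_le_mul_left h5 hA

/-- **AI3c** the amplifier inequality (top level) for cells -/
theorem ai3c (hNu : StmtNuL) (h : StmtAI3) : ∀ (k : ℕ) (R : ℝ), 1 ≤ k → 1 ≤ R → ∃ C : ℝ, 1 ≤ C ∧
    ∀ (l : ℕ → ℝ) (Φ : G → ℂ), HE l Φ → ∀ (ι : Type) (c : ι → Set G) (W : Finset ι) (A : ℝ), 0 < A →
      CelF Φ R A c W → ∀ M : ℝ, 1 ≤ M → ∀ Q : Finset ℕ, Q ⊆ Pm M →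
      (∀ p ∈ Q, |l p| ≤ 1 / 2) → C ≤ (Q.card : ℝ) ^ k * (A * W.card) →
      ∀ T : Finset (ι × ι × Mat), Trp c W (Lv2 Q (2 * k)) ⊆ T →
        M ^ (2 * k) * (Q.card : ℝ) ^ (2 * k) * A * (W.card : ℝ) ^ 2 ≤ C * T.card := by
  intro k R hk hR
  obtain ⟨C, hC1, hC⟩ := h k R hk hR
  refine ⟨2 * C, by linarith, ?_⟩
  intro l Φ hE ι c W A hA hW M hM Q hQM hQl hbig T hT
  have hM0 : 0 < M := by linarith
  have hge := hW.ge hA.le
  have h1 := hC l Φ hE (Un c W) (Un_meas fun i hi => (hW.1 i hi).1) (Un_sub fun i hi => (hW.1 i hi).2.1)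
    M hM Q hQM hQl (by
      refine le_trans ?_ (mul_le_mul_right hge _)
      rw [← ENNReal.ofReal_natCast Q.card, ← ENNReal.ofReal_pow (by positivity),
        ← ENNReal.ofReal_mul (by positivity)]
      exact ENNReal.ofReal_le_ofReal (by linarith))
  have h2 := sum_Un hNu hE.cont (fun i hi => (hW.1 i hi).1) (fun i hi => (hW.1 i hi).2.2.2)
    (Lv2 Q (2 * k)) T hT
  have h3 := (mul_le_mul_right (pow_le_pow_left' hge 2) ((Q.card : ℝ≥0∞) ^ (2 * k))).trans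
    (h1.trans (mul_le_mul_right h2 _))
  have h4 : (Q.card : ℝ) ^ (2 * k) * (A * W.card) ^ 2 ≤ C / M ^ (2 * k) * (2 * A * T.card) := by
    have e1 : ENNReal.ofReal ((Q.card : ℝ) ^ (2 * k) * (A * W.card) ^ 2) =
        (Q.card : ℝ≥0∞) ^ (2 * k) * ENNReal.ofReal (A * W.card) ^ 2 := by
      rw [ENNReal.ofReal_mul (by positivity), ENNReal.ofReal_pow (by positivity),
        ENNReal.ofReal_pow (by positivity), ENNReal.ofReal_natCast]
    have e2 : ENNReal.ofReal (C / M ^ (2 * k) * (2 * A * T.card)) =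
        ENNReal.ofReal (C / M ^ (2 * k)) * (ENNReal.ofReal (2 * A) * (T.card : ℝ≥0∞)) := by
      rw [ENNReal.ofReal_mul (by positivity), ENNReal.ofReal_mul (p := 2 * A) (q := (T.card : ℝ)) (by positivity),
        ENNReal.ofReal_natCast]
    rw [← e1, ← e2] at h3
    exact (ENNReal.ofReal_le_ofReal_iff (by positivity)).1 h3
  have hMk : 0 < M ^ (2 * k) := by positivity
  have h5 : A * (M ^ (2 * k) * (Q.card : ℝ) ^ (2 * k) * A * (W.card : ℝ) ^ 2) ≤ A * (2 * C * T.card) := by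
    have h6 := mul_le_mul_of_nonneg_left h4 hMk.le
    calc A * (M ^ (2 * k) * (Q.card : ℝ) ^ (2 * k) * A * (W.card : ℝ) ^ 2)
        = M ^ (2 * k) * ((Q.card : ℝ) ^ (2 * k) * (A * W.card) ^ 2) := by ring
      _ ≤ M ^ (2 * k) * (C / M ^ (2 * k) * (2 * A * T.card)) := h6
      _ = (M ^ (2 * k) / M ^ (2 * k)) * (C * (2 * A * T.card)) := by ring
      _ = _ := by
        rw [div_self hMk.ne']
        ring
  exact le_of_mul_le_mul_left h5 hA

/-- **Dsc** the distance two term for cells -/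
theorem dsc (hNu : StmtNuL) (h : StmtDst) : ∀ (k : ℕ) (R : ℝ), 1 ≤ k → 1 ≤ R → ∃ C : ℝ, 1 ≤ C ∧
    ∀ (l : ℕ → ℝ) (Φ : G → ℂ), HE l Φ → ∀ (ι : Type) (c : ι → Set G) (W : Finset ι) (A : ℝ), 0 < A →
      CelF Φ R A c W → ∀ M : ℝ, 1 ≤ M → ∀ Q : Finset ℕ, Q ⊆ Pm M →
      (∀ p ∈ Q, |l p| ≤ 1 / 2) → C ≤ (Q.card : ℝ) ^ k * (A * W.card) →
      ∀ T : Finset (ι × ι × Mat), Trp c W (Lv2 Q (2 * k)) ⊆ T →
      ∑' s : Mat, (Lv2 Q 1).indicator (fun s => Dd Φ (Un c W) (nm s)) s ≤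
        ENNReal.ofReal ((C * A * T.card) ^ ((1 : ℝ) / (2 * k))) := by
  intro k R hk hR
  obtain ⟨C, hC1, hC⟩ := h k R hk hR
  refine ⟨2 * C, by linarith, ?_⟩
  intro l Φ hE ι c W A hA hW M hM Q hQM hQl hbig T hT
  have hge := hW.ge hA.le
  have hk0 : (0 : ℝ) < 2 * k := by
    have : (1 : ℝ) ≤ k := by exact_mod_cast hk
    linarith
  have h1 := hC l Φ hE (Un c W) (Un_meas fun i hi => (hW.1 i hi).1) (Un_sub fun i hi => (hW.1 i hi).2.1)
    M hM Q hQM hQl (by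
      refine le_trans ?_ (mul_le_mul_right hge _)
      rw [← ENNReal.ofReal_natCast Q.card, ← ENNReal.ofReal_pow (by positivity),
        ← ENNReal.ofReal_mul (by positivity)]
      exact ENNReal.ofReal_le_ofReal (by linarith))
  have h2 := sum_Un hNu hE.cont (fun i hi => (hW.1 i hi).1) (fun i hi => (hW.1 i hi).2.2.2)
    (Lv2 Q (2 * k)) T hT
  have h3 := h1.trans (mul_le_mul_right h2 _)
  set X := ∑' s : Mat, (Lv2 Q 1).indicator (fun s => Dd Φ (Un c W) (nm s)) s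
  have h4 : X ^ (2 * k) ≤ ENNReal.ofReal (2 * C * A * T.card) := by
    refine h3.trans (le_of_eq ?_)
    rw [← ENNReal.ofReal_natCast T.card, ← ENNReal.ofReal_mul (by positivity),
      ← ENNReal.ofReal_mul (by positivity)]
    congr 1
    ring
  have h5 : ENNReal.ofReal ((2 * C * A * T.card) ^ ((1 : ℝ) / (2 * k))) ^ (2 * k) =
      ENNReal.ofReal (2 * C * A * T.card) := by
    rw [← ENNReal.ofReal_pow (by positivity), ← Real.rpow_natCast, ← Real.rpow_mul (by positivity)]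
    congr 1
    push_cast
    rw [one_div, inv_mul_cancel₀ hk0.ne', Real.rpow_one]
  rw [← h5] at h4
  exact (ENNReal.pow_le_pow_left_iff (by omega)).1 h4

end

end Pool.Agent.A54.HS
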