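import Pool.Agent.Lib.MP_a54f13_nt.Dyn.Main
import Pool.Agent.Lib.MP_a54f13_nt.Ef.SpecS
import Pool.Agent.Lib.MP_a54f13_nt.Av.Fd2
import Pool.Agent.Lib.MP_a54f13_nt.Av.Vol
import Pool.Agent.Lib.MP_a54f13_nt.Pl.U2
import Pool.Agent.Lib.MP_a54f13_nt.Pl.U1

/-!
# Package `HS`, module `F42`: the case `n = 4` implies the case `n = 2`

helper39. Along every sequence of Hecke–Maass forms: the sharp lower bound for the fourth moment, no escape of mass.
-/

set_option autoImplicit false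

namespace Pool.Agent.A54.HS

open MeasureTheory Filter Topology Set
open scoped ContDiff ComplexConjugate UpperHalfPlane MatrixGroups ENNReal
open Pool.Agent.A54.Half (H0)
open Pool.Agent.A54.X (ext_coe measurableSet_fdo fdo_inter_sub continuous_of_ext integrableOn_fdo O
  isOpen_O O_sub mem_fdo_iff)

noncomputable section

namespace F42M

variable {f : ℕ → ℍ → ℝ}

lemma O_eq : Ofd = O := rfl

/-- the fourth moments on the half-plane -/
lemma four (hf : ∀ i, Continuous (f i)) (hinv : ∀ i (γ : SL(2, ℤ)) (z : ℍ), f i (γ • z) = f i z)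
    (h4 : ∀ ψ : ℍ → ℝ, TestX ψ → Tendsto (fun i => ∫ z in ModularGroup.fdo, ψ z * f i z ^ 4) atTop
      (𝓝 (3 * ∫ z in ModularGroup.fdo, ψ z))) {φ : ℂ → ℝ} (hφ : TestR H0 φ) :
    Tendsto (fun i => ∫ z : ℍ, φ z * f i z ^ 4) atTop (𝓝 (3 * ∫ z : ℍ, φ z)) := by
  obtain ⟨ψ, hψ, hid⟩ := Pl.stmtU1 φ hφ
  have h1 := hid (fun _ => 1) continuous_const (fun _ _ => rfl)
  simp only [mul_one] at h1
  rw [h1]
  refine (h4 ψ hψ).congr fun i => ?_
  exact (hid (fun z => f i z ^ 4) ((hf i).pow 4) (fun γ z => by rw [hinv])).symm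

/-- upper bound for the mass -/
lemma up (hR : Dyn.HalfRatioS f)
    (h4 : ∀ φ : ℂ → ℝ, TestR H0 φ → Tendsto (fun i => ∫ z : ℍ, φ z * f i z ^ 4) atTop
      (𝓝 (3 * ∫ z : ℍ, φ z))) {φ : ℂ → ℝ} (hφ : TestR O φ) (h0 : ∀ z, 0 ≤ φ z) {ε : ℝ} (hε : 0 < ε) :
    ∀ᶠ i in atTop, ∫ z : ℍ, φ z * f i z ^ 2 ≤ (∫ z : ℍ, φ z) + ε := by
  have hm : 0 ≤ ∫ z : ℍ, φ z := integral_nonneg fun z => h0 z
  set m := ∫ z : ℍ, φ z with hmd
  have h1 := (h4 φ (Av.Fd2M.testH hφ)).const_mul m
  have h2 : ∀ᶠ i in atTop, m * ∫ z : ℍ, φ z * f i z ^ 4 < m * (3 * m) + 2 * ε ^ 2 :=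
    h1.eventually_lt_const (by have := pow_pos hε 2; linarith)
  filter_upwards [h2, hR φ hφ h0 (ε ^ 2) (by positivity)] with i hi1 hi2
  by_contra hlt
  have hlt' : m + ε < ∫ z : ℍ, φ z * f i z ^ 2 := not_le.mp hlt
  have h3 : (m + ε) ^ 2 < (∫ z : ℍ, φ z * f i z ^ 2) ^ 2 :=
    pow_lt_pow_left₀ hlt' (by linarith) two_ne_zero
  nlinarith [mul_nonneg hm hε.le]

/-- the mass near the boundary of the fundamental domain -/
lemma bd (hf : ∀ i, Continuous (f i))
    (h4 : ∀ φ : ℂ → ℝ, TestR H0 φ → Tendsto (fun i => ∫ z : ℍ, φ z * f i z ^ 4) atTop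
      (𝓝 (3 * ∫ z : ℍ, φ z))) {χ ζ : ℂ → ℝ} (hχ : TestR O χ) (hχ1 : ∀ z, 0 ≤ χ z ∧ χ z ≤ 1)
    (hζ : TestR H0 ζ) (hζ1 : ∀ z, 0 ≤ ζ z ∧ ζ z ≤ 1) {l : ℝ} (hl : 0 < l) (hl1 : l ≤ 1)
    (hint : ∫ z : ℍ, ζ z * (1 - χ z) ≤ l ^ 2) :
    ∀ᶠ i in atTop, ∫ z : ℍ, (ζ z * (1 - χ z)) * f i z ^ 2 ≤ 5 * l * (1 + Real.pi) := by
  have hi1 : Integrable fun z : ℍ => ζ z := by
    have := Pl.U2M.integrable_test hζ (G := fun _ => (1 : ℝ)) continuous_const
    simpa using this
  have hi2 : Integrable fun z : ℍ => χ z := by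
    have := Pl.U2M.integrable_test (Av.Fd2M.testH hχ) (G := fun _ => (1 : ℝ)) continuous_const
    simpa using this
  have hi3 : Integrable fun z : ℍ => ζ z * (1 - χ z) :=
    Pl.U2M.integrable_test hζ (G := fun z => 1 - χ z)
      (continuous_const.sub (hχ.smooth.continuous.comp UpperHalfPlane.continuous_coe))
  have h1 : ∫ z : ℍ, ζ z ≤ Real.pi / 3 + l ^ 2 := by
    calc ∫ z : ℍ, ζ z ≤ ∫ z : ℍ, (χ z + ζ z * (1 - χ z)) := by
          refine integral_mono hi1 (hi2.add hi3) fun z => ?_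
          show ζ z ≤ χ z + ζ z * (1 - χ z)
          have h2 := hχ1 z
          have h3 := hζ1 z
          nlinarith [mul_nonneg h2.1 (sub_nonneg.2 h3.2)]
      _ = (∫ z : ℍ, χ z) + ∫ z : ℍ, ζ z * (1 - χ z) := integral_add hi2 hi3
      _ ≤ Real.pi / 3 + l ^ 2 := add_le_add (Av.Fd2M.cut_le Av.stmtVol hχ hχ1) hint
  have hpi := Real.pi_pos
  have h2 : ∀ᶠ i in atTop, ∫ z : ℍ, ζ z * f i z ^ 4 < 3 * (∫ z : ℍ, ζ z) + 1 :=
    (h4 ζ hζ).eventually_lt_const (by linarith)
  filter_upwards [h2] with i hi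
  have hi4 : Integrable fun z : ℍ => ζ z * f i z ^ 4 := Pl.U2M.integrable_test hζ ((hf i).pow 4)
  have hi5 : Integrable fun z : ℍ => (ζ z * (1 - χ z)) * f i z ^ 2 := by
    have := Pl.U2M.integrable_test hζ (G := fun z => (1 - χ z) * f i z ^ 2)
      ((continuous_const.sub (hχ.smooth.continuous.comp UpperHalfPlane.continuous_coe)).mul ((hf i).pow 2))
    refine this.congr (Eventually.of_forall fun z => ?_)
    simp only
    ring
  have h3 : ∫ z : ℍ, (ζ z * (1 - χ z)) * f i z ^ 2 ≤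
      ∫ z : ℍ, (l / 2 * (ζ z * f i z ^ 4) + 1 / (2 * l) * (ζ z * (1 - χ z))) := by
    refine integral_mono hi5 ((hi4.const_mul _).add (hi3.const_mul _)) fun z => ?_
    show (ζ z * (1 - χ z)) * f i z ^ 2 ≤ l / 2 * (ζ z * f i z ^ 4) + 1 / (2 * l) * (ζ z * (1 - χ z))
    have ha := hχ1 z
    have hb := hζ1 z
    have hc : f i z ^ 2 ≤ l / 2 * f i z ^ 4 + 1 / (2 * l) := by
      rw [← sub_nonneg]
      have : l / 2 * f i z ^ 4 + 1 / (2 * l) - f i z ^ 2 = (l * f i z ^ 2 - 1) ^ 2 / (2 * l) := by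
        field_simp
        ring
      rw [this]
      positivity
    have hd : 0 ≤ ζ z * (1 - χ z) := mul_nonneg hb.1 (sub_nonneg.2 ha.2)
    have he : 0 ≤ f i z ^ 4 := Even.pow_nonneg ⟨2, rfl⟩ _
    calc (ζ z * (1 - χ z)) * f i z ^ 2 ≤ (ζ z * (1 - χ z)) * (l / 2 * f i z ^ 4 + 1 / (2 * l)) :=
          mul_le_mul_of_nonneg_left hc hd
      _ ≤ _ := by
          have hg : (ζ z * (1 - χ z)) * f i z ^ 4 ≤ ζ z * f i z ^ 4 :=
            mul_le_mul_of_nonneg_right (by nlinarith) he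
          nlinarith
  rw [integral_add (hi4.const_mul _) (hi3.const_mul _), integral_const_mul, integral_const_mul] at h3
  refine h3.trans ?_
  have h5 : 1 / (2 * l) * ∫ z : ℍ, ζ z * (1 - χ z) ≤ l / 2 := by
    calc 1 / (2 * l) * ∫ z : ℍ, ζ z * (1 - χ z) ≤ 1 / (2 * l) * l ^ 2 :=
          mul_le_mul_of_nonneg_left hint (by positivity)
      _ = l / 2 := by field_simp
  have h6 : ∫ z : ℍ, ζ z * f i z ^ 4 ≤ Real.pi + 4 := by nlinarith
  have h7 : l / 2 * ∫ z : ℍ, ζ z * f i z ^ 4 ≤ l / 2 * (Real.pi + 4) :=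
    mul_le_mul_of_nonneg_left h6 (by positivity)
  nlinarith [mul_pos hl hpi]

end F42M

open F42M

/-- the case `n = 4` implies the case `n = 2` -/
theorem four_two (hCus : Ef.StmtCus) (f : ℕ → ℍ → ℝ) (t : ℕ → ℝ) (hf : ∀ i, IsHeckeMaass (f i) (t i))
    (ht : Tendsto t atTop atTop)
    (h4 : ∀ ψ : ℍ → ℝ, TestX ψ → Tendsto (fun i => ∫ z in ModularGroup.fdo, ψ z * f i z ^ 4) atTop
      (𝓝 (3 * ∫ z in ModularGroup.fdo, ψ z))) :
    ∀ ψ : ℍ → ℝ, TestX ψ → Tendsto (fun i => ∫ z in ModularGroup.fdo, ψ z * f i z ^ 2) atTop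
      (𝓝 (∫ z in ModularGroup.fdo, ψ z)) := by
  have hcont : ∀ i, Continuous (f i) := fun i => Av.FdM.form_cont (hf i)
  have hsq : ∀ i, IntegrableOn (fun z => f i z ^ 2) ModularGroup.fdo := fun i => Av.FdM.sq_int (hf i)
  have hR : Dyn.HalfRatioS f := (Dyn.stmtHalf3 stmtInt stmtLap Dyn.pRatioS Dyn.pCubeS Dyn.pNAf f t ⟨hf, ht⟩).1
  have h4' : ∀ φ : ℂ → ℝ, TestR H0 φ → Tendsto (fun i => ∫ z : ℍ, φ z * f i z ^ 4) atTop
      (𝓝 (3 * ∫ z : ℍ, φ z)) := fun φ hφ => four hcont (fun i => (hf i).invariant) h4 hφ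
  obtain ⟨C, hC, hCus⟩ := hCus
  have hVol := Av.stmtVol
  have hpi := Real.pi_pos
  -- the lower bound
  have low : ∀ ψ : ℍ → ℝ, TestX ψ → ∀ ε : ℝ, 0 < ε → ∀ᶠ i in atTop,
      (∫ z in ModularGroup.fdo, ψ z) - ε ≤ ∫ z in ModularGroup.fdo, ψ z * f i z ^ 2 := by
    intro ψ hψ ε hε
    obtain ⟨B, hB, hBψ⟩ := Av.FdM.testX_bdd hψ
    obtain ⟨Y₀, hY₀⟩ := hψ.cusp
    have hψc : Continuous ψ := continuous_of_ext hψ.smooth
    -- small parameters
    obtain ⟨l, hl, hl1, hlB⟩ : ∃ l : ℝ, 0 < l ∧ l ≤ 1 ∧ B * (10 * l * (1 + Real.pi) + l ^ 2) ≤ ε / 3 := by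
      refine ⟨min 1 (ε / (3 * (B + 1) * (11 * (1 + Real.pi)))), lt_min one_pos (by positivity), min_le_left _ _, ?_⟩
      set l := min 1 (ε / (3 * (B + 1) * (11 * (1 + Real.pi)))) with hld
      have h1 : l ≤ ε / (3 * (B + 1) * (11 * (1 + Real.pi))) := min_le_right _ _
      have h2 : l ≤ 1 := min_le_left _ _
      have h3 : 0 < l := lt_min one_pos (by positivity)
      rw [le_div_iff₀ (by positivity)] at h1
      have h4 : l ^ 2 ≤ l := by nlinarith
      have h5 : B * (10 * l * (1 + Real.pi) + l ^ 2) ≤ B * (l * (11 * (1 + Real.pi))) := by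
        apply mul_le_mul_of_nonneg_left _ hB
        nlinarith [mul_pos h3 hpi]
      have h6 : B * (l * (11 * (1 + Real.pi))) ≤ (B + 1) * (l * (11 * (1 + Real.pi))) := by
        apply mul_le_mul_of_nonneg_right (by linarith)
        positivity
      linarith
    obtain ⟨Y, hY1, hYY, hYB⟩ : ∃ Y : ℝ, 1 ≤ Y ∧ Y₀ ≤ Y ∧ B * (C * Y ^ (-(1 / 4 : ℝ))) ≤ ε / 3 := by
      have h1 : Tendsto (fun Y : ℝ => B * (C * Y ^ (-(1 / 4 : ℝ)))) atTop (𝓝 (B * (C * 0))) :=
        ((tendsto_rpow_neg_atTop (by norm_num)).const_mul C).const_mul B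
      rw [mul_zero, mul_zero] at h1
      obtain ⟨Y, hY1, hY2, hY3⟩ := ((h1.eventually_le_const (show (0 : ℝ) < ε / 3 by positivity)).and
        ((eventually_ge_atTop 1).and (eventually_ge_atTop Y₀))).exists
      exact ⟨Y, hY2, hY3, hY1⟩
    obtain ⟨χ, ζ, hχ, hχ1, hζ, hζ1, hζT, hint⟩ := Pl.U2M.cutoffs Y (pow_pos hl 2)
    have hmY : MeasurableSet {z : ℍ | Y < z.im} :=
      measurableSet_lt measurable_const UpperHalfPlane.continuous_im.measurable
    have hχc : Continuous fun z : ℍ => χ z := hχ.smooth.continuous.comp UpperHalfPlane.continuous_coe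
    have hζc : Continuous fun z : ℍ => ζ z := hζ.smooth.continuous.comp UpperHalfPlane.continuous_coe
    -- the test functions
    have hφ₁ : TestR O (fun w => χ w * ext ψ w) :=
      ⟨(X.testR_cut hψ.smooth hχ).smooth, (X.testR_cut hψ.smooth hχ).cpt,
        (tsupport_mul_subset_left (f := χ) (g := ext ψ)).trans hχ.sub⟩
    have hφ₂ : TestR O (fun w => B * χ w - χ w * ext ψ w) := by
      refine ⟨(contDiff_const.mul hχ.smooth).sub hφ₁.smooth, (hχ.cpt.mul_left (f := fun _ => B)).sub hφ₁.cpt, ?_⟩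
      have h1 : (fun w => B * χ w - χ w * ext ψ w) = fun w => χ w * (B - ext ψ w) := by
        funext w
        ring
      rw [h1]
      exact (tsupport_mul_subset_left (f := χ) (g := fun w => B - ext ψ w)).trans hχ.sub
    have hφ₂0 : ∀ w, 0 ≤ B * χ w - χ w * ext ψ w := by
      intro w
      by_cases hw : w ∈ O
      · have hw0 : 0 < w.im := hw.1
        have h1 : ext ψ w = ψ ⟨w, hw0⟩ := by
          have := ext_coe ψ ⟨w, hw0⟩
          exact this
        have h2 := hBψ ⟨w, hw0⟩ ((mem_fdo_iff _).mpr hw)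
        have h3 := (abs_le.mp h2).2
        have h4 := (hχ1 w).1
        rw [h1]
        nlinarith
      · have : χ w = 0 := image_eq_zero_of_notMem_tsupport fun h => hw (hχ.sub h)
        rw [this]
        simp
    have hup := up hR h4' hφ₂ hφ₂0 (show 0 < ε / 3 by positivity)
    have hbd := bd hcont h4' hχ hχ1 hζ hζ1 hl hl1 hint
    filter_upwards [hup, hbd] with i hi1 hi2
    -- integrability
    have iχ : Integrable fun z : ℍ => χ z := by
      have := Pl.U2M.integrable_test (Av.Fd2M.testH hχ) (G := fun _ => (1 : ℝ)) continuous_const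
      simpa using this
    have iχf : Integrable fun z : ℍ => χ z * f i z ^ 2 :=
      Pl.U2M.integrable_test (Av.Fd2M.testH hχ) ((hcont i).pow 2)
    have iφ : Integrable fun z : ℍ => χ z * ψ z :=
      Pl.U2M.integrable_test (Av.Fd2M.testH hχ) hψc
    have iφf : Integrable fun z : ℍ => χ z * (ψ z * f i z ^ 2) :=
      Pl.U2M.integrable_test (Av.Fd2M.testH hχ) (hψc.mul ((hcont i).pow 2))
    have iζ : Integrable fun z : ℍ => ζ z * (1 - χ z) :=
      Pl.U2M.integrable_test hζ (G := fun z => 1 - χ z) (continuous_const.sub hχc)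
    have iζf : Integrable fun z : ℍ => (ζ z * (1 - χ z)) * f i z ^ 2 := by
      have := Pl.U2M.integrable_test hζ (G := fun z => (1 - χ z) * f i z ^ 2)
        ((continuous_const.sub hχc).mul ((hcont i).pow 2))
      refine this.congr (Eventually.of_forall fun z => ?_)
      simp only
      ring
    have hψY : ∀ z ∈ ModularGroup.fdo, Y < z.im → ψ z = 0 := fun z hz h =>
      hY₀ z (ModularGroup.fdo_subset_fd hz) (hYY.trans_lt h)
    have iψ : IntegrableOn ψ ModularGroup.fdo := integrableOn_fdo hψc hψY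
    have iψf : IntegrableOn (fun z => ψ z * f i z ^ 2) ModularGroup.fdo :=
      integrableOn_fdo (hψc.mul ((hcont i).pow 2)) fun z hz h => by rw [hψY z hz h, zero_mul]
    -- (1) the boundary terms
    have e1 : |(∫ z in ModularGroup.fdo, ψ z * f i z ^ 2) - ∫ z in ModularGroup.fdo, χ z * (ψ z * f i z ^ 2)| ≤
        B * ∫ z : ℍ, (ζ z * (1 - χ z)) * f i z ^ 2 := by
      rw [← integral_sub iψf iφf.integrableOn]
      refine (abs_integral_le_integral_abs).trans ?_
      calc ∫ z in ModularGroup.fdo, |ψ z * f i z ^ 2 - χ z * (ψ z * f i z ^ 2)| ≤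
          ∫ z in ModularGroup.fdo, B * ((ζ z * (1 - χ z)) * f i z ^ 2) := by
            refine setIntegral_mono_on (iψf.sub iφf.integrableOn).abs (iζf.const_mul B).integrableOn
              measurableSet_fdo fun z hz => ?_
            have h1 : ψ z * f i z ^ 2 - χ z * (ψ z * f i z ^ 2) = ψ z * ((1 - χ z) * f i z ^ 2) := by ring
            rw [h1, abs_mul]
            have h2 : 0 ≤ (1 - χ z) * f i z ^ 2 := mul_nonneg (sub_nonneg.2 (hχ1 z).2) (sq_nonneg _)
            rw [abs_of_nonneg h2]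
            by_cases hz2 : Y < z.im
            · rw [hψY z hz hz2, abs_zero, zero_mul]
              exact mul_nonneg hB (mul_nonneg (mul_nonneg (hζ1 z).1 (sub_nonneg.2 (hχ1 z).2)) (sq_nonneg _))
            · have h3 : ζ z = 1 := hζT z (fdo_inter_sub Y ⟨hz, not_lt.mp hz2⟩)
              rw [h3, one_mul]
              exact mul_le_mul_of_nonneg_right (hBψ z hz) h2
        _ ≤ ∫ z : ℍ, B * ((ζ z * (1 - χ z)) * f i z ^ 2) :=
            setIntegral_le_integral (iζf.const_mul B) (Eventually.of_forall fun z =>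
              mul_nonneg hB (mul_nonneg (mul_nonneg (hζ1 z).1 (sub_nonneg.2 (hχ1 z).2)) (sq_nonneg _)))
        _ = _ := integral_const_mul _ _
    have e2 : |(∫ z in ModularGroup.fdo, ψ z) - ∫ z in ModularGroup.fdo, χ z * ψ z| ≤ B * l ^ 2 := by
      rw [← integral_sub iψ iφ.integrableOn]
      refine (abs_integral_le_integral_abs).trans ?_
      calc ∫ z in ModularGroup.fdo, |ψ z - χ z * ψ z| ≤
          ∫ z in ModularGroup.fdo, B * (ζ z * (1 - χ z)) := by
            refine setIntegral_mono_on (iψ.sub iφ.integrableOn).abs (iζ.const_mul B).integrableOn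
              measurableSet_fdo fun z hz => ?_
            have h1 : ψ z - χ z * ψ z = ψ z * (1 - χ z) := by ring
            rw [h1, abs_mul]
            have h2 : 0 ≤ 1 - χ z := sub_nonneg.2 (hχ1 z).2
            rw [abs_of_nonneg h2]
            by_cases hz2 : Y < z.im
            · rw [hψY z hz hz2, abs_zero, zero_mul]
              exact mul_nonneg hB (mul_nonneg (hζ1 z).1 h2)
            · have h3 : ζ z = 1 := hζT z (fdo_inter_sub Y ⟨hz, not_lt.mp hz2⟩)
              rw [h3, one_mul]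
              exact mul_le_mul_of_nonneg_right (hBψ z hz) h2
        _ ≤ ∫ z : ℍ, B * (ζ z * (1 - χ z)) :=
            setIntegral_le_integral (iζ.const_mul B) (Eventually.of_forall fun z =>
              mul_nonneg hB (mul_nonneg (hζ1 z).1 (sub_nonneg.2 (hχ1 z).2)))
        _ = B * ∫ z : ℍ, ζ z * (1 - χ z) := integral_const_mul _ _
        _ ≤ _ := mul_le_mul_of_nonneg_left hint hB
    -- (2) the mass
    have e3 : Real.pi / 3 - C * Y ^ (-(1 / 4 : ℝ)) - 5 * l * (1 + Real.pi) ≤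
        ∫ z in ModularGroup.fdo, χ z * f i z ^ 2 := by
      have h3 := integral_inter_add_sdiff (μ := volume) (s := ModularGroup.fdo) hmY (hsq i)
      rw [(hf i).normalised] at h3
      have h4 : ∫ z in ModularGroup.fdo \ {z : ℍ | Y < z.im}, f i z ^ 2 ≤
          (∫ z in ModularGroup.fdo, χ z * f i z ^ 2) + ∫ z : ℍ, (ζ z * (1 - χ z)) * f i z ^ 2 := by
        calc ∫ z in ModularGroup.fdo \ {z : ℍ | Y < z.im}, f i z ^ 2 =
            ∫ z in ModularGroup.fdo \ {z : ℍ | Y < z.im}, (χ z * f i z ^ 2 + (ζ z * (1 - χ z)) * f i z ^ 2) := by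
              refine setIntegral_congr_fun (measurableSet_fdo.diff hmY) fun z hz => ?_
              show f i z ^ 2 = χ z * f i z ^ 2 + (ζ z * (1 - χ z)) * f i z ^ 2
              have h5 : z.im ≤ Y := not_lt.mp hz.2
              rw [hζT z (fdo_inter_sub Y ⟨hz.1, h5⟩)]
              ring
          _ = (∫ z in ModularGroup.fdo \ {z : ℍ | Y < z.im}, χ z * f i z ^ 2) +
              ∫ z in ModularGroup.fdo \ {z : ℍ | Y < z.im}, (ζ z * (1 - χ z)) * f i z ^ 2 :=
              integral_add iχf.integrableOn iζf.integrableOn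
          _ ≤ _ := by
              refine add_le_add ?_ ?_
              · exact setIntegral_mono_set iχf.integrableOn
                  (Eventually.of_forall fun z => mul_nonneg (hχ1 z).1 (sq_nonneg _))
                  (Eventually.of_forall diff_subset)
              · exact setIntegral_le_integral iζf (Eventually.of_forall fun z =>
                  mul_nonneg (mul_nonneg (hζ1 z).1 (sub_nonneg.2 (hχ1 z).2)) (sq_nonneg _))
      have h5 := hCus (f i) (t i) (hf i) Y hY1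
      linarith
    -- (3) the upper bound for `B χ - χ ψ`
    have e4 : ∫ z : ℍ, (B * χ z - χ z * ext ψ z) * f i z ^ 2 =
        B * (∫ z in ModularGroup.fdo, χ z * f i z ^ 2) - ∫ z in ModularGroup.fdo, χ z * (ψ z * f i z ^ 2) := by
      have h1 : (fun z : ℍ => (B * χ z - χ z * ext ψ z) * f i z ^ 2) =
          fun z : ℍ => B * (χ z * f i z ^ 2) - χ z * (ψ z * f i z ^ 2) := by
        funext z
        rw [ext_coe]
        ring
      rw [h1, integral_sub (iχf.const_mul B) iφf, integral_const_mul, Av.Fd2M.int_fdo hχ, Av.Fd2M.int_fdo hχ]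
    have e5 : ∫ z : ℍ, (B * χ z - χ z * ext ψ z) =
        B * (∫ z : ℍ, χ z) - ∫ z in ModularGroup.fdo, χ z * ψ z := by
      have h1 : (fun z : ℍ => (B * χ z - χ z * ext ψ z)) = fun z : ℍ => B * χ z - χ z * ψ z := by
        funext z
        rw [ext_coe]
      rw [h1, integral_sub (iχ.const_mul B) iφ, integral_const_mul, Av.Fd2M.int_fdo hχ ψ]
    have e6 : ∫ z : ℍ, χ z ≤ Real.pi / 3 := Av.Fd2M.cut_le hVol hχ hχ1
    rw [e4, e5] at hi1
    have e7 := mul_le_mul_of_nonneg_left e3 hB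
    have e8 := mul_le_mul_of_nonneg_left e6 hB
    have e9 := mul_le_mul_of_nonneg_left hi2 hB
    have e10 := (abs_le.mp e1).1
    have e11 := (abs_le.mp e2).2
    nlinarith
  intro ψ hψ
  have hneg : TestX (fun z => -ψ z) := by
    obtain ⟨Y₀, hY₀⟩ := hψ.cusp
    refine ⟨?_, fun γ z => by rw [hψ.invariant], Y₀, fun z hz h => by rw [hY₀ z hz h, neg_zero]⟩
    have h1 : ext (fun z => -ψ z) = fun w => -ext ψ w := by
      funext w
      simp only [ext]
      try split_ifs <;> simp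
    rw [h1]
    exact hψ.smooth.neg
  rw [Metric.tendsto_nhds]
  intro ε hε
  filter_upwards [low ψ hψ (ε / 2) (by positivity), low _ hneg (ε / 2) (by positivity)] with i h1 h2
  rw [Real.dist_eq, abs_lt]
  have h3 : ∫ z in ModularGroup.fdo, -ψ z = -∫ z in ModularGroup.fdo, ψ z := integral_neg _
  have h4 : ∫ z in ModularGroup.fdo, -ψ z * f i z ^ 2 = -∫ z in ModularGroup.fdo, ψ z * f i z ^ 2 := by
    rw [← integral_neg]
    refine integral_congr_ae (Eventually.of_forall fun z => ?_)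
    simp only
    ring
  rw [h3, h4] at h2
  constructor <;> linarith

end

end Pool.Agent.A54.HS
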