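import Pool.Agent.Lib.MP_a54f13_nt.Hp.Main
import Pool.Agent.Lib.HS.F42

/-!
# Package `HS`, top level: the first four moments for every sequence, from the counting statement for bad blocks

helper39. `StmtHS`: the statement to be proved by package `HS`.
-/

set_option autoImplicit false

namespace Pool.Agent.A54.HS

open MeasureTheory Filter Topology Set Pool.Agent.A54.Hp
open scoped ContDiff ComplexConjugate UpperHalfPlane MatrixGroups ENNReal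
open Pool.Agent.A54.Dyn (G fl base ze io mk4 dom)

noncomputable section

/-- the counting bound at the scales where all blocks `(M, 2M]`, `w^(-1/(1000 K)) ≤ M ≤ w^(-1/1000)`, are bad -/
def StmtHS : Prop := ∃ c K : ℝ, 0 < c ∧ c ≤ 1 / 1000 ∧ 1 ≤ K ∧ ∀ R : ℝ, 1 ≤ R → ∃ w₁ : ℝ, 0 < w₁ ∧
  ∀ (l : ℕ → ℝ) (Φ : G → ℂ), HE l Φ → Csp Φ → ∀ w : ℝ, 0 < w → w ≤ w₁ → ¬ GdK K l w →
    Cw Φ R w ≤ ENNReal.ofReal (w ^ (1 + c))

/-- the counting bound at all scales -/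
theorem coreH (h : StmtHS) : ∃ c : ℝ, 0 < c ∧ c ≤ 1 / 1000 ∧ CoreC c (fun _ _ => True) := by
  obtain ⟨c, K, hc, hc1, hK, h⟩ := h
  refine ⟨c, hc, hc1, ?_⟩
  intro R hR
  obtain ⟨w₁, hw₁, h1⟩ := h R hR
  obtain ⟨w₂, hw₂, h2⟩ := coreL pPL pIsU hK R hR
  refine ⟨min (min w₁ w₂) 1, lt_min (lt_min hw₁ hw₂) one_pos, ?_⟩
  intro l Φ hΦ hcu w hw hww _
  have hw1 : w ≤ w₁ := hww.trans ((min_le_left _ _).trans (min_le_left _ _))
  have hw2 : w ≤ w₂ := hww.trans ((min_le_left _ _).trans (min_le_right _ _))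
  have hw3 : w ≤ 1 := hww.trans (min_le_right _ _)
  by_cases hG : GdK K l w
  · refine (h2 l Φ hΦ hcu w hw hw2 hG).trans (ENNReal.ofReal_le_ofReal ?_)
    exact Real.rpow_le_rpow_of_exponent_ge hw hw3 (by linarith)
  · exact h1 l Φ hΦ hcu w hw hw1 hG

/-- the Hecke eigenvalues of a form -/
theorem exists_eig {f : ℍ → ℝ} {t : ℝ} (hf : IsHeckeMaass f t) :
    ∃ l : ℕ → ℝ, ∀ p : ℕ, p.Prime → Av.IsHk f p (√p * l p) := by
  classical
  refine ⟨fun p => if h : 1 ≤ p then (hf.hecke p h).choose / √p else 0, fun p hp => ?_⟩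
  have h1 : 1 ≤ p := hp.one_lt.le
  have h2 : 0 < √(p : ℝ) := Real.sqrt_pos.mpr (by exact_mod_cast hp.pos)
  have h3 : √(p : ℝ) * (if h : 1 ≤ p then (hf.hecke p h).choose / √p else 0) = (hf.hecke p h1).choose := by
    rw [dif_pos h1, mul_div_cancel₀ _ h2.ne']
  show Av.IsHk f p _
  rw [h3]
  exact (hf.hecke p h1).choose_spec

/-- **the theorem for all sequences** -/
theorem mainH (h : StmtHS) (f : ℕ → ℍ → ℝ) (t : ℕ → ℝ) (hf : ∀ i, IsHeckeMaass (f i) (t i))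
    (ht : Tendsto t atTop atTop) :
    (∀ D : Set ℍ, IsCompact D → ∃ C : ℝ, ∀ i, ∫ z in D, f i z ^ 4 ≤ C) ∧
    ((∀ ψ : ℍ → ℝ, TestX ψ → Tendsto (fun i => ∫ z in ModularGroup.fdo, ψ z * f i z ^ 2) atTop
      (𝓝 (∫ z in ModularGroup.fdo, ψ z))) →
    ∀ ψ : ℍ → ℝ, TestX ψ → ∀ n : ℕ, 1 ≤ n → n ≤ 4 →
      Tendsto (fun i => ∫ z in ModularGroup.fdo, ψ z * f i z ^ n) atTop
        (𝓝 (1 / √(2 * Real.pi) * (∫ x : ℝ, x ^ n * Real.exp (-x ^ 2 / 2)) *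
          ∫ z in ModularGroup.fdo, ψ z))) := by
  obtain ⟨c, hc, hc1, hC⟩ := coreH h
  choose l hl using fun i => exists_eig (hf i)
  exact core pPk pHeF pCus pXb pBdd pL2S pFinF pQx hc (hc1.trans (by norm_num)) hC f t l hf ht hl
    ⟨1, 0, one_pos, fun _ _ _ _ _ => trivial⟩

end

end Pool.Agent.A54.HS
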