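import Mathlib

/-!
# PROJECT H* (MP_a54f13_nt): the Sidon lemma (helper21)

`sidon`: let `Ga, Ga', Gb, Gb'` be forms of degree `d` over `ℚ` whose values at the points `n i` are the squares of
nonnegative numbers `m i, m' i, l i, l' i`, and suppose that no nonzero form of degree `4 d` vanishes at all `n i`. If
`m' i - m i = l' i - l i` for all `i`, then `(Ga, Ga') = (Gb, Gb')`, or `Ga = Ga'`, or `Ga Ga'` is a square.
-/

set_option autoImplicit false

namespace Pool.Agent.HS

open MvPolynomial

namespace Sidon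

/-- The algebraic core: a solution `P / E` of a monic quadratic equation is integral. -/
theorem core {R : Type*} [CommRing R] [IsDomain R] [IsIntegrallyClosed R] (H F E P : R) (hE : E ≠ 0)
    (h : P ^ 2 - H * E * P + F ^ 2 * E ^ 2 = 0) : ∃ A, P = A * E ∧ A ^ 2 - H * A + F ^ 2 = 0 := by
  have hE' : algebraMap R (FractionRing R) E ≠ 0 := by
    rwa [Ne, IsFractionRing.to_map_eq_zero_iff]
  set x : FractionRing R := algebraMap R (FractionRing R) P / algebraMap R (FractionRing R) E with hx
  have hx1 : x ^ 2 - algebraMap R (FractionRing R) H * x + algebraMap R (FractionRing R) F ^ 2 = 0 := by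
    have h1 := congrArg (algebraMap R (FractionRing R)) h
    simp only [map_add, map_sub, map_mul, map_pow, map_zero] at h1
    rw [hx]
    field_simp
    linear_combination h1
  have hint : IsIntegral R x := by
    refine ⟨Polynomial.X ^ 2 - Polynomial.C H * Polynomial.X + Polynomial.C (F ^ 2), ?_, ?_⟩
    · have : (Polynomial.X ^ 2 - Polynomial.C H * Polynomial.X + Polynomial.C (F ^ 2) : Polynomial R) =
          Polynomial.X ^ 2 + (Polynomial.C (-H) * Polynomial.X + Polynomial.C (F ^ 2)) := by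
        rw [Polynomial.C_neg]; ring
      rw [this]
      refine Polynomial.monic_X_pow_add ?_
      exact lt_of_le_of_lt Polynomial.degree_linear_le (by norm_num)
    · simp only [Polynomial.eval₂_add, Polynomial.eval₂_sub, Polynomial.eval₂_mul, Polynomial.eval₂_pow,
        Polynomial.eval₂_X, Polynomial.eval₂_C, map_pow]
      exact hx1
  obtain ⟨A, hA⟩ := IsIntegrallyClosed.isIntegral_iff.mp hint
  refine ⟨A, ?_, ?_⟩
  · apply IsFractionRing.injective R (FractionRing R)
    rw [map_mul, hA, hx, div_mul_cancel₀ _ hE']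
  · apply IsFractionRing.injective R (FractionRing R)
    rw [map_zero, map_add, map_sub, map_mul, map_pow, map_pow, hA]
    exact hx1

/-- The identity at a point. -/
theorem point {K : Type*} [Field K] {ga ga' gb gb' m m' l l' : K} (ha : ga = m ^ 2) (ha' : ga' = m' ^ 2)
    (hb : gb = l ^ 2) (hb' : gb' = l' ^ 2) (hv : m' - m = l' - l) :
    ((ga' - ga) ^ 2 - (gb' - gb) ^ 2) ^ 2 -
      2 * (ga + ga') * (2 * (ga + ga') - 2 * (gb + gb')) * ((ga' - ga) ^ 2 - (gb' - gb) ^ 2) +
      (ga' - ga) ^ 2 * (2 * (ga + ga') - 2 * (gb + gb')) ^ 2 = 0 := by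
  have hm' : m' = m + (l' - l) := by linear_combination hv
  subst ha ha' hb hb' hm'
  ring

end Sidon

open Sidon

/-- **The Sidon lemma.** -/
theorem sidon {σ ι : Type*} (d : ℕ) (n : ι → σ → ℚ)
    (hn : ∀ f : MvPolynomial σ ℚ, f.IsHomogeneous (4 * d) → (∀ i, eval (n i) f = 0) → f = 0)
    {Ga Ga' Gb Gb' : MvPolynomial σ ℚ} (hGa : Ga.IsHomogeneous d) (hGa' : Ga'.IsHomogeneous d)
    (hGb : Gb.IsHomogeneous d) (hGb' : Gb'.IsHomogeneous d) {m m' l l' : ι → ℚ}
    (m0 : ∀ i, 0 ≤ m i) (m0' : ∀ i, 0 ≤ m' i) (l0 : ∀ i, 0 ≤ l i) (l0' : ∀ i, 0 ≤ l' i)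
    (ha : ∀ i, eval (n i) Ga = m i ^ 2) (ha' : ∀ i, eval (n i) Ga' = m' i ^ 2)
    (hb : ∀ i, eval (n i) Gb = l i ^ 2) (hb' : ∀ i, eval (n i) Gb' = l' i ^ 2)
    (hv : ∀ i, m' i - m i = l' i - l i) :
    (Ga = Gb ∧ Ga' = Gb') ∨ Ga = Ga' ∨ IsSquare (Ga * Ga') := by
  -- vanishing of forms of lower degree
  have hn1 : ∀ f : MvPolynomial σ ℚ, f.IsHomogeneous d → (∀ i, eval (n i) f = 0) → f = 0 := by
    intro f hf h0
    have h1 : f ^ 4 = 0 := hn _ (by rw [mul_comm]; exact hf.pow 4) (fun i => by
      rw [map_pow, h0 i]; norm_num)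
    exact pow_eq_zero_iff (by norm_num) |>.mp h1
  have hn2 : ∀ f : MvPolynomial σ ℚ, f.IsHomogeneous (2 * d) → (∀ i, eval (n i) f = 0) → f = 0 := by
    intro f hf h0
    have h1 : f ^ 2 = 0 := hn _ (by
      have := hf.pow 2
      rwa [show 2 * d * 2 = 4 * d by ring] at this) (fun i => by
      rw [map_pow, h0 i]; norm_num)
    exact pow_eq_zero_iff (by norm_num) |>.mp h1
  have h2 : (2 : MvPolynomial σ ℚ).IsHomogeneous 0 := by
    have := MvPolynomial.isHomogeneous_C (σ := σ) (2 : ℚ)
    rwa [map_ofNat] at this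
  set Fa := Ga' - Ga with hFa
  set Fb := Gb' - Gb with hFb
  set Ha := 2 * (Ga + Ga') with hHa
  set Hb := 2 * (Gb + Gb') with hHb
  set E := Ha - Hb with hE
  set P := Fa ^ 2 - Fb ^ 2 with hP
  have dFa : Fa.IsHomogeneous d := hGa'.sub hGa
  have dFb : Fb.IsHomogeneous d := hGb'.sub hGb
  have dHa : Ha.IsHomogeneous d := by
    have := h2.mul (hGa.add hGa')
    rwa [zero_add] at this
  have dHb : Hb.IsHomogeneous d := by
    have := h2.mul (hGb.add hGb')
    rwa [zero_add] at this
  have dE : E.IsHomogeneous d := dHa.sub dHb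
  have dP : P.IsHomogeneous (2 * d) := by
    rw [mul_comm]
    exact (dFa.pow 2).sub (dFb.pow 2)
  by_cases hE0 : E = 0
  · -- `E = 0`
    have hv2 : ∀ i, eval (n i) P = 0 := by
      intro i
      have h3 : eval (n i) E = 0 := by rw [hE0, map_zero]
      have h4 : eval (n i) E = 2 * (m i ^ 2 + m' i ^ 2) - 2 * (l i ^ 2 + l' i ^ 2) := by
        rw [hE, hHa, hHb]
        simp only [map_sub, map_mul, map_add, map_ofNat, ha, ha', hb, hb']
      have h5 : eval (n i) P = (m' i ^ 2 - m i ^ 2) ^ 2 - (l' i ^ 2 - l i ^ 2) ^ 2 := by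
        rw [hP, hFa, hFb]
        simp only [map_sub, map_pow, ha, ha', hb, hb']
      rw [h5]
      have h6 := h4.symm.trans h3
      have h7 := hv i
      have h8 : m' i = m i + (l' i - l i) := by linear_combination h7
      rw [h8] at h6 ⊢
      linear_combination (l' i - l i) ^ 2 * h6
    have hP0 : P = 0 := hn2 P dP hv2
    have h9 : Ga + Ga' = Gb + Gb' := by
      have h10 : (2 : MvPolynomial σ ℚ) * (Ga + Ga' - (Gb + Gb')) = 0 := by
        rw [hE, hHa, hHb] at hE0
        linear_combination hE0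
      rcases mul_eq_zero.mp h10 with h | h
      · exact absurd h two_ne_zero
      · exact sub_eq_zero.mp h
    have h11 : (Fa - Fb) * (Fa + Fb) = 0 := by
      rw [hP] at hP0
      linear_combination hP0
    have two_mul_eq : ∀ f g : MvPolynomial σ ℚ, 2 * (f - g) = 0 → f = g := by
      intro f g h
      rcases mul_eq_zero.mp h with h | h
      · exact absurd h two_ne_zero
      · exact sub_eq_zero.mp h
    rcases mul_eq_zero.mp h11 with h | h
    · left
      constructor
      · apply two_mul_eq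
        rw [hFa, hFb] at h
        linear_combination h9 - h
      · apply two_mul_eq
        rw [hFa, hFb] at h
        linear_combination h9 + h
    · right; left
      have h12 : Ga = Gb' := by
        apply two_mul_eq
        rw [hFa, hFb] at h
        linear_combination h9 - h
      have h13 : Ga' = Gb := by
        apply two_mul_eq
        rw [hFa, hFb] at h
        linear_combination h9 + h
      have h14 : Ga - Ga' = 0 := by
        refine hn1 _ (hGa.sub hGa') fun i => ?_
        have h15 : m i = l' i := by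
          have : m i ^ 2 = l' i ^ 2 := by rw [← ha i, ← hb' i, h12]
          exact (pow_left_inj₀ (m0 i) (l0' i) two_ne_zero).mp this
        have h16 : m' i = l i := by
          have : m' i ^ 2 = l i ^ 2 := by rw [← ha' i, ← hb i, h13]
          exact (pow_left_inj₀ (m0' i) (l0 i) two_ne_zero).mp this
        have h17 : m i = m' i := by
          have := hv i
          rw [h15, h16] at this
          rw [h15, h16]
          linarith
        rw [map_sub, ha, ha', h17, sub_self]
      exact sub_eq_zero.mp h14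
  · -- `E ≠ 0`
    right; right
    have hkey : P ^ 2 - Ha * E * P + Fa ^ 2 * E ^ 2 = 0 := by
      apply hn
      · have e1 : (P ^ 2).IsHomogeneous (4 * d) := by
          have := dP.pow 2
          rwa [show 2 * d * 2 = 4 * d by ring] at this
        have e2 : (Ha * E * P).IsHomogeneous (4 * d) := by
          have := (dHa.mul dE).mul dP
          rwa [show d + d + 2 * d = 4 * d by ring] at this
        have e3 : (Fa ^ 2 * E ^ 2).IsHomogeneous (4 * d) := by
          have := (dFa.pow 2).mul (dE.pow 2)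
          rwa [show d * 2 + d * 2 = 4 * d by ring] at this
        exact (e1.sub e2).add e3
      · intro i
        have h3 := point (ha i) (ha' i) (hb i) (hb' i) (hv i)
        rw [hP, hE, hHa, hHb, hFa, hFb]
        simp only [map_add, map_sub, map_mul, map_pow, map_ofNat]
        exact h3
    obtain ⟨A, -, hA⟩ := core Ha Fa E P hE0 hkey
    refine ⟨C (1 / 4 : ℚ) * (2 * A - Ha), ?_⟩
    have h16 : (16 : MvPolynomial σ ℚ) * (Ga * Ga') = (2 * A - Ha) ^ 2 := by
      have h3 : (2 * A - Ha) ^ 2 = Ha ^ 2 - 4 * Fa ^ 2 := by linear_combination 4 * hA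
      rw [h3, hHa, hFa]; ring
    have h4 : (C (1 / 4 : ℚ) : MvPolynomial σ ℚ) * C (1 / 4 : ℚ) * 16 = 1 := by
      have : (16 : MvPolynomial σ ℚ) = C (16 : ℚ) := by rw [map_ofNat]
      rw [this, ← C_mul, ← C_mul]
      norm_num
    calc Ga * Ga' = C (1 / 4 : ℚ) * C (1 / 4 : ℚ) * 16 * (Ga * Ga') := by rw [h4, one_mul]
      _ = C (1 / 4 : ℚ) * C (1 / 4 : ℚ) * (16 * (Ga * Ga')) := by ring
      _ = C (1 / 4 : ℚ) * C (1 / 4 : ℚ) * (2 * A - Ha) ^ 2 := by rw [h16]
      _ = C (1 / 4 : ℚ) * (2 * A - Ha) * (C (1 / 4 : ℚ) * (2 * A - Ha)) := by ring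

end Pool.Agent.HS
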