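import Mathlib
import Pool.Agent.Lib.HS.Sidon

/-!
# PROJECT H* (MP_a54f13_nt): binary forms vanish at few points

`binaryZero`: a binary form of degree `N` over a field which vanishes at more than `N` pairwise non-proportional
points is zero. `sidonBinary`: the Sidon lemma for binary forms of degree `d` and more than `4 d` pairwise
non-proportional points.
-/

set_option autoImplicit false

namespace Pool.Agent.HS

open MvPolynomial

namespace Binary

variable {K : Type*} [Field K]

/-- The dehomogenisation `F(T, 1)`. -/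
noncomputable def deh (F : MvPolynomial (Fin 2) K) : Polynomial K :=
  ∑ s ∈ F.support, Polynomial.C (coeff s F) * Polynomial.X ^ (s 0)

theorem deg_eq {F : MvPolynomial (Fin 2) K} {N : ℕ} (hF : F.IsHomogeneous N) {s : Fin 2 →₀ ℕ} (hs : s ∈ F.support) :
    s 0 + s 1 = N := by
  have h := hF (mem_support_iff.mp hs)
  rw [Finsupp.weight_apply, Finsupp.sum_fintype _ _ (by simp)] at h
  simpa using h

theorem deh_coeff {F : MvPolynomial (Fin 2) K} {N : ℕ} (hF : F.IsHomogeneous N) {s : Fin 2 →₀ ℕ}
    (hs : s ∈ F.support) : (deh F).coeff (s 0) = coeff s F := by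
  rw [deh, Polynomial.finsetSum_coeff, Finset.sum_eq_single_of_mem s hs]
  · simp
  · intro t ht hts
    rw [Polynomial.coeff_C_mul, Polynomial.coeff_X_pow, if_neg, mul_zero]
    intro h
    apply hts
    have h1 := deg_eq hF hs
    have h2 := deg_eq hF ht
    ext i
    fin_cases i
    · exact h.symm
    · show t 1 = s 1
      omega

theorem deh_natDegree {F : MvPolynomial (Fin 2) K} {N : ℕ} (hF : F.IsHomogeneous N) : (deh F).natDegree ≤ N := by
  refine Polynomial.natDegree_sum_le_of_forall_le _ _ (fun s hs => ?_)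
  refine (Polynomial.natDegree_C_mul_X_pow_le _ _).trans ?_
  have := deg_eq hF hs
  omega

theorem eval_aff {F : MvPolynomial (Fin 2) K} {N : ℕ} (hF : F.IsHomogeneous N) (p : Fin 2 → K) (hp : p 1 ≠ 0) :
    eval p F = p 1 ^ N * (deh F).eval (p 0 / p 1) := by
  rw [eval_eq', deh, Polynomial.eval_finsetSum, Finset.mul_sum]
  refine Finset.sum_congr rfl (fun s hs => ?_)
  rw [Fin.prod_univ_two, Polynomial.eval_mul, Polynomial.eval_C, Polynomial.eval_pow, Polynomial.eval_X,
    ← deg_eq hF hs, pow_add, div_pow]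
  field_simp

theorem eval_inf {F : MvPolynomial (Fin 2) K} {N : ℕ} (hF : F.IsHomogeneous N) (p : Fin 2 → K) (hp : p 1 = 0) :
    eval p F = p 0 ^ N * (deh F).coeff N := by
  rw [eval_eq', deh, Polynomial.finsetSum_coeff, Finset.mul_sum]
  refine Finset.sum_congr rfl (fun s hs => ?_)
  rw [Fin.prod_univ_two, Polynomial.coeff_C_mul, Polynomial.coeff_X_pow, hp]
  have h := deg_eq hF hs
  by_cases h1 : N = s 0
  · have h2 : s 1 = 0 := by omega
    rw [if_pos h1, h2, h1]; ring
  · have h2 : s 1 ≠ 0 := by omega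
    rw [if_neg h1, zero_pow h2]; ring

end Binary

/-- A binary form of degree `N` vanishing at more than `N` pairwise non-proportional points is zero. -/
theorem binaryZero {K ι : Type*} [Field K] [Fintype ι] {N : ℕ} {F : MvPolynomial (Fin 2) K}
    (hF : F.IsHomogeneous N) (n : ι → Fin 2 → K) (hnn : ∀ i j, i ≠ j → n i 0 * n j 1 ≠ n i 1 * n j 0)
    (hc : N < Fintype.card ι) (hv : ∀ i, eval (n i) F = 0) : F = 0 := by
  classical
  by_contra hF0
  have hf0 : Binary.deh F ≠ 0 := by
    obtain ⟨s, hs⟩ := Finset.nonempty_iff_ne_empty.mpr (fun h => hF0 (support_eq_empty.mp h))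
    intro h
    have h1 := Binary.deh_coeff hF hs
    rw [h, Polynomial.coeff_zero] at h1
    exact (mem_support_iff.mp hs) h1.symm
  have hdeg := Binary.deh_natDegree hF
  -- the affine points give different roots
  have key : ∀ Z : Finset ι, (∀ i ∈ Z, n i 1 ≠ 0) → Z.card ≤ (Binary.deh F).natDegree := by
    intro Z hZ
    have h1 : (Z.image (fun i => n i 0 / n i 1)).card = Z.card := by
      refine Finset.card_image_of_injOn (fun i hi j hj hij => ?_)
      by_contra hne
      apply hnn i j hne
      have hi' := hZ i hi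
      have hj' := hZ j hj
      rw [div_eq_div_iff hi' hj'] at hij
      rw [hij]; ring
    rw [← h1]
    refine (Finset.card_le_card (t := (Binary.deh F).roots.toFinset) ?_).trans
      ((Multiset.toFinset_card_le _).trans (Polynomial.card_roots' _))
    intro x hx
    obtain ⟨i, hi, rfl⟩ := Finset.mem_image.mp hx
    rw [Multiset.mem_toFinset, Polynomial.mem_roots hf0, Polynomial.IsRoot.def]
    have h2 := hv i
    rw [Binary.eval_aff hF (n i) (hZ i hi)] at h2
    exact (mul_eq_zero.mp h2).resolve_left (pow_ne_zero _ (hZ i hi))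
  by_cases hall : ∀ i, n i 1 ≠ 0
  · have := key Finset.univ (fun i _ => hall i)
    rw [Finset.card_univ] at this
    omega
  · push Not at hall
    obtain ⟨i0, hi0⟩ := hall
    have h1 := key (Finset.univ.erase i0) (fun j hj hj0 => by
      apply hnn i0 j (Finset.ne_of_mem_erase hj).symm
      rw [hi0, hj0]; ring)
    rw [Finset.card_erase_of_mem (Finset.mem_univ i0), Finset.card_univ] at h1
    have h2 : (Binary.deh F).natDegree = N := by omega
    have h3 : (Binary.deh F).coeff N ≠ 0 := by
      rw [← h2]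
      exact Polynomial.leadingCoeff_ne_zero.mpr hf0
    have h4 := hv i0
    rw [Binary.eval_inf hF (n i0) hi0] at h4
    have h5 := (mul_eq_zero.mp h4).resolve_right h3
    have hN : N ≠ 0 := by
      rintro rfl
      simp at h5
    have h6 : n i0 0 = 0 := by
      simpa [hN] using h5
    have h7 : 1 < Fintype.card ι := by omega
    obtain ⟨j, hj⟩ := Fintype.exists_ne_of_one_lt_card h7 i0
    apply hnn i0 j hj.symm
    rw [h6, hi0]; ring

/-- **The Sidon lemma for binary forms** of degree `d` and more than `4 * d` points of the projective line. -/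
theorem sidonBinary {ι : Type*} [Fintype ι] (d : ℕ) (n : ι → Fin 2 → ℚ)
    (hnn : ∀ i j, i ≠ j → n i 0 * n j 1 ≠ n i 1 * n j 0) (hc : 4 * d < Fintype.card ι)
    {Ga Ga' Gb Gb' : MvPolynomial (Fin 2) ℚ} (hGa : Ga.IsHomogeneous d) (hGa' : Ga'.IsHomogeneous d)
    (hGb : Gb.IsHomogeneous d) (hGb' : Gb'.IsHomogeneous d) {m m' l l' : ι → ℚ}
    (m0 : ∀ i, 0 ≤ m i) (m0' : ∀ i, 0 ≤ m' i) (l0 : ∀ i, 0 ≤ l i) (l0' : ∀ i, 0 ≤ l' i)
    (ha : ∀ i, eval (n i) Ga = m i ^ 2) (ha' : ∀ i, eval (n i) Ga' = m' i ^ 2)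
    (hb : ∀ i, eval (n i) Gb = l i ^ 2) (hb' : ∀ i, eval (n i) Gb' = l' i ^ 2)
    (hv : ∀ i, m' i - m i = l' i - l i) :
    (Ga = Gb ∧ Ga' = Gb') ∨ Ga = Ga' ∨ IsSquare (Ga * Ga') :=
  sidon d n (fun _ hf h => binaryZero hf n hnn hc h) hGa hGa' hGb hGb' m0 m0' l0 l0' ha ha' hb hb' hv

end Pool.Agent.HS
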