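import Pool.Agent.Lib.HS.SpecDi
import Pool.Agent.Lib.HS.Am9

/-!
# Package `HS`, the distance two term (`StmtDst`)
-/

set_option autoImplicit false

namespace Pool.Agent.A54.HS

open MeasureTheory Filter Topology Set
open scoped ContDiff ComplexConjugate UpperHalfPlane MatrixGroups ENNReal
open Pool.Agent.A54.Dyn (G fl base ze io mk4 dom)
open Pool.Agent.A54.Av (Mat NonSc)
open Pool.Agent.A54.Hp Pool.Agent.A54.Hp.Hk Pool.Agent.A54.Hp.A2M

noncomputable section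

/-- the converse of `Hl_int` -/
lemma int_Hl {Φ : G → ℂ} (hΦ : Continuous Φ) {U : Set G} (hU : MeasurableSet U) (Q : Finset ℕ) (j : ℕ) :
    ∑' s : Mat, (Lv2 Q j).indicator (fun s => Dd Φ U (nm s)) s ≤
      ∫⁻ x, AIkM.ff Φ U x * Hl Q j (AIkM.ff Φ U) x ∂nu := by
  classical
  have hF := AIkM.ff_meas hΦ hU
  set F := AIkM.ff Φ U with hFd
  have := countMat
  have := fun n => countMn n
  set T : Set (Σ n : ℕ, Mn (n * n)) := {t | sm Q j t.1 ∧ Pr t.2.1} with hT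
  have e1 : ∀ x, F x * Hl Q j F x =
      ∑' t : Σ n : ℕ, Mn (n * n), T.indicator (fun t => F x * F (nm t.2.1 * x)) t := by
    intro x
    unfold Hl hq
    rw [← ENNReal.tsum_mul_left, ENNReal.tsum_sigma']
    refine tsum_congr fun n => ?_
    by_cases hn : sm Q j n
    · rw [if_pos hn, ← ENNReal.tsum_mul_left]
      refine tsum_congr fun s => ?_
      by_cases hs' : Pr s.1
      · rw [if_pos hs', Set.indicator_of_mem (show (⟨n, s⟩ : Σ n : ℕ, Mn (n * n)) ∈ T from ⟨hn, hs'⟩)]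
      · rw [if_neg hs', mul_zero, Set.indicator_of_notMem (fun h => hs' h.2)]
    · rw [if_neg hn, mul_zero]
      symm
      simp only [ENNReal.tsum_eq_zero]
      exact fun s => Set.indicator_of_notMem (fun h => hn h.1) _
  simp only [e1]
  have m1 : ∀ t : Σ n : ℕ, Mn (n * n), Measurable fun x =>
      T.indicator (fun t : Σ n : ℕ, Mn (n * n) => F x * F (nm t.2.1 * x)) t := by
    intro t
    by_cases ht : t ∈ T
    · simp only [Set.indicator_of_mem ht]
      exact hF.mul (meas_mul hF _)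
    · simp only [Set.indicator_of_notMem ht]
      exact measurable_const
  rw [lintegral_tsum fun t => (m1 t).aemeasurable]
  have hr : ∀ s : Lv2 Q j, ∃ n : ℕ, sm Q j n ∧ s.1.det = (n : ℤ) * n := fun s => s.2.2
  choose r hr1 hr2 using hr
  have hr3 : ∀ s : Lv2 Q j, s.1.det = ((r s * r s : ℕ) : ℤ) := fun s => by
    rw [hr2 s]
    push_cast
    rfl
  have hinj : Function.Injective (fun s : Lv2 Q j => (⟨r s, ⟨s.1, hr3 s⟩⟩ : Σ n : ℕ, Mn (n * n))) := by
    intro s s' h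
    have h1 : (fun t : Σ n : ℕ, Mn (n * n) => t.2.1) ⟨r s, ⟨s.1, hr3 s⟩⟩ =
      (fun t : Σ n : ℕ, Mn (n * n) => t.2.1) ⟨r s', ⟨s'.1, hr3 s'⟩⟩ := by
      exact congrArg (fun t : Σ n : ℕ, Mn (n * n) => t.2.1) h
    exact Subtype.ext h1
  calc ∑' s : Mat, (Lv2 Q j).indicator (fun s => Dd Φ U (nm s)) s
      = ∑' s : Lv2 Q j, Dd Φ U (nm s.1) := by rw [← tsum_subtype (Lv2 Q j)]
    _ ≤ ∑' s : Lv2 Q j, T.indicator (fun t => Dd Φ U (nm t.2.1)) ⟨r s, ⟨s.1, hr3 s⟩⟩ := by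
        refine ENNReal.tsum_le_tsum fun s => ?_
        rw [Set.indicator_of_mem]
        exact ⟨hr1 s, s.2.1⟩
    _ ≤ ∑' t : Σ n : ℕ, Mn (n * n), T.indicator (fun t => Dd Φ U (nm t.2.1)) t :=
        ENNReal.tsum_comp_le_tsum_of_injective hinj _
    _ = ∑' t : Σ n : ℕ, Mn (n * n), ∫⁻ x, T.indicator (fun t => F x * F (nm t.2.1 * x)) t ∂nu := by
        refine tsum_congr fun t => ?_
        by_cases ht : t ∈ T
        · simp only [Set.indicator_of_mem ht]
          rfl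
        · simp only [Set.indicator_of_notMem ht, lintegral_zero]

lemma Hl_le_El {Q : Finset ℕ} {M : ℝ} (hM : 1 ≤ M)
    (hQ : ∀ p ∈ Q, p.Prime ∧ M < (p : ℝ) ∧ (p : ℝ) ≤ 2 * M) (F : G → ℝ≥0∞) (y : G) :
    Hl Q 1 F y ≤ ENNReal.ofReal (2 * M) * El Q 1 F y := by
  classical
  unfold El Hl
  rw [← ENNReal.tsum_mul_left]
  refine ENNReal.tsum_le_tsum fun n => ?_
  by_cases h : sm Q 1 n
  · rw [if_pos h, if_pos h, ← mul_assoc]
    refine le_mul_of_one_le_left' ?_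
    have h1 := (sm_size hM hQ 1 n h).2
    rw [pow_one] at h1
    have hn0 : (n : ℝ≥0∞) ≠ 0 := by exact_mod_cast h.1
    calc (1 : ℝ≥0∞) = n * (n : ℝ≥0∞)⁻¹ := (ENNReal.mul_inv_cancel hn0 (ENNReal.natCast_ne_top n)).symm
      _ ≤ _ := by
        refine mul_le_mul_left ?_ _
        rw [← ENNReal.ofReal_natCast]
        exact ENNReal.ofReal_le_ofReal h1
  · rw [if_neg h, if_neg h, mul_zero]

/-- the first moment -/
lemma first_moment (k : ℕ) (hk : 1 ≤ k) (a : ℕ → ℝ) (ha : ∀ n, 0 ≤ a n)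
    (h : ∀ i j, a (i + j) ^ 2 ≤ a (2 * i) * a (2 * j)) {c : ℝ} (hc : 0 < c) (h0 : c * a 0 ≤ a (2 * k)) :
    a 1 ^ (2 * k) ≤ a 0 ^ (2 * k - 1) * a (2 * k) := by
  rcases (ha 0).eq_or_lt with h1 | h1
  · have h2 := h 0 1
    rw [mul_zero, ← h1, zero_mul, zero_add] at h2
    have h3 : a 1 = 0 := by
      have : 0 ≤ a 1 := ha 1
      nlinarith
    rw [h3, zero_pow (by omega)]
    exact mul_nonneg (pow_nonneg (ha 0) _) (ha _)
  · have h2 : 0 < a (2 * k) := lt_of_lt_of_le (mul_pos hc h1) h0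
    have hk0 : (2 * k : ℕ) ≠ 0 := by omega
    set r : ℝ := (a (2 * k) / a 0) ^ (((2 * k : ℕ) : ℝ)⁻¹) with hr
    have hd : 0 < a (2 * k) / a 0 := div_pos h2 h1
    have hr0 : 0 < r := Real.rpow_pos_of_pos hd _
    have hr2 : r ^ (2 * k) = a (2 * k) / a 0 := by
      rw [hr]
      exact Real.rpow_inv_natCast_pow hd.le hk0
    have h3 := convex_all k a ha h hr0 (le_of_eq (by rw [hr2]; field_simp)) 1 (by omega)
    have h4 : (r ^ (2 * k - 1) * a 1) ^ (2 * k) ≤ a (2 * k) ^ (2 * k) :=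
      pow_le_pow_left₀ (mul_nonneg (by positivity) (ha 1)) h3 _
    have e1 : (r ^ (2 * k - 1)) ^ (2 * k) = (a (2 * k) / a 0) ^ (2 * k - 1) := by
      rw [← pow_mul, mul_comm, pow_mul, hr2]
    rw [mul_pow, e1, div_pow, div_mul_eq_mul_div, div_le_iff₀ (by positivity)] at h4
    obtain ⟨m, hm⟩ : ∃ m, 2 * k = m + 1 := ⟨2 * k - 1, by omega⟩
    have e2 : 2 * k - 1 = m := by omega
    rw [e2] at h4 ⊢
    have h5 : 0 < a (2 * k) ^ m := by positivity
    have h6 : a (2 * k) ^ (2 * k) = a (2 * k) ^ m * a (2 * k) := by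
      conv_lhs => rw [show 2 * k = m + 1 from hm]
      rw [pow_succ, ← hm]
    rw [h6] at h4
    have h7 : a (2 * k) ^ m * (a 1 ^ (2 * k)) ≤ a (2 * k) ^ m * (a 0 ^ m * a (2 * k)) := by
      calc a (2 * k) ^ m * (a 1 ^ (2 * k)) ≤ a (2 * k) ^ m * a (2 * k) * a 0 ^ m := h4
        _ = _ := by ring
    exact le_of_mul_le_mul_left h7 h5

theorem stmtDst (hNu : StmtNuL) (hUnf : StmtUnf) (hNm : StmtNm) (hDds : StmtDds) (hTot : StmtTot) :
    StmtDst := by
  classical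
  intro k R hk hR
  obtain ⟨CD, hCD0, hCD⟩ := hDds.2 R hR
  obtain ⟨CT, hCT0, hCT⟩ := hTot R hR
  set K0 : ℝ := max 1 (Ck (2 * k)).toReal with hK0d
  have hK01 : 1 ≤ K0 := le_max_left _ _
  have hkR : (1 : ℝ) ≤ k := by exact_mod_cast hk
  set B : ℝ := 4 * k * K0 with hBd
  have hB1 : 1 ≤ B := by
    rw [hBd]
    nlinarith
  have hB0 : 0 < B := by linarith
  set C1 : ℝ := (B ^ 2) ^ k * CD * (4 / 3) ^ (2 * k) with hC1
  have hC10 : 0 ≤ C1 := by positivity
  set C2 : ℝ := 2 ^ (2 * k) * (CD * CT) ^ (2 * k - 1) * (2 * K0) with hC2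
  have hC20 : 0 ≤ C2 := by positivity
  refine ⟨1 + C1 + C2, by linarith, ?_⟩
  intro l Φ hE U hU hUR M hM Q hQM hQl hbig
  have hM0 : 0 < M := by linarith
  have hQ : ∀ p ∈ Q, p.Prime ∧ M < (p : ℝ) ∧ (p : ℝ) ≤ 2 * M := by
    intro p hp
    have h1 := hQM hp
    unfold Pm at h1
    rw [Finset.mem_filter, Finset.mem_Ioc] at h1
    refine ⟨h1.2, (Nat.floor_lt hM0.le).1 h1.1.1, ?_⟩
    exact (Nat.le_floor_iff (by linarith)).1 h1.1.2
  have hQp : ∀ p ∈ Q, p.Prime := fun p hp => (hQ p hp).1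
  -- `ms Φ U` is finite
  have hmsT : ms Φ U ≠ ⊤ := by
    have h1 : ms Φ U ≤ ms Φ (Om R) := lintegral_mono_set hUR
    exact ne_top_of_le_ne_top ENNReal.ofReal_ne_top (h1.trans (hCT l Φ hE))
  set m : ℝ := (ms Φ U).toReal with hm
  have hms : ms Φ U = ENNReal.ofReal m := (ENNReal.ofReal_toReal hmsT).symm
  have hm0 : 0 ≤ m := ENNReal.toReal_nonneg
  obtain ⟨q, hq⟩ : ∃ q : ℝ, q = (Q.card : ℝ) := ⟨_, rfl⟩
  have hqE : (Q.card : ℝ≥0∞) = ENNReal.ofReal q := by rw [hq]; exact (ENNReal.ofReal_natCast _).symm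
  have hqN : ((Q.card : ℝ≥0∞)).toReal = q := by rw [hq]; exact ENNReal.toReal_natCast _
  have hq0 : 0 ≤ q := by rw [hq]; exact Nat.cast_nonneg _
  have hqc : Q.card = 0 → q = 0 := fun h => by rw [hq, h]; simp
  have hqc1 : 1 ≤ Q.card → 1 ≤ q := fun h => by rw [hq]; exact_mod_cast h
  have hePq : ENNReal.ofReal (3 / 4 * q) ≤ eP l Q := by
    rw [hq]
    exact eP_ge hQp hQl
  clear hq
  have hbigR : 1 + C1 + C2 ≤ q ^ k * m := by
    rw [hqE, hms, ← ENNReal.ofReal_pow hq0, ← ENNReal.ofReal_mul (by positivity)] at hbig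
    exact (ENNReal.ofReal_le_ofReal_iff (by positivity)).1 hbig
  have hcard : 1 ≤ Q.card := by
    rcases Nat.eq_zero_or_pos Q.card with h | h
    · exfalso
      rw [hqc h, zero_pow (by omega), zero_mul] at hbigR
      linarith
    · exact h
  have hq1 : 1 ≤ q := hqc1 hcard
  -- the moments
  set F := AIkM.ff Φ U with hFd
  have hF : Measurable F := AIkM.ff_meas hE.cont hU
  set T : ℝ≥0∞ := ∑' s : Mat, (Lv2 Q (2 * k)).indicator (fun s => Dd Φ U (nm s)) s with hT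
  have hTT : T ≠ ⊤ := Dd_sum_top hNm hDds hE.cont hU hUR hmsT hM hQ (2 * k)
  have hmiT : ∀ j : ℕ, mi M ^ j ≠ ⊤ := fun j => ENNReal.pow_ne_top
    (ne_top_of_le_ne_top ENNReal.one_ne_top (mi_le hM))
  have heT : ∀ j, ∫⁻ x, F x * El Q j F x ∂nu ≠ ⊤ := fun j =>
    ne_top_of_le_ne_top (ENNReal.mul_ne_top (hmiT j)
      (Dd_sum_top hNm hDds hE.cont hU hUR hmsT hM hQ j)) (El_int hE.cont hU hM hQ j)
  have hup : ∀ i, aa Q F i ≤ Ck i * ∑ j ∈ Finset.range (i + 1), (Q.card : ℝ≥0∞) ^ ((i - j) / 2) *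
      ∫⁻ x, F x * El Q j F x ∂nu := by
    intro i
    have m1 : ∀ j, Measurable fun x => F x * El Q j F x := fun j => hF.mul (meas_El Q j hF)
    have e1 : Ck i * ∑ j ∈ Finset.range (i + 1), (Q.card : ℝ≥0∞) ^ ((i - j) / 2) *
        ∫⁻ x, F x * El Q j F x ∂nu = ∫⁻ x, Ck i * ∑ j ∈ Finset.range (i + 1),
          (Q.card : ℝ≥0∞) ^ ((i - j) / 2) * (F x * El Q j F x) ∂nu := by
      rw [lintegral_const_mul _ (Finset.measurable_sum _ fun j _ => (m1 j).const_mul _),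
        lintegral_finsetSum _ fun j _ => (m1 j).const_mul _]
      congr 1
      exact Finset.sum_congr rfl fun j _ => (lintegral_const_mul _ (m1 j)).symm
    rw [e1]
    unfold aa
    refine lintegral_mono fun x => ?_
    refine (mul_le_mul_right (pow_le hNm hQp hcard F i x) (F x)).trans (le_of_eq ?_)
    rw [mul_left_comm, Finset.mul_sum]
    congr 1
    exact Finset.sum_congr rfl fun j _ => by ring
  have haT : ∀ i, aa Q F i ≠ ⊤ := by
    intro i
    refine ne_top_of_le_ne_top (ENNReal.mul_ne_top (Ck_top i) (ENNReal.sum_ne_top.2 fun j _ =>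
      ENNReal.mul_ne_top (ENNReal.pow_ne_top (ENNReal.natCast_ne_top _)) (heT j))) (hup i)
  have hea : ∀ j, ∫⁻ x, F x * El Q j F x ∂nu ≤ aa Q F j := fun j =>
    lintegral_mono fun x => mul_le_mul_right (le_pow hNm hQp F j x) (F x)
  set a : ℕ → ℝ := fun i => (aa Q F i).toReal with had
  set e : ℕ → ℝ := fun j => (∫⁻ x, F x * El Q j F x ∂nu).toReal with hed
  have hcs : ∀ i j, a (i + j) ^ 2 ≤ a (2 * i) * a (2 * j) := by
    intro i j
    have h1 := ENNReal.toReal_mono (ENNReal.mul_ne_top (haT _) (haT _)) (aa_cs hNu hUnf hNm hQp hF i j)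
    rw [ENNReal.toReal_pow, ENNReal.toReal_mul] at h1
    exact h1
  -- the top moment
  have hge : (3 / 4 * q) ^ (2 * k) * m ^ 2 ≤ a (2 * k) := by
    have h1 := aa_ge hNu hUnf hNm hE hU hQp k
    have h2 : ENNReal.ofReal ((3 / 4 * q) ^ (2 * k) * m ^ 2) ≤ aa Q F (2 * k) := by
      refine le_trans ?_ h1
      rw [ENNReal.ofReal_mul (by positivity), ENNReal.ofReal_pow (by positivity),
        ENNReal.ofReal_pow hm0, ← hms]
      exact mul_le_mul_left (pow_le_pow_left' hePq _) _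
    exact (ENNReal.ofReal_le_iff_le_toReal (haT _)).1 h2
  -- the bottom moment
  have h00 : a 0 ≤ CD * m := by
    have h1 : aa Q F 0 = ∑' γ : SL(2, ℤ), Dd Φ U (io γ) := by
      have h2 : aa Q F 0 = AIkM.II F 1 := rfl
      rw [h2, AIkM.II_eq hE.cont hU, ← Equiv.tsum_eq eSL (fun s : Mn 1 => Dd Φ U (nm s.1))]
      refine tsum_congr fun γ => ?_
      change Dd Φ U (nm (γ : Mat)) = _
      rw [hNm.2.1]
    have h2 := hCD Φ hE.cont U hU hUR
    rw [← h1, hms, ← ENNReal.ofReal_mul hCD0] at h2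
    exact ENNReal.toReal_le_of_le_ofReal (by positivity) h2
  have h0 : (B ^ 2 * q) ^ k * a 0 ≤ a (2 * k) := by
    refine le_trans ?_ hge
    have h3 : (B ^ 2 * q) ^ k * a 0 ≤ (B ^ 2 * q) ^ k * (CD * m) :=
      mul_le_mul_of_nonneg_left h00 (by positivity)
    refine h3.trans ?_
    have h4 : C1 ≤ q ^ k * m := by linarith
    have e1 : (3 / 4 : ℝ) ^ (2 * k) * (4 / 3) ^ (2 * k) = 1 := by
      rw [← mul_pow]
      norm_num
    have h5 : (3 / 4 : ℝ) ^ (2 * k) * q ^ k * m * C1 ≤ (3 / 4 : ℝ) ^ (2 * k) * q ^ k * m * (q ^ k * m) :=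
      mul_le_mul_of_nonneg_left h4 (by positivity)
    calc (B ^ 2 * q) ^ k * (CD * m) = ((3 / 4 : ℝ) ^ (2 * k) * (4 / 3) ^ (2 * k)) *
          ((B ^ 2) ^ k * q ^ k * (CD * m)) := by rw [e1, mul_pow, one_mul]
      _ = (3 / 4 : ℝ) ^ (2 * k) * q ^ k * m * C1 := by rw [hC1]; ring
      _ ≤ _ := h5
      _ = _ := by
        have e2 : q ^ (2 * k) = q ^ k * q ^ k := by rw [two_mul, pow_add]
        rw [mul_pow, e2]
        ring
  -- the upper bound
  have hupR : a (2 * k) ≤ K0 * ∑ j ∈ Finset.range (2 * k + 1), q ^ ((2 * k - j) / 2) * e j := by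
    have h1 := ENNReal.toReal_mono (ENNReal.mul_ne_top (Ck_top (2 * k)) (ENNReal.sum_ne_top.2 fun j _ =>
      ENNReal.mul_ne_top (ENNReal.pow_ne_top (ENNReal.natCast_ne_top _)) (heT j))) (hup (2 * k))
    rw [ENNReal.toReal_mul, ENNReal.toReal_sum fun j _ =>
      ENNReal.mul_ne_top (ENNReal.pow_ne_top (ENNReal.natCast_ne_top _)) (heT j)] at h1
    have h2 : ∀ j ∈ Finset.range (2 * k + 1), ((Q.card : ℝ≥0∞) ^ ((2 * k - j) / 2) *
        ∫⁻ x, F x * El Q j F x ∂nu).toReal = q ^ ((2 * k - j) / 2) * e j := by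
      intro j _
      rw [ENNReal.toReal_mul, ENNReal.toReal_pow, hqN]
    rw [Finset.sum_congr rfl h2] at h1
    refine h1.trans (mul_le_mul_of_nonneg_right (le_max_right _ _) ?_)
    exact Finset.sum_nonneg fun j _ => mul_nonneg (by positivity) ENNReal.toReal_nonneg
  have hfin := absorb k hk hK01 hBd hq1 a e (fun _ => ENNReal.toReal_nonneg)
    (fun _ => ENNReal.toReal_nonneg) (fun j => ENNReal.toReal_mono (haT j) (hea j)) hcs h0 hupR
  -- conclusion
  have he2 : e (2 * k) ≤ (M ^ (2 * k))⁻¹ * T.toReal := by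
    have h1 := ENNReal.toReal_mono (ENNReal.mul_ne_top (hmiT (2 * k)) hTT) (El_int hE.cont hU hM hQ (2 * k))
    rw [ENNReal.toReal_mul, ENNReal.toReal_pow] at h1
    unfold mi at h1
    rw [ENNReal.toReal_inv, ENNReal.toReal_ofReal hM0.le, inv_pow] at h1
    exact h1
  have hTr : 0 ≤ T.toReal := ENNReal.toReal_nonneg
  -- the first level
  set T1 : ℝ≥0∞ := ∑' s : Mat, (Lv2 Q 1).indicator (fun s => Dd Φ U (nm s)) s with hT1
  have hT1T : T1 ≠ ⊤ := Dd_sum_top hNm hDds hE.cont hU hUR hmsT hM hQ 1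
  have f1 : T1.toReal ≤ 2 * M * a 1 := by
    have h1 : T1 ≤ ENNReal.ofReal (2 * M) * ∫⁻ x, F x * El Q 1 F x ∂nu := by
      refine (int_Hl hE.cont hU Q 1).trans ?_
      have m5 : Measurable fun x => F x * El Q 1 F x := hF.mul (meas_El Q 1 hF)
      rw [← lintegral_const_mul _ m5]
      refine lintegral_mono fun x => ?_
      refine (mul_le_mul_right (Hl_le_El hM hQ F x) (F x)).trans (le_of_eq ?_)
      ring
    have h2 := ENNReal.toReal_mono (ENNReal.mul_ne_top ENNReal.ofReal_ne_top (heT 1)) h1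
    rw [ENNReal.toReal_mul, ENNReal.toReal_ofReal (by positivity)] at h2
    exact h2.trans (mul_le_mul_of_nonneg_left (ENNReal.toReal_mono (haT 1) (hea 1)) (by positivity))
  have hmC : m ≤ CT := by
    have h1 : ms Φ U ≤ ms Φ (Om R) := lintegral_mono_set hUR
    exact ENNReal.toReal_le_of_le_ofReal hCT0 (h1.trans (hCT l Φ hE))
  have f2 : a 0 ≤ CD * CT := h00.trans (mul_le_mul_of_nonneg_left hmC hCD0)
  have f3 := first_moment k hk a (fun _ => ENNReal.toReal_nonneg) hcs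
    (c := (B ^ 2 * q) ^ k) (by positivity) h0
  have ha0 : 0 ≤ a 0 := ENNReal.toReal_nonneg
  have ha1 : 0 ≤ a 1 := ENNReal.toReal_nonneg
  have hak : 0 ≤ a (2 * k) := ENNReal.toReal_nonneg
  have h9 : T1.toReal ^ (2 * k) ≤ (1 + C1 + C2) * T.toReal := by
    calc T1.toReal ^ (2 * k) ≤ (2 * M * a 1) ^ (2 * k) := pow_le_pow_left₀ ENNReal.toReal_nonneg f1 _
      _ = (2 * M) ^ (2 * k) * a 1 ^ (2 * k) := mul_pow _ _ _
      _ ≤ (2 * M) ^ (2 * k) * (a 0 ^ (2 * k - 1) * a (2 * k)) :=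
          mul_le_mul_of_nonneg_left f3 (by positivity)
      _ ≤ (2 * M) ^ (2 * k) * ((CD * CT) ^ (2 * k - 1) * (2 * K0 * ((M ^ (2 * k))⁻¹ * T.toReal))) := by
          refine mul_le_mul_of_nonneg_left (mul_le_mul (pow_le_pow_left₀ ha0 f2 _)
            (hfin.trans (mul_le_mul_of_nonneg_left he2 (by positivity))) hak ?_) (by positivity)
          positivity
      _ = C2 * T.toReal * (M ^ (2 * k) * (M ^ (2 * k))⁻¹) := by
          rw [hC2, mul_pow]
          ring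
      _ = C2 * T.toReal := by
          rw [mul_inv_cancel₀ (by positivity), mul_one]
      _ ≤ _ := mul_le_mul_of_nonneg_right (by linarith) hTr
  rw [← ENNReal.ofReal_toReal hT1T, ← ENNReal.ofReal_toReal hTT, ← ENNReal.ofReal_pow ENNReal.toReal_nonneg,
    ← ENNReal.ofReal_mul (by positivity)]
  exact ENNReal.ofReal_le_ofReal h9

end

end Pool.Agent.A54.HS
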