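import Pool.Agent.Lib.HS.Di4
import Pool.Agent.Lib.HS.Dst

/-!
# Package `HS`, cells: the amplifier sums as numbers of returns
-/

set_option autoImplicit false

namespace Pool.Agent.A54.HS

open MeasureTheory Filter Topology Set
open scoped ContDiff ComplexConjugate UpperHalfPlane MatrixGroups ENNReal
open Pool.Agent.A54.Dyn (G fl base ze io mk4 dom)
open Pool.Agent.A54.Av (Mat NonSc)
open Pool.Agent.A54.Hp Pool.Agent.A54.Hp.Hk Pool.Agent.A54.Hp.A2M

noncomputable section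

/-- the returns between the cells `c i`, `i ∈ W`, by the matrices of `L` -/
def Trp {ι : Type} (c : ι → Set G) (W : Finset ι) (L : Set Mat) : Set (ι × ι × Mat) :=
  {t | t.1 ∈ W ∧ t.2.1 ∈ W ∧ t.2.2 ∈ L ∧ ∃ x ∈ c t.1, nm t.2.2 * x ∈ c t.2.1}

lemma Trp_mono {ι : Type} (c : ι → Set G) {W W' : Finset ι} {L L' : Set Mat} (hW : W ⊆ W') (hL : L ⊆ L') :
    Trp c W L ⊆ Trp c W' L' := fun _ h => ⟨hW h.1, hW h.2.1, hL h.2.2.1, h.2.2.2⟩

lemma Trp_finite (hNm : StmtNm) {R : ℝ} (hR : 0 ≤ R) {ι : Type} {c : ι → Set G} {W : Finset ι}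
    (hc : ∀ i ∈ W, c i ⊆ Om R) {L : Set Mat} {D : ℝ} (hL : ∀ s ∈ L, 0 < s.det ∧ ((s.det : ℤ) : ℝ) ≤ D) :
    (Trp c W L).Finite := by
  classical
  have h1 := finite_box (2 * R * R * √D)
  refine ((W.finite_toSet.prod (W.finite_toSet.prod h1))).subset ?_
  rintro ⟨i, j, s⟩ ⟨hi, hj, hs', x, hx, hsx⟩
  refine ⟨hi, hj, fun a b => ?_⟩
  have h2 := hNm.2.2.2.2 R R x s (hL s hs').1 (hc i hi hx) (hc j hj hsx) a b
  refine h2.trans (mul_le_mul_of_nonneg_left (Real.sqrt_le_sqrt (hL s hs').2) (by positivity))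

/-- the union of the cells -/
def Un {ι : Type} (c : ι → Set G) (W : Finset ι) : Set G := ⋃ i ∈ W, c i

lemma Un_meas {ι : Type} {c : ι → Set G} {W : Finset ι} (h : ∀ i ∈ W, MeasurableSet (c i)) :
    MeasurableSet (Un c W) := Finset.measurableSet_biUnion W h

lemma Un_sub {ι : Type} {c : ι → Set G} {W : Finset ι} {R : ℝ} (h : ∀ i ∈ W, c i ⊆ Om R) :
    Un c W ⊆ Om R := by
  unfold Un
  exact Set.iUnion₂_subset h

/-- the mass of a union of disjoint cells -/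
lemma ms_Un {ι : Type} {c : ι → Set G} {W : Finset ι} (Φ : G → ℂ) (h : ∀ i ∈ W, MeasurableSet (c i))
    (hd : ∀ i ∈ W, ∀ j ∈ W, i ≠ j → Disjoint (c i) (c j)) :
    ms Φ (Un c W) = ∑ i ∈ W, ms Φ (c i) := by
  unfold ms Un
  exact lintegral_biUnion_finset (fun i hi j hj hij => hd i hi j hj hij) h _

lemma ind_Un {ι : Type} (c : ι → Set G) (W : Finset ι) (f : G → ℝ≥0∞) (x : G) :
    (Un c W).indicator f x ≤ ∑ i ∈ W, (c i).indicator f x := by
  classical
  by_cases hx : x ∈ Un c W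
  · rw [Set.indicator_of_mem hx]
    unfold Un at hx
    rw [Set.mem_iUnion₂] at hx
    obtain ⟨i, hi, hxi⟩ := hx
    calc f x = (c i).indicator f x := (Set.indicator_of_mem hxi _).symm
      _ ≤ _ := Finset.single_le_sum (f := fun i => (c i).indicator f x) (fun _ _ => zero_le) hi
  · rw [Set.indicator_of_notMem hx]
    exact zero_le

/-- Cauchy–Schwarz for two cells -/
lemma two_cells (hNu : StmtNuL) {Φ : G → ℂ} (hΦ : Continuous Φ) {U V : Set G} (hU : MeasurableSet U)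
    (hV : MeasurableSet V) {A : ℝ≥0∞} (h1 : ms Φ U ≤ A) (h2 : ms Φ V ≤ A) (h : G) :
    ∫⁻ x, U.indicator (fun x => ‖Φ x‖ₑ) x * V.indicator (fun x => ‖Φ x‖ₑ) (h * x) ∂nu ≤ A := by
  have := hNu.1
  have m1 : Measurable (U.indicator fun x => ‖Φ x‖ₑ) := (hΦ.enorm.measurable).indicator hU
  have m2 : Measurable (V.indicator fun x => ‖Φ x‖ₑ) := (hΦ.enorm.measurable).indicator hV
  have m3 : Measurable fun x => V.indicator (fun x => ‖Φ x‖ₑ) (h * x) := meas_mul m2 h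
  have e1 : ∀ {S : Set G}, MeasurableSet S → ∫⁻ x, (S.indicator (fun x => ‖Φ x‖ₑ) x) ^ 2 ∂nu = ms Φ S := by
    intro S hS
    rw [← AIkM.ms_eq Φ hS]
    refine lintegral_congr fun x => ?_
    unfold AIkM.ff
    by_cases hx : x ∈ S
    · rw [Set.indicator_of_mem hx, _root_.sq]
    · rw [Set.indicator_of_notMem hx]
      simp
  have e2 : ∫⁻ x, (V.indicator (fun x => ‖Φ x‖ₑ) (h * x)) ^ 2 ∂nu = ms Φ V := by
    rw [← e1 hV]
    exact lintegral_mul_left_eq_self (μ := nu) (fun x => (V.indicator (fun x => ‖Φ x‖ₑ) x) ^ 2) h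
  have h3 := AIkM.cs nu _ _ m1 m3
  rw [e1 hU, e2] at h3
  have h4 : (∫⁻ x, U.indicator (fun x => ‖Φ x‖ₑ) x * V.indicator (fun x => ‖Φ x‖ₑ) (h * x) ∂nu) ^ 2 ≤
      A ^ 2 := by
    refine h3.trans ?_
    rw [_root_.sq]
    exact mul_le_mul' h1 h2
  exact (ENNReal.pow_le_pow_left_iff (by norm_num)).1 h4

open Classical in
/-- the correlation of a union of cells -/
lemma Dd_Un (hNu : StmtNuL) {Φ : G → ℂ} (hΦ : Continuous Φ) {ι : Type} {c : ι → Set G} {W : Finset ι}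
    (hm : ∀ i ∈ W, MeasurableSet (c i)) {A : ℝ≥0∞} (hA : ∀ i ∈ W, ms Φ (c i) ≤ A) (h : G) :
    Dd Φ (Un c W) h ≤ ∑ i ∈ W, ∑ j ∈ W, if ∃ x ∈ c i, h * x ∈ c j then A else 0 := by
  set f : G → ℝ≥0∞ := fun x => ‖Φ x‖ₑ
  have m1 : ∀ i ∈ W, Measurable ((c i).indicator f) := fun i hi => (hΦ.enorm.measurable).indicator (hm i hi)
  have m2 : ∀ i ∈ W, ∀ j ∈ W, Measurable fun x => (c i).indicator f x * (c j).indicator f (h * x) :=
    fun i hi j hj => (m1 i hi).mul (meas_mul (m1 j hj) h)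
  have m3 : ∀ i ∈ W, Measurable fun x => ∑ j ∈ W, (c i).indicator f x * (c j).indicator f (h * x) :=
    fun i hi => Finset.measurable_sum _ fun j hj => m2 i hi j hj
  calc Dd Φ (Un c W) h ≤ ∫⁻ x, ∑ i ∈ W, ∑ j ∈ W, (c i).indicator f x * (c j).indicator f (h * x) ∂nu := by
        refine lintegral_mono fun x => ?_
        refine (mul_le_mul' (ind_Un c W f x) (ind_Un c W f (h * x))).trans (le_of_eq ?_)
        rw [Finset.sum_mul_sum]
    _ = ∑ i ∈ W, ∑ j ∈ W, ∫⁻ x, (c i).indicator f x * (c j).indicator f (h * x) ∂nu := by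
        rw [lintegral_finsetSum' _ fun i hi => (m3 i hi).aemeasurable]
        refine Finset.sum_congr rfl fun i hi => ?_
        rw [lintegral_finsetSum' _ fun j hj => (m2 i hi j hj).aemeasurable]
    _ ≤ _ := by
        refine Finset.sum_le_sum fun i hi => Finset.sum_le_sum fun j hj => ?_
        by_cases hx : ∃ x ∈ c i, h * x ∈ c j
        · rw [if_pos hx]
          exact two_cells hNu hΦ (hm i hi) (hm j hj) (hA i hi) (hA j hj) h
        · rw [if_neg hx]
          push Not at hx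
          refine le_of_eq ?_
          have h0 : ∀ x, (c i).indicator f x * (c j).indicator f (h * x) = 0 := by
            intro x
            by_cases hi' : x ∈ c i
            · rw [Set.indicator_of_notMem (hx x hi'), mul_zero]
            · rw [Set.indicator_of_notMem hi', zero_mul]
          simp only [h0, lintegral_zero]

/-- the sums over level sets are numbers of returns -/
lemma sum_Un (hNu : StmtNuL) {Φ : G → ℂ} (hΦ : Continuous Φ) {ι : Type} {c : ι → Set G} {W : Finset ι}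
    (hm : ∀ i ∈ W, MeasurableSet (c i)) {A : ℝ≥0∞} (hA : ∀ i ∈ W, ms Φ (c i) ≤ A) (L : Set Mat)
    (T : Finset (ι × ι × Mat)) (hT : Trp c W L ⊆ T) :
    ∑' s : Mat, L.indicator (fun s => Dd Φ (Un c W) (nm s)) s ≤ A * (T.card : ℝ≥0∞) := by
  classical
  have h1 : ∀ s : Mat, L.indicator (fun s => Dd Φ (Un c W) (nm s)) s ≤
      ∑ i ∈ W, ∑ j ∈ W, if (i, j, s) ∈ T then A else 0 := by
    intro s
    by_cases hs' : s ∈ L
    · rw [Set.indicator_of_mem hs']
      refine (Dd_Un hNu hΦ hm hA (nm s)).trans ?_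
      refine Finset.sum_le_sum fun i hi => Finset.sum_le_sum fun j hj => ?_
      by_cases hx : ∃ x ∈ c i, nm s * x ∈ c j
      · rw [if_pos hx, if_pos]
        exact hT ⟨hi, hj, hs', hx⟩
      · rw [if_neg hx]
        exact zero_le
    · rw [Set.indicator_of_notMem hs']
      exact zero_le
  calc ∑' s : Mat, L.indicator (fun s => Dd Φ (Un c W) (nm s)) s
      ≤ ∑' s : Mat, ∑ x ∈ W ×ˢ W, if (x.1, x.2, s) ∈ T then A else 0 := by
        refine ENNReal.tsum_le_tsum fun s => (h1 s).trans (le_of_eq ?_)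
        rw [Finset.sum_product]
    _ = ∑ x ∈ W ×ˢ W, ∑' s : Mat, (if (x.1, x.2, s) ∈ T then A else 0) :=
        Summable.tsum_finsetSum fun _ _ => ENNReal.summable
    _ = ∑ x ∈ W ×ˢ W, ∑ s ∈ T.image (fun t => t.2.2), (if (x.1, x.2, s) ∈ T then A else 0) := by
        refine Finset.sum_congr rfl fun x _ => tsum_eq_sum fun s hs' => if_neg fun h => hs' ?_
        exact Finset.mem_image.2 ⟨(x.1, x.2, s), h, rfl⟩
    _ = ∑ t ∈ (W ×ˢ W) ×ˢ (T.image (fun t => t.2.2)), (if (t.1.1, t.1.2, t.2) ∈ T then A else 0) :=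
        (Finset.sum_product (W ×ˢ W) (T.image (fun t => t.2.2))
          (fun t => if (t.1.1, t.1.2, t.2) ∈ T then A else 0)).symm
    _ = ∑ t ∈ ((W ×ˢ W) ×ˢ (T.image (fun t => t.2.2))).filter (fun t => (t.1.1, t.1.2, t.2) ∈ T), A := by
        rw [Finset.sum_filter]
    _ = ((((W ×ˢ W) ×ˢ (T.image (fun t => t.2.2))).filter (fun t => (t.1.1, t.1.2, t.2) ∈ T)).card : ℝ≥0∞) *
          A := by rw [Finset.sum_const, nsmul_eq_mul]
    _ ≤ (T.card : ℝ≥0∞) * A := by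
        refine mul_le_mul_left ?_ _
        have h2 : (((W ×ˢ W) ×ˢ (T.image (fun t => t.2.2))).filter
            (fun t => (t.1.1, t.1.2, t.2) ∈ T)).card ≤ T.card := by
          refine Finset.card_le_card_of_injOn (fun t => (t.1.1, t.1.2, t.2)) ?_ ?_
          · intro t ht
            exact (Finset.mem_filter.1 ht).2
          · rintro ⟨⟨a, b⟩, s⟩ _ ⟨⟨a', b'⟩, s'⟩ _ h
            simp only [Prod.mk.injEq] at h
            obtain ⟨rfl, rfl, rfl⟩ := h
            rfl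
        exact_mod_cast h2
    _ = _ := mul_comm _ _

/-- the sizes of the determinants -/
lemma Ld_size {Q : Finset ℕ} {M : ℝ} (hM : 1 ≤ M) (hQ : Q ⊆ Pm M) (B : Finset (Fin 2 → ℤ)) :
    ∀ s ∈ Ld Q B, 0 < s.det ∧ ((s.det : ℤ) : ℝ) ≤ (2 * M) ^ 4 := by
  rintro s ⟨-, p, hp, q, hq', hd, -, -⟩
  have hP : ∀ p ∈ Q, (0 : ℝ) < p ∧ (p : ℝ) ≤ 2 * M := by
    intro p hp
    have h1 := hQ hp
    unfold Pm at h1
    rw [Finset.mem_filter, Finset.mem_Ioc] at h1
    exact ⟨by exact_mod_cast h1.2.pos, (Nat.le_floor_iff (by linarith)).1 h1.1.2⟩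
  obtain ⟨p1, p2⟩ := hP p hp
  obtain ⟨q1, q2⟩ := hP q hq'
  have e1 : ((s.det : ℤ) : ℝ) = (p * q) * (p * q) := by
    rw [hd]
    push_cast
    ring
  constructor
  · have : (0 : ℝ) < ((s.det : ℤ) : ℝ) := by
      rw [e1]
      positivity
    exact_mod_cast this
  · rw [e1]
    have h2 : (p : ℝ) * q ≤ (2 * M) * (2 * M) := mul_le_mul p2 q2 q1.le (by linarith)
    calc ((p : ℝ) * q) * (p * q) ≤ ((2 * M) * (2 * M)) * ((2 * M) * (2 * M)) :=
          mul_le_mul h2 h2 (by positivity) (by positivity)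
      _ = _ := by ring

lemma Lv2_size {Q : Finset ℕ} {M : ℝ} (hM : 1 ≤ M) (hQ : Q ⊆ Pm M) (j : ℕ) :
    ∀ s ∈ Lv2 Q j, 0 < s.det ∧ ((s.det : ℤ) : ℝ) ≤ (2 * M) ^ (2 * j) := by
  rintro s ⟨-, n, hn, hd⟩
  have hP : ∀ p ∈ Q, p.Prime ∧ M < (p : ℝ) ∧ (p : ℝ) ≤ 2 * M := by
    intro p hp
    have h1 := hQ hp
    unfold Pm at h1
    rw [Finset.mem_filter, Finset.mem_Ioc] at h1
    exact ⟨h1.2, (Nat.floor_lt (by linarith)).1 h1.1.1, (Nat.le_floor_iff (by linarith)).1 h1.1.2⟩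
  obtain ⟨h1, h2⟩ := sm_size hM hP j n hn
  have e1 : ((s.det : ℤ) : ℝ) = (n : ℝ) * n := by
    rw [hd]
    push_cast
    ring
  have h3 : (0 : ℝ) < n := lt_of_lt_of_le (by positivity) h1
  constructor
  · have : (0 : ℝ) < ((s.det : ℤ) : ℝ) := by
      rw [e1]
      positivity
    exact_mod_cast this
  · have e2 : (2 * M) ^ (2 * j) = (2 * M) ^ j * (2 * M) ^ j := by
      rw [two_mul j, pow_add]
    rw [e1, e2]
    exact mul_le_mul h2 h2 h3.le (by positivity)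

end

end Pool.Agent.A54.HS
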