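import Mathlib

/-!
# PROJECT H* (MP_a54f13_nt), part (C'), module 1: real inequalities for differences of square roots

`m ^ 2 = a d + O(L)`; the difference `m' - m` is bilinear in the direction `(a, d) / m` and the increment
`(a' - a, d' - d)`, up to a power of `L`.
-/

set_option autoImplicit false

namespace Pool.Agent.HS.Cl

/-- The size of a difference. -/
theorem v_le {K L R a d m a' d' m' : ℝ} (hL : 1 ≤ L) (hR : 1 ≤ R) (hRK : R ^ 2 ≤ K)
    (ha : 0 ≤ a) (haK : a ≤ K * L) (hd : 0 ≤ d) (hdK : d ≤ K * L) (hm : K / L ≤ m) (hm' : K / L ≤ m')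
    (h : |m ^ 2 - a * d| ≤ L) (h' : |m' ^ 2 - a' * d'| ≤ L)
    (hda : |a' - a| ≤ L ^ 2 * R) (hdd : |d' - d| ≤ L ^ 2 * R) :
    |m' - m| ≤ 3 * L ^ 5 * R := by
  have hK : 1 ≤ K := le_trans (by nlinarith) hRK
  have hL0 : 0 < L := by linarith
  have hmm : 2 * (K / L) ≤ m + m' := by linarith
  have e1 : |m' - m| * (m + m') ≤ 5 * (K * L ^ 4 * R) := by
    have h0 : 0 ≤ m + m' := le_trans (by positivity) hmm
    have h1 : |m' - m| * (m + m') = |m' ^ 2 - m ^ 2| := by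
      have h2 : |m' - m| * (m + m') = |(m' - m) * (m + m')| := by rw [abs_mul, abs_of_nonneg h0]
      rw [h2]
      congr 1; ring
    rw [h1]
    have h2 : m' ^ 2 - m ^ 2 = (m' ^ 2 - a' * d') - (m ^ 2 - a * d) + a * (d' - d) + d * (a' - a) +
        (a' - a) * (d' - d) := by ring
    have h3 : |a * (d' - d)| ≤ K * L * (L ^ 2 * R) := by
      rw [abs_mul, abs_of_nonneg ha]
      exact mul_le_mul haK hdd (abs_nonneg _) (by positivity)
    have h4 : |d * (a' - a)| ≤ K * L * (L ^ 2 * R) := by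
      rw [abs_mul, abs_of_nonneg hd]
      exact mul_le_mul hdK hda (abs_nonneg _) (by positivity)
    have h5 : |(a' - a) * (d' - d)| ≤ (L ^ 2 * R) * (L ^ 2 * R) := by
      rw [abs_mul]
      exact mul_le_mul hda hdd (abs_nonneg _) (by positivity)
    have h6 : (L ^ 2 * R) * (L ^ 2 * R) ≤ K * L ^ 4 * R := by
      have : (L ^ 2 * R) * (L ^ 2 * R) = R ^ 2 * L ^ 4 * 1 := by ring
      rw [this]
      gcongr
    have h7 : K * L * (L ^ 2 * R) ≤ K * L ^ 4 * R := by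
      have : K * L * (L ^ 2 * R) = K * L ^ 3 * R := by ring
      rw [this]
      gcongr
      norm_num
    have h8 : L ≤ K * L ^ 4 * R := by
      calc L = 1 * L ^ 1 * 1 := by ring
        _ ≤ K * L ^ 4 * R := by gcongr <;> norm_num
    rw [h2]
    calc |(m' ^ 2 - a' * d') - (m ^ 2 - a * d) + a * (d' - d) + d * (a' - a) + (a' - a) * (d' - d)|
        ≤ |m' ^ 2 - a' * d'| + |m ^ 2 - a * d| + |a * (d' - d)| + |d * (a' - a)| + |(a' - a) * (d' - d)| := by
          refine (abs_add_le _ _).trans ?_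
          gcongr
          refine (abs_add_le _ _).trans ?_
          gcongr
          refine (abs_add_le _ _).trans ?_
          gcongr
          exact abs_sub _ _
      _ ≤ 5 * (K * L ^ 4 * R) := by linarith
  have e2 : |m' - m| * (2 * (K / L)) ≤ 5 * (K * L ^ 4 * R) :=
    le_trans (mul_le_mul_of_nonneg_left hmm (abs_nonneg _)) e1
  have e3 : |m' - m| * (2 * (K / L)) = |m' - m| * 2 * K / L := by ring
  rw [e3, div_le_iff₀ hL0] at e2
  have e4 : |m' - m| * 2 * K ≤ (6 * L ^ 5 * R) * K := by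
    refine e2.trans ?_
    have : 5 * (K * L ^ 4 * R) * L = (5 * L ^ 5 * R) * K := by ring
    rw [this]
    gcongr
    norm_num
  have e5 := le_of_mul_le_mul_right e4 (by linarith)
  linarith

/-- The difference is bilinear up to a power of `L`. -/
theorem v_lin {K L R a d m a' d' m' : ℝ} (hL : 1 ≤ L) (hR : 1 ≤ R) (hRK : R ^ 2 ≤ K)
    (ha : 0 ≤ a) (haK : a ≤ K * L) (hd : 0 ≤ d) (hdK : d ≤ K * L) (hm : K / L ≤ m) (hm' : K / L ≤ m')
    (h : |m ^ 2 - a * d| ≤ L) (h' : |m' ^ 2 - a' * d'| ≤ L)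
    (hda : |a' - a| ≤ L ^ 2 * R) (hdd : |d' - d| ≤ L ^ 2 * R) :
    |(m' - m) - (a / m * (d' - d) + d / m * (a' - a)) / 2| ≤ 6 * L ^ 11 := by
  have hK : 1 ≤ K := le_trans (by nlinarith) hRK
  have hL0 : 0 < L := by linarith
  have hm0 : 0 < m := lt_of_lt_of_le (by positivity) hm
  have hv := v_le hL hR hRK ha haK hd hdK hm hm' h h' hda hdd
  have e1 : (m' - m) - (a / m * (d' - d) + d / m * (a' - a)) / 2 =
      ((m' ^ 2 - a' * d') - (m ^ 2 - a * d) + (a' - a) * (d' - d) - (m' - m) ^ 2) / (2 * m) := by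
    field_simp
    ring
  rw [e1, abs_div, abs_of_pos (by positivity : 0 < 2 * m), div_le_iff₀ (by positivity)]
  have h5 : |(a' - a) * (d' - d)| ≤ (L ^ 2 * R) * (L ^ 2 * R) := by
    rw [abs_mul]
    exact mul_le_mul hda hdd (abs_nonneg _) (by positivity)
  have h6 : (m' - m) ^ 2 ≤ (3 * L ^ 5 * R) ^ 2 := by
    rw [← sq_abs]
    gcongr
  have h7 : (3 * L ^ 5 * R) ^ 2 ≤ 9 * (K * L ^ 10) := by
    have : (3 * L ^ 5 * R) ^ 2 = 9 * (R ^ 2 * L ^ 10) := by ring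
    rw [this]
    gcongr
  have h8 : (L ^ 2 * R) * (L ^ 2 * R) ≤ K * L ^ 10 := by
    have : (L ^ 2 * R) * (L ^ 2 * R) = R ^ 2 * L ^ 4 := by ring
    rw [this]
    gcongr
    norm_num
  have h9 : L ≤ K * L ^ 10 := by
    calc L = 1 * L ^ 1 := by ring
      _ ≤ K * L ^ 10 := by gcongr <;> norm_num
  have h10 : |(m' ^ 2 - a' * d') - (m ^ 2 - a * d) + (a' - a) * (d' - d) - (m' - m) ^ 2| ≤
      12 * (K * L ^ 10) := by
    calc |(m' ^ 2 - a' * d') - (m ^ 2 - a * d) + (a' - a) * (d' - d) - (m' - m) ^ 2|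
        ≤ |m' ^ 2 - a' * d'| + |m ^ 2 - a * d| + |(a' - a) * (d' - d)| + (m' - m) ^ 2 := by
          refine (abs_sub _ _).trans ?_
          rw [abs_of_nonneg (sq_nonneg (m' - m))]
          gcongr
          refine (abs_add_le _ _).trans ?_
          gcongr
          exact abs_sub _ _
      _ ≤ 12 * (K * L ^ 10) := by linarith
  refine h10.trans ?_
  have h11 : K ≤ m * L := by
    rwa [div_le_iff₀ hL0] at hm
  have : 6 * L ^ 11 * (2 * m) = 12 * ((m * L) * L ^ 10) := by ring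
  rw [this]
  gcongr

/-- The normalised coordinates `a / m` are Lipschitz functions of the direction. -/
theorem dir_lip {L η ε x y z x' y' z' : ℝ} (hL : 1 ≤ L) (hη : 0 ≤ η) (hε : 0 ≤ ε)
    (hx0 : 0 ≤ x) (hx'0 : 0 ≤ x') (hy0 : 0 ≤ y) (hy'0 : 0 ≤ y')
    (hx : x ≤ L ^ 2) (hx' : x' ≤ L ^ 2) (hy : y ≤ L ^ 2) (hy' : y' ≤ L ^ 2)
    (hz : (L ^ 2)⁻¹ ≤ z) (hz' : (L ^ 2)⁻¹ ≤ z') (hzL : z ≤ L ^ 2) (hzL' : z' ≤ L ^ 2)
    (h : |z ^ 2 - x * y| ≤ ε) (h' : |z' ^ 2 - x' * y'| ≤ ε) (hxx : |x - x'| ≤ η) (hyy : |y - y'| ≤ η) :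
    |x / z - x' / z'| ≤ 2 * L ^ 10 * (η + ε) := by
  have hL0 : 0 < L := by linarith
  have hz0 : 0 < z := lt_of_lt_of_le (by positivity) hz
  have hz'0 : 0 < z' := lt_of_lt_of_le (by positivity) hz'
  have e1 : |z ^ 2 - z' ^ 2| ≤ 2 * (L ^ 2 * η + ε) := by
    have : z ^ 2 - z' ^ 2 = (z ^ 2 - x * y) - (z' ^ 2 - x' * y') + x * (y - y') + y' * (x - x') := by ring
    rw [this]
    have h3 : |x * (y - y')| ≤ L ^ 2 * η := by
      rw [abs_mul, abs_of_nonneg hx0]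
      exact mul_le_mul hx hyy (abs_nonneg _) (by positivity)
    have h4 : |y' * (x - x')| ≤ L ^ 2 * η := by
      rw [abs_mul, abs_of_nonneg hy'0]
      exact mul_le_mul hy' hxx (abs_nonneg _) (by positivity)
    calc |(z ^ 2 - x * y) - (z' ^ 2 - x' * y') + x * (y - y') + y' * (x - x')|
        ≤ |z ^ 2 - x * y| + |z' ^ 2 - x' * y'| + |x * (y - y')| + |y' * (x - x')| := by
          refine (abs_add_le _ _).trans ?_
          gcongr
          refine (abs_add_le _ _).trans ?_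
          gcongr
          exact abs_sub _ _
      _ ≤ 2 * (L ^ 2 * η + ε) := by linarith
  have e2 : |z - z'| ≤ L ^ 4 * (η + ε) := by
    have h0 : 0 < z + z' := by positivity
    have h1 : |z - z'| * (z + z') = |z ^ 2 - z' ^ 2| := by
      have h2 : |z - z'| * (z + z') = |(z - z') * (z + z')| := by rw [abs_mul, abs_of_pos h0]
      rw [h2]
      congr 1; ring
    have h2 : |z - z'| * (2 * (L ^ 2)⁻¹) ≤ 2 * (L ^ 2 * η + ε) := by
      refine le_trans (mul_le_mul_of_nonneg_left (by linarith : 2 * (L ^ 2)⁻¹ ≤ z + z') (abs_nonneg _)) ?_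
      rw [h1]; exact e1
    have h3 : |z - z'| ≤ (L ^ 2 * η + ε) * L ^ 2 := by
      have h4 : |z - z'| * (2 * (L ^ 2)⁻¹) = 2 * (|z - z'| / L ^ 2) := by ring
      rw [h4] at h2
      have h5 : |z - z'| / L ^ 2 ≤ L ^ 2 * η + ε := by linarith
      rwa [div_le_iff₀ (by positivity)] at h5
    refine h3.trans ?_
    have h6 : (L ^ 2 * η + ε) * L ^ 2 = L ^ 4 * η + L ^ 2 * ε := by ring
    rw [h6, mul_add]
    gcongr
    norm_num
  have e3 : x / z - x' / z' = ((x - x') * z' + x' * (z' - z)) / (z * z') := by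
    field_simp
    ring
  have e4 : (L ^ 4)⁻¹ ≤ z * z' := by
    calc (L ^ 4)⁻¹ = (L ^ 2)⁻¹ * (L ^ 2)⁻¹ := by
          rw [← mul_inv]; congr 1; ring
      _ ≤ z * z' := by gcongr
  have e5 : |(x - x') * z' + x' * (z' - z)| ≤ 2 * L ^ 6 * (η + ε) := by
    have h1 : |(x - x') * z'| ≤ η * L ^ 2 := by
      rw [abs_mul, abs_of_pos hz'0]
      exact mul_le_mul hxx hzL' hz'0.le hη
    have h2 : |x' * (z' - z)| ≤ L ^ 2 * (L ^ 4 * (η + ε)) := by
      rw [abs_mul, abs_of_nonneg hx'0, abs_sub_comm]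
      exact mul_le_mul hx' e2 (abs_nonneg _) (by positivity)
    have h3 : η * L ^ 2 ≤ L ^ 6 * (η + ε) := by
      calc η * L ^ 2 = L ^ 2 * η := by ring
        _ ≤ L ^ 6 * (η + ε) := by
          gcongr
          · norm_num
          · linarith
    calc |(x - x') * z' + x' * (z' - z)| ≤ |(x - x') * z'| + |x' * (z' - z)| := abs_add_le _ _
      _ ≤ L ^ 6 * (η + ε) + L ^ 2 * (L ^ 4 * (η + ε)) := by linarith
      _ = 2 * L ^ 6 * (η + ε) := by ring
  rw [e3, abs_div, abs_of_pos (by positivity : 0 < z * z'), div_le_iff₀ (by positivity)]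
  refine e5.trans ?_
  have : 2 * L ^ 6 * (η + ε) = 2 * L ^ 10 * (η + ε) * (L ^ 4)⁻¹ := by
    field_simp
  rw [this]
  gcongr

/-- Two pairs with the same direction (up to `1 / R`) and the same increment (up to `1`) have the same
difference up to a power of `L`. -/
theorem v_close {K L R a d m a' d' m' x y p x' y' p' s t : ℝ} (hL : 1 ≤ L) (hR : 1 ≤ R) (hRK : R ^ 2 ≤ K)
    (ha : K / L ≤ a) (haK : a ≤ K * L) (hd : K / L ≤ d) (hdK : d ≤ K * L) (hm : K / L ≤ m)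
    (hm' : K / L ≤ m') (hmK : m ≤ K * L)
    (h : |m ^ 2 - a * d| ≤ L) (h' : |m' ^ 2 - a' * d'| ≤ L)
    (hda : |a' - a| ≤ L ^ 2 * R) (hdd : |d' - d| ≤ L ^ 2 * R)
    (hx : K / L ≤ x) (hxK : x ≤ K * L) (hy : K / L ≤ y) (hyK : y ≤ K * L) (hp : K / L ≤ p)
    (hp' : K / L ≤ p') (hpK : p ≤ K * L)
    (hq : |p ^ 2 - x * y| ≤ L) (hq' : |p' ^ 2 - x' * y'| ≤ L)
    (hdx : |x' - x| ≤ L ^ 2 * R) (hdy : |y' - y| ≤ L ^ 2 * R)
    (hs : K / L ≤ s) (hsK : s ≤ K * L) (ht : K / L ≤ t) (htK : t ≤ K * L)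
    (h1 : |a / s - x / t| ≤ L ^ 5 / R) (h2 : |d / s - y / t| ≤ L ^ 5 / R)
    (h3 : |(a' - a) - (x' - x)| ≤ L ^ 2) (h4 : |(d' - d) - (y' - y)| ≤ L ^ 2) :
    |(m' - m) - (p' - p)| ≤ 17 * L ^ 17 := by
  have hK : 1 ≤ K := le_trans (by nlinarith) hRK
  have hL0 : 0 < L := by linarith
  have hK0 : 0 < K := by linarith
  have hR0 : 0 < R := by linarith
  have hKL : 0 < K / L := by positivity
  have ha0 : 0 < a := lt_of_lt_of_le hKL ha
  have hd0 : 0 < d := lt_of_lt_of_le hKL hd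
  have hm0 : 0 < m := lt_of_lt_of_le hKL hm
  have hx0 : 0 < x := lt_of_lt_of_le hKL hx
  have hy0 : 0 < y := lt_of_lt_of_le hKL hy
  have hp0 : 0 < p := lt_of_lt_of_le hKL hp
  have hs0 : 0 < s := lt_of_lt_of_le hKL hs
  have ht0 : 0 < t := lt_of_lt_of_le hKL ht
  have k1 := v_lin hL hR hRK ha0.le haK hd0.le hdK hm hm' h h' hda hdd
  have k2 := v_lin hL hR hRK hx0.le hxK hy0.le hyK hp hp' hq hq' hdx hdy
  -- ratios
  have ub : ∀ u v : ℝ, u ≤ K * L → K / L ≤ v → 0 < v → u / v ≤ L ^ 2 := by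
    intro u v hu hv hv0
    rw [div_le_iff₀ hv0]
    refine hu.trans ?_
    have : K * L = L ^ 2 * (K / L) := by field_simp
    rw [this]
    gcongr
  have lb : ∀ u v : ℝ, K / L ≤ u → v ≤ K * L → 0 < v → (L ^ 2)⁻¹ ≤ u / v := by
    intro u v hu hv hv0
    rw [le_div_iff₀ hv0]
    refine le_trans ?_ hu
    have : K / L = (L ^ 2)⁻¹ * (K * L) := by field_simp
    rw [this]
    gcongr
  have sq : ∀ u v w q : ℝ, K / L ≤ q → 0 < q → |w ^ 2 - u * v| ≤ L → |(w / q) ^ 2 - u / q * (v / q)| ≤ L ^ 3 / R := by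
    intro u v w q hq hq0 h
    have : (w / q) ^ 2 - u / q * (v / q) = (w ^ 2 - u * v) / q ^ 2 := by
      field_simp
    rw [this, abs_div, abs_of_pos (by positivity : 0 < q ^ 2), div_le_div_iff₀ (by positivity) hR0]
    calc |w ^ 2 - u * v| * R ≤ L * R := by gcongr
      _ ≤ L * K ^ 2 := by
        gcongr
        nlinarith
      _ = L ^ 3 * (K / L) ^ 2 := by field_simp
      _ ≤ L ^ 3 * q ^ 2 := by gcongr
  have hdir : ∀ a d m s x y p t : ℝ, K / L ≤ a → a ≤ K * L → K / L ≤ d → d ≤ K * L → K / L ≤ m → m ≤ K * L →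
      K / L ≤ x → x ≤ K * L → K / L ≤ y → y ≤ K * L → K / L ≤ p → p ≤ K * L → K / L ≤ s → s ≤ K * L →
      K / L ≤ t → t ≤ K * L → |m ^ 2 - a * d| ≤ L → |p ^ 2 - x * y| ≤ L → |a / s - x / t| ≤ L ^ 5 / R →
      |d / s - y / t| ≤ L ^ 5 / R → |a / m - x / p| ≤ 4 * L ^ 15 / R := by
    intro a d m s x y p t ha haK hd hdK hm hmK hx hxK hy hyK hp hpK hs hsK ht htK h hq h1 h2
    have ha0 : 0 < a := lt_of_lt_of_le hKL ha
    have hd0 : 0 < d := lt_of_lt_of_le hKL hd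
    have hm0 : 0 < m := lt_of_lt_of_le hKL hm
    have hx0 : 0 < x := lt_of_lt_of_le hKL hx
    have hy0 : 0 < y := lt_of_lt_of_le hKL hy
    have hp0 : 0 < p := lt_of_lt_of_le hKL hp
    have hs0 : 0 < s := lt_of_lt_of_le hKL hs
    have ht0 : 0 < t := lt_of_lt_of_le hKL ht
    have k := dir_lip (L := L) (η := L ^ 5 / R) (ε := L ^ 3 / R) (x := a / s) (y := d / s) (z := m / s)
      (x' := x / t) (y' := y / t) (z' := p / t) hL (by positivity) (by positivity) (by positivity)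
      (by positivity) (by positivity) (by positivity) (ub _ _ haK hs hs0) (ub _ _ hxK ht ht0)
      (ub _ _ hdK hs hs0) (ub _ _ hyK ht ht0) (lb _ _ hm hsK hs0) (lb _ _ hp htK ht0)
      (ub _ _ hmK hs hs0) (ub _ _ hpK ht ht0) (sq _ _ _ _ hs hs0 h) (sq _ _ _ _ ht ht0 hq) h1 h2
    have e1 : a / s / (m / s) = a / m := by field_simp
    have e2 : x / t / (p / t) = x / p := by field_simp
    rw [e1, e2] at k
    refine k.trans ?_
    have e3 : 2 * L ^ 10 * (L ^ 5 / R + L ^ 3 / R) = (2 * L ^ 15 + 2 * L ^ 13) / R := by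
      field_simp
    rw [e3]
    gcongr
    have : L ^ 13 ≤ L ^ 15 := pow_le_pow_right₀ hL (by norm_num)
    linarith
  have d1 := hdir a d m s x y p t ha haK hd hdK hm hmK hx hxK hy hyK hp hpK hs hsK ht htK h hq h1 h2
  have d2 := hdir d a m s y x p t hd hdK ha haK hm hmK hy hyK hx hxK hp hpK hs hsK ht htK
    (by rwa [mul_comm d a]) (by rwa [mul_comm y x]) h2 h1
  have bil : ∀ u v e f : ℝ, 0 ≤ u → u ≤ L ^ 2 → |u - v| ≤ 4 * L ^ 15 / R → |e - f| ≤ L ^ 2 → |f| ≤ L ^ 2 * R →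
      |u * e - v * f| ≤ 5 * L ^ 17 := by
    intro u v e f hu0 hu huv hef hf
    have : u * e - v * f = u * (e - f) + (u - v) * f := by ring
    rw [this]
    calc |u * (e - f) + (u - v) * f| ≤ |u * (e - f)| + |(u - v) * f| := abs_add_le _ _
      _ ≤ L ^ 2 * L ^ 2 + 4 * L ^ 15 / R * (L ^ 2 * R) := by
        rw [abs_mul, abs_mul, abs_of_nonneg hu0]
        gcongr
      _ = L ^ 4 + 4 * L ^ 17 := by field_simp
      _ ≤ 5 * L ^ 17 := by
        have : L ^ 4 ≤ L ^ 17 := pow_le_pow_right₀ hL (by norm_num)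
        linarith
  have b1 := bil (a / m) (x / p) (d' - d) (y' - y) (by positivity) (ub _ _ haK hm hm0) d1 h4 hdy
  have b2 := bil (d / m) (y / p) (a' - a) (x' - x) (by positivity) (ub _ _ hdK hm hm0) d2 h3 hdx
  have hpow : L ^ 11 ≤ L ^ 17 := pow_le_pow_right₀ hL (by norm_num)
  rw [abs_le] at k1 k2 b1 b2 ⊢
  constructor <;> linarith [k1.1, k1.2, k2.1, k2.2, b1.1, b1.2, b2.1, b2.2]

end Pool.Agent.HS.Cl
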