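import Mathlib

/-!
# PROJECT H* (MP_a54f13_nt), part (C'), module 2: finite counting lemmas
-/

set_option autoImplicit false

namespace Pool.Agent.HS.Cl

open Finset

/-- A set is at most (number of classes) times (number of vectors in a cube), when a vector valued injective
function varies by at most `W` on each class. -/
theorem card_le_class {σ κ : Type*} [DecidableEq κ] {k : ℕ} (S : Finset σ) (T : Finset κ)
    (cls : σ → κ) (f : σ → Fin k → ℤ) (W : ℕ) (hcls : ∀ x ∈ S, cls x ∈ T)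
    (hinj : ∀ x ∈ S, ∀ y ∈ S, f x = f y → x = y)
    (hW : ∀ x ∈ S, ∀ y ∈ S, cls x = cls y → ∀ i, |f x i - f y i| ≤ W) :
    S.card ≤ (2 * W + 1) ^ k * T.card := by
  classical
  refine Finset.card_le_mul_card_image_of_maps_to (f := cls) hcls _ ?_
  intro t ht
  rcases (S.filter (fun x => cls x = t)).eq_empty_or_nonempty with h0 | ⟨x0, hx0⟩
  · rw [h0, Finset.card_empty]; exact Nat.zero_le _
  · rw [Finset.mem_filter] at hx0
    have h1 : (S.filter (fun x => cls x = t)).card ≤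
        (Fintype.piFinset (fun i => Finset.Icc (f x0 i - W) (f x0 i + W))).card := by
      refine Finset.card_le_card_of_injOn f ?_ ?_
      · intro x hx
        have hx' := Finset.mem_filter.mp (Finset.mem_coe.mp hx)
        rw [Finset.mem_coe, Fintype.mem_piFinset]
        intro i
        rw [Finset.mem_Icc]
        have := hW x hx'.1 x0 hx0.1 (hx'.2.trans hx0.2.symm) i
        rw [abs_le] at this
        constructor <;> linarith [this.1, this.2]
      · intro x hx y hy hxy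
        have hx' := Finset.mem_filter.mp (Finset.mem_coe.mp hx)
        have hy' := Finset.mem_filter.mp (Finset.mem_coe.mp hy)
        exact hinj x hx'.1 y hy'.1 hxy
    refine h1.trans (le_of_eq ?_)
    rw [Fintype.card_piFinset]
    have h2 : ∀ i : Fin k, (Finset.Icc (f x0 i - (W : ℤ)) (f x0 i + W)).card = 2 * W + 1 := by
      intro i
      rw [Int.card_Icc]
      have : f x0 i + (W : ℤ) + 1 - (f x0 i - W) = ((2 * W + 1 : ℕ) : ℤ) := by push_cast; ring
      rw [this, Int.toNat_natCast]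
    rw [Finset.prod_congr rfl (fun i _ => h2 i), Finset.prod_const, Finset.card_univ, Fintype.card_fin]

/-- Cauchy-Schwarz for a partition into cells. -/
theorem sq_card_le {σ κ : Type*} [DecidableEq κ] (P : Finset σ) (T : Finset κ) (c : σ → κ)
    (h : ∀ x ∈ P, c x ∈ T) :
    P.card ^ 2 ≤ T.card * ((P ×ˢ P).filter (fun q => c q.1 = c q.2)).card := by
  classical
  have h1 : P.card = ∑ t ∈ T, (P.filter (fun x => c x = t)).card :=
    Finset.card_eq_sum_card_fiberwise h
  have h2 : ((P ×ˢ P).filter (fun q => c q.1 = c q.2)).card =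
      ∑ t ∈ T, ((P.filter (fun x => c x = t)).card) ^ 2 := by
    rw [Finset.card_eq_sum_card_fiberwise (f := fun q : σ × σ => c q.1) (t := T)]
    · refine Finset.sum_congr rfl fun t _ => ?_
      rw [sq, ← Finset.card_product]
      congr 1
      ext q
      simp only [Finset.mem_filter, Finset.mem_product]
      constructor
      · rintro ⟨⟨⟨h3, h4⟩, h5⟩, h6⟩
        exact ⟨⟨h3, h6⟩, ⟨h4, h5 ▸ h6⟩⟩
      · rintro ⟨⟨h3, h6⟩, ⟨h4, h7⟩⟩
        exact ⟨⟨⟨h3, h4⟩, h6.trans h7.symm⟩, h6⟩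
    · intro q hq
      have := Finset.mem_filter.mp (Finset.mem_coe.mp hq)
      exact h _ (Finset.mem_product.mp this.1).1
  rw [h1, h2]
  exact sq_sum_le_card_mul_sum_sq

/-- The number of cells. -/
theorem card_box {s : ℕ} (M N : ℤ) (c : ℝ) (hc : ((N + 1 - M : ℤ) : ℝ) ≤ c) (hc0 : 0 ≤ c) :
    ((Fintype.piFinset (fun _ : Fin s => Finset.Icc M N)).card : ℝ) ≤ c ^ s := by
  rw [Fintype.card_piFinset, Finset.prod_const, Finset.card_univ, Fintype.card_fin]
  push_cast
  gcongr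
  rw [Int.card_Icc]
  rcases le_total (N + 1 - M) 0 with h | h
  · rw [Int.toNat_of_nonpos h]; simpa using hc0
  · have : (((N + 1 - M).toNat : ℕ) : ℝ) = ((N + 1 - M : ℤ) : ℝ) := by
      exact_mod_cast Int.toNat_of_nonneg h
    rw [this]; exact hc

/-- The sum of the tails. -/
theorem sum_tail {s : ℕ} (hs : 1 ≤ s) {A c0 : ℝ} (hA : 0 ≤ A) (hc0 : 0 < c0) (n : ℕ) :
    ∑ c ∈ (Finset.range n).filter (fun c : ℕ => 1 ≤ c ∧ c0 ≤ (c : ℝ)), (A / (c : ℝ)) ^ (2 * s + 1) ≤
      2 * A ^ (2 * s + 1) / c0 ^ (2 * s) := by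
  set k0 : ℕ := ⌈c0⌉₊ - 1 with hk0
  have hk : 1 ≤ ⌈c0⌉₊ := Nat.one_le_iff_ne_zero.mpr (Nat.ceil_pos.mpr hc0).ne'
  have hk1 : c0 ≤ (k0 : ℝ) + 1 := by
    have : ((k0 : ℝ) + 1) = (⌈c0⌉₊ : ℝ) := by
      rw [hk0]; exact_mod_cast Nat.sub_add_cancel hk
    rw [this]; exact Nat.le_ceil _
  have h1 : ∀ c ∈ (Finset.range n).filter (fun c : ℕ => 1 ≤ c ∧ c0 ≤ (c : ℝ)),
      (A / (c : ℝ)) ^ (2 * s + 1) ≤ A ^ (2 * s + 1) / c0 ^ (2 * s - 1) * ((c : ℝ) ^ 2)⁻¹ := by
    intro c hc
    rw [Finset.mem_filter] at hc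
    have hc1 : (0 : ℝ) < c := lt_of_lt_of_le hc0 hc.2.2
    rw [div_pow, div_mul_eq_mul_div, ← div_eq_mul_inv, div_div]
    have h2 : (c : ℝ) ^ (2 * s + 1) = (c : ℝ) ^ (2 * s - 1) * (c : ℝ) ^ 2 := by
      rw [← pow_add]; congr 1; omega
    rw [h2]
    have h3 : c0 ^ (2 * s - 1) ≤ (c : ℝ) ^ (2 * s - 1) := by
      gcongr; exact hc.2.2
    rw [mul_comm ((c : ℝ) ^ 2) (c0 ^ (2 * s - 1))]
    gcongr
  refine (Finset.sum_le_sum h1).trans ?_
  rw [← Finset.mul_sum]
  have h4 : ∑ c ∈ (Finset.range n).filter (fun c : ℕ => 1 ≤ c ∧ c0 ≤ (c : ℝ)), ((c : ℝ) ^ 2)⁻¹ ≤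
      ∑ c ∈ Finset.Ioo k0 n, ((c : ℝ) ^ 2)⁻¹ := by
    refine Finset.sum_le_sum_of_subset_of_nonneg ?_ (fun _ _ _ => by positivity)
    intro c hc
    rw [Finset.mem_filter, Finset.mem_range] at hc
    rw [Finset.mem_Ioo]
    refine ⟨?_, hc.1⟩
    have : ⌈c0⌉₊ ≤ c := Nat.ceil_le.mpr hc.2.2
    omega
  have h5 : ∑ c ∈ Finset.Ioo k0 n, ((c : ℝ) ^ 2)⁻¹ ≤ 2 / ((k0 : ℝ) + 1) := sum_Ioo_inv_sq_le k0 n
  have h6 : 2 / ((k0 : ℝ) + 1) ≤ 2 / c0 := by gcongr
  calc A ^ (2 * s + 1) / c0 ^ (2 * s - 1) *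
        ∑ c ∈ (Finset.range n).filter (fun c : ℕ => 1 ≤ c ∧ c0 ≤ (c : ℝ)), ((c : ℝ) ^ 2)⁻¹
      ≤ A ^ (2 * s + 1) / c0 ^ (2 * s - 1) * (2 / c0) := by
        have : 0 ≤ A ^ (2 * s + 1) / c0 ^ (2 * s - 1) := by positivity
        exact mul_le_mul_of_nonneg_left ((h4.trans h5).trans h6) this
    _ = 2 * A ^ (2 * s + 1) / c0 ^ (2 * s) := by
        have h7 : c0 ^ (2 * s) = c0 ^ (2 * s - 1) * c0 := by
          rw [← pow_succ]; congr 1; omega
        rw [h7]
        field_simp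

/-- Two vectors which are proportional and close to each other are equal, if the content is small. -/
theorem eq_of_prop {k : ℕ} (m m' : Fin k → ℤ) (hm : ∀ i, 0 < m i) (hm' : ∀ i, 0 < m' i) {s t : ℤ}
    (hs : 0 < s) (ht : 0 < t) (h : ∀ i, s * m i = t * m' i) (B : ℤ)
    (hB : ∀ i, |m' i - m i| ≤ B) (i0 : Fin k) (hg : Finset.univ.gcd m * B < m i0) : m = m' := by
  set g := Finset.univ.gcd m with hg0
  set g' := Finset.univ.gcd m' with hg0'
  have hgnn : 0 ≤ g := by
    rw [hg0, ← Finset.normalize_gcd]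
    exact Int.nonneg_of_normalize_eq_self (by simp)
  have hgnn' : 0 ≤ g' := by
    rw [hg0', ← Finset.normalize_gcd]
    exact Int.nonneg_of_normalize_eq_self (by simp)
  have e1 : s * g = t * g' := by
    have h1 : Finset.univ.gcd (fun i => s * m i) = normalize s * g := Finset.gcd_mul_left
    have h2 : Finset.univ.gcd (fun i => t * m' i) = normalize t * g' := Finset.gcd_mul_left
    rw [Int.normalize_of_nonneg hs.le] at h1
    rw [Int.normalize_of_nonneg ht.le] at h2
    rw [← h1, ← h2]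
    congr 1
    funext i
    exact h i
  have e2 : ∀ i, m i * g' = m' i * g := by
    intro i
    have h3 : t * (m i * g') = t * (m' i * g) := by
      calc t * (m i * g') = m i * (t * g') := by ring
        _ = m i * (s * g) := by rw [e1]
        _ = (s * m i) * g := by ring
        _ = (t * m' i) * g := by rw [h i]
        _ = t * (m' i * g) := by ring
    exact mul_left_cancel₀ ht.ne' h3
  have hgpos : 0 < g := by
    rcases hgnn.lt_or_eq with h4 | h4
    · exact h4
    · exfalso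
      have h5 : g ∣ m i0 := Finset.gcd_dvd (Finset.mem_univ i0)
      rw [← h4] at h5
      have := hm i0
      rw [zero_dvd_iff] at h5
      omega
  have e3 : g = g' := by
    by_contra hne
    have h6 : (m' i0 - m i0) * g = m i0 * (g' - g) := by linear_combination -(e2 i0)
    have h7 : m i0 ≤ |m' i0 - m i0| * g := by
      have h8 : |m' i0 - m i0| * g = m i0 * |g' - g| := by
        rw [← abs_of_pos hgpos, ← abs_mul, h6, abs_mul, abs_of_pos (hm i0), abs_of_pos hgpos]
      rw [h8]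
      have h9 : 1 ≤ |g' - g| := Int.one_le_abs (sub_ne_zero.mpr (Ne.symm hne))
      have := hm i0
      nlinarith
    have h10 : |m' i0 - m i0| * g ≤ B * g := mul_le_mul_of_nonneg_right (hB i0) hgpos.le
    have h11 : g * B = B * g := mul_comm _ _
    omega
  funext i
  have h12 := e2 i
  rw [← e3] at h12
  exact mul_right_cancel₀ hgpos.ne' h12

end Pool.Agent.HS.Cl
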