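import Pool.Agent.Lib.HS.Cl2

/-!
# PROJECT H* (MP_a54f13_nt), part (C'), module 3: two pairs of the same class have close differences

`m i ^ 2` is a fixed linear combination of the squares of the base coordinates `m (b j)`.
-/

set_option autoImplicit false

namespace Pool.Agent.HS.Cl

open Finset

/-- The last coordinate is controlled by the others and one linear form. -/
theorem last_le {s : ℕ} {L e : ℝ} (hL : (s : ℝ) + 3 ≤ L) (he : 0 ≤ e) (c : Fin (s + 2) → ℤ)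
    (hc : ∀ j, |(c j : ℝ)| ≤ L) (hc0 : c (Fin.last (s + 1)) ≠ 0) (x : Fin (s + 2) → ℝ)
    (hx : ∀ j : Fin (s + 1), |x j.castSucc| ≤ e) (hl : |∑ j, (c j : ℝ) * x j| ≤ e) :
    ∀ j, |x j| ≤ L ^ 2 * e := by
  have hs : (0 : ℝ) ≤ s := Nat.cast_nonneg s
  have hL1 : 1 ≤ L := by linarith
  have hLe : e ≤ L ^ 2 * e := by
    have : 1 ≤ L ^ 2 := one_le_pow₀ hL1
    nlinarith
  intro j
  refine Fin.lastCases ?_ (fun j => (hx j).trans hLe) j
  rw [Fin.sum_univ_castSucc] at hl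
  have h1 : |(c (Fin.last (s + 1)) : ℝ) * x (Fin.last (s + 1))| ≤ L ^ 2 * e := by
    have h2 : (c (Fin.last (s + 1)) : ℝ) * x (Fin.last (s + 1)) =
        ((∑ j : Fin (s + 1), (c j.castSucc : ℝ) * x j.castSucc) +
          (c (Fin.last (s + 1)) : ℝ) * x (Fin.last (s + 1))) -
        ∑ j : Fin (s + 1), (c j.castSucc : ℝ) * x j.castSucc := by ring
    have h3 : |∑ j : Fin (s + 1), (c j.castSucc : ℝ) * x j.castSucc| ≤ ((s : ℝ) + 1) * (L * e) := by
      refine (Finset.abs_sum_le_sum_abs _ _).trans ?_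
      have h4 : ∀ j ∈ (Finset.univ : Finset (Fin (s + 1))), |(c j.castSucc : ℝ) * x j.castSucc| ≤ L * e := by
        intro j _
        rw [abs_mul]
        exact mul_le_mul (hc _) (hx j) (abs_nonneg _) (by linarith)
      refine (Finset.sum_le_card_nsmul _ _ _ h4).trans ?_
      rw [Finset.card_univ, Fintype.card_fin, nsmul_eq_mul]
      push_cast
      exact le_rfl
    rw [h2]
    refine (abs_sub _ _).trans ?_
    have h5 : e + ((s : ℝ) + 1) * (L * e) ≤ L ^ 2 * e := by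
      have h6 : 1 + ((s : ℝ) + 1) * L ≤ L ^ 2 := by nlinarith
      calc e + ((s : ℝ) + 1) * (L * e) = (1 + ((s : ℝ) + 1) * L) * e := by ring
        _ ≤ L ^ 2 * e := by gcongr
    linarith
  rw [abs_mul] at h1
  have h7 : (1 : ℝ) ≤ |(c (Fin.last (s + 1)) : ℝ)| := by
    rw [← Int.cast_abs]
    exact_mod_cast Int.one_le_abs hc0
  have h8 : |x (Fin.last (s + 1))| ≤ |(c (Fin.last (s + 1)) : ℝ)| * |x (Fin.last (s + 1))| := by
    have := abs_nonneg (x (Fin.last (s + 1)))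
    nlinarith
  exact h8.trans h1

/-- Bounds for one vector of real numbers. -/
def Bd {s k : ℕ} (K L : ℝ) (al : Fin k → Fin (s + 2) → ℝ) (b : Fin (s + 2) → Fin k) (m : Fin k → ℝ) : Prop :=
  ∀ i, K / L ≤ m i ∧ m i ≤ K * L ∧ m i ^ 2 = ∑ j, al i j * m (b j) ^ 2

theorem sum_le {s : ℕ} {L : ℝ} (hL : (s : ℝ) + 3 ≤ L) (f : Fin (s + 2) → ℝ) {e : ℝ} (he : 0 ≤ e)
    (h : ∀ j, |f j| ≤ e) : |∑ j, f j| ≤ L * e := by
  refine (Finset.abs_sum_le_sum_abs _ _).trans ?_
  refine (Finset.sum_le_card_nsmul _ _ _ (fun j _ => h j)).trans ?_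
  rw [Finset.card_univ, Fintype.card_fin, nsmul_eq_mul]
  push_cast
  gcongr
  linarith

variable {s k : ℕ}

theorem v_le2 {K L R : ℝ} (hL : (s : ℝ) + 3 ≤ L) (hK : 0 < K) (hR : 1 ≤ R)
    {al : Fin k → Fin (s + 2) → ℝ} (hal : ∀ i j, |al i j| ≤ L) {b : Fin (s + 2) → Fin k} {m m' : Fin k → ℝ}
    (hm : Bd K L al b m) (hm' : Bd K L al b m') (hv : ∀ j, |m' (b j) - m (b j)| ≤ L ^ 2 * R) (i : Fin k) :
    |m' i - m i| ≤ L ^ 6 * R := by
  have hs : (0 : ℝ) ≤ s := Nat.cast_nonneg s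
  have hL0 : 0 < L := by linarith
  have h1 : m' i ^ 2 - m i ^ 2 = ∑ j, al i j * (m' (b j) ^ 2 - m (b j) ^ 2) := by
    rw [(hm i).2.2, (hm' i).2.2, ← Finset.sum_sub_distrib]
    exact Finset.sum_congr rfl fun j _ => by ring
  have h2 : ∀ j, |al i j * (m' (b j) ^ 2 - m (b j) ^ 2)| ≤ L * ((L ^ 2 * R) * (2 * (K * L))) := by
    intro j
    rw [abs_mul]
    have h3 : m' (b j) ^ 2 - m (b j) ^ 2 = (m' (b j) - m (b j)) * (m' (b j) + m (b j)) := by ring
    have h4 : |m' (b j) + m (b j)| ≤ 2 * (K * L) := by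
      have h5 : 0 ≤ K / L := by positivity
      have h6 := (hm (b j)).1
      have h7 := (hm' (b j)).1
      rw [abs_of_nonneg (by linarith)]
      linarith [(hm (b j)).2.1, (hm' (b j)).2.1]
    rw [h3, abs_mul]
    gcongr
    · exact hal i j
    · exact hv j
  have h3 := sum_le hL _ (by positivity) h2
  rw [← h1] at h3
  have h5 : 0 < K / L := by positivity
  have h6 := (hm i).1
  have h7 := (hm' i).1
  have h8 : |m' i - m i| * (2 * (K / L)) ≤ |m' i ^ 2 - m i ^ 2| := by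
    have h9 : m' i ^ 2 - m i ^ 2 = (m' i - m i) * (m' i + m i) := by ring
    rw [h9, abs_mul, abs_of_nonneg (by linarith : 0 ≤ m' i + m i)]
    gcongr
    linarith
  have h10 := h8.trans h3
  have h11 : L * (L * (L ^ 2 * R * (2 * (K * L)))) = (L ^ 6 * R) * (2 * (K / L)) := by
    field_simp
  rw [h11] at h10
  exact le_of_mul_le_mul_right h10 (by positivity)

theorem v_lin2 {K L R : ℝ} (hL : (s : ℝ) + 3 ≤ L) (hR : 1 ≤ R) (hRK : R ^ 2 ≤ K)
    {al : Fin k → Fin (s + 2) → ℝ} (hal : ∀ i j, |al i j| ≤ L) {b : Fin (s + 2) → Fin k} {m m' : Fin k → ℝ}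
    (hm : Bd K L al b m) (hm' : Bd K L al b m') (hv : ∀ j, |m' (b j) - m (b j)| ≤ L ^ 2 * R) (i : Fin k) :
    |(m' i - m i) - ∑ j, al i j * (m' (b j) - m (b j)) * (m (b j) / m i)| ≤ L ^ 13 := by
  have hs : (0 : ℝ) ≤ s := Nat.cast_nonneg s
  have hL0 : 0 < L := by linarith
  have hL1 : 1 ≤ L := by linarith
  have hK : 1 ≤ K := le_trans (by nlinarith) hRK
  have hK0 : 0 < K := by linarith
  have hmi : 0 < m i := lt_of_lt_of_le (by positivity) (hm i).1
  have hvi := v_le2 hL hK0 hR hal hm hm' hv i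
  have h1 : (m' i - m i) - ∑ j, al i j * (m' (b j) - m (b j)) * (m (b j) / m i) =
      (∑ j, al i j * (m' (b j) - m (b j)) ^ 2 - (m' i - m i) ^ 2) / (2 * m i) := by
    rw [eq_div_iff (by positivity), sub_mul, Finset.sum_mul]
    have h2 : ∑ j, al i j * (m' (b j) - m (b j)) * (m (b j) / m i) * (2 * m i) =
        ∑ j, al i j * (2 * (m' (b j) - m (b j)) * m (b j)) := by
      refine Finset.sum_congr rfl fun j _ => ?_
      field_simp
    rw [h2]
    have h3 : (m' i - m i) * (2 * m i) + (m' i - m i) ^ 2 = ∑ j, al i j * (m' (b j) ^ 2 - m (b j) ^ 2) := by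
      have h4 : (m' i - m i) * (2 * m i) + (m' i - m i) ^ 2 = m' i ^ 2 - m i ^ 2 := by ring
      rw [h4, (hm i).2.2, (hm' i).2.2, ← Finset.sum_sub_distrib]
      exact Finset.sum_congr rfl fun j _ => by ring
    have h5 : ∑ j, al i j * (m' (b j) ^ 2 - m (b j) ^ 2) =
        ∑ j, al i j * (2 * (m' (b j) - m (b j)) * m (b j)) + ∑ j, al i j * (m' (b j) - m (b j)) ^ 2 := by
      rw [← Finset.sum_add_distrib]
      exact Finset.sum_congr rfl fun j _ => by ring
    linarith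
  rw [h1, abs_div, abs_of_pos (by positivity : 0 < 2 * m i), div_le_iff₀ (by positivity)]
  have h6 : |∑ j, al i j * (m' (b j) - m (b j)) ^ 2| ≤ L * (L * (L ^ 2 * R) ^ 2) := by
    refine sum_le hL _ (by positivity) fun j => ?_
    rw [abs_mul, abs_of_nonneg (sq_nonneg (m' (b j) - m (b j)))]
    have h7 : (m' (b j) - m (b j)) ^ 2 ≤ (L ^ 2 * R) ^ 2 := by
      rw [← sq_abs]; gcongr; exact hv j
    gcongr
    exact hal i j
  have h8 : (m' i - m i) ^ 2 ≤ (L ^ 6 * R) ^ 2 := by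
    rw [← sq_abs]; gcongr
  have h9 : L * (L * (L ^ 2 * R) ^ 2) ≤ L ^ 12 * K := by
    calc L * (L * (L ^ 2 * R) ^ 2) = L ^ 6 * R ^ 2 := by ring
      _ ≤ L ^ 12 * K := by
        gcongr
        norm_num
  have h10 : (L ^ 6 * R) ^ 2 ≤ L ^ 12 * K := by
    calc (L ^ 6 * R) ^ 2 = L ^ 12 * R ^ 2 := by ring
      _ ≤ L ^ 12 * K := by gcongr
  have h11 : |∑ j, al i j * (m' (b j) - m (b j)) ^ 2 - (m' i - m i) ^ 2| ≤ 2 * (L ^ 12 * K) := by
    refine (abs_sub _ _).trans ?_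
    rw [abs_of_nonneg (sq_nonneg (m' i - m i))]
    linarith
  refine h11.trans ?_
  have h12 : K ≤ m i * L := by
    have := (hm i).1
    rwa [div_le_iff₀ hL0] at this
  calc 2 * (L ^ 12 * K) ≤ 2 * (L ^ 12 * (m i * L)) := by gcongr
    _ = L ^ 13 * (2 * m i) := by ring

/-- The ratios are Lipschitz functions of the ratios of the base coordinates. -/
theorem ratio_lip {K L R : ℝ} (hL : (s : ℝ) + 3 ≤ L) (hR : 0 < R) (hK : 0 < K)
    {al : Fin k → Fin (s + 2) → ℝ} (hal : ∀ i j, |al i j| ≤ L) {b : Fin (s + 2) → Fin k} {m l : Fin k → ℝ}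
    (hm : Bd K L al b m) (hl : Bd K L al b l)
    (hr : ∀ j, |m (b j) / m (b 0) - l (b j) / l (b 0)| ≤ L ^ 2 / R) (i : Fin k) (j : Fin (s + 2)) :
    |m (b j) / m i - l (b j) / l i| ≤ 2 * L ^ 14 / R := by
  have hs : (0 : ℝ) ≤ s := Nat.cast_nonneg s
  have hL0 : 0 < L := by linarith
  have hL1 : 1 ≤ L := by linarith
  have hKL : 0 < K / L := by positivity
  have mpos : ∀ i, 0 < m i := fun i => lt_of_lt_of_le hKL (hm i).1
  have lpos : ∀ i, 0 < l i := fun i => lt_of_lt_of_le hKL (hl i).1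
  have ub : ∀ u v : ℝ, u ≤ K * L → K / L ≤ v → 0 < v → u / v ≤ L ^ 2 := by
    intro u v hu hv hv0
    rw [div_le_iff₀ hv0]
    refine hu.trans ?_
    have : K * L = L ^ 2 * (K / L) := by field_simp
    rw [this]
    gcongr
  have lb : ∀ u v : ℝ, K / L ≤ u → v ≤ K * L → 0 < v → (L ^ 2)⁻¹ ≤ u / v := by
    intro u v hu hv hv0
    rw [le_div_iff₀ hv0]
    refine le_trans ?_ hu
    have : K / L = (L ^ 2)⁻¹ * (K * L) := by field_simp
    rw [this]
    gcongr
  set z := m i / m (b 0) with hz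
  set z' := l i / l (b 0) with hz'
  have hz0 : (L ^ 2)⁻¹ ≤ z := lb _ _ (hm i).1 (hm (b 0)).2.1 (mpos _)
  have hz'0 : (L ^ 2)⁻¹ ≤ z' := lb _ _ (hl i).1 (hl (b 0)).2.1 (lpos _)
  have hzp : 0 < z := lt_of_lt_of_le (by positivity) hz0
  have hz'p : 0 < z' := lt_of_lt_of_le (by positivity) hz'0
  have hz'L : z' ≤ L ^ 2 := ub _ _ (hl i).2.1 (hl (b 0)).1 (lpos _)
  have e1 : |z ^ 2 - z' ^ 2| ≤ L * (L * (L ^ 2 / R * (2 * L ^ 2))) := by
    have h1 : z ^ 2 - z' ^ 2 = ∑ j, al i j * ((m (b j) / m (b 0)) ^ 2 - (l (b j) / l (b 0)) ^ 2) := by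
      rw [hz, hz', div_pow, div_pow, (hm i).2.2, (hl i).2.2, Finset.sum_div, Finset.sum_div,
        ← Finset.sum_sub_distrib]
      refine Finset.sum_congr rfl fun j _ => ?_
      rw [div_pow, div_pow]; ring
    rw [h1]
    refine sum_le hL _ (by positivity) fun j => ?_
    have h2 : (m (b j) / m (b 0)) ^ 2 - (l (b j) / l (b 0)) ^ 2 =
        (m (b j) / m (b 0) - l (b j) / l (b 0)) * (m (b j) / m (b 0) + l (b j) / l (b 0)) := by ring
    rw [abs_mul, h2, abs_mul]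
    have h3 : |m (b j) / m (b 0) + l (b j) / l (b 0)| ≤ 2 * L ^ 2 := by
      have h4 := ub _ _ (hm (b j)).2.1 (hm (b 0)).1 (mpos _)
      have h5 := ub _ _ (hl (b j)).2.1 (hl (b 0)).1 (lpos _)
      have h6 : 0 < m (b j) / m (b 0) := div_pos (mpos _) (mpos _)
      have h7 : 0 < l (b j) / l (b 0) := div_pos (lpos _) (lpos _)
      rw [abs_of_pos (by linarith)]
      linarith
    gcongr
    · exact hal i j
    · exact hr j
  have e2 : |z - z'| ≤ L ^ 8 / R := by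
    have h1 : |z - z'| * (2 * (L ^ 2)⁻¹) ≤ |z ^ 2 - z' ^ 2| := by
      have h2 : z ^ 2 - z' ^ 2 = (z - z') * (z + z') := by ring
      rw [h2, abs_mul, abs_of_pos (by positivity : 0 < z + z')]
      gcongr
      linarith
    have h3 := h1.trans e1
    have h4 : L * (L * (L ^ 2 / R * (2 * L ^ 2))) = L ^ 8 / R * (2 * (L ^ 2)⁻¹) := by field_simp
    rw [h4] at h3
    exact le_of_mul_le_mul_right h3 (by positivity)
  set x := m (b j) / m (b 0) with hx
  set x' := l (b j) / l (b 0) with hx'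
  have hx'p : 0 < x' := div_pos (lpos _) (lpos _)
  have hx'L : x' ≤ L ^ 2 := ub _ _ (hl (b j)).2.1 (hl (b 0)).1 (lpos _)
  have f1 : m (b j) / m i = x / z := by
    rw [hx, hz]
    have := mpos (b 0)
    have := mpos i
    field_simp
  have f2 : l (b j) / l i = x' / z' := by
    rw [hx', hz']
    have := lpos (b 0)
    have := lpos i
    field_simp
  rw [f1, f2]
  have e3 : x / z - x' / z' = ((x - x') * z' + x' * (z' - z)) / (z * z') := by
    field_simp
    ring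
  have e4 : (L ^ 4)⁻¹ ≤ z * z' := by
    calc (L ^ 4)⁻¹ = (L ^ 2)⁻¹ * (L ^ 2)⁻¹ := by
          rw [← mul_inv]; congr 1; ring
      _ ≤ z * z' := by gcongr
  have e5 : |(x - x') * z' + x' * (z' - z)| ≤ 2 * L ^ 10 / R := by
    have h1 : |(x - x') * z'| ≤ L ^ 2 / R * L ^ 2 := by
      rw [abs_mul, abs_of_pos hz'p]
      have := hr j
      gcongr
    have h2 : |x' * (z' - z)| ≤ L ^ 2 * (L ^ 8 / R) := by
      rw [abs_mul, abs_of_pos hx'p, abs_sub_comm]
      gcongr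
    have h3 : L ^ 2 / R * L ^ 2 ≤ L ^ 10 / R := by
      have h4 : L ^ 2 / R * L ^ 2 = L ^ 4 / R := by ring
      rw [h4]
      gcongr
      norm_num
    calc |(x - x') * z' + x' * (z' - z)| ≤ |(x - x') * z'| + |x' * (z' - z)| := abs_add_le _ _
      _ ≤ L ^ 10 / R + L ^ 2 * (L ^ 8 / R) := by linarith
      _ = 2 * L ^ 10 / R := by ring
  rw [e3, abs_div, abs_of_pos (by positivity : 0 < z * z'), div_le_iff₀ (by positivity)]
  refine e5.trans ?_
  have : 2 * L ^ 10 / R = 2 * L ^ 14 / R * (L ^ 4)⁻¹ := by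
    field_simp
  rw [this]
  gcongr

/-- Two pairs of the same class have close differences. -/
theorem close {K L R : ℝ} (hL : (s : ℝ) + 3 ≤ L) (hR : 1 ≤ R) (hRK : R ^ 2 ≤ K)
    {al : Fin k → Fin (s + 2) → ℝ} (hal : ∀ i j, |al i j| ≤ L) {b : Fin (s + 2) → Fin k}
    {m m' l l' : Fin k → ℝ}
    (hm : Bd K L al b m) (hm' : Bd K L al b m') (hl : Bd K L al b l) (hl' : Bd K L al b l')
    (hv : ∀ j, |m' (b j) - m (b j)| ≤ L ^ 2 * R) (hvv : ∀ j, m' (b j) - m (b j) = l' (b j) - l (b j))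
    (hr : ∀ j, |m (b j) / m (b 0) - l (b j) / l (b 0)| ≤ L ^ 2 / R) (i : Fin k) :
    |(m' i - m i) - (l' i - l i)| ≤ 4 * L ^ 18 := by
  have hs : (0 : ℝ) ≤ s := Nat.cast_nonneg s
  have hL0 : 0 < L := by linarith
  have hL1 : 1 ≤ L := by linarith
  have hK : 1 ≤ K := le_trans (by nlinarith) hRK
  have hK0 : 0 < K := by linarith
  have hR0 : 0 < R := by linarith
  have hv' : ∀ j, |l' (b j) - l (b j)| ≤ L ^ 2 * R := fun j => by rw [← hvv j]; exact hv j
  have k1 := v_lin2 hL hR hRK hal hm hm' hv i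
  have k2 := v_lin2 hL hR hRK hal hl hl' hv' i
  have k3 : |∑ j, al i j * (m' (b j) - m (b j)) * (m (b j) / m i) -
      ∑ j, al i j * (l' (b j) - l (b j)) * (l (b j) / l i)| ≤ L * (L * (L ^ 2 * R) * (2 * L ^ 14 / R)) := by
    rw [← Finset.sum_sub_distrib]
    refine sum_le hL _ (by positivity) fun j => ?_
    have h1 : al i j * (m' (b j) - m (b j)) * (m (b j) / m i) - al i j * (l' (b j) - l (b j)) * (l (b j) / l i) =
        al i j * (m' (b j) - m (b j)) * (m (b j) / m i - l (b j) / l i) := by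
      rw [← hvv j]; ring
    rw [h1, abs_mul, abs_mul]
    have h2 := ratio_lip hL hR0 hK0 hal hm hl hr i j
    have h3 := hal i j
    have h4 := hv j
    gcongr
  have k4 : L * (L * (L ^ 2 * R) * (2 * L ^ 14 / R)) = 2 * L ^ 18 := by
    field_simp
  rw [k4] at k3
  have k5 : L ^ 13 ≤ L ^ 18 := pow_le_pow_right₀ hL1 (by norm_num)
  rw [abs_le] at k1 k2 k3 ⊢
  constructor <;> linarith [k1.1, k1.2, k2.1, k2.2, k3.1, k3.2]

end Pool.Agent.HS.Cl
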