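import Pool.Agent.Lib.HS.Cl3

/-!
# PROJECT H* (MP_a54f13_nt), part (C'), module 4: the cell theorem with a slab

A finite set of integral vectors whose squares satisfy fixed linear relations and whose differences are pairwise
distinct is small.
-/

set_option autoImplicit false

namespace Pool.Agent.HS.Cl

open Finset

variable {s k : ℕ}

/-- The linear form which defines the slab. -/
def ell (b : Fin (s + 2) → Fin k) (c : Fin (s + 2) → ℤ) (m : Fin k → ℤ) : ℤ := ∑ j, c j * m (b j)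

/-- Admissible vectors: size, quadratic relations, slab. -/
def Adm (K L La : ℝ) (al : Fin k → Fin (s + 2) → ℝ) (b : Fin (s + 2) → Fin k) (c : Fin (s + 2) → ℤ)
    (m : Fin k → ℤ) : Prop :=
  (∀ i, K / L ≤ (m i : ℝ) ∧ (m i : ℝ) ≤ K * L ∧ (m i : ℝ) ^ 2 = ∑ j, al i j * (m (b j) : ℝ) ^ 2) ∧
    |(ell b c m : ℝ)| ≤ La

/-- The cell of a vector. -/
noncomputable def cell (R : ℝ) (b : Fin (s + 2) → Fin k) (c : Fin (s + 2) → ℤ) (m : Fin k → ℤ) :
    (Fin (s + 1) → ℤ) × ℤ :=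
  (fun j => ⌊(m (b j.castSucc) : ℝ) / R⌋, ⌊(ell b c m : ℝ) / R⌋)

/-- The class of a pair. -/
noncomputable def cls (R : ℝ) (b : Fin (s + 2) → Fin k) (c : Fin (s + 2) → ℤ)
    (q : (Fin k → ℤ) × (Fin k → ℤ)) : (Fin (s + 1) → ℤ) × ℤ × (Fin s → ℤ) × ℤ :=
  (fun j => q.2 (b j.castSucc) - q.1 (b j.castSucc), ell b c q.2 - ell b c q.1,
    fun j => ⌊R * ((q.1 (b j.succ.castSucc) : ℝ) / (q.1 (b 0) : ℝ))⌋,
    ⌊R * ((ell b c q.1 : ℝ) / (q.1 (b 0) : ℝ))⌋)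

theorem abs_le_of_floor {R x y : ℝ} (hR : 0 < R) (h : ⌊x / R⌋ = ⌊y / R⌋) : |y - x| ≤ R := by
  have h1 := Int.abs_sub_lt_one_of_floor_eq_floor h
  have h2 : x / R - y / R = (x - y) / R := by ring
  rw [h2, abs_div, abs_of_pos hR, div_lt_one hR, abs_sub_comm] at h1
  exact h1.le

theorem abs_le_of_floor' {R x y : ℝ} (hR : 0 < R) (h : ⌊R * x⌋ = ⌊R * y⌋) : |x - y| ≤ 1 / R := by
  have h1 := Int.abs_sub_lt_one_of_floor_eq_floor h
  have h2 : R * x - R * y = R * (x - y) := by ring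
  rw [h2, abs_mul, abs_of_pos hR] at h1
  rw [le_div_iff₀ hR]
  linarith

theorem ell_cast (b : Fin (s + 2) → Fin k) (c : Fin (s + 2) → ℤ) (m : Fin k → ℤ) :
    (ell b c m : ℝ) = ∑ j, (c j : ℝ) * (m (b j) : ℝ) := by
  unfold ell; push_cast; rfl

theorem cell_diff {L R : ℝ} (hL : (s : ℝ) + 3 ≤ L) (hR : 1 ≤ R) {b : Fin (s + 2) → Fin k}
    {c : Fin (s + 2) → ℤ} (hc : ∀ j, |(c j : ℝ)| ≤ L) (hc0 : c (Fin.last (s + 1)) ≠ 0)
    {m m' : Fin k → ℤ} (h : cell R b c m = cell R b c m') :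
    (∀ j : Fin (s + 1), |(m' (b j.castSucc) : ℝ) - (m (b j.castSucc) : ℝ)| ≤ R) ∧
    |(ell b c m' : ℝ) - (ell b c m : ℝ)| ≤ R ∧
    ∀ j, |(m' (b j) : ℝ) - (m (b j) : ℝ)| ≤ L ^ 2 * R := by
  have hR0 : 0 < R := by linarith
  have h1 : ∀ j : Fin (s + 1), |(m' (b j.castSucc) : ℝ) - (m (b j.castSucc) : ℝ)| ≤ R := fun j =>
    abs_le_of_floor hR0 (congrFun (congrArg Prod.fst h) j)
  have h2 : |(ell b c m' : ℝ) - (ell b c m : ℝ)| ≤ R := abs_le_of_floor hR0 (congrArg Prod.snd h)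
  refine ⟨h1, h2, ?_⟩
  refine last_le hL hR0.le c hc hc0 (fun j => (m' (b j) : ℝ) - (m (b j) : ℝ)) h1 ?_
  have h3 : ∑ j, (c j : ℝ) * ((m' (b j) : ℝ) - (m (b j) : ℝ)) = (ell b c m' : ℝ) - (ell b c m : ℝ) := by
    rw [ell_cast, ell_cast, ← Finset.sum_sub_distrib]
    exact Finset.sum_congr rfl fun j _ => by ring
  rw [h3]; exact h2

theorem cls_diff {L R : ℝ} (hL : (s : ℝ) + 3 ≤ L) (hR : 1 ≤ R) {b : Fin (s + 2) → Fin k}
    {c : Fin (s + 2) → ℤ} (hc : ∀ j, |(c j : ℝ)| ≤ L) (hc0 : c (Fin.last (s + 1)) ≠ 0)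
    {q r : (Fin k → ℤ) × (Fin k → ℤ)} (hq : (q.1 (b 0) : ℝ) ≠ 0) (hr : (r.1 (b 0) : ℝ) ≠ 0)
    (h : cls R b c q = cls R b c r) :
    (∀ j, (q.2 (b j) : ℝ) - (q.1 (b j) : ℝ) = (r.2 (b j) : ℝ) - (r.1 (b j) : ℝ)) ∧
    ∀ j, |(q.1 (b j) : ℝ) / (q.1 (b 0) : ℝ) - (r.1 (b j) : ℝ) / (r.1 (b 0) : ℝ)| ≤ L ^ 2 / R := by
  have hR0 : 0 < R := by linarith
  have h1 : ∀ j : Fin (s + 1), q.2 (b j.castSucc) - q.1 (b j.castSucc) =
      r.2 (b j.castSucc) - r.1 (b j.castSucc) := fun j => congrFun (congrArg Prod.fst h) j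
  have h2 : ell b c q.2 - ell b c q.1 = ell b c r.2 - ell b c r.1 :=
    congrArg (fun x => x.2.1) h
  have h3 : ∀ j : Fin s, ⌊R * ((q.1 (b j.succ.castSucc) : ℝ) / (q.1 (b 0) : ℝ))⌋ =
      ⌊R * ((r.1 (b j.succ.castSucc) : ℝ) / (r.1 (b 0) : ℝ))⌋ := fun j =>
    congrFun (congrArg (fun x => x.2.2.1) h) j
  have h4 : ⌊R * ((ell b c q.1 : ℝ) / (q.1 (b 0) : ℝ))⌋ = ⌊R * ((ell b c r.1 : ℝ) / (r.1 (b 0) : ℝ))⌋ :=
    congrArg (fun x => x.2.2.2) h
  constructor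
  · have h5 : ∀ j, q.2 (b j) - q.1 (b j) = r.2 (b j) - r.1 (b j) := by
      intro j
      refine Fin.lastCases ?_ h1 j
      have h6 : ell b c q.2 - ell b c q.1 = ∑ j, c j * (q.2 (b j) - q.1 (b j)) := by
        unfold ell
        rw [← Finset.sum_sub_distrib]
        exact Finset.sum_congr rfl fun j _ => by ring
      have h7 : ell b c r.2 - ell b c r.1 = ∑ j, c j * (r.2 (b j) - r.1 (b j)) := by
        unfold ell
        rw [← Finset.sum_sub_distrib]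
        exact Finset.sum_congr rfl fun j _ => by ring
      rw [h6, h7, Fin.sum_univ_castSucc (fun j => c j * (q.2 (b j) - q.1 (b j))),
        Fin.sum_univ_castSucc (fun j => c j * (r.2 (b j) - r.1 (b j)))] at h2
      have h8 : ∑ j : Fin (s + 1), c j.castSucc * (q.2 (b j.castSucc) - q.1 (b j.castSucc)) =
          ∑ j : Fin (s + 1), c j.castSucc * (r.2 (b j.castSucc) - r.1 (b j.castSucc)) :=
        Finset.sum_congr rfl fun j _ => by rw [h1 j]
      rw [h8] at h2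
      exact mul_left_cancel₀ hc0 (add_left_cancel h2)
    intro j
    exact_mod_cast h5 j
  · have h9 := last_le hL (by positivity : (0 : ℝ) ≤ 1 / R) c hc hc0
      (fun j => (q.1 (b j) : ℝ) / (q.1 (b 0) : ℝ) - (r.1 (b j) : ℝ) / (r.1 (b 0) : ℝ)) ?_ ?_
    · intro j
      have := h9 j
      rwa [mul_one_div] at this
    · intro j
      refine Fin.cases ?_ (fun j => ?_) j
      · show |(q.1 (b 0) : ℝ) / (q.1 (b 0) : ℝ) - (r.1 (b 0) : ℝ) / (r.1 (b 0) : ℝ)| ≤ 1 / R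
        rw [div_self hq, div_self hr, sub_self, abs_zero]
        positivity
      · exact abs_le_of_floor' hR0 (h3 j)
    · have h10 : ∑ j, (c j : ℝ) * ((q.1 (b j) : ℝ) / (q.1 (b 0) : ℝ) - (r.1 (b j) : ℝ) / (r.1 (b 0) : ℝ)) =
          (ell b c q.1 : ℝ) / (q.1 (b 0) : ℝ) - (ell b c r.1 : ℝ) / (r.1 (b 0) : ℝ) := by
        rw [ell_cast, ell_cast, Finset.sum_div, Finset.sum_div, ← Finset.sum_sub_distrib]
        exact Finset.sum_congr rfl fun j _ => by ring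
      rw [h10]
      exact abs_le_of_floor' hR0 h4

/-! ## The numbers of cells and of classes -/

theorem card_Icc_le (M N : ℤ) (c : ℝ) (hc : ((N + 1 - M : ℤ) : ℝ) ≤ c) (hc0 : 0 ≤ c) :
    ((Finset.Icc M N).card : ℝ) ≤ c := by
  rw [Int.card_Icc]
  rcases le_total (N + 1 - M) 0 with h | h
  · rw [Int.toNat_of_nonpos h]; simpa using hc0
  · have : (((N + 1 - M).toNat : ℕ) : ℝ) = ((N + 1 - M : ℤ) : ℝ) := by
      exact_mod_cast Int.toNat_of_nonneg h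
    rw [this]; exact hc

theorem card_sym (x : ℝ) (hx : 0 ≤ x) : ((Finset.Icc ⌊-x⌋ ⌊x⌋).card : ℝ) ≤ 2 * x + 2 := by
  refine card_Icc_le _ _ _ ?_ (by linarith)
  push_cast
  have h1 := Int.floor_le x
  have h2 := Int.sub_one_lt_floor (-x)
  linarith

/-- The set of cells. -/
noncomputable def cellT (s : ℕ) (K L La R : ℝ) : Finset ((Fin (s + 1) → ℤ) × ℤ) :=
  (Fintype.piFinset fun _ => Finset.Icc 0 ⌊K * L / R⌋) ×ˢ Finset.Icc ⌊-(La / R)⌋ ⌊La / R⌋

/-- The set of classes. -/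
noncomputable def clsT (s : ℕ) (K L La R : ℝ) : Finset ((Fin (s + 1) → ℤ) × ℤ × (Fin s → ℤ) × ℤ) :=
  (Fintype.piFinset fun _ => Finset.Icc (-⌊R⌋) ⌊R⌋) ×ˢ (Finset.Icc (-⌊min R (2 * La)⌋) ⌊min R (2 * La)⌋ ×ˢ
    ((Fintype.piFinset fun _ => Finset.Icc 0 ⌊R * L ^ 2⌋) ×ˢ
      Finset.Icc ⌊-(La * L * R / K)⌋ ⌊La * L * R / K⌋))

theorem card_cellT {K L La R : ℝ} (hL : 1 ≤ L) (hR : 1 ≤ R) (hLa : 1 ≤ La) (hRK : R ≤ K) :
    ((cellT s K L La R).card : ℝ) ≤ 2 ^ (s + 2) * L ^ (s + 1) * ((K / R) ^ (s + 1) * (1 + La / R)) := by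
  have hR0 : 0 < R := by linarith
  have hK0 : 0 < K := by linarith
  unfold cellT
  rw [Finset.card_product]
  push_cast
  have h1 : ((Fintype.piFinset fun _ : Fin (s + 1) => Finset.Icc 0 ⌊K * L / R⌋).card : ℝ) ≤
      (2 * (L * (K / R))) ^ (s + 1) := by
    refine card_box 0 ⌊K * L / R⌋ _ ?_ (by positivity)
    push_cast
    have h2 := Int.floor_le (K * L / R)
    have h3 : K * L / R = L * (K / R) := by ring
    have h4 : 1 ≤ L * (K / R) := by
      have h5 : 1 ≤ K / R := by rwa [one_le_div hR0]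
      nlinarith
    rw [h3] at h2 ⊢
    linarith
  have h6 := card_sym (La / R) (by positivity)
  calc ((Fintype.piFinset fun _ : Fin (s + 1) => Finset.Icc 0 ⌊K * L / R⌋).card : ℝ) *
        ((Finset.Icc ⌊-(La / R)⌋ ⌊La / R⌋).card : ℝ)
      ≤ (2 * (L * (K / R))) ^ (s + 1) * (2 * (La / R) + 2) := by gcongr
    _ = 2 ^ (s + 2) * L ^ (s + 1) * ((K / R) ^ (s + 1) * (1 + La / R)) := by
        rw [mul_pow, mul_pow]; ring

theorem card_clsT {K L La R : ℝ} (hL : 1 ≤ L) (hR : 1 ≤ R) (hLa : 1 ≤ La) (hK0 : 0 < K) :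
    ((clsT s K L La R).card : ℝ) ≤ 3 ^ (s + 1) * 10 * 2 ^ s * L ^ (2 * s + 1) *
      (R ^ (s + 1) * min R La * R ^ s * (1 + La * R / K)) := by
  have hR0 : 0 < R := by linarith
  unfold clsT
  rw [Finset.card_product, Finset.card_product, Finset.card_product]
  push_cast
  have h1 : ((Fintype.piFinset fun _ : Fin (s + 1) => Finset.Icc (-⌊R⌋) ⌊R⌋).card : ℝ) ≤
      (3 * R) ^ (s + 1) := by
    refine card_box _ _ _ ?_ (by positivity)
    push_cast
    have h2 := Int.floor_le R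
    linarith
  have h2 : ((Finset.Icc (-⌊min R (2 * La)⌋) ⌊min R (2 * La)⌋).card : ℝ) ≤ 5 * min R La := by
    have h3 : 1 ≤ min R La := le_min hR hLa
    have h4 : min R (2 * La) ≤ 2 * min R La := by
      rw [mul_min_of_nonneg _ _ (by norm_num : (0 : ℝ) ≤ 2)]
      exact min_le_min_right _ (by linarith)
    refine card_Icc_le _ _ _ ?_ (by linarith)
    push_cast
    have h5 := Int.floor_le (min R (2 * La))
    linarith
  have h3 : ((Fintype.piFinset fun _ : Fin s => Finset.Icc 0 ⌊R * L ^ 2⌋).card : ℝ) ≤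
      (2 * (R * L ^ 2)) ^ s := by
    refine card_box _ _ _ ?_ (by positivity)
    push_cast
    have h4 := Int.floor_le (R * L ^ 2)
    have h5 : 1 ≤ R * L ^ 2 := by
      have : 1 ≤ L ^ 2 := one_le_pow₀ hL
      nlinarith
    linarith
  have h4 : ((Finset.Icc ⌊-(La * L * R / K)⌋ ⌊La * L * R / K⌋).card : ℝ) ≤ 2 * L * (1 + La * R / K) := by
    refine (card_sym _ (by positivity)).trans ?_
    have h5 : La * L * R / K = L * (La * R / K) := by ring
    rw [h5]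
    nlinarith
  have h5 : 0 ≤ min R La := le_min hR0.le (by linarith)
  calc ((Fintype.piFinset fun _ : Fin (s + 1) => Finset.Icc (-⌊R⌋) ⌊R⌋).card : ℝ) *
        (((Finset.Icc (-⌊min R (2 * La)⌋) ⌊min R (2 * La)⌋).card : ℝ) *
          (((Fintype.piFinset fun _ : Fin s => Finset.Icc 0 ⌊R * L ^ 2⌋).card : ℝ) *
            ((Finset.Icc ⌊-(La * L * R / K)⌋ ⌊La * L * R / K⌋).card : ℝ)))
      ≤ (3 * R) ^ (s + 1) * ((5 * min R La) * ((2 * (R * L ^ 2)) ^ s * (2 * L * (1 + La * R / K)))) := by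
        gcongr
    _ = 3 ^ (s + 1) * 10 * 2 ^ s * L ^ (2 * s + 1) * (R ^ (s + 1) * min R La * R ^ s * (1 + La * R / K)) := by
        rw [mul_pow, mul_pow, mul_pow, ← pow_mul, pow_succ L (2 * s)]; ring

/-! ## The theorem -/

theorem mem_cellT {K L La R : ℝ} (hK : 0 < K) (hL : 0 < L) (hR : 0 < R) {al : Fin k → Fin (s + 2) → ℝ}
    {b : Fin (s + 2) → Fin k}
    {c : Fin (s + 2) → ℤ} {m : Fin k → ℤ} (h : Adm K L La al b c m) : cell R b c m ∈ cellT s K L La R := by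
  unfold cell cellT
  rw [Finset.mem_product, Fintype.mem_piFinset, Finset.mem_Icc]
  refine ⟨fun j => ?_, ?_, ?_⟩
  · rw [Finset.mem_Icc]
    have h1 := h.1 (b j.castSucc)
    have h2 : (0 : ℝ) ≤ (m (b j.castSucc) : ℝ) := le_trans (by positivity) h1.1
    refine ⟨Int.floor_nonneg.mpr (by positivity), Int.floor_le_floor ?_⟩
    exact div_le_div_of_nonneg_right h1.2.1 hR.le
  · refine Int.floor_le_floor ?_
    rw [← neg_div]
    exact div_le_div_of_nonneg_right (abs_le.mp h.2).1 hR.le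
  · exact Int.floor_le_floor (div_le_div_of_nonneg_right (abs_le.mp h.2).2 hR.le)

theorem int_mem_Icc {x : ℝ} {n : ℤ} (h : |(n : ℝ)| ≤ x) : n ∈ Finset.Icc (-⌊x⌋) ⌊x⌋ := by
  rw [abs_le] at h
  rw [Finset.mem_Icc]
  constructor
  · have : -n ≤ ⌊x⌋ := by
      rw [Int.le_floor]; push_cast; linarith
    omega
  · rw [Int.le_floor]; exact h.2

theorem mem_clsT {K L La R : ℝ} (hL : (s : ℝ) + 3 ≤ L) (hK : 0 < K) (hR : 1 ≤ R)
    {al : Fin k → Fin (s + 2) → ℝ} {b : Fin (s + 2) → Fin k}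
    {c : Fin (s + 2) → ℤ} (hc : ∀ j, |(c j : ℝ)| ≤ L) (hc0 : c (Fin.last (s + 1)) ≠ 0)
    {q : (Fin k → ℤ) × (Fin k → ℤ)} (h1 : Adm K L La al b c q.1) (h2 : Adm K L La al b c q.2)
    (hcell : cell R b c q.1 = cell R b c q.2) : cls R b c q ∈ clsT s K L La R := by
  have hs : (0 : ℝ) ≤ s := Nat.cast_nonneg s
  have hL0 : 0 < L := by linarith
  have hR0 : 0 < R := by linarith
  have hKL : 0 < K / L := by positivity
  have hd := cell_diff hL hR hc hc0 hcell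
  have hb0 := h1.1 (b 0)
  have hb0' : (0 : ℝ) < (q.1 (b 0) : ℝ) := lt_of_lt_of_le hKL hb0.1
  unfold cls clsT
  rw [Finset.mem_product, Fintype.mem_piFinset, Finset.mem_product, Finset.mem_product,
    Fintype.mem_piFinset, Finset.mem_Icc (a := ⌊-(La * L * R / K)⌋)]
  refine ⟨fun j => ?_, ?_, fun j => ?_, ?_⟩
  · refine int_mem_Icc ?_
    push_cast
    exact hd.1 j
  · refine int_mem_Icc ?_
    push_cast
    refine le_min hd.2.1 ?_
    have := h1.2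
    have := h2.2
    refine (abs_sub _ _).trans ?_
    linarith
  · rw [Finset.mem_Icc]
    have h3 := h1.1 (b j.succ.castSucc)
    have h4 : (0 : ℝ) < (q.1 (b j.succ.castSucc) : ℝ) := lt_of_lt_of_le hKL h3.1
    refine ⟨Int.floor_nonneg.mpr (by positivity), Int.floor_le_floor ?_⟩
    have h5 : (q.1 (b j.succ.castSucc) : ℝ) / (q.1 (b 0) : ℝ) ≤ L ^ 2 := by
      rw [div_le_iff₀ hb0']
      refine h3.2.1.trans ?_
      have : K * L = L ^ 2 * (K / L) := by field_simp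
      rw [this]
      have := hb0.1
      gcongr
    gcongr
  · have h6 : |(ell b c q.1 : ℝ) / (q.1 (b 0) : ℝ)| ≤ La * L / K := by
      rw [abs_div, abs_of_pos hb0', div_le_div_iff₀ hb0' hK]
      have h7 : K ≤ (q.1 (b 0) : ℝ) * L := by
        have := hb0.1
        rwa [div_le_iff₀ hL0] at this
      have h8 : 0 ≤ La := le_trans (abs_nonneg _) h1.2
      calc |(ell b c q.1 : ℝ)| * K ≤ La * ((q.1 (b 0) : ℝ) * L) := mul_le_mul h1.2 h7 hK.le h8
        _ = La * L * (q.1 (b 0) : ℝ) := by ring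
    have h9 : La * L * R / K = R * (La * L / K) := by ring
    rw [abs_le] at h6
    rw [h9, ← mul_neg]
    exact ⟨Int.floor_le_floor (mul_le_mul_of_nonneg_left h6.1 hR0.le),
      Int.floor_le_floor (mul_le_mul_of_nonneg_left h6.2 hR0.le)⟩

end Pool.Agent.HS.Cl
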