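import Pool.Agent.Lib.HS.Cl4

/-!
# PROJECT H* (MP_a54f13_nt), part (C'), module 5: THEOREM cellP

A finite set `P` of integral vectors `m`, `K / L <= m i <= K L`, whose squares satisfy fixed linear relations
`(m i) ^ 2 = sum_j al i j (m (b j)) ^ 2`, which lies in a slab `|sum_j c j m (b j)| <= La`, and whose differences
are pairwise distinct, satisfies `#P <= C L ^ C cells` or `(#P) ^ 2 <= C L ^ C cells * classes`.
-/

set_option autoImplicit false

namespace Pool.Agent.HS.Cl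

open Finset

/-- The count for `s + 3 <= L`, with explicit constants. -/
theorem cellP_core {s k : ℕ} {K L La R : ℝ} (hL : (s : ℝ) + 3 ≤ L) (hR : 1 ≤ R) (hRK : R ^ 2 ≤ K)
    (hLa : 1 ≤ La) {al : Fin k → Fin (s + 2) → ℝ} (hal : ∀ i j, |al i j| ≤ L) {b : Fin (s + 2) → Fin k}
    {c : Fin (s + 2) → ℤ} (hc : ∀ j, |(c j : ℝ)| ≤ L) (hc0 : c (Fin.last (s + 1)) ≠ 0)
    {P : Finset (Fin k → ℤ)} (hP : ∀ m ∈ P, Adm K L La al b c m)
    (hS : ∀ m ∈ P, ∀ m' ∈ P, ∀ l ∈ P, ∀ l' ∈ P, m ≠ m' → (∀ i, m' i - m i = l' i - l i) → m = l) :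
    (P.card : ℝ) ≤ 2 * (cellT s K L La R).card ∨
    (P.card : ℝ) ^ 2 ≤ 2 * (cellT s K L La R).card * ((9 * L ^ 18) ^ k * (clsT s K L La R).card) := by
  classical
  have hs : (0 : ℝ) ≤ s := Nat.cast_nonneg s
  have hL0 : 0 < L := by linarith
  have hL1 : 1 ≤ L := by linarith
  have hK : 1 ≤ K := le_trans (by nlinarith) hRK
  have hK0 : 0 < K := by linarith
  have hR0 : 0 < R := by linarith
  have hKL : 0 < K / L := by positivity
  set S := (P ×ˢ P).filter (fun q => cell R b c q.1 = cell R b c q.2 ∧ q.1 ≠ q.2) with hSdef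
  set W : ℕ := ⌊4 * L ^ 18⌋₊ with hW
  have hSm : ∀ q ∈ S, q.1 ∈ P ∧ q.2 ∈ P ∧ cell R b c q.1 = cell R b c q.2 ∧ q.1 ≠ q.2 := by
    intro q hq
    rw [hSdef, Finset.mem_filter, Finset.mem_product] at hq
    exact ⟨hq.1.1, hq.1.2, hq.2.1, hq.2.2⟩
  have pos : ∀ m ∈ P, (m (b 0) : ℝ) ≠ 0 := fun m hm =>
    (lt_of_lt_of_le hKL ((hP m hm).1 (b 0)).1).ne'
  have hcard : S.card ≤ (2 * W + 1) ^ k * (clsT s K L La R).card := by
    refine card_le_class S _ (cls R b c) (fun q i => q.2 i - q.1 i) W ?_ ?_ ?_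
    · intro q hq
      obtain ⟨h1, h2, h3, -⟩ := hSm q hq
      exact mem_clsT hL hK0 hR hc hc0 (hP _ h1) (hP _ h2) h3
    · intro q hq r hr hqr
      obtain ⟨h1, h2, -, h4⟩ := hSm q hq
      obtain ⟨h5, h6, -, -⟩ := hSm r hr
      have h7 : ∀ i, q.2 i - q.1 i = r.2 i - r.1 i := fun i => congrFun hqr i
      have h8 : q.1 = r.1 := hS _ h1 _ h2 _ h5 _ h6 h4 h7
      refine Prod.ext h8 ?_
      funext i
      have := h7 i
      rw [h8] at this
      omega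
    · intro q hq r hr hqr i
      obtain ⟨h1, h2, h3, -⟩ := hSm q hq
      obtain ⟨h5, h6, -, -⟩ := hSm r hr
      have h9 := cls_diff hL hR hc hc0 (pos _ h1) (pos _ h5) hqr
      have h10 := (cell_diff hL hR hc hc0 h3).2.2
      have h11 := close (m := fun i => (q.1 i : ℝ)) (m' := fun i => (q.2 i : ℝ))
        (l := fun i => (r.1 i : ℝ)) (l' := fun i => (r.2 i : ℝ)) hL hR hRK hal (hP _ h1).1 (hP _ h2).1
        (hP _ h5).1 (hP _ h6).1 h10 h9.1 h9.2 i
      have h12 : |(q.2 i - q.1 i) - (r.2 i - r.1 i)| ≤ ⌊4 * L ^ 18⌋ := by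
        rw [Int.le_floor]
        push_cast
        exact h11
      have h13 : (⌊4 * L ^ 18⌋ : ℤ) = (W : ℤ) := by
        rw [hW]
        exact (Int.natCast_floor_eq_floor (by positivity)).symm
      rw [h13] at h12
      exact h12
  have hsplit : ((P ×ˢ P).filter (fun q => cell R b c q.1 = cell R b c q.2)).card ≤ P.card + S.card := by
    have h1 : ((P ×ˢ P).filter (fun q => cell R b c q.1 = cell R b c q.2)) ⊆
        P.image (fun m => (m, m)) ∪ S := by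
      intro q hq
      rw [Finset.mem_filter, Finset.mem_product] at hq
      rw [Finset.mem_union, Finset.mem_image, hSdef, Finset.mem_filter, Finset.mem_product]
      by_cases h : q.1 = q.2
      · left
        exact ⟨q.1, hq.1.1, Prod.ext rfl h⟩
      · right
        exact ⟨hq.1, hq.2, h⟩
    exact (Finset.card_le_card h1).trans ((Finset.card_union_le _ _).trans
      (Nat.add_le_add_right Finset.card_image_le _))
  have hCS := sq_card_le P (cellT s K L La R) (cell R b c) (fun m hm => mem_cellT hK0 hL0 hR0 (hP m hm))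
  have hWle : ((2 * W + 1 : ℕ) : ℝ) ≤ 9 * L ^ 18 := by
    have h1 : (W : ℝ) ≤ 4 * L ^ 18 := Nat.floor_le (by positivity)
    have h2 : 1 ≤ L ^ 18 := one_le_pow₀ hL1
    push_cast
    linarith
  have hS' : (S.card : ℝ) ≤ (9 * L ^ 18) ^ k * (clsT s K L La R).card := by
    calc (S.card : ℝ) ≤ (((2 * W + 1) ^ k * (clsT s K L La R).card : ℕ) : ℝ) := by exact_mod_cast hcard
      _ = ((2 * W + 1 : ℕ) : ℝ) ^ k * (clsT s K L La R).card := by push_cast; ring
      _ ≤ (9 * L ^ 18) ^ k * (clsT s K L La R).card := by gcongr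
  have hmain : (P.card : ℝ) ^ 2 ≤ (cellT s K L La R).card * ((P.card : ℝ) + S.card) := by
    have h1 := hCS.trans (Nat.mul_le_mul_left _ hsplit)
    exact_mod_cast h1
  rcases le_or_gt (P.card : ℝ) (2 * (cellT s K L La R).card) with h | h
  · exact Or.inl h
  · right
    have h1 : (0 : ℝ) ≤ (cellT s K L La R).card := Nat.cast_nonneg _
    have h2 : (0 : ℝ) ≤ P.card := Nat.cast_nonneg _
    have h3 : ((cellT s K L La R).card : ℝ) * P.card ≤ (P.card : ℝ) ^ 2 / 2 := by nlinarith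
    have h4 : ((cellT s K L La R).card : ℝ) * S.card ≤
        (cellT s K L La R).card * ((9 * L ^ 18) ^ k * (clsT s K L La R).card) := by gcongr
    nlinarith

/-- The hypotheses are monotone in `L`. -/
theorem Adm.mono {s k : ℕ} {K L L' La : ℝ} (hK : 0 ≤ K) (hL : 0 < L) (hLL : L ≤ L')
    {al : Fin k → Fin (s + 2) → ℝ} {b : Fin (s + 2) → Fin k} {c : Fin (s + 2) → ℤ} {m : Fin k → ℤ}
    (h : Adm K L La al b c m) : Adm K L' La al b c m := by
  refine ⟨fun i => ⟨le_trans ?_ (h.1 i).1, (h.1 i).2.1.trans ?_, (h.1 i).2.2⟩, h.2⟩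
  · gcongr
  · gcongr

/-- **THEOREM cellP.** -/
theorem cellP (s k : ℕ) : ∃ C : ℕ, 1 ≤ C ∧ ∀ K L La R : ℝ, 1 ≤ K → 1 ≤ L → 1 ≤ La → 1 ≤ R → R ^ 2 ≤ K →
    ∀ (al : Fin k → Fin (s + 2) → ℝ), (∀ i j, |al i j| ≤ L) →
    ∀ (b : Fin (s + 2) → Fin k) (c : Fin (s + 2) → ℤ), (∀ j, |(c j : ℝ)| ≤ L) →
    c (Fin.last (s + 1)) ≠ 0 →
    ∀ P : Finset (Fin k → ℤ), (∀ m ∈ P, Adm K L La al b c m) →
    (∀ m ∈ P, ∀ m' ∈ P, ∀ l ∈ P, ∀ l' ∈ P, m ≠ m' → (∀ i, m' i - m i = l' i - l i) → m = l) →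
    (P.card : ℝ) ≤ C * L ^ C * ((K / R) ^ (s + 1) * (1 + La / R)) ∨
    (P.card : ℝ) ^ 2 ≤ C * L ^ C * ((K / R) ^ (s + 1) * (1 + La / R) *
      (R ^ (s + 1) * min R La * R ^ s * (1 + La * R / K))) := by
  set A1 : ℕ := 2 * 2 ^ (s + 2) * (s + 3) ^ (s + 1) with hA1
  set A2 : ℕ := 2 * 2 ^ (s + 2) * (s + 3) ^ (s + 1) * (9 ^ k * ((s + 3) ^ 18) ^ k *
    (3 ^ (s + 1) * 10 * 2 ^ s * (s + 3) ^ (2 * s + 1))) with hA2
  set E : ℕ := (s + 1) + (18 * k + (2 * s + 1)) with hE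
  refine ⟨A1 + A2 + E, ?_, ?_⟩
  · omega
  intro K L La R hK hL hLa hR hRK al hal b c hc hc0 P hP hS
  have hL0 : 0 < L := by linarith
  have hK0 : 0 < K := by linarith
  have hR0 : 0 < R := by linarith
  have hs : (0 : ℝ) ≤ s := Nat.cast_nonneg s
  have hRK' : R ≤ K := by nlinarith
  set L1 : ℝ := ((s : ℝ) + 3) * L with hL1
  have hLL : L ≤ L1 := by rw [hL1]; nlinarith
  have hL13 : (s : ℝ) + 3 ≤ L1 := by rw [hL1]; nlinarith
  have hL11 : 1 ≤ L1 := hL.trans hLL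
  have hCL : ∀ A e : ℕ, A ≤ A1 + A2 + E → e ≤ A1 + A2 + E →
      (A : ℝ) * L ^ e ≤ ((A1 + A2 + E : ℕ) : ℝ) * L ^ (A1 + A2 + E) := by
    intro A e hA he
    have h1 : L ^ e ≤ L ^ (A1 + A2 + E) := pow_le_pow_right₀ hL he
    have h2 : (A : ℝ) ≤ ((A1 + A2 + E : ℕ) : ℝ) := by exact_mod_cast hA
    gcongr
  have hcT := card_cellT (s := s) (K := K) (L := L1) (La := La) (R := R) hL11 hR hLa hRK'
  have hkT := card_clsT (s := s) (K := K) (L := L1) (La := La) (R := R) hL11 hR hLa hK0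
  have hcells0 : 0 ≤ (K / R) ^ (s + 1) * (1 + La / R) := by positivity
  have hmin0 : 0 ≤ min R La := le_min hR0.le (by linarith)
  have hvs0 : 0 ≤ R ^ (s + 1) * min R La * R ^ s * (1 + La * R / K) := by positivity
  have e1 : 2 * ((cellT s K L1 La R).card : ℝ) ≤
      ((A1 : ℕ) : ℝ) * L ^ (s + 1) * ((K / R) ^ (s + 1) * (1 + La / R)) := by
    have : 2 * (2 ^ (s + 2) * L1 ^ (s + 1) * ((K / R) ^ (s + 1) * (1 + La / R))) =
        ((A1 : ℕ) : ℝ) * L ^ (s + 1) * ((K / R) ^ (s + 1) * (1 + La / R)) := by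
      rw [hA1, hL1, mul_pow]; push_cast; ring
    rw [← this]
    linarith
  rcases cellP_core hL13 hR hRK hLa (fun i j => (hal i j).trans hLL) (fun j => (hc j).trans hLL) hc0
    (fun m hm => (hP m hm).mono hK0.le hL0 hLL) hS with h | h
  · left
    refine h.trans (e1.trans ?_)
    exact mul_le_mul_of_nonneg_right (hCL A1 (s + 1) (by omega) (by omega)) hcells0
  · right
    refine h.trans ?_
    have e2 : (9 * L1 ^ 18) ^ k * ((clsT s K L1 La R).card : ℝ) ≤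
        (9 * L1 ^ 18) ^ k * (3 ^ (s + 1) * 10 * 2 ^ s * L1 ^ (2 * s + 1) *
          (R ^ (s + 1) * min R La * R ^ s * (1 + La * R / K))) := by gcongr
    have e3 : 2 * ((cellT s K L1 La R).card : ℝ) * ((9 * L1 ^ 18) ^ k * (clsT s K L1 La R).card) ≤
        (((A1 : ℕ) : ℝ) * L ^ (s + 1) * ((K / R) ^ (s + 1) * (1 + La / R))) *
        ((9 * L1 ^ 18) ^ k * (3 ^ (s + 1) * 10 * 2 ^ s * L1 ^ (2 * s + 1) *
          (R ^ (s + 1) * min R La * R ^ s * (1 + La * R / K)))) := by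
      refine mul_le_mul e1 e2 (by positivity) (by positivity)
    refine e3.trans ?_
    have e4 : (((A1 : ℕ) : ℝ) * L ^ (s + 1) * ((K / R) ^ (s + 1) * (1 + La / R))) *
        ((9 * L1 ^ 18) ^ k * (3 ^ (s + 1) * 10 * 2 ^ s * L1 ^ (2 * s + 1) *
          (R ^ (s + 1) * min R La * R ^ s * (1 + La * R / K)))) =
        ((A2 : ℕ) : ℝ) * L ^ E * ((K / R) ^ (s + 1) * (1 + La / R) *
          (R ^ (s + 1) * min R La * R ^ s * (1 + La * R / K))) := by
      have e5 : (9 * L1 ^ 18) ^ k = 9 ^ k * (((s : ℝ) + 3) ^ 18) ^ k * L ^ (18 * k) := by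
        rw [hL1, mul_pow, mul_pow, mul_pow, ← pow_mul L 18 k]; ring
      have e6 : L1 ^ (2 * s + 1) = ((s : ℝ) + 3) ^ (2 * s + 1) * L ^ (2 * s + 1) := by
        rw [hL1, mul_pow]
      have e7 : L ^ E = L ^ (s + 1) * (L ^ (18 * k) * L ^ (2 * s + 1)) := by
        rw [hE, pow_add L (s + 1), pow_add L (18 * k)]
      rw [e5, e6, e7, hA1, hA2]
      push_cast
      ring
    rw [e4]
    refine mul_le_mul_of_nonneg_right (hCL A2 E (by omega) (by omega)) (by positivity)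

end Pool.Agent.HS.Cl
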