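import Pool.Agent.Lib.HS.Cl5

/-!
# PROJECT H* (MP_a54f13_nt), part (C'), module 6: THEOREMS cellPrim and cellC

The cell theorem without slab, with `R = K ^ (D / (3 D - 1))`, `D = s + 2`: `#P <= C L ^ C K ^ theta`,
`theta = D (2 D - 1) / (3 D - 1)` (`D = 3: 15/8`, `D = 5: 45/14`, `D = 6: 66/17`); `cellPrim` for sets with
pairwise distinct differences, `cellC` for sets in which equal differences are allowed for proportional vectors.
-/

set_option autoImplicit false

namespace Pool.Agent.HS.Cl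

open Finset

/-- The exponent. -/
noncomputable def theta (s : ℕ) : ℝ := ((s : ℝ) + 2) * (2 * s + 3) / (3 * s + 5)

theorem one_lt_theta (s : ℕ) : 1 < theta s := by
  unfold theta
  have hs : (0 : ℝ) ≤ s := Nat.cast_nonneg s
  rw [one_lt_div (by positivity)]
  nlinarith

/-- **THEOREM cellPrim.** -/
theorem cellPrim (s k : ℕ) : ∃ C : ℕ, 1 ≤ C ∧ ∀ K L : ℝ, 1 ≤ K → 1 ≤ L →
    ∀ (al : Fin k → Fin (s + 2) → ℝ), (∀ i j, |al i j| ≤ L) → ∀ (b : Fin (s + 2) → Fin k),
    ∀ P : Finset (Fin k → ℤ), (∀ m ∈ P, ∀ i, K / L ≤ (m i : ℝ) ∧ (m i : ℝ) ≤ K * L ∧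
      (m i : ℝ) ^ 2 = ∑ j, al i j * (m (b j) : ℝ) ^ 2) →
    (∀ m ∈ P, ∀ m' ∈ P, ∀ l ∈ P, ∀ l' ∈ P, m ≠ m' → (∀ i, m' i - m i = l' i - l i) → m = l) →
    (P.card : ℝ) ≤ C * L ^ C * K ^ theta s := by
  obtain ⟨C, hC1, hC⟩ := cellP s k
  refine ⟨2 * C + 2, by omega, ?_⟩
  intro K L hK hL al hal b P hP hS
  have hs : (0 : ℝ) ≤ s := Nat.cast_nonneg s
  have hK0 : 0 < K := by linarith
  have hL0 : 0 < L := by linarith
  set ρ : ℝ := ((s : ℝ) + 2) / (3 * s + 5) with hρ
  have hρ0 : 0 ≤ ρ := by positivity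
  have hρ2 : ρ * 2 ≤ 1 := by
    rw [hρ, div_mul_eq_mul_div, div_le_one (by positivity)]
    linarith
  set R : ℝ := K ^ ρ with hR
  have hR0 : 0 < R := Real.rpow_pos_of_pos hK0 _
  have hR1 : 1 ≤ R := Real.one_le_rpow hK hρ0
  have hRK : R ^ 2 ≤ K := by
    rw [hR, ← Real.rpow_natCast, ← Real.rpow_mul hK0.le]
    calc K ^ (ρ * ((2 : ℕ) : ℝ)) ≤ K ^ (1 : ℝ) :=
          Real.rpow_le_rpow_of_exponent_le hK (by push_cast; exact hρ2)
      _ = K := Real.rpow_one K
  have hRK' : R ≤ K := by nlinarith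
  have hLa : 1 ≤ K * L := by nlinarith
  set c : Fin (s + 2) → ℤ := Pi.single (Fin.last (s + 1)) 1 with hc
  have hcl : ∀ j, |(c j : ℝ)| ≤ L := by
    intro j
    by_cases h : j = Fin.last (s + 1)
    · rw [h, hc, Pi.single_eq_same]; simpa using hL
    · rw [hc, Pi.single_eq_of_ne h]; simpa using hL0.le
  have hc0 : c (Fin.last (s + 1)) ≠ 0 := by rw [hc, Pi.single_eq_same]; exact one_ne_zero
  have hell : ∀ m : Fin k → ℤ, ell b c m = m (b (Fin.last (s + 1))) := by
    intro m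
    unfold ell
    rw [Finset.sum_eq_single (Fin.last (s + 1))]
    · rw [hc, Pi.single_eq_same, one_mul]
    · intro j _ hj
      rw [hc, Pi.single_eq_of_ne hj, zero_mul]
    · intro h; exact absurd (Finset.mem_univ _) h
  have hKR1 : 1 ≤ K / R := by rwa [one_le_div hR0]
  have h1 : 1 + K * L / R ≤ 2 * L * (K / R) := by
    have : K * L / R = L * (K / R) := by ring
    rw [this]; nlinarith
  have h2 : 1 + K * L * R / K ≤ 2 * L * R := by
    have : K * L * R / K = L * R := by field_simp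
    rw [this]; nlinarith
  have h3 : min R (K * L) = R := by
    rw [min_eq_left]; nlinarith
  -- the powers of `K`
  have hKR : (K / R) ^ (s + 2) = K ^ theta s := by
    have e1 : K / R = K ^ (1 - ρ) := by
      rw [Real.rpow_sub hK0, Real.rpow_one]
    rw [e1, ← Real.rpow_natCast, ← Real.rpow_mul hK0.le]
    congr 1
    rw [hρ]; unfold theta
    push_cast
    field_simp
    ring
  have hRD : R ^ (2 * s + 3) = K ^ theta s := by
    rw [hR, ← Real.rpow_natCast, ← Real.rpow_mul hK0.le]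
    congr 1
    rw [hρ]; unfold theta
    push_cast
    field_simp
  have hX0 : 0 < K ^ theta s := Real.rpow_pos_of_pos hK0 _
  have hCC : 1 ≤ (C : ℝ) := by exact_mod_cast hC1
  have hpow : ∀ e : ℕ, e ≤ 2 * C + 2 → L ^ e ≤ L ^ (2 * C + 2) := fun e he => pow_le_pow_right₀ hL he
  rcases hC K L (K * L) R hK hL hLa hR1 hRK al hal b c hcl hc0 P (fun m hm => ⟨hP m hm, by
      rw [hell]
      have := hP m hm (b (Fin.last (s + 1)))
      rw [abs_of_nonneg (le_trans (by positivity) this.1)]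
      exact this.2.1⟩) hS with h | h
  · refine h.trans ?_
    calc (C : ℝ) * L ^ C * ((K / R) ^ (s + 1) * (1 + K * L / R))
        ≤ C * L ^ C * ((K / R) ^ (s + 1) * (2 * L * (K / R))) := by gcongr
      _ = 2 * C * L ^ (C + 1) * (K / R) ^ (s + 2) := by ring
      _ ≤ ((2 * C + 2 : ℕ) : ℝ) * L ^ (2 * C + 2) * K ^ theta s := by
          rw [hKR]
          have := hpow (C + 1) (by omega)
          push_cast
          gcongr
          linarith
  · have h4 : (P.card : ℝ) ^ 2 ≤ (((2 * C + 2 : ℕ) : ℝ) * L ^ (2 * C + 2) * K ^ theta s) ^ 2 := by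
      refine h.trans ?_
      rw [h3]
      calc (C : ℝ) * L ^ C * ((K / R) ^ (s + 1) * (1 + K * L / R) *
            (R ^ (s + 1) * R * R ^ s * (1 + K * L * R / K)))
          ≤ C * L ^ C * ((K / R) ^ (s + 1) * (2 * L * (K / R)) *
            (R ^ (s + 1) * R * R ^ s * (2 * L * R))) := by gcongr
        _ = 4 * C * L ^ (C + 2) * ((K / R) ^ (s + 2) * R ^ (2 * s + 3)) := by ring
        _ = 4 * C * L ^ (C + 2) * (K ^ theta s) ^ 2 := by rw [hKR, hRD]; ring
        _ ≤ (2 * C + 2) ^ 2 * L ^ (4 * C + 4) * (K ^ theta s) ^ 2 := by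
            have h5 : L ^ (C + 2) ≤ L ^ (4 * C + 4) := pow_le_pow_right₀ hL (by omega)
            have h6 : 4 * (C : ℝ) ≤ (2 * C + 2) ^ 2 := by nlinarith
            gcongr
        _ = (((2 * C + 2 : ℕ) : ℝ) * L ^ (2 * C + 2) * K ^ theta s) ^ 2 := by
            push_cast
            have : L ^ (4 * C + 4) = (L ^ (2 * C + 2)) ^ 2 := by rw [← pow_mul]; congr 1; omega
            rw [this]; ring
    exact le_of_sq_le_sq h4 (by positivity)

theorem gcd_nonneg {k : ℕ} (m : Fin k → ℤ) : 0 ≤ Finset.univ.gcd m := by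
  rw [← Finset.normalize_gcd]
  exact Int.nonneg_of_normalize_eq_self (by simp)

/-- **THEOREM cellC.** Equal differences are allowed for proportional pairs. -/
theorem cellC (s k : ℕ) : ∃ C : ℕ, 1 ≤ C ∧ ∀ K L : ℝ, 1 ≤ K → 1 ≤ L →
    ∀ (al : Fin k → Fin (s + 2) → ℝ), (∀ i j, |al i j| ≤ L) → ∀ (b : Fin (s + 2) → Fin k),
    ∀ P : Finset (Fin k → ℤ), (∀ m ∈ P, ∀ i, K / L ≤ (m i : ℝ) ∧ (m i : ℝ) ≤ K * L ∧
      (m i : ℝ) ^ 2 = ∑ j, al i j * (m (b j) : ℝ) ^ 2) →
    (∀ m ∈ P, ∀ m' ∈ P, ∀ l ∈ P, ∀ l' ∈ P, m ≠ m' → (∀ i, m' i - m i = l' i - l i) →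
      m = l ∨ ∃ u v : ℤ, 0 < u ∧ 0 < v ∧ ∀ i, u * m i = v * m' i) →
    (P.card : ℝ) ≤ C * L ^ C * K ^ theta s := by
  classical
  obtain ⟨C, hC1, hC⟩ := cellPrim s k
  have hθ := one_lt_theta s
  have hsum : Summable (fun n : ℕ => ((n : ℝ) ^ theta s)⁻¹) := Real.summable_nat_rpow_inv.mpr hθ
  obtain ⟨Z, hZ⟩ := exists_nat_ge (∑' n : ℕ, ((n : ℝ) ^ theta s)⁻¹)
  obtain ⟨T, hT⟩ := exists_nat_ge (theta s)
  refine ⟨C * (Z + 1) + (2 * C + T), by nlinarith, ?_⟩
  intro K L hK hL al hal b P hP hS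
  have hK0 : 0 < K := by linarith
  have hL0 : 0 < L := by linarith
  have hKL0 : 0 < K / L := by positivity
  have hpos : ∀ m ∈ P, ∀ i, 0 < m i := fun m hm i => by
    have : (0 : ℝ) < (m i : ℝ) := lt_of_lt_of_le hKL0 (hP m hm i).1
    exact_mod_cast this
  set N : ℕ := ⌊K * L⌋₊ + 1 with hN
  have hgle : ∀ m ∈ P, 0 < (Finset.univ.gcd m) ∧ ((Finset.univ.gcd m : ℤ) : ℝ) ≤ K * L := by
    intro m hm
    have h1 : Finset.univ.gcd m ∣ m (b 0) := Finset.gcd_dvd (Finset.mem_univ _)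
    have h2 := hpos m hm (b 0)
    have h3 : Finset.univ.gcd m ≤ m (b 0) := Int.le_of_dvd h2 h1
    have h4 := gcd_nonneg m
    have h5 : Finset.univ.gcd m ≠ 0 := by
      intro h; rw [h, zero_dvd_iff] at h1; omega
    refine ⟨by omega, ?_⟩
    have h6 : ((Finset.univ.gcd m : ℤ) : ℝ) ≤ (m (b 0) : ℝ) := by exact_mod_cast h3
    exact h6.trans (hP m hm (b 0)).2.1
  have hmaps : ∀ m ∈ P, (Finset.univ.gcd m).toNat ∈ Finset.range N := by
    intro m hm
    obtain ⟨h1, h2⟩ := hgle m hm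
    rw [Finset.mem_range, hN, Nat.lt_succ_iff, Nat.le_floor_iff (by positivity)]
    have h3 : (((Finset.univ.gcd m).toNat : ℕ) : ℝ) = ((Finset.univ.gcd m : ℤ) : ℝ) := by
      exact_mod_cast Int.toNat_of_nonneg h1.le
    rw [h3]; exact h2
  rw [Finset.card_eq_sum_card_fiberwise (s := P) (t := Finset.range N)
    (f := fun m : Fin k → ℤ => (Finset.univ.gcd m).toNat) (fun m hm => hmaps m (Finset.mem_coe.mp hm))]
  push_cast
  have key : ∀ g ∈ Finset.range N, ((P.filter (fun m => (Finset.univ.gcd m).toNat = g)).card : ℝ) ≤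
      C * L ^ (2 * C) * (L * K) ^ theta s * ((g : ℝ) ^ theta s)⁻¹ := by
    intro g _
    rcases (P.filter (fun m => (Finset.univ.gcd m).toNat = g)).eq_empty_or_nonempty with h0 | ⟨m1, hm1⟩
    · rw [h0, Finset.card_empty, Nat.cast_zero]
      positivity
    rw [Finset.mem_filter] at hm1
    have hg := hgle m1 hm1.1
    have hg1 : ((Finset.univ.gcd m1 : ℤ)) = (g : ℤ) := by
      rw [← hm1.2]; exact (Int.toNat_of_nonneg hg.1.le).symm
    have hgpos : 0 < (g : ℤ) := by rw [← hg1]; exact hg.1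
    have hgR : (0 : ℝ) < (g : ℝ) := by exact_mod_cast hgpos
    have hgKL : (g : ℝ) ≤ K * L := by
      have := hg.2
      rw [hg1] at this
      exact_mod_cast this
    -- division by `g`
    set Pg := P.filter (fun m => (Finset.univ.gcd m).toNat = g) with hPg
    have hmem : ∀ m ∈ Pg, m ∈ P ∧ Finset.univ.gcd m = (g : ℤ) := by
      intro m hm
      rw [hPg, Finset.mem_filter] at hm
      refine ⟨hm.1, ?_⟩
      rw [← hm.2]
      exact (Int.toNat_of_nonneg (hgle m hm.1).1.le).symm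
    have hdiv : ∀ m ∈ Pg, ∀ i, (g : ℤ) * (m i / g) = m i := by
      intro m hm i
      refine Int.mul_ediv_cancel' ?_
      rw [← (hmem m hm).2]
      exact Finset.gcd_dvd (Finset.mem_univ i)
    set Q : Finset (Fin k → ℤ) := Pg.image (fun m i => m i / g) with hQ
    have hcard : Q.card = Pg.card := by
      refine Finset.card_image_of_injOn ?_
      intro m hm l hl hml
      funext i
      have h1 := congrFun hml i
      simp only at h1
      rw [← hdiv m hm i, ← hdiv l hl i, h1]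
    rw [← hcard]
    set K' : ℝ := max 1 (K / g) with hK'
    have hK'1 : 1 ≤ K' := le_max_left _ _
    have hKg : 0 < K / g := by positivity
    have hKgL : 1 ≤ K / g * L := by
      rw [div_mul_eq_mul_div, one_le_div hgR]; exact hgKL
    have hLL : L ≤ L ^ 2 := by nlinarith
    have hK'L : K' ≤ L * K / g := by
      rw [hK']
      refine max_le ?_ ?_
      · have : L * K / g = K / g * L := by ring
        rw [this]; exact hKgL
      · have : L * K / g = L * (K / g) := by ring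
        rw [this]; nlinarith
    have hb1 : K' / L ^ 2 ≤ K / g / L := by
      have : K / g / L = (L * K / g) / L ^ 2 := by field_simp
      rw [this]
      gcongr
    have hb2 : K / g * L ≤ K' * L ^ 2 := by
      have h1 : K / g ≤ K' := le_max_right _ _
      gcongr
    have hQP : ∀ m ∈ Q, ∀ i, K' / L ^ 2 ≤ (m i : ℝ) ∧ (m i : ℝ) ≤ K' * L ^ 2 ∧
        (m i : ℝ) ^ 2 = ∑ j, al i j * (m (b j) : ℝ) ^ 2 := by
      intro m0 hm0
      rw [hQ, Finset.mem_image] at hm0
      obtain ⟨m, hm, rfl⟩ := hm0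
      have hr : ∀ i, (((m i / (g : ℤ) : ℤ)) : ℝ) = (m i : ℝ) / g := by
        intro i
        rw [eq_div_iff hgR.ne', mul_comm]
        exact_mod_cast hdiv m hm i
      intro i
      have h1 := hP m (hmem m hm).1 i
      refine ⟨?_, ?_, ?_⟩
      · rw [hr i]
        refine hb1.trans ?_
        have : K / g / L = K / L / g := by ring
        rw [this]
        exact div_le_div_of_nonneg_right h1.1 hgR.le
      · rw [hr i]
        refine le_trans ?_ hb2
        have : K / g * L = K * L / g := by ring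
        rw [this]
        exact div_le_div_of_nonneg_right h1.2.1 hgR.le
      · rw [hr i, div_pow, h1.2.2, Finset.sum_div]
        refine Finset.sum_congr rfl fun j _ => ?_
        rw [hr (b j), div_pow]; ring
    have hQS : ∀ m ∈ Q, ∀ m' ∈ Q, ∀ l ∈ Q, ∀ l' ∈ Q, m ≠ m' → (∀ i, m' i - m i = l' i - l i) → m = l := by
      intro a ha a' ha' e he e' he' hne hd
      rw [hQ, Finset.mem_image] at ha ha' he he'
      obtain ⟨m, hm, rfl⟩ := ha
      obtain ⟨m', hm', rfl⟩ := ha'
      obtain ⟨l, hl, rfl⟩ := he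
      obtain ⟨l', hl', rfl⟩ := he'
      have hne' : m ≠ m' := by
        rintro rfl; exact hne rfl
      have hd' : ∀ i, m' i - m i = l' i - l i := by
        intro i
        have h1 := hd i
        simp only at h1
        have h2 : m' i - m i = (g : ℤ) * (m' i / g - m i / g) := by
          rw [mul_sub, hdiv m' hm' i, hdiv m hm i]
        have h3 : l' i - l i = (g : ℤ) * (l' i / g - l i / g) := by
          rw [mul_sub, hdiv l' hl' i, hdiv l hl i]
        rw [h2, h3, h1]
      rcases hS m (hmem m hm).1 m' (hmem m' hm').1 l (hmem l hl).1 l' (hmem l' hl').1 hne' hd' with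
        h | ⟨u, v, hu, hv, huv⟩
      · rw [h]
      · exfalso
        apply hne'
        have e1 : u * (g : ℤ) = v * (g : ℤ) := by
          have h1 : Finset.univ.gcd (fun i => u * m i) = normalize u * Finset.univ.gcd m :=
            Finset.gcd_mul_left
          have h2 : Finset.univ.gcd (fun i => v * m' i) = normalize v * Finset.univ.gcd m' :=
            Finset.gcd_mul_left
          rw [Int.normalize_of_nonneg hu.le, (hmem m hm).2] at h1
          rw [Int.normalize_of_nonneg hv.le, (hmem m' hm').2] at h2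
          rw [← h1, ← h2]
          congr 1
          funext i
          exact huv i
        have e2 : u = v := mul_right_cancel₀ hgpos.ne' e1
        funext i
        have := huv i
        rw [e2] at this
        exact mul_left_cancel₀ hv.ne' this
    have hfin := hC K' (L ^ 2) hK'1 (by nlinarith) al (fun i j => (hal i j).trans hLL) b Q hQP hQS
    refine hfin.trans ?_
    have h1 : K' ^ theta s ≤ (L * K / g) ^ theta s := by
      have : 0 ≤ theta s := by linarith
      gcongr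
    have h2 : (L * K / g) ^ theta s = (L * K) ^ theta s * ((g : ℝ) ^ theta s)⁻¹ := by
      rw [Real.div_rpow (by positivity) hgR.le]; rfl
    rw [h2] at h1
    calc (C : ℝ) * (L ^ 2) ^ C * K' ^ theta s
        ≤ (C : ℝ) * (L ^ 2) ^ C * ((L * K) ^ theta s * ((g : ℝ) ^ theta s)⁻¹) := by gcongr
      _ = C * L ^ (2 * C) * (L * K) ^ theta s * ((g : ℝ) ^ theta s)⁻¹ := by rw [← pow_mul]; ring
  refine (Finset.sum_le_sum key).trans ?_
  rw [← Finset.mul_sum]
  have h1 : ∑ g ∈ Finset.range N, ((g : ℝ) ^ theta s)⁻¹ ≤ ∑' n : ℕ, ((n : ℝ) ^ theta s)⁻¹ :=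
    hsum.sum_le_tsum _ (fun _ _ => by positivity)
  have h2 : ∑ g ∈ Finset.range N, ((g : ℝ) ^ theta s)⁻¹ ≤ (Z : ℝ) + 1 := by linarith
  have h3 : L ^ theta s ≤ L ^ T := by
    rw [← Real.rpow_natCast]
    exact Real.rpow_le_rpow_of_exponent_le hL hT
  have h4 : (L * K) ^ theta s = L ^ theta s * K ^ theta s := Real.mul_rpow hL0.le hK0.le
  have hX0 : 0 < K ^ theta s := Real.rpow_pos_of_pos hK0 _
  calc (C : ℝ) * L ^ (2 * C) * (L * K) ^ theta s * ∑ g ∈ Finset.range N, ((g : ℝ) ^ theta s)⁻¹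
      ≤ (C : ℝ) * L ^ (2 * C) * (L ^ T * K ^ theta s) * ((Z : ℝ) + 1) := by
        rw [h4]
        gcongr
    _ = ((C * (Z + 1) : ℕ) : ℝ) * L ^ (2 * C + T) * K ^ theta s := by
        push_cast; rw [pow_add]; ring
    _ ≤ ((C * (Z + 1) + (2 * C + T) : ℕ) : ℝ) * L ^ (C * (Z + 1) + (2 * C + T)) * K ^ theta s := by
        have h5 : L ^ (2 * C + T) ≤ L ^ (C * (Z + 1) + (2 * C + T)) := pow_le_pow_right₀ hL (by omega)
        have h6 : ((C * (Z + 1) : ℕ) : ℝ) ≤ ((C * (Z + 1) + (2 * C + T) : ℕ) : ℝ) := by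
          exact_mod_cast Nat.le_add_right _ _
        gcongr
    _ = _ := by push_cast; ring

end Pool.Agent.HS.Cl
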