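import Mathlib
import Pool.Agent.Lib.HS.Binary

/-!
# PROJECT H* (MP_a54f13_nt): interpolation of forms

`interp`: integral vectors `e i` in `ℤ ^ D`, bounded by `B`, spanning `ℚ ^ D`: all are combinations of `D` of them with
rational coefficients bounded by `D! B ^ D` (Cramer).

`interpForms`: if no nonzero form of degree `d` vanishes at all the integral points `n i`, `|n i l| ≤ L`, then `D` of
the values `G (n i)` determine all others, with coefficients bounded by `D! L ^ (d D)`; `D` is the number of monomials.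
`interpTernary` (`D = 6`), `interpQuartic` (`D = 5`), `interpQuadratic` (`D = 3`): the three cases.
-/

set_option autoImplicit false

namespace Pool.Agent.HS

open MvPolynomial

namespace Interp

theorem exists_base {k D : ℕ} (v : Fin k → Fin D → ℚ)
    (hspan : ∀ g : Fin D → ℚ, (∀ i, ∑ j, g j * v i j = 0) → g = 0) :
    ∃ b : Fin D → Fin k, Function.Injective b ∧ LinearIndependent ℚ (v ∘ b) := by
  have hs : Submodule.span ℚ (Set.range v) = ⊤ := by
    by_contra hne
    obtain ⟨f, hf0, hf⟩ := Submodule.exists_le_ker_of_lt_top _ (lt_top_iff_ne_top.mpr hne)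
    apply hf0
    have h1 : (fun j => f (Pi.single j 1)) = (0 : Fin D → ℚ) := by
      apply hspan
      intro i
      have h2 : f (v i) = 0 := by
        have := hf (Submodule.subset_span (Set.mem_range_self i))
        simpa using this
      have h3 : v i = ∑ j, v i j • (Pi.single j 1 : Fin D → ℚ) := by
        ext l
        simp [Finset.sum_apply, Pi.single_apply]
      rw [h3, map_sum] at h2
      rw [← h2]
      refine Finset.sum_congr rfl (fun j _ => ?_)
      rw [map_smul, smul_eq_mul, mul_comm]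
    refine LinearMap.pi_ext' (fun j => ?_)
    ext
    simpa using congrFun h1 j
  obtain ⟨κ, a, ha, hsp, hli⟩ := exists_linearIndependent' ℚ v
  have : Finite κ := Finite.of_injective a ha
  have := Fintype.ofFinite κ
  have hcard : Fintype.card κ = D := by
    have h1 := finrank_span_eq_card hli
    rw [hsp, hs, finrank_top, Module.finrank_fin_fun] at h1
    exact h1.symm
  let eq := (Fintype.equivFinOfCardEq hcard).symm
  exact ⟨a ∘ eq, ha.comp eq.injective, hli.comp eq eq.injective⟩

end Interp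

/-- **Interpolation**, pure linear algebra. -/
theorem interp {k D : ℕ} (e : Fin k → Fin D → ℤ) {B : ℝ} (he : ∀ i j, |(e i j : ℝ)| ≤ B)
    (hspan : ∀ g : Fin D → ℚ, (∀ i, ∑ j, g j * (e i j : ℚ) = 0) → g = 0) :
    ∃ (b : Fin D → Fin k) (α : Fin k → Fin D → ℚ), Function.Injective b ∧
      (∀ i l, (e i l : ℚ) = ∑ j, α i j * (e (b j) l : ℚ)) ∧
      (∀ i j, |(α i j : ℝ)| ≤ D.factorial * B ^ D) ∧
      (∀ j j', α (b j) j' = if j' = j then 1 else 0) := by
  obtain ⟨b, hb, hli⟩ := Interp.exists_base (fun i j => (e i j : ℚ)) hspan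
  set M : Matrix (Fin D) (Fin D) ℤ := fun j l => e (b j) l with hM
  have hdet : M.det ≠ 0 := by
    have h1 : LinearIndependent ℚ (M.map (Int.castRingHom ℚ)).row := by
      exact hli
    rw [Matrix.linearIndependent_rows_iff_isUnit, Matrix.isUnit_iff_isUnit_det, isUnit_iff_ne_zero] at h1
    intro h
    apply h1
    have h2 := (Int.castRingHom ℚ).map_det M
    rw [h, map_zero] at h2
    exact h2.symm
  refine ⟨b, fun i j => ((M.updateRow j (e i)).det : ℚ) / (M.det : ℚ), hb, ?_, ?_, ?_⟩
  · intro i l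
    have h1 := Matrix.mulVec_cramer M.transpose (e i)
    have h2 := congrFun h1 l
    rw [Matrix.mulVec, dotProduct] at h2
    simp only [Matrix.transpose_apply, Matrix.cramer_transpose_apply, Matrix.det_transpose, Pi.smul_apply,
      smul_eq_mul] at h2
    have h3 : (M.det : ℚ) ≠ 0 := by exact_mod_cast hdet
    have h4 : (M.det : ℚ) * (e i l : ℚ) = ∑ j, (M j l : ℚ) * ((M.updateRow j (e i)).det : ℚ) := by
      exact_mod_cast h2.symm
    apply mul_left_cancel₀ h3
    rw [h4, Finset.mul_sum]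
    refine Finset.sum_congr rfl (fun j _ => ?_)
    have h5 : (e (b j) l : ℚ) = (M j l : ℚ) := rfl
    rw [h5]
    field_simp
  · intro i j
    have h1 : |((M.updateRow j (e i)).det : ℝ)| ≤ D.factorial * B ^ D := by
      have h2 := Matrix.det_le (A := (M.updateRow j (e i)).map (Int.castRingHom ℝ)) (abv := AbsoluteValue.abs)
        (x := B) (fun p q => by
          rw [AbsoluteValue.abs_apply, Matrix.map_apply, Matrix.updateRow_apply]
          split_ifs
          · exact he i q
          · exact he (b p) q)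
      rw [AbsoluteValue.abs_apply, Fintype.card_fin, nsmul_eq_mul] at h2
      have h3 := (Int.castRingHom ℝ).map_det (M.updateRow j (e i))
      rw [RingHom.mapMatrix_apply] at h3
      rw [← h3] at h2
      exact h2
    have h4 : (1 : ℝ) ≤ |(M.det : ℝ)| := by
      have := Int.one_le_abs hdet
      exact_mod_cast this
    rw [Rat.cast_div, Rat.cast_intCast, Rat.cast_intCast, abs_div, div_le_iff₀ (by linarith)]
    calc |((M.updateRow j (e i)).det : ℝ)| ≤ D.factorial * B ^ D := h1
      _ = D.factorial * B ^ D * 1 := by ring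
      _ ≤ D.factorial * B ^ D * |(M.det : ℝ)| := by
          apply mul_le_mul_of_nonneg_left h4
          exact (abs_nonneg _).trans h1
  · intro j j'
    have h3 : (M.det : ℚ) ≠ 0 := by exact_mod_cast hdet
    have hrow : e (b j) = M j := rfl
    simp only [hrow]
    split_ifs with h
    · subst h
      rw [Matrix.updateRow_eq_self, div_self h3]
    · rw [Matrix.det_zero_of_row_eq (Ne.symm h : j ≠ j')]
      · simp
      · rw [Matrix.updateRow_self, Matrix.updateRow_ne (Ne.symm h)]

namespace Interp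

variable {r d : ℕ}

theorem degree_symm (t : Fin r → ℕ) : Finsupp.degree (Finsupp.equivFunOnFinite.symm t) = ∑ l, t l := by
  rw [Finsupp.degree_eq_sum]
  rfl

theorem eval_form {G : MvPolynomial (Fin r) ℚ} (hG : G.IsHomogeneous d) (p : Fin r → ℚ) :
    eval p G = ∑ t ∈ Finset.Nat.antidiagonalTuple r d,
      coeff (Finsupp.equivFunOnFinite.symm t) G * ∏ l, p l ^ t l := by
  classical
  have h1 : ∑ t ∈ Finset.Nat.antidiagonalTuple r d,
      coeff (Finsupp.equivFunOnFinite.symm t) G * ∏ l, p l ^ t l =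
      ∑ s ∈ (Finset.Nat.antidiagonalTuple r d).map Finsupp.equivFunOnFinite.symm.toEmbedding,
        coeff s G * ∏ l, p l ^ s l := by
    rw [Finset.sum_map]
    rfl
  rw [h1, eval_eq']
  refine Finset.sum_subset ?_ ?_
  · intro s hs
    rw [Finset.mem_map_equiv, Finset.Nat.mem_antidiagonalTuple]
    have h := hG (mem_support_iff.mp hs)
    rw [Finsupp.weight_apply, Finsupp.sum_fintype _ _ (by simp)] at h
    simpa using h
  · intro s _ hs
    rw [notMem_support_iff.mp hs, zero_mul]

/-- The monomial values at the point `p`. -/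
def mon (p : Fin r → ℤ) (t : Fin r → ℕ) : ℤ := ∏ l, p l ^ t l

theorem mon_le {L : ℝ} {p : Fin r → ℤ} (hp : ∀ l, |(p l : ℝ)| ≤ L) {t : Fin r → ℕ}
    (ht : t ∈ Finset.Nat.antidiagonalTuple r d) : |(mon p t : ℝ)| ≤ L ^ d := by
  rw [Finset.Nat.mem_antidiagonalTuple] at ht
  rw [mon]
  push_cast
  rw [Finset.abs_prod, ← ht, ← Finset.prod_pow_eq_pow_sum]
  refine Finset.prod_le_prod (fun _ _ => abs_nonneg _) (fun l _ => ?_)
  rw [abs_pow]
  exact pow_le_pow_left₀ (abs_nonneg _) (hp l) _

end Interp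

/-- **Interpolation of forms.** -/
theorem interpForms {r d D k : ℕ} (hD : (Finset.Nat.antidiagonalTuple r d).card = D) (n : Fin k → Fin r → ℤ) {L : ℝ}
    (hL : ∀ i l, |(n i l : ℝ)| ≤ L)
    (hn : ∀ f : MvPolynomial (Fin r) ℚ, f.IsHomogeneous d → (∀ i, eval (fun l => (n i l : ℚ)) f = 0) → f = 0) :
    ∃ (b : Fin D → Fin k) (α : Fin k → Fin D → ℚ), Function.Injective b ∧
      (∀ i j, |(α i j : ℝ)| ≤ D.factorial * (L ^ d) ^ D) ∧
      (∀ j j', α (b j) j' = if j' = j then 1 else 0) ∧
      (∀ G : MvPolynomial (Fin r) ℚ, G.IsHomogeneous d → ∀ i,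
        eval (fun l => (n i l : ℚ)) G = ∑ j, α i j * eval (fun l => (n (b j) l : ℚ)) G) := by
  classical
  let eq : {t // t ∈ Finset.Nat.antidiagonalTuple r d} ≃ Fin D := Finset.equivFinOfCardEq hD
  let tt : Fin D → (Fin r → ℕ) := fun j => (eq.symm j).1
  have htt : ∀ j, tt j ∈ Finset.Nat.antidiagonalTuple r d := fun j => (eq.symm j).2
  have hsum : ∀ F : (Fin r → ℕ) → ℚ, ∑ t ∈ Finset.Nat.antidiagonalTuple r d, F t = ∑ j, F (tt j) := by
    intro F
    rw [← Finset.sum_coe_sort]
    exact (Equiv.sum_comp eq.symm (fun t => F t.1)).symm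
  have heval : ∀ (G : MvPolynomial (Fin r) ℚ), G.IsHomogeneous d → ∀ i,
      eval (fun l => (n i l : ℚ)) G =
        ∑ j, coeff (Finsupp.equivFunOnFinite.symm (tt j)) G * (Interp.mon (n i) (tt j) : ℚ) := by
    intro G hG i
    rw [Interp.eval_form hG, hsum]
    refine Finset.sum_congr rfl (fun j _ => ?_)
    rw [Interp.mon]
    push_cast
    rfl
  obtain ⟨b, α, hb, h1, h2, h3⟩ := interp (fun i j => Interp.mon (n i) (tt j)) (B := L ^ d)
    (fun i j => Interp.mon_le (hL i) (htt j)) (fun g hg => by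
      set G : MvPolynomial (Fin r) ℚ := ∑ j, monomial (Finsupp.equivFunOnFinite.symm (tt j)) (g j) with hGdef
      have hGh : G.IsHomogeneous d := by
        refine IsHomogeneous.sum _ _ _ (fun j _ => ?_)
        apply isHomogeneous_monomial
        rw [Interp.degree_symm]
        exact Finset.Nat.mem_antidiagonalTuple.mp (htt j)
      have hcoef : ∀ j, coeff (Finsupp.equivFunOnFinite.symm (tt j)) G = g j := by
        intro j
        rw [hGdef, coeff_sum, Finset.sum_eq_single j]
        · rw [coeff_monomial, if_pos rfl]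
        · intro j' _ hj'
          rw [coeff_monomial, if_neg]
          intro h
          apply hj'
          have h4 := Finsupp.equivFunOnFinite.symm.injective h
          exact eq.symm.injective (Subtype.ext h4)
        · intro h; exact absurd (Finset.mem_univ j) h
      have hG0 : G = 0 := by
        apply hn G hGh
        intro i
        rw [heval G hGh i, ← hg i]
        exact Finset.sum_congr rfl (fun j _ => by rw [hcoef])
      ext j
      rw [← hcoef j, hG0, coeff_zero]
      rfl)
  refine ⟨b, α, hb, h2, h3, fun G hG i => ?_⟩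
  rw [heval G hG i]
  have h4 : ∀ j, eval (fun l => (n (b j) l : ℚ)) G =
      ∑ l, coeff (Finsupp.equivFunOnFinite.symm (tt l)) G * (Interp.mon (n (b j)) (tt l) : ℚ) :=
    fun j => heval G hG (b j)
  simp only [h4, Finset.mul_sum]
  rw [Finset.sum_comm]
  refine Finset.sum_congr rfl (fun l _ => ?_)
  rw [h1 i l, Finset.mul_sum]
  exact Finset.sum_congr rfl (fun j _ => by ring)

/-- Ternary quadratic forms, `D = 6`. -/
theorem interpTernary {k : ℕ} (n : Fin k → Fin 3 → ℤ) {L : ℝ} (hL : ∀ i l, |(n i l : ℝ)| ≤ L)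
    (hn : ∀ f : MvPolynomial (Fin 3) ℚ, f.IsHomogeneous 2 → (∀ i, eval (fun l => (n i l : ℚ)) f = 0) → f = 0) :
    ∃ (b : Fin 6 → Fin k) (α : Fin k → Fin 6 → ℚ), Function.Injective b ∧
      (∀ i j, |(α i j : ℝ)| ≤ 720 * L ^ 12) ∧
      (∀ j j', α (b j) j' = if j' = j then 1 else 0) ∧
      (∀ G : MvPolynomial (Fin 3) ℚ, G.IsHomogeneous 2 → ∀ i,
        eval (fun l => (n i l : ℚ)) G = ∑ j, α i j * eval (fun l => (n (b j) l : ℚ)) G) := by
  obtain ⟨b, α, h1, h2, h3, h4⟩ := interpForms (r := 3) (d := 2) (D := 6) (by decide) n hL hn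
  refine ⟨b, α, h1, fun i j => (h2 i j).trans_eq ?_, h3, h4⟩
  rw [← pow_mul]
  norm_num [Nat.factorial]

/-- Binary quartic forms, `D = 5`: more than `4` points of the projective line. -/
theorem interpQuartic {k : ℕ} (n : Fin k → Fin 2 → ℤ) {L : ℝ} (hL : ∀ i l, |(n i l : ℝ)| ≤ L) (hk : 4 < k)
    (hnn : ∀ i j, i ≠ j → n i 0 * n j 1 ≠ n i 1 * n j 0) :
    ∃ (b : Fin 5 → Fin k) (α : Fin k → Fin 5 → ℚ), Function.Injective b ∧
      (∀ i j, |(α i j : ℝ)| ≤ 120 * L ^ 20) ∧
      (∀ j j', α (b j) j' = if j' = j then 1 else 0) ∧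
      (∀ G : MvPolynomial (Fin 2) ℚ, G.IsHomogeneous 4 → ∀ i,
        eval (fun l => (n i l : ℚ)) G = ∑ j, α i j * eval (fun l => (n (b j) l : ℚ)) G) := by
  obtain ⟨b, α, h1, h2, h3, h4⟩ := interpForms (r := 2) (d := 4) (D := 5) (by decide) n hL
    (fun f hf h => binaryZero hf (fun i l => (n i l : ℚ)) (fun i j hij h' => hnn i j hij (by exact_mod_cast h'))
      (by simpa using hk) h)
  refine ⟨b, α, h1, fun i j => (h2 i j).trans_eq ?_, h3, h4⟩
  rw [← pow_mul]
  norm_num [Nat.factorial]

/-- Binary quadratic forms, `D = 3`: more than `2` points of the projective line. -/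
theorem interpQuadratic {k : ℕ} (n : Fin k → Fin 2 → ℤ) {L : ℝ} (hL : ∀ i l, |(n i l : ℝ)| ≤ L) (hk : 2 < k)
    (hnn : ∀ i j, i ≠ j → n i 0 * n j 1 ≠ n i 1 * n j 0) :
    ∃ (b : Fin 3 → Fin k) (α : Fin k → Fin 3 → ℚ), Function.Injective b ∧
      (∀ i j, |(α i j : ℝ)| ≤ 6 * L ^ 6) ∧
      (∀ j j', α (b j) j' = if j' = j then 1 else 0) ∧
      (∀ G : MvPolynomial (Fin 2) ℚ, G.IsHomogeneous 2 → ∀ i,
        eval (fun l => (n i l : ℚ)) G = ∑ j, α i j * eval (fun l => (n (b j) l : ℚ)) G) := by
  obtain ⟨b, α, h1, h2, h3, h4⟩ := interpForms (r := 2) (d := 2) (D := 3) (by decide) n hL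
    (fun f hf h => binaryZero hf (fun i l => (n i l : ℚ)) (fun i j hij h' => hnn i j hij (by exact_mod_cast h'))
      (by simpa using hk) h)
  refine ⟨b, α, h1, fun i j => (h2 i j).trans_eq ?_, h3, h4⟩
  rw [← pow_mul]
  norm_num [Nat.factorial]

end Pool.Agent.HS
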