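import Pool.Agent.Lib.HS.Am7

/-!
# Package `HS`, the directional square amplifier, part 1: directions
-/

set_option autoImplicit false

namespace Pool.Agent.A54.HS

open MeasureTheory Filter Topology Set
open scoped ContDiff ComplexConjugate UpperHalfPlane MatrixGroups ENNReal
open Pool.Agent.A54.Dyn (G fl base ze io mk4 dom)
open Pool.Agent.A54.Av (Mat NonSc)
open Pool.Agent.A54.Hp Pool.Agent.A54.Hp.Hk Pool.Agent.A54.Hp.A2M

noncomputable section

/-- no vector of `B` is killed by `s` modulo `p` -/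
def dk (B : Finset (Fin 2 → ℤ)) (p : ℕ) (s : Mat) : Prop :=
  ∀ u ∈ B, ¬ ∀ i, (p : ℤ) ∣ s.mulVec u i

lemma mulVec_dvd {p : ℕ} (m : Mat) {v : Fin 2 → ℤ} (h : ∀ i, (p : ℤ) ∣ v i) (i : Fin 2) :
    (p : ℤ) ∣ m.mulVec v i := by
  rw [Matrix.mulVec, dotProduct, Fin.sum_univ_two]
  exact (Dvd.dvd.mul_left (h 0) _).add (Dvd.dvd.mul_left (h 1) _)

lemma mulVec_of {p : ℕ} (hp : p.Prime) {m : Mat} (hm : ¬ (p : ℤ) ∣ m.det) {v : Fin 2 → ℤ}
    (h : ∀ i, (p : ℤ) ∣ m.mulVec v i) (i : Fin 2) : (p : ℤ) ∣ v i := by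
  have hpp : Prime (p : ℤ) := Nat.prime_iff_prime_int.1 hp
  have h1 := mulVec_dvd m.adjugate h i
  rw [Matrix.mulVec_mulVec, Matrix.adjugate_mul, Matrix.smul_mulVec, Matrix.one_mulVec,
    Pi.smul_apply, smul_eq_mul] at h1
  exact (hpp.dvd_or_dvd h1).resolve_left hm

lemma dk_mul_left {B : Finset (Fin 2 → ℤ)} {p : ℕ} (hp : p.Prime) {m : Mat}
    (hm : ¬ (p : ℤ) ∣ m.det) (s : Mat) : dk B p (m * s) ↔ dk B p s := by
  refine forall_congr' fun u => forall_congr' fun _ => not_congr ?_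
  rw [← Matrix.mulVec_mulVec]
  exact ⟨fun h => mulVec_of hp hm h, fun h => mulVec_dvd m h⟩

/-- the kernel modulo `p` -/
lemma ker_eq {p : ℕ} (hp : p.Prime) {m r : Mat} (hr : (p : ℤ) ∣ r.det) (hmr : ¬ PD p (m * r))
    {u : Fin 2 → ℤ} (h : ∀ i, (p : ℤ) ∣ (m * r).mulVec u i) (i : Fin 2) :
    (p : ℤ) ∣ r.mulVec u i := by
  have hpp : Prime (p : ℤ) := Nat.prime_iff_prime_int.1 hp
  by_contra hi
  apply hmr
  intro a k
  rw [← Matrix.mulVec_mulVec] at h
  set v := r.mulVec u with hv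
  have hv0 : v 0 = r 0 0 * u 0 + r 0 1 * u 1 := by
    rw [hv, Matrix.mulVec, dotProduct, Fin.sum_univ_two]
  have hv1 : v 1 = r 1 0 * u 0 + r 1 1 * u 1 := by
    rw [hv, Matrix.mulVec, dotProduct, Fin.sum_univ_two]
  have hma : (p : ℤ) ∣ m a 0 * v 0 + m a 1 * v 1 := by
    have := h a
    rwa [Matrix.mulVec, dotProduct, Fin.sum_univ_two] at this
  rw [Matrix.det_fin_two] at hr
  -- the columns of `r` are parallel to `v`
  have hpar : (p : ℤ) ∣ r 0 k * v 1 - r 1 k * v 0 := by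
    obtain ⟨d, hd⟩ := hr
    fin_cases k
    · refine ⟨d * u 1, ?_⟩
      simp only [Fin.zero_eta, Fin.isValue]
      rw [hv0, hv1]
      linear_combination (u 1) * hd
    · refine ⟨-(d * u 0), ?_⟩
      simp only [Fin.mk_one, Fin.isValue]
      rw [hv0, hv1]
      linear_combination (-u 0) * hd
  rw [Matrix.mul_apply, Fin.sum_univ_two]
  obtain ⟨d, hd⟩ := hpar
  obtain ⟨e, he⟩ := hma
  fin_cases i
  · simp only [Fin.zero_eta, Fin.isValue] at hi
    have h1 : (p : ℤ) ∣ v 0 * (m a 0 * r 0 k + m a 1 * r 1 k) :=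
      ⟨r 0 k * e - m a 1 * d, by linear_combination (r 0 k) * he - (m a 1) * hd⟩
    exact (hpp.dvd_or_dvd h1).resolve_left hi
  · simp only [Fin.mk_one, Fin.isValue] at hi
    have h1 : (p : ℤ) ∣ v 1 * (m a 0 * r 0 k + m a 1 * r 1 k) :=
      ⟨r 1 k * e + m a 0 * d, by linear_combination (r 1 k) * he + (m a 0) * hd⟩
    exact (hpp.dvd_or_dvd h1).resolve_left hi

/-- with `r` of rank one modulo `p` and `m r ≠ 0` -/
lemma dk_of_mul {B : Finset (Fin 2 → ℤ)} {p : ℕ} (hp : p.Prime) {m r : Mat} (hr : (p : ℤ) ∣ r.det)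
    (hmr : ¬ PD p (m * r)) (h : dk B p r) : dk B p (m * r) :=
  fun u hu h' => h u hu fun i => ker_eq hp hr hmr h' i

open Classical in
/-- the bad directions -/
def Bp (B : Finset (Fin 2 → ℤ)) (p : ℕ) : Finset (Option (Fin p)) :=
  Finset.univ.filter (fun j => ∃ u ∈ B, ∀ i, (p : ℤ) ∣ (rp p j).mulVec u i)

lemma rp_mulVec_none (p : ℕ) (u : Fin 2 → ℤ) : (rp p none).mulVec u = ![(p : ℤ) * u 0, u 1] := by
  funext i
  fin_cases i <;> simp [rp, Matrix.mulVec, dotProduct, Fin.sum_univ_two]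

lemma rp_mulVec_some (p : ℕ) (b : Fin p) (u : Fin 2 → ℤ) :
    (rp p (some b)).mulVec u = ![u 0 + ((b : ℕ) : ℤ) * u 1, (p : ℤ) * u 1] := by
  funext i
  fin_cases i <;> simp [rp, Matrix.mulVec, dotProduct, Fin.sum_univ_two]

lemma one_dir {p : ℕ} (hp : p.Prime) {u : Fin 2 → ℤ} (hu : ¬ ∀ i, (p : ℤ) ∣ u i)
    {j j' : Option (Fin p)} (h : ∀ i, (p : ℤ) ∣ (rp p j).mulVec u i)
    (h' : ∀ i, (p : ℤ) ∣ (rp p j').mulVec u i) : j = j' := by
  have hpp : Prime (p : ℤ) := Nat.prime_iff_prime_int.1 hp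
  by_contra hne
  apply hu
  have key : ∀ b : Fin p, (∀ i, (p : ℤ) ∣ (rp p none).mulVec u i) →
      (∀ i, (p : ℤ) ∣ (rp p (some b)).mulVec u i) → ∀ i, (p : ℤ) ∣ u i := by
    intro b h1 h2
    rw [rp_mulVec_none] at h1
    rw [rp_mulVec_some] at h2
    have h3 : (p : ℤ) ∣ u 1 := h1 1
    have h4 : (p : ℤ) ∣ u 0 + ((b : ℕ) : ℤ) * u 1 := h2 0
    have h5 : (p : ℤ) ∣ u 0 := (Int.dvd_add_left (Dvd.dvd.mul_left h3 _)).1 h4
    intro i
    fin_cases i
    · exact h5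
    · exact h3
  cases j with
  | none =>
    cases j' with
    | none => exact absurd rfl hne
    | some b => exact key b h h'
  | some b =>
    cases j' with
    | none => exact key b h' h
    | some b' =>
      have hbb : b ≠ b' := fun h => hne (by rw [h])
      have hnd : ¬ (p : ℤ) ∣ (((b : ℕ) : ℤ) - ((b' : ℕ) : ℤ)) := by
        intro h
        have h1 := b.2
        have h2 := b'.2
        have h3 := Int.eq_zero_of_abs_lt_dvd h (by rw [abs_lt]; constructor <;> omega)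
        apply hbb
        apply Fin.ext
        omega
      rw [rp_mulVec_some] at h h'
      have h1 : (p : ℤ) ∣ u 0 + ((b : ℕ) : ℤ) * u 1 := h 0
      have h2 : (p : ℤ) ∣ u 0 + ((b' : ℕ) : ℤ) * u 1 := h' 0
      have h3 : (p : ℤ) ∣ (((b : ℕ) : ℤ) - ((b' : ℕ) : ℤ)) * u 1 := by
        have := h1.sub h2
        have e : u 0 + ((b : ℕ) : ℤ) * u 1 - (u 0 + ((b' : ℕ) : ℤ) * u 1) =
          (((b : ℕ) : ℤ) - ((b' : ℕ) : ℤ)) * u 1 := by ring
        rwa [e] at this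
      have h4 : (p : ℤ) ∣ u 1 := (hpp.dvd_or_dvd h3).resolve_left hnd
      have h5 : (p : ℤ) ∣ u 0 := (Int.dvd_add_left (Dvd.dvd.mul_left h4 _)).1 h1
      intro i
      fin_cases i
      · exact h5
      · exact h4

lemma Bp_card {B : Finset (Fin 2 → ℤ)} {p : ℕ} (hp : p.Prime)
    (hB : ∀ u ∈ B, ¬ ∀ i, (p : ℤ) ∣ u i) : (Bp B p).card ≤ B.card := by
  classical
  have h1 : ∀ j ∈ Bp B p, ∃ u ∈ B, ∀ i, (p : ℤ) ∣ (rp p j).mulVec u i := fun j hj =>
    (Finset.mem_filter.1 hj).2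
  refine Finset.card_le_card_of_injOn (fun j => if h : j ∈ Bp B p then (h1 j h).choose else 0) ?_ ?_
  · intro j hj
    have hj' : j ∈ Bp B p := hj
    simp only [dif_pos hj']
    exact (h1 j hj').choose_spec.1
  · intro j hj j' hj' h
    have hj1 : j ∈ Bp B p := hj
    have hj1' : j' ∈ Bp B p := hj'
    simp only [dif_pos hj1, dif_pos hj1'] at h
    refine one_dir hp (hB _ (h1 j hj1).choose_spec.1) (h1 j hj1).choose_spec.2 ?_
    rw [h]
    exact (h1 j' hj1').choose_spec.2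

lemma dk_rr {B : Finset (Fin 2 → ℤ)} {p : ℕ} (hp : p.Prime) {x : Option (Fin p) × Option (Fin p)}
    (hx : ¬ PD p (rr p x)) (h : x.2 ∉ Bp B p) : dk B p (rr p x) := by
  classical
  refine dk_of_mul hp ?_ hx ?_
  · rw [rp_det]
  · intro u hu hd
    exact h (Finset.mem_filter.2 ⟨Finset.mem_univ _, u, hu, hd⟩)

open Classical in
/-- one backtracking neighbour in every direction -/
lemma back_one {p : ℕ} (hp : p.Prime) {β : Type} [AddCommMonoid β] (c : β) (j' : Option (Fin p)) :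
    ∑ j : Option (Fin p), (if PD p (rr p (j, j')) then c else 0) = c := by
  cases j' with
  | none =>
    rw [Fintype.sum_option, if_neg (rr_none_none hp), zero_add]
    have h2 : ∀ b : Fin p, (if PD p (rr p (some b, none)) then c else 0) =
        if b = ⟨0, hp.pos⟩ then c else 0 := by
      intro b
      by_cases hb : (b : ℕ) = 0
      · rw [if_pos ((rr_some_none b).2 hb), if_pos (Fin.ext hb)]
      · rw [if_neg fun h => hb ((rr_some_none b).1 h), if_neg fun h => hb (by rw [h])]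
    simp only [h2]
    rw [Finset.sum_ite_eq' Finset.univ, if_pos (Finset.mem_univ _)]
  | some b' =>
    rw [Fintype.sum_option, if_pos (rr_none_some p b')]
    have : ∀ b : Fin p, (if PD p (rr p (some b, some b')) then c else 0) = 0 :=
      fun b => if_neg (rr_some_some hp b b')
    simp only [this, Finset.sum_const_zero, add_zero]

open Classical in
/-- the directional operator -/
def T2d (B : Finset (Fin 2 → ℤ)) (p : ℕ) (h : G → ℝ≥0∞) (y : G) : ℝ≥0∞ :=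
  ∑ x ∈ (Np p).filter (fun x => dk B p (rr p x)), h (nm (rr p x) * y)

open Classical in
/-- its dual -/
def T2sd (B : Finset (Fin 2 → ℤ)) (p : ℕ) (F : G → ℝ≥0∞) (y : G) : ℝ≥0∞ :=
  ∑ x ∈ (Np p).filter (fun x => dk B p (rr p x)), F ((nm (rr p x))⁻¹ * y)

lemma meas_T2d {h : G → ℝ≥0∞} (hh : Measurable h) (B : Finset (Fin 2 → ℤ)) (p : ℕ) :
    Measurable (T2d B p h) := Finset.measurable_sum _ fun _ _ => meas_mul hh _

lemma meas_T2sd {F : G → ℝ≥0∞} (hF : Measurable F) (B : Finset (Fin 2 → ℤ)) (p : ℕ) :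
    Measurable (T2sd B p F) := Finset.measurable_sum _ fun _ _ => meas_mul hF _

lemma int_T2d (hNu : StmtNuL) {F h : G → ℝ≥0∞} (hF : Measurable F) (hh : Measurable h)
    (B : Finset (Fin 2 → ℤ)) (p : ℕ) :
    ∫⁻ x, F x * T2d B p h x ∂nu = ∫⁻ x, T2sd B p F x * h x ∂nu := by
  classical
  have := hNu.1
  unfold T2d T2sd
  simp only [Finset.mul_sum, Finset.sum_mul]
  have m1 : ∀ j ∈ (Np p).filter (fun x => dk B p (rr p x)), Measurable fun x => F x * h (nm (rr p j) * x) :=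
    fun j _ => hF.mul (meas_mul hh _)
  have m2 : ∀ j ∈ (Np p).filter (fun x => dk B p (rr p x)),
      Measurable fun x => F ((nm (rr p j))⁻¹ * x) * h x :=
    fun j _ => (meas_mul hF _).mul hh
  rw [lintegral_finsetSum _ m1, lintegral_finsetSum _ m2]
  refine Finset.sum_congr rfl fun j _ => ?_
  rw [← lintegral_mul_left_eq_self (μ := nu) (fun g => F ((nm (rr p j))⁻¹ * g) * h g) (nm (rr p j))]
  simp only [inv_mul_cancel_left]

open Classical in
/-- the Hecke relation in the good directions -/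
lemma hecke_dir (hNm : StmtNm) {l : ℕ → ℝ} {Φ : G → ℂ} (hE : HE l Φ) {p : ℕ} (hp : p.Prime)
    (B : Finset (Fin 2 → ℤ)) (y : G) :
    ∑ x ∈ (Np p).filter (fun x => x.2 ∉ Bp B p), Φ (nm (rr p x) * y) =
      (((p : ℝ) * l p ^ 2 - ((p + 1 : ℝ) - (Bp B p).card) : ℝ) : ℂ) * Φ y -
        ((√p * l p : ℝ) : ℂ) * ∑ j ∈ Bp B p, Φ (nm (rp p j) * y) := by
  have hh : ∀ z : G, ∑ j : Option (Fin p), Φ (nm (rp p j) * z) = ((√p * l p : ℝ) : ℂ) * Φ z := by
    intro z
    rw [← hE.hecke p hp z, Fintype.sum_option, Finset.sum_range]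
    rfl
  -- one direction
  have h1 : ∀ j' : Option (Fin p), ∑ j : Option (Fin p),
      (if PD p (rr p (j, j')) then 0 else Φ (nm (rr p (j, j')) * y)) =
      ((√p * l p : ℝ) : ℂ) * Φ (nm (rp p j') * y) - Φ y := by
    intro j'
    rw [eq_sub_iff_add_eq, ← hh (nm (rp p j') * y)]
    have h2 : Φ y = ∑ j : Option (Fin p), (if PD p (rr p (j, j')) then Φ y else 0) :=
      (back_one hp (Φ y) j').symm
    conv_lhs => rw [h2]
    rw [← Finset.sum_add_distrib]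
    refine Finset.sum_congr rfl fun j _ => ?_
    have e1 : nm (rr p (j, j')) * y = nm (rp p j) * (nm (rp p j') * y) := by
      unfold rr
      rw [hNm.1 _ _ (rp_pos hp j) (rp_pos hp j'), mul_assoc]
    by_cases h : PD p (rr p (j, j'))
    · rw [if_pos h, if_pos h, zero_add, ← e1]
      obtain ⟨γ, hγ⟩ := PD_io hp.pos (rr_det p (j, j')) h
      rw [hγ, hNm.2.2.2.1 (p : ℤ) (γ : Mat) (by exact_mod_cast hp.pos), hNm.2.1, hE.inv]
    · rw [if_neg h, if_neg h, add_zero, e1]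
  have h3 : ∑ x ∈ (Np p).filter (fun x => x.2 ∉ Bp B p), Φ (nm (rr p x) * y) =
      ∑ j' ∈ (Bp B p)ᶜ, ∑ j : Option (Fin p),
        (if PD p (rr p (j, j')) then 0 else Φ (nm (rr p (j, j')) * y)) := by
    unfold Np
    rw [Finset.filter_filter, Finset.sum_filter, Fintype.sum_prod_type, Finset.sum_comm]
    have h4 : ∀ j' : Option (Fin p), (∑ j : Option (Fin p),
        (if ¬ PD p (rr p (j, j')) ∧ j' ∉ Bp B p then Φ (nm (rr p (j, j')) * y) else 0)) =
        if j' ∈ (Bp B p)ᶜ then ∑ j : Option (Fin p),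
        (if PD p (rr p (j, j')) then 0 else Φ (nm (rr p (j, j')) * y)) else 0 := by
      intro j'
      by_cases hj : j' ∈ Bp B p
      · rw [if_neg (by simpa using hj)]
        exact Finset.sum_eq_zero fun j _ => if_neg fun h => h.2 hj
      · rw [if_pos (by simpa using hj)]
        refine Finset.sum_congr rfl fun j _ => ?_
        by_cases h : PD p (rr p (j, j'))
        · rw [if_pos h, if_neg fun h' => h'.1 h]
        · rw [if_neg h, if_pos ⟨h, hj⟩]
    rw [Finset.sum_congr rfl fun j' _ => h4 j', ← Finset.sum_filter]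
    congr 1
    ext j'
    simp
  rw [h3]
  simp only [h1]
  rw [Finset.sum_sub_distrib, ← Finset.mul_sum, Finset.sum_const]
  have h5 : ∑ j ∈ (Bp B p)ᶜ, Φ (nm (rp p j) * y) =
      ((√p * l p : ℝ) : ℂ) * Φ y - ∑ j ∈ Bp B p, Φ (nm (rp p j) * y) := by
    rw [eq_sub_iff_add_eq, ← hh y, add_comm]
    exact Finset.sum_add_sum_compl _ _
  have h6 : ((Bp B p)ᶜ.card : ℂ) = (p : ℂ) + 1 - (Bp B p).card := by
    have h7 : (Bp B p)ᶜ.card + (Bp B p).card = p + 1 := by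
      rw [Finset.card_compl_add_card, Fintype.card_option, Fintype.card_fin]
    have h8 : ((Bp B p)ᶜ.card : ℂ) + ((Bp B p).card : ℂ) = (p : ℂ) + 1 := by exact_mod_cast h7
    linear_combination h8
  rw [h5, nsmul_eq_mul, h6]
  have h9 : ((√p * l p : ℝ) : ℂ) * ((√p * l p : ℝ) : ℂ) = ((p * l p ^ 2 : ℝ) : ℂ) := by
    rw [← Complex.ofReal_mul]
    congr 1
    have h3 : √(p : ℝ) * √(p : ℝ) = p := Real.mul_self_sqrt (by positivity)
    linear_combination (l p ^ 2) * h3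
  push_cast at h9 ⊢
  linear_combination (Φ y) * h9

/-- the pointwise inequality in the good directions -/
lemma hecke_dir_le (hNm : StmtNm) {l : ℕ → ℝ} {Φ : G → ℂ} (hE : HE l Φ) {p : ℕ} (hp : p.Prime)
    {B : Finset (Fin 2 → ℤ)} (hB : ∀ u ∈ B, ¬ ∀ i, (p : ℤ) ∣ u i) (hBp : 8 * (B.card : ℝ) ≤ p)
    (hl : |l p| ≤ 1 / 2) (y : G) :
    ENNReal.ofReal ((p : ℝ) / 2) * ‖Φ y‖ₑ ≤ T2d B p (fun z => ‖Φ z‖ₑ) y +
      ENNReal.ofReal (√p * |l p|) * ∑ j ∈ Bp B p, ‖Φ (nm (rp p j) * y)‖ₑ := by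
  classical
  have h1 := hecke_dir hNm hE hp B y
  set S := ∑ x ∈ (Np p).filter (fun x => x.2 ∉ Bp B p), Φ (nm (rr p x) * y) with hS
  set c : ℝ := (p + 1 : ℝ) - (Bp B p).card - p * l p ^ 2 with hc
  have h2 : ((c : ℝ) : ℂ) * Φ y = -S - ((√p * l p : ℝ) : ℂ) * ∑ j ∈ Bp B p, Φ (nm (rp p j) * y) := by
    rw [h1, hc]
    push_cast
    ring
  have hcard : ((Bp B p).card : ℝ) ≤ B.card := by exact_mod_cast Bp_card hp hB
  have hl2 : l p ^ 2 ≤ 1 / 4 := by
    have h3 := abs_nonneg (l p)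
    nlinarith [sq_abs (l p)]
  have hp0 : (0 : ℝ) < p := by exact_mod_cast hp.pos
  have hc1 : (p : ℝ) / 2 ≤ c := by
    rw [hc]
    nlinarith
  have hc0 : 0 ≤ c := by linarith
  have h3 : ENNReal.ofReal c * ‖Φ y‖ₑ = ‖((c : ℝ) : ℂ) * Φ y‖ₑ := by
    rw [enorm_mul]
    congr 1
    rw [← ofReal_norm, Complex.norm_real, Real.norm_eq_abs, abs_of_nonneg hc0]
  have h4 : ‖((√p * l p : ℝ) : ℂ)‖ₑ = ENNReal.ofReal (√p * |l p|) := by
    rw [← ofReal_norm, Complex.norm_real, Real.norm_eq_abs, abs_mul, abs_of_nonneg (Real.sqrt_nonneg _)]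
  have h5 : ‖S‖ₑ ≤ T2d B p (fun z => ‖Φ z‖ₑ) y := by
    refine (enorm_sum_le _ _).trans ?_
    unfold T2d
    refine Finset.sum_le_sum_of_subset ?_
    intro x hx
    obtain ⟨h6, h7⟩ := Finset.mem_filter.1 hx
    refine Finset.mem_filter.2 ⟨h6, dk_rr hp ?_ h7⟩
    exact (Finset.mem_filter.1 h6).2
  calc ENNReal.ofReal ((p : ℝ) / 2) * ‖Φ y‖ₑ ≤ ENNReal.ofReal c * ‖Φ y‖ₑ :=
        mul_le_mul_left (ENNReal.ofReal_le_ofReal hc1) _
    _ = ‖-S - ((√p * l p : ℝ) : ℂ) * ∑ j ∈ Bp B p, Φ (nm (rp p j) * y)‖ₑ := by rw [h3, h2]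
    _ ≤ ‖-S‖ₑ + ‖((√p * l p : ℝ) : ℂ) * ∑ j ∈ Bp B p, Φ (nm (rp p j) * y)‖ₑ := enorm_sub_le
    _ ≤ _ := by
      rw [enorm_neg, enorm_mul, h4]
      exact add_le_add h5 (mul_le_mul_right (enorm_sum_le _ _) _)

end

end Pool.Agent.A54.HS
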