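import Pool.Agent.Lib.HS.Di1
import Pool.Agent.Lib.HS.Am8

/-!
# Package `HS`, the directional square amplifier, part 2: the lower bound
-/

set_option autoImplicit false

namespace Pool.Agent.A54.HS

open MeasureTheory Filter Topology Set
open scoped ContDiff ComplexConjugate UpperHalfPlane MatrixGroups ENNReal NNReal
open Pool.Agent.A54.Dyn (G fl base ze io mk4 dom)
open Pool.Agent.A54.Av (Mat NonSc)
open Pool.Agent.A54.Hp Pool.Agent.A54.Hp.Hk Pool.Agent.A54.Hp.A2M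

noncomputable section

/-- the number of translates in the box -/
lemma hs_Om (hNm : StmtNm) (R : ℝ) (_hR : 1 ≤ R) : ∃ C : ℝ, 1 ≤ C ∧ ∀ (F : G → ℝ≥0∞),
    (∀ y, F y ≤ (Om R).indicator (fun _ => 1) y) → ∀ z, hs F 1 z ≤ ENNReal.ofReal C := by
  classical
  set T := (finite_box (2 * R * R)).toFinset with hT
  refine ⟨max 1 (T.card : ℝ), le_max_left _ _, fun F hF z => ?_⟩
  have h0 : hs F 1 z ≤ ∑' m : Mn 1, (Om R).indicator (fun _ => (1 : ℝ≥0∞)) (nm m.1 * z) :=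
    ENNReal.tsum_le_tsum fun m => hF _
  refine h0.trans ?_
  by_cases hex : ∃ m₀ : Mn 1, nm m₀.1 * z ∈ Om R
  · obtain ⟨m₀, hm₀⟩ := hex
    have hinj : Function.Injective (fun m : Mn 1 => m.1 * m₀.1.adjugate) := by
      intro a b h
      have h1 := congrArg (fun A : Mat => A * m₀.1) h
      simp only [Matrix.mul_assoc, Matrix.adjugate_mul, m₀.2, Nat.cast_one, one_smul, Matrix.mul_one] at h1
      exact Subtype.ext h1
    have hdp : ∀ m : Mn 1, 0 < m.1.det := fun m => det_pos one_pos m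
    calc ∑' m : Mn 1, (Om R).indicator (fun _ => (1 : ℝ≥0∞)) (nm m.1 * z)
        ≤ ∑' m : Mn 1, ((T : Set Mat).indicator (fun _ => (1 : ℝ≥0∞))) (m.1 * m₀.1.adjugate) := by
          refine ENNReal.tsum_le_tsum fun m => ?_
          by_cases h : nm m.1 * z ∈ Om R
          · rw [Set.indicator_of_mem h, Set.indicator_of_mem]
            rw [Finset.mem_coe, hT, Set.Finite.mem_toFinset]
            have hd : 0 < (m.1 * m₀.1.adjugate).det := by
              rw [Matrix.det_mul, adj_det]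
              exact mul_pos (hdp m) (hdp m₀)
            have h2 : nm (m.1 * m₀.1.adjugate) * (nm m₀.1 * z) ∈ Om R := by
              rw [hNm.1 _ _ (hdp m) (by rw [adj_det]; exact hdp m₀), hNm.2.2.1 _ (hdp m₀),
                mul_assoc, inv_mul_cancel_left]
              exact h
            intro i j
            have h3 := hNm.2.2.2.2 R R _ _ hd hm₀ h2 i j
            have h4 : (m.1 * m₀.1.adjugate).det = 1 := by
              rw [Matrix.det_mul, adj_det, m.2, m₀.2]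
              norm_num
            rw [h4] at h3
            simpa using h3
          · rw [Set.indicator_of_notMem h]
            exact zero_le
      _ ≤ ∑' s : Mat, (T : Set Mat).indicator (fun _ => (1 : ℝ≥0∞)) s :=
          ENNReal.tsum_comp_le_tsum_of_injective hinj _
      _ = (T.card : ℝ≥0∞) := by
          rw [tsum_eq_sum (s := T) (fun s hs => Set.indicator_of_notMem (by simpa using hs) _)]
          rw [Finset.sum_congr rfl fun s hs => Set.indicator_of_mem (by simpa using hs) _]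
          simp
      _ ≤ _ := by
          rw [← ENNReal.ofReal_natCast]
          exact ENNReal.ofReal_le_ofReal (le_max_right _ _)
  · push Not at hex
    have h1 : ∀ m : Mn 1, (Om R).indicator (fun _ => (1 : ℝ≥0∞)) (nm m.1 * z) = 0 :=
      fun m => Set.indicator_of_notMem (hex m) _
    simp only [h1, tsum_zero]
    exact zero_le

/-- the mean over the neighbours of the points of `W` -/
lemma int_Tp_le (hNu : StmtNuL) (hUnf : StmtUnf) (hNm : StmtNm) (R : ℝ) (hR : 1 ≤ R) :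
    ∃ C : ℝ, 1 ≤ C ∧ ∀ (l : ℕ → ℝ) (Φ : G → ℂ), HE l Φ → ∀ W : Set G, MeasurableSet W → W ⊆ Om R →
      ∀ p : ℕ, p.Prime → ∫⁻ x, W.indicator (fun _ => 1) x * Tp p (fun z => ‖Φ z‖ₑ ^ 2) x ∂nu ≤
        ENNReal.ofReal (C * p) := by
  obtain ⟨C, hC1, hC⟩ := hs_Om hNm R hR
  refine ⟨2 * C, by linarith, ?_⟩
  intro l Φ hE W hW hWR p hp
  set F : G → ℝ≥0∞ := W.indicator (fun _ => 1) with hF
  have hFm : Measurable F := measurable_const.indicator hW
  have hφ : Measurable fun y => ‖Φ y‖ₑ ^ 2 := (hE.cont.enorm.measurable).pow_const 2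
  have hinv : ∀ (γ : SL(2, ℤ)) (y : G), (fun z => ‖Φ z‖ₑ ^ 2) (io γ * y) = (fun z => ‖Φ z‖ₑ ^ 2) y :=
    fun γ y => by
      dsimp only
      rw [hE.inv]
  have h1 : ¬ p ∣ 1 := fun h => hp.one_lt.ne' (Nat.dvd_one.1 h)
  have hle : ∀ y, F y ≤ (Om R).indicator (fun _ => 1) y := fun y =>
    Set.indicator_le_indicator_of_subset hWR (fun _ => zero_le) y
  have h2 : ∀ y, hs (Ts p F) 1 y ≤ ENNReal.ofReal (2 * C * p) := by
    intro y
    rw [hs_Ts hNm hp one_pos h1 F, ← Tp_hs hNm hp one_pos h1 F]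
    unfold Tp
    calc ∑ j : Option (Fin p), hs F 1 (nm (rp p j) * y) ≤ ∑ _j : Option (Fin p), ENNReal.ofReal C :=
          Finset.sum_le_sum fun j _ => hC F hle _
      _ = ENNReal.ofReal ((p + 1 : ℝ) * C) := by
          rw [Finset.sum_const, Finset.card_univ, Fintype.card_option, Fintype.card_fin, nsmul_eq_mul,
            ← ENNReal.ofReal_natCast, ← ENNReal.ofReal_mul (by positivity)]
          push_cast
          rfl
      _ ≤ _ := by
          refine ENNReal.ofReal_le_ofReal ?_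
          have : (1 : ℝ) ≤ p := by exact_mod_cast hp.one_lt.le
          nlinarith
  rw [int_Tp hNu hFm hφ p]
  have h3 := unf hUnf hNm (meas_Ts hFm p) hφ hinv
  have h4 : 2 * ∫⁻ x, Ts p F x * ‖Φ x‖ₑ ^ 2 ∂nu ≤ 2 * ENNReal.ofReal (2 * C * p) := by
    rw [← h3]
    calc ∫⁻ y in FF, hs (Ts p F) 1 y * ‖Φ y‖ₑ ^ 2 ∂nu
        ≤ ∫⁻ y in FF, ENNReal.ofReal (2 * C * p) * ‖Φ y‖ₑ ^ 2 ∂nu :=
          lintegral_mono fun y => mul_le_mul_left (h2 y) _
      _ = ENNReal.ofReal (2 * C * p) * ∫⁻ y in FF, ‖Φ y‖ₑ ^ 2 ∂nu := lintegral_const_mul _ hφ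
      _ ≤ ENNReal.ofReal (2 * C * p) * 2 := mul_le_mul_right hE.norm _
      _ = _ := mul_comm _ _
  exact (ENNReal.mul_le_mul_iff_right (by norm_num) (by norm_num)).1 h4

/-- the lower bound for one prime -/
lemma one_prime (hNu : StmtNuL) (hUnf : StmtUnf) (hNm : StmtNm) (hTot : StmtTot) (R : ℝ) (hR : 1 ≤ R) :
    ∃ C : ℝ, 1 ≤ C ∧ ∀ (l : ℕ → ℝ) (Φ : G → ℂ), HE l Φ → ∀ W : Set G, MeasurableSet W → W ⊆ Om R →
      ∀ p : ℕ, p.Prime → ∀ B : Finset (Fin 2 → ℤ), (∀ u ∈ B, ¬ ∀ i, (p : ℤ) ∣ u i) →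
      8 * (B.card : ℝ) ≤ p → |l p| ≤ 1 / 2 → ENNReal.ofReal (C * B.card * l p ^ 2) ≤ ms Φ W →
        ENNReal.ofReal ((p : ℝ) / 4) * ms Φ W ≤
          ∫⁻ x, AIkM.ff Φ W x * T2d B p (fun z => ‖Φ z‖ₑ) x ∂nu := by
  classical
  obtain ⟨C, hC1, hC⟩ := int_Tp_le hNu hUnf hNm R hR
  obtain ⟨CT, hCT0, hCT⟩ := hTot R hR
  refine ⟨16 * C, by linarith, ?_⟩
  intro l Φ hE W hW hWR p hp B hB hBp hl hsm
  have hmsT : ms Φ W ≠ ⊤ := by
    have h1 : ms Φ W ≤ ms Φ (Om R) := lintegral_mono_set hWR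
    exact ne_top_of_le_ne_top ENNReal.ofReal_ne_top (h1.trans (hCT l Φ hE))
  set F := AIkM.ff Φ W with hFd
  have hF : Measurable F := AIkM.ff_meas hE.cont hW
  have hφ : Measurable fun y => ‖Φ y‖ₑ := hE.cont.enorm.measurable
  have hp0 : (0 : ℝ) < p := by exact_mod_cast hp.pos
  set g : G → ℝ≥0∞ := fun x => ∑ j ∈ Bp B p, ‖Φ (nm (rp p j) * x)‖ₑ with hg
  have hgm : Measurable g := Finset.measurable_sum _ fun j _ => meas_mul hφ _
  -- the integrated inequality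
  have s1 : ENNReal.ofReal ((p : ℝ) / 2) * ms Φ W ≤
      ∫⁻ x, F x * T2d B p (fun z => ‖Φ z‖ₑ) x ∂nu + ENNReal.ofReal (√p * |l p|) * ∫⁻ x, F x * g x ∂nu := by
    have m0 : Measurable fun x => F x * ‖Φ x‖ₑ := hF.mul hφ
    have m1 : Measurable fun x => F x * T2d B p (fun z => ‖Φ z‖ₑ) x := hF.mul (meas_T2d hφ B p)
    have m2 : Measurable fun x => F x * g x := hF.mul hgm
    rw [← AIkM.ms_eq Φ hW, ← lintegral_const_mul _ m0, ← lintegral_const_mul _ m2,
      ← lintegral_add_left m1]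
    refine lintegral_mono fun x => ?_
    calc ENNReal.ofReal ((p : ℝ) / 2) * (F x * ‖Φ x‖ₑ) = F x * (ENNReal.ofReal ((p : ℝ) / 2) * ‖Φ x‖ₑ) := by
          ring
      _ ≤ F x * (T2d B p (fun z => ‖Φ z‖ₑ) x + ENNReal.ofReal (√p * |l p|) * g x) :=
          mul_le_mul_right (hecke_dir_le hNm hE hp hB hBp hl x) _
      _ = _ := by ring
  -- the bad directions
  have s2 : (∫⁻ x, F x * g x ∂nu) ^ 2 ≤ ms Φ W * (ENNReal.ofReal (B.card * (C * p))) := by
    have e1 : ∀ x, F x * g x = F x * (W.indicator (fun _ => 1) x * g x) := by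
      intro x
      by_cases hx : x ∈ W
      · rw [Set.indicator_of_mem hx, one_mul]
      · have : F x = 0 := Set.indicator_of_notMem hx _
        rw [this, zero_mul, zero_mul]
    have hI : Measurable fun x => W.indicator (fun _ => (1 : ℝ≥0∞)) x * g x :=
      (measurable_const.indicator hW).mul hgm
    have h1 := AIkM.cs nu F (fun x => W.indicator (fun _ => 1) x * g x) hF hI
    simp only [← e1] at h1
    refine h1.trans (mul_le_mul' (le_of_eq ?_) ?_)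
    · rw [← AIkM.ms_eq Φ hW]
      refine lintegral_congr fun x => ?_
      by_cases hx : x ∈ W
      · have : F x = ‖Φ x‖ₑ := Set.indicator_of_mem hx _
        rw [this, _root_.sq]
        have e2 : AIkM.ff Φ W x = ‖Φ x‖ₑ := this
        rw [e2]
      · have : F x = 0 := Set.indicator_of_notMem hx _
        rw [this]
        have e2 : AIkM.ff Φ W x = 0 := this
        rw [e2]
        simp
    · have h2 : ∀ x, (W.indicator (fun _ => (1 : ℝ≥0∞)) x * g x) ^ 2 ≤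
          (B.card : ℝ≥0∞) * (W.indicator (fun _ => 1) x * Tp p (fun z => ‖Φ z‖ₑ ^ 2) x) := by
        intro x
        by_cases hx : x ∈ W
        · rw [Set.indicator_of_mem hx, one_mul, one_mul]
          have h3 : (g x) ^ 2 ≤ ((Bp B p).card : ℝ≥0∞) * ∑ j ∈ Bp B p, ‖Φ (nm (rp p j) * x)‖ₑ ^ 2 := by
            have h4 : ∀ j ∈ Bp B p, ‖Φ (nm (rp p j) * x)‖ₑ ≠ ⊤ := fun j _ => enorm_ne_top
            rw [hg]
            dsimp only
            have h5 : ∀ j : Option (Fin p), ‖Φ (nm (rp p j) * x)‖ₑ =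
                ((‖Φ (nm (rp p j) * x)‖₊ : ℝ≥0∞)) := fun j => rfl
            simp only [h5]
            have h6 : (∑ i ∈ Bp B p, ‖Φ (nm (rp p i) * x)‖₊) ^ 2 ≤
                ((Bp B p).card : ℝ≥0) * ∑ i ∈ Bp B p, ‖Φ (nm (rp p i) * x)‖₊ ^ 2 := by
              rw [← NNReal.coe_le_coe]
              push_cast
              exact sq_sum_le_card_mul_sum_sq
            exact_mod_cast h6
          refine h3.trans (mul_le_mul' ?_ ?_)
          · exact_mod_cast Bp_card hp hB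
          · unfold Tp
            exact Finset.sum_le_sum_of_subset (Finset.subset_univ _)
        · rw [Set.indicator_of_notMem hx, zero_mul, zero_mul]
          simp
      have m3 : Measurable fun x => W.indicator (fun _ => (1 : ℝ≥0∞)) x *
          Tp p (fun z => ‖Φ z‖ₑ ^ 2) x :=
        (measurable_const.indicator hW).mul (meas_Tp (hφ.pow_const 2) p)
      calc ∫⁻ x, (W.indicator (fun _ => (1 : ℝ≥0∞)) x * g x) ^ 2 ∂nu
          ≤ ∫⁻ x, (B.card : ℝ≥0∞) * (W.indicator (fun _ => 1) x * Tp p (fun z => ‖Φ z‖ₑ ^ 2) x) ∂nu :=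
            lintegral_mono h2
        _ = (B.card : ℝ≥0∞) * ∫⁻ x, W.indicator (fun _ => 1) x * Tp p (fun z => ‖Φ z‖ₑ ^ 2) x ∂nu :=
            lintegral_const_mul _ m3
        _ ≤ (B.card : ℝ≥0∞) * ENNReal.ofReal (C * p) := mul_le_mul_right (hC l Φ hE W hW hWR p hp) _
        _ = _ := by
            rw [← ENNReal.ofReal_natCast B.card, ← ENNReal.ofReal_mul (by positivity)]
  -- the error term
  have s3 : ENNReal.ofReal (√p * |l p|) * ∫⁻ x, F x * g x ∂nu ≤ ENNReal.ofReal ((p : ℝ) / 4) * ms Φ W := by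
    have h1 : (ENNReal.ofReal (√p * |l p|) * ∫⁻ x, F x * g x ∂nu) ^ 2 ≤
        (ENNReal.ofReal ((p : ℝ) / 4) * ms Φ W) ^ 2 := by
      rw [mul_pow, mul_pow]
      have e1 : (√(p : ℝ) * |l p|) ^ 2 = p * l p ^ 2 := by
        rw [mul_pow, Real.sq_sqrt hp0.le, sq_abs]
      calc ENNReal.ofReal (√p * |l p|) ^ 2 * (∫⁻ x, F x * g x ∂nu) ^ 2
          ≤ ENNReal.ofReal (√p * |l p|) ^ 2 * (ms Φ W * (ENNReal.ofReal (B.card * (C * p)))) :=
            mul_le_mul_right s2 _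
        _ = ms Φ W * ENNReal.ofReal ((p : ℝ) ^ 2 / 16 * (16 * C * B.card * l p ^ 2)) := by
            rw [← ENNReal.ofReal_pow (by positivity), e1, mul_left_comm,
              ← ENNReal.ofReal_mul (by positivity)]
            congr 2
            ring
        _ = ms Φ W * (ENNReal.ofReal ((p : ℝ) ^ 2 / 16) * ENNReal.ofReal (16 * C * B.card * l p ^ 2)) := by
            rw [ENNReal.ofReal_mul (by positivity)]
        _ ≤ ms Φ W * (ENNReal.ofReal ((p : ℝ) ^ 2 / 16) * ms Φ W) :=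
            mul_le_mul_right (mul_le_mul_right hsm _) _
        _ = ENNReal.ofReal ((p : ℝ) / 4) ^ 2 * ms Φ W ^ 2 := by
            rw [← ENNReal.ofReal_pow (by positivity)]
            have e2 : ((p : ℝ) / 4) ^ 2 = (p : ℝ) ^ 2 / 16 := by ring
            rw [e2]
            ring
    exact (ENNReal.pow_le_pow_left_iff (by norm_num)).1 h1
  have s4 : ENNReal.ofReal ((p : ℝ) / 4) * ms Φ W + ENNReal.ofReal ((p : ℝ) / 4) * ms Φ W ≤
      ∫⁻ x, F x * T2d B p (fun z => ‖Φ z‖ₑ) x ∂nu + ENNReal.ofReal ((p : ℝ) / 4) * ms Φ W := by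
    rw [← add_mul, ← ENNReal.ofReal_add (by positivity) (by positivity)]
    have e1 : (p : ℝ) / 4 + (p : ℝ) / 4 = (p : ℝ) / 2 := by ring
    rw [e1]
    exact s1.trans (add_le_add le_rfl s3)
  exact (ENNReal.add_le_add_iff_right (ENNReal.mul_ne_top ENNReal.ofReal_ne_top hmsT)).1 s4

/-- the directional block operators -/
def Asd (Q : Finset ℕ) (B : Finset (Fin 2 → ℤ)) (F : G → ℝ≥0∞) (y : G) : ℝ≥0∞ :=
  ∑ p ∈ Q, (p : ℝ≥0∞)⁻¹ * T2sd B p F y

def Aod (Q : Finset ℕ) (B : Finset (Fin 2 → ℤ)) (h : G → ℝ≥0∞) (y : G) : ℝ≥0∞ :=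
  ∑ p ∈ Q, (p : ℝ≥0∞)⁻¹ * T2d B p h y

lemma meas_Asd {F : G → ℝ≥0∞} (hF : Measurable F) (Q : Finset ℕ) (B : Finset (Fin 2 → ℤ)) :
    Measurable (Asd Q B F) :=
  Finset.measurable_sum _ fun p _ => (meas_T2sd hF B p).const_mul _

lemma int_Aod (hNu : StmtNuL) {F h : G → ℝ≥0∞} (hF : Measurable F) (hh : Measurable h) (Q : Finset ℕ)
    (B : Finset (Fin 2 → ℤ)) :
    ∫⁻ x, F x * Aod Q B h x ∂nu = ∫⁻ x, Asd Q B F x * h x ∂nu := by
  have e1 : ∀ x, F x * Aod Q B h x = ∑ p ∈ Q, (p : ℝ≥0∞)⁻¹ * (F x * T2d B p h x) := by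
    intro x
    unfold Aod
    rw [Finset.mul_sum]
    exact Finset.sum_congr rfl fun p _ => by ring
  have e2 : ∀ x, Asd Q B F x * h x = ∑ p ∈ Q, (p : ℝ≥0∞)⁻¹ * (T2sd B p F x * h x) := by
    intro x
    unfold Asd
    rw [Finset.sum_mul]
    exact Finset.sum_congr rfl fun p _ => by ring
  have m1 : ∀ p : ℕ, Measurable fun x => F x * T2d B p h x := fun p => hF.mul (meas_T2d hh B p)
  have m2 : ∀ p : ℕ, Measurable fun x => T2sd B p F x * h x := fun p => (meas_T2sd hF B p).mul hh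
  simp only [e1, e2]
  rw [lintegral_finsetSum _ fun p _ => (m1 p).const_mul _,
    lintegral_finsetSum _ fun p _ => (m2 p).const_mul _]
  refine Finset.sum_congr rfl fun p _ => ?_
  rw [lintegral_const_mul _ (m1 p), lintegral_const_mul _ (m2 p), int_T2d hNu hF hh B p]

/-- the lower bound for the block -/
lemma low_dir (hNu : StmtNuL) (hUnf : StmtUnf) (hNm : StmtNm) (hTot : StmtTot) (R : ℝ) (hR : 1 ≤ R) :
    ∃ C : ℝ, 1 ≤ C ∧ ∀ (l : ℕ → ℝ) (Φ : G → ℂ), HE l Φ → ∀ W : Set G, MeasurableSet W → W ⊆ Om R →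
      ∀ (Q : Finset ℕ) (B : Finset (Fin 2 → ℤ)), (∀ p ∈ Q, p.Prime ∧ (∀ u ∈ B, ¬ ∀ i, (p : ℤ) ∣ u i) ∧
      8 * (B.card : ℝ) ≤ p ∧ |l p| ≤ 1 / 2 ∧ ENNReal.ofReal (C * B.card * l p ^ 2) ≤ ms Φ W) →
        (Q.card : ℝ≥0∞) ^ 2 * ms Φ W ^ 2 ≤
          16 * ∫⁻ x, AIkM.ff Φ W x * Aod Q B (hs (Asd Q B (AIkM.ff Φ W)) 1) x ∂nu := by
  classical
  obtain ⟨C, hC1, hC⟩ := one_prime hNu hUnf hNm hTot R hR
  refine ⟨C, hC1, ?_⟩
  intro l Φ hE W hW hWR Q B hQ
  set F := AIkM.ff Φ W with hFd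
  have hF : Measurable F := AIkM.ff_meas hE.cont hW
  have hφ : Measurable fun y => ‖Φ y‖ₑ := hE.cont.enorm.measurable
  have hAm : Measurable (Asd Q B F) := meas_Asd hF Q B
  set Ψ : G → ℝ≥0∞ := hs (Asd Q B F) 1 with hΨ
  have hΨm : Measurable Ψ := meas_hs hAm 1
  have s1 : ENNReal.ofReal (1 / 2) * ((Q.card : ℝ≥0∞) * ms Φ W) ≤ ∫⁻ y in FF, Ψ y * ‖Φ y‖ₑ ∂nu := by
    rw [hΨ, unf hUnf hNm hAm hφ fun γ y => by rw [hE.inv], ← int_Aod hNu hF hφ Q B]
    have e1 : ∀ x, F x * Aod Q B (fun z => ‖Φ z‖ₑ) x =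
        ∑ p ∈ Q, (p : ℝ≥0∞)⁻¹ * (F x * T2d B p (fun z => ‖Φ z‖ₑ) x) := by
      intro x
      unfold Aod
      rw [Finset.mul_sum]
      exact Finset.sum_congr rfl fun p _ => by ring
    simp only [e1]
    have m1 : ∀ p : ℕ, Measurable fun x => F x * T2d B p (fun z => ‖Φ z‖ₑ) x :=
      fun p => hF.mul (meas_T2d hφ B p)
    rw [lintegral_finsetSum _ fun p _ => (m1 p).const_mul _]
    have h1 : ∀ p ∈ Q, ENNReal.ofReal (1 / 4) * ms Φ W ≤
        ∫⁻ x, (p : ℝ≥0∞)⁻¹ * (F x * T2d B p (fun z => ‖Φ z‖ₑ) x) ∂nu := by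
      intro p hp
      obtain ⟨hpr, hB, hBp, hl, hsm⟩ := hQ p hp
      have hp0 : (0 : ℝ) < p := by exact_mod_cast hpr.pos
      rw [lintegral_const_mul _ (m1 p)]
      refine le_trans ?_ (mul_le_mul_right (hC l Φ hE W hW hWR p hpr B hB hBp hl hsm) _)
      rw [← mul_assoc, ← ENNReal.ofReal_natCast p, ← ENNReal.ofReal_inv_of_pos hp0,
        ← ENNReal.ofReal_mul (by positivity)]
      refine mul_le_mul_left (ENNReal.ofReal_le_ofReal (le_of_eq ?_)) _
      field_simp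
    calc ENNReal.ofReal (1 / 2) * ((Q.card : ℝ≥0∞) * ms Φ W)
        = 2 * ((Q.card : ℝ≥0∞) * (ENNReal.ofReal (1 / 4) * ms Φ W)) := by
          have : ENNReal.ofReal (1 / 2) = 2 * ENNReal.ofReal (1 / 4) := by
            rw [show (2 : ℝ≥0∞) = ENNReal.ofReal 2 by norm_num, ← ENNReal.ofReal_mul (by norm_num)]
            norm_num
          rw [this]
          ring
      _ = 2 * ∑ _p ∈ Q, (ENNReal.ofReal (1 / 4) * ms Φ W) := by rw [Finset.sum_const, nsmul_eq_mul]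
      _ ≤ _ := mul_le_mul_right (Finset.sum_le_sum h1) _
  have s2 : (ENNReal.ofReal (1 / 2) * ((Q.card : ℝ≥0∞) * ms Φ W)) ^ 2 ≤ 2 * ∫⁻ y in FF, Ψ y ^ 2 ∂nu := by
    refine (pow_le_pow_left' s1 2).trans ((AIkM.cs (nu.restrict FF) Ψ _ hΨm hφ).trans ?_)
    rw [mul_comm]
    exact mul_le_mul_left hE.norm _
  have s3 : ∫⁻ y in FF, Ψ y ^ 2 ∂nu = 2 * ∫⁻ x, F x * Aod Q B Ψ x ∂nu := by
    simp only [_root_.sq]
    rw [hΨ, unf hUnf hNm hAm hΨm fun γ y => hs_inv hNm _ one_pos γ y, int_Aod hNu hF hΨm Q B]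
  rw [s3] at s2
  calc (Q.card : ℝ≥0∞) ^ 2 * ms Φ W ^ 2
      = 4 * (ENNReal.ofReal (1 / 2) * ((Q.card : ℝ≥0∞) * ms Φ W)) ^ 2 := by
        rw [mul_pow, mul_pow, ← ENNReal.ofReal_pow (by norm_num), ← mul_assoc]
        have : (4 : ℝ≥0∞) * ENNReal.ofReal ((1 / 2) ^ 2) = 1 := by
          rw [show (4 : ℝ≥0∞) = ENNReal.ofReal 4 by norm_num, ← ENNReal.ofReal_mul (by norm_num)]
          norm_num
        rw [this, one_mul]
    _ ≤ 4 * (2 * (2 * ∫⁻ x, F x * Aod Q B Ψ x ∂nu)) := mul_le_mul_right s2 _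
    _ = _ := by
      rw [← mul_assoc, ← mul_assoc]
      norm_num

end

end Pool.Agent.A54.HS
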