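import Pool.Agent.Lib.HS.Di2

/-!
# Package `HS`, the directional square amplifier, part 3: the square

`StmtAId`: the amplifier inequality for steps that do not kill a given finite set of vectors.
-/

set_option autoImplicit false

namespace Pool.Agent.A54.HS

open MeasureTheory Filter Topology Set
open scoped ContDiff ComplexConjugate UpperHalfPlane MatrixGroups ENNReal
open Pool.Agent.A54.Dyn (G fl base ze io mk4 dom)
open Pool.Agent.A54.Av (Mat NonSc)
open Pool.Agent.A54.Hp Pool.Agent.A54.Hp.Hk Pool.Agent.A54.Hp.A2M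

noncomputable section

open Classical in
/-- two coset steps, general weights -/
lemma step_two' {p : ℕ} (hp : p.Prime) {n : ℕ} (f : Mat → ℝ≥0∞) :
    ∑ x : Option (Fin p) × Option (Fin p), ∑' m : Mn (p * (p * n)),
      (if PD p m.1 then 0 else f (m.1 * rr p x)) ≤
      (∑' s : Mn (p * (p * (p * (p * n)))), if PD p s.1 then 0 else f s.1) +
        3 * (p : ℝ≥0∞) * (∑' s : Mn (p * (p * n)), if PD p s.1 then 0 else f ((p : ℤ) • s.1)) +
        4 * (p : ℝ≥0∞) ^ 2 * ∑' s : Mn n, if PD p s.1 then 0 else f ((p : ℤ) • ((p : ℤ) • s.1)) := by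
  have hp2 : (2 : ℝ≥0∞) ≤ (p : ℝ≥0∞) := by exact_mod_cast hp.two_le
  set A := ∑' s : Mn (p * (p * (p * (p * n)))), if PD p s.1 then 0 else f s.1
  set B := ∑' s : Mn (p * (p * n)), if PD p s.1 then 0 else f ((p : ℤ) • s.1)
  set D := ∑' s : Mn n, if PD p s.1 then 0 else f ((p : ℤ) • ((p : ℤ) • s.1))
  set q : ℝ≥0∞ := (p : ℝ≥0∞)
  have s1 : ∑ j', ∑' m : Mn (p * (p * (p * n))), (if PD p m.1 then 0 else f (m.1 * rp p j')) ≤
      A + (q + 1) * B := step_prim hp (p * (p * n)) f
  have s2 : ∑ j', ∑' m : Mn (p * n), (if PD p m.1 then 0 else f ((p : ℤ) • (m.1 * rp p j'))) ≤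
      B + (q + 1) * D := step_prim hp n (fun s => f ((p : ℤ) • s))
  have s3 : ∀ j' : Option (Fin p), ∑ j, ∑' m : Mn (p * (p * n)),
      (if PD p m.1 then 0 else f (m.1 * rr p (j, j'))) ≤
      (∑' m : Mn (p * (p * (p * n))), (if PD p m.1 then 0 else f (m.1 * rp p j'))) +
        (q + 1) * ∑' m : Mn (p * n), (if PD p m.1 then 0 else f ((p : ℤ) • (m.1 * rp p j'))) := by
    intro j'
    have h1 := step_prim hp (p * n) (fun s => f (s * rp p j'))
    refine le_trans (le_of_eq ?_) (h1.trans (le_of_eq ?_))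
    · refine Finset.sum_congr rfl fun j _ => tsum_congr fun m => ?_
      unfold rr
      dsimp only
      rw [Matrix.mul_assoc]
    · congr 2
      refine tsum_congr fun t => ?_
      by_cases ht : PD p t.1
      · rw [if_pos ht, if_pos ht]
      · rw [if_neg ht, if_neg ht, Matrix.smul_mul]
  calc ∑ x : Option (Fin p) × Option (Fin p), ∑' m : Mn (p * (p * n)),
      (if PD p m.1 then 0 else f (m.1 * rr p x))
      = ∑ j', ∑ j, ∑' m : Mn (p * (p * n)), (if PD p m.1 then 0 else f (m.1 * rr p (j, j'))) := by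
        rw [Fintype.sum_prod_type, Finset.sum_comm]
    _ ≤ ∑ j', ((∑' m : Mn (p * (p * (p * n))), (if PD p m.1 then 0 else f (m.1 * rp p j'))) +
        (q + 1) * ∑' m : Mn (p * n), (if PD p m.1 then 0 else f ((p : ℤ) • (m.1 * rp p j')))) :=
        Finset.sum_le_sum fun j' _ => s3 j'
    _ ≤ (A + (q + 1) * B) + (q + 1) * (B + (q + 1) * D) := by
        rw [Finset.sum_add_distrib, ← Finset.mul_sum]
        exact add_le_add s1 (mul_le_mul_right s2 _)
    _ = A + 2 * (q + 1) * B + (q + 1) ^ 2 * D := by ring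
    _ ≤ A + 3 * q * B + 4 * q ^ 2 * D := by
        have hp1 : (1 : ℝ≥0∞) ≤ q := le_trans (by norm_num) hp2
        refine add_le_add (add_le_add le_rfl (mul_le_mul_left ?_ _)) (mul_le_mul_left ?_ _)
        · calc 2 * (q + 1) = 2 * q + 2 := by ring
            _ ≤ 2 * q + q := add_le_add le_rfl hp2
            _ = 3 * q := by ring
        · calc (q + 1) ^ 2 ≤ (q + q) ^ 2 := pow_le_pow_left' (add_le_add le_rfl hp1) 2
            _ = 4 * q ^ 2 := by ring

open Classical in
/-- the sum over the primitive matrices of determinant `q²` with the condition at the end -/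
def HD (B : Finset (Fin 2 → ℤ)) (q : ℕ) (F : G → ℝ≥0∞) (z : G) : ℝ≥0∞ :=
  ∑' m : Mn (q * (q * 1)), if PD q m.1 then 0 else if dk B q m.1.adjugate then F (nm m.1 * z) else 0

lemma adj_mul_adj (r m : Mat) : (r.adjugate * m).adjugate = m.adjugate * r := by
  rw [Matrix.adjugate_mul_distrib]
  congr 1
  rw [Matrix.adjugate_fin_two, Matrix.adjugate_fin_two]
  ext i j
  fin_cases i <;> fin_cases j <;> simp

lemma hs_T2sd (hNm : StmtNm) {q : ℕ} (hq : q.Prime) (B : Finset (Fin 2 → ℤ)) (F : G → ℝ≥0∞) (z : G) :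
    hs (T2sd B q F) 1 z = HD B q F z := by
  classical
  have h1 : ¬ q ∣ 1 := fun h => hq.one_lt.ne' (Nat.dvd_one.1 h)
  have h2 := cos_adj hq h1 (fun s => if dk B q s.adjugate then F (nm s * z) else 0)
  unfold HD
  rw [← h2, ← Summable.tsum_finsetSum fun j _ => ENNReal.summable]
  unfold hs T2sd
  refine tsum_congr fun m => ?_
  rw [Finset.sum_filter]
  refine Finset.sum_congr rfl fun x _ => ?_
  have e1 : dk B q ((rr q x).adjugate * m.1).adjugate ↔ dk B q (rr q x) := by
    rw [adj_mul_adj]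
    refine dk_mul_left hq ?_ _
    rw [adj_det, m.2]
    intro h
    exact h1 (by exact_mod_cast h)
  by_cases h : dk B q (rr q x)
  · rw [if_pos h, if_pos (e1.2 h), hNm.1 (rr q x).adjugate m.1 (by rw [adj_det]; exact rr_pos hq.pos x)
      (det_pos one_pos m), hNm.2.2.1 (rr q x) (rr_pos hq.pos x), mul_assoc]
  · rw [if_neg h, if_neg fun h' => h (e1.1 h')]

lemma nd_sq {p q : ℕ} (hp : p.Prime) (hq : q.Prime) (h : p ≠ q) : ¬ p ∣ q * (q * 1) := by
  intro hd
  have hne : ¬ p ∣ q := fun h' => h ((Nat.prime_dvd_prime_iff_eq hp hq).1 h')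
  rcases (Nat.Prime.dvd_mul hp).1 hd with h1 | h1
  · exact hne h1
  · rw [mul_one] at h1
    exact hne h1

/-- the level sets of a pair -/
def Lpq (B : Finset (Fin 2 → ℤ)) (p q : ℕ) : Set Mat :=
  {s | Pr s ∧ s.det = ((p : ℤ) * q) * (p * q) ∧ dk B p s ∧ dk B q s.adjugate}

lemma Pr_pq {p q : ℕ} (hp : p.Prime) (hq : q.Prime) {s : Mat} (hs : s.det = ((p : ℤ) * q) * (p * q))
    (h1 : ¬ PD p s) (h2 : ¬ PD q s) : Pr s := by
  intro ℓ hℓ h
  have hpp : Prime (ℓ : ℤ) := Nat.prime_iff_prime_int.1 hℓ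
  obtain ⟨t, ht⟩ := h 0 0
  obtain ⟨t', ht'⟩ := h 1 0
  have h3 : (ℓ : ℤ) ∣ ((p : ℤ) * q) * (p * q) := by
    rw [← hs, Matrix.det_fin_two, ht, ht']
    exact ⟨t * s 1 1 - s 0 1 * t', by ring⟩
  have h4 : (ℓ : ℤ) ∣ (p : ℤ) ∨ (ℓ : ℤ) ∣ (q : ℤ) := by
    rcases hpp.dvd_or_dvd h3 with h | h <;> exact hpp.dvd_or_dvd h
  rcases h4 with h4 | h4
  · have : ℓ = p := (Nat.prime_dvd_prime_iff_eq hℓ hp).1 (by exact_mod_cast h4)
    exact h1 (this ▸ h)
  · have : ℓ = q := (Nat.prime_dvd_prime_iff_eq hℓ hq).1 (by exact_mod_cast h4)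
    exact h2 (this ▸ h)

/-- from `Mn` to `Mat` -/
lemma Mn_le (n : ℕ) (f g : Mat → ℝ≥0∞) (h : ∀ m : Mn n, f m.1 ≤ g m.1) :
    ∑' m : Mn n, f m.1 ≤ ∑' s : Mat, g s :=
  (ENNReal.tsum_le_tsum h).trans (ENNReal.tsum_comp_le_tsum_of_injective Subtype.val_injective g)

/-- two different primes -/
lemma pair_ne (hNm : StmtNm) {p q : ℕ} (hp : p.Prime) (hq : q.Prime) (hpq : p ≠ q)
    (B : Finset (Fin 2 → ℤ)) (F : G → ℝ≥0∞) (x : G) :
    T2d B p (HD B q F) x ≤ ∑' s : Mat, (Lpq B p q).indicator (fun s => F (nm s * x)) s := by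
  classical
  have hpn := nd_sq hp hq hpq
  set f : Mat → ℝ≥0∞ := fun s => if dk B p s ∧ ¬ PD q s ∧ dk B q s.adjugate then F (nm s * x) else 0
    with hf
  have h1 := cos_sum hp hpn f
  have h2 : T2d B p (HD B q F) x ≤ ∑ r ∈ Np p, ∑' m : Mn (q * (q * 1)), f (m.1 * rr p r) := by
    unfold T2d HD
    rw [Finset.sum_filter]
    refine Finset.sum_le_sum fun r _ => ?_
    by_cases hr : dk B p (rr p r)
    · rw [if_pos hr]
      refine ENNReal.tsum_le_tsum fun m => ?_
      by_cases hm : PD q m.1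
      · rw [if_pos hm]
        exact zero_le
      · rw [if_neg hm]
        by_cases hm' : dk B q m.1.adjugate
        · rw [if_pos hm', hf]
          dsimp only
          rw [if_pos]
          · rw [hNm.1 m.1 (rr p r) (det_pos (Nat.mul_pos hq.pos (Nat.mul_pos hq.pos one_pos)) m)
              (rr_pos hp.pos r), mul_assoc]
          · refine ⟨(dk_mul_left hp (det_nd hpn m) _).2 hr, fun h => hm ?_, ?_⟩
            · refine PD_of_mul_right hq ?_ h
              rw [rr_det]
              exact not_dvd_sq hp hq hpq.symm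
            · rw [Matrix.adjugate_mul_distrib]
              refine (dk_mul_left hq ?_ _).2 hm'
              rw [adj_det, rr_det]
              exact not_dvd_sq hp hq hpq.symm
        · rw [if_neg hm']
          exact zero_le
    · rw [if_neg hr]
      exact zero_le
  refine h2.trans (h1.le.trans ?_)
  refine Mn_le _ (fun s => if PD p s then 0 else f s) _ fun s => ?_
  by_cases h3 : PD p s.1
  · rw [if_pos h3]
    exact zero_le
  · rw [if_neg h3, hf]
    dsimp only
    by_cases h4 : dk B p s.1 ∧ ¬ PD q s.1 ∧ dk B q s.1.adjugate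
    · rw [if_pos h4]
      have hd : s.1.det = ((p : ℤ) * q) * (p * q) := by
        rw [s.2]
        push_cast
        ring
      rw [Set.indicator_of_mem (show s.1 ∈ Lpq B p q from ⟨Pr_pq hp hq hd h3 h4.2.1, hd, h4.1, h4.2.2⟩)]
    · rw [if_neg h4]
      exact zero_le

/-- the same prime twice -/
lemma pair_eq (hNm : StmtNm) {p : ℕ} (hp : p.Prime)
    (B : Finset (Fin 2 → ℤ)) (F : G → ℝ≥0∞) (x : G) :
    T2d B p (HD B p F) x ≤ (∑' s : Mat, (Lpq B p p).indicator (fun s => F (nm s * x)) s) +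
      3 * (p : ℝ≥0∞) * hq F (p * (p * 1)) x + 4 * (p : ℝ≥0∞) ^ 2 * hs F 1 x := by
  classical
  have hpz : (0 : ℤ) < p := by exact_mod_cast hp.pos
  set f : Mat → ℝ≥0∞ := fun s => if PD p s then F (nm s * x) else
    if dk B p s ∧ dk B p s.adjugate then F (nm s * x) else 0 with hf
  have h1 := step_two' hp (n := 1) f
  have h2 : T2d B p (HD B p F) x ≤ ∑ r : Option (Fin p) × Option (Fin p),
      ∑' m : Mn (p * (p * 1)), (if PD p m.1 then 0 else f (m.1 * rr p r)) := by
    unfold T2d HD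
    refine le_trans ?_ (Finset.sum_le_sum_of_subset
      (Finset.subset_univ ((Np p).filter (fun x => dk B p (rr p x)))))
    refine Finset.sum_le_sum fun r hr => ?_
    have hr' := (Finset.mem_filter.1 hr).2
    refine ENNReal.tsum_le_tsum fun m => ?_
    by_cases hm : PD p m.1
    · rw [if_pos hm, if_pos hm]
    · rw [if_neg hm, if_neg hm]
      by_cases hm' : dk B p m.1.adjugate
      · rw [if_pos hm', hf]
        dsimp only
        have e1 : nm m.1 * (nm (rr p r) * x) = nm (m.1 * rr p r) * x := by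
          rw [hNm.1 m.1 (rr p r) (det_pos (Nat.mul_pos hp.pos (Nat.mul_pos hp.pos one_pos)) m)
            (rr_pos hp.pos r), mul_assoc]
        rw [e1]
        by_cases h3 : PD p (m.1 * rr p r)
        · rw [if_pos h3]
        · rw [if_neg h3, if_pos]
          refine ⟨dk_of_mul hp ?_ h3 hr', ?_⟩
          · rw [rr_det]
            exact Dvd.intro _ rfl
          · rw [Matrix.adjugate_mul_distrib]
            refine dk_of_mul hp ?_ ?_ hm'
            · rw [adj_det, m.2]
              push_cast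
              exact Dvd.intro _ rfl
            · rw [← Matrix.adjugate_mul_distrib, PD_adj]
              exact h3
      · rw [if_neg hm']
        exact zero_le
  refine h2.trans (h1.trans (add_le_add (add_le_add ?_ (mul_le_mul_right ?_ _)) (mul_le_mul_right ?_ _)))
  · refine Mn_le _ (fun s => if PD p s then 0 else f s) _ fun s => ?_
    by_cases h3 : PD p s.1
    · rw [if_pos h3]
      exact zero_le
    · rw [if_neg h3, hf]
      dsimp only
      rw [if_neg h3]
      by_cases h4 : dk B p s.1 ∧ dk B p s.1.adjugate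
      · rw [if_pos h4]
        have hd : s.1.det = ((p : ℤ) * p) * (p * p) := by
          rw [s.2]
          push_cast
          ring
        rw [Set.indicator_of_mem (show s.1 ∈ Lpq B p p from ⟨Pr_pq hp hp hd h3 h3, hd, h4.1, h4.2⟩)]
      · rw [if_neg h4]
        exact zero_le
  · unfold hq
    refine ENNReal.tsum_le_tsum fun t => ?_
    by_cases h3 : PD p t.1
    · rw [if_pos h3]
      exact zero_le
    · have h4 : Pr t.1 := by
        intro ℓ hℓ h
        by_cases hℓp : ℓ = p
        · exact h3 (hℓp ▸ h)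
        · obtain ⟨u, hu⟩ := h 0 0
          obtain ⟨u', hu'⟩ := h 1 0
          have hd := t.2
          rw [Matrix.det_fin_two, hu, hu'] at hd
          push_cast at hd
          refine not_dvd_sq hp hℓ hℓp ⟨u * t.1 1 1 - t.1 0 1 * u', ?_⟩
          linear_combination -hd
      rw [if_neg h3, if_pos h4, hf]
      dsimp only
      rw [if_pos (PD_smul_self t.1), hNm.2.2.2.1 (p : ℤ) t.1 hpz]
  · unfold hs
    refine ENNReal.tsum_le_tsum fun t => ?_
    by_cases h3 : PD p t.1
    · rw [if_pos h3]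
      exact zero_le
    · rw [if_neg h3, hf]
      dsimp only
      rw [if_pos (PD_smul_self _), hNm.2.2.2.1 (p : ℤ) _ hpz, hNm.2.2.2.1 (p : ℤ) t.1 hpz]

/-- the step set -/
def Ld (Q : Finset ℕ) (B : Finset (Fin 2 → ℤ)) : Set Mat :=
  {s | Pr s ∧ ∃ p ∈ Q, ∃ q ∈ Q, s.det = ((p : ℤ) * q) * (p * q) ∧ dk B p s ∧ dk B q s.adjugate}

open Classical in
/-- at most two pairs for every matrix -/
lemma two_pairs {Q : Finset ℕ} (hQ : ∀ p ∈ Q, p.Prime) (B : Finset (Fin 2 → ℤ)) (g : Mat → ℝ≥0∞) :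
    ∑ p ∈ Q, ∑ q ∈ Q, (∑' s : Mat, (Lpq B p q).indicator g s) ≤
      2 * ∑' s : Mat, (Ld Q B).indicator g s := by
  rw [← Finset.sum_product' Q Q (fun p q => ∑' s : Mat, (Lpq B p q).indicator g s),
    ← Summable.tsum_finsetSum fun j _ => ENNReal.summable, ← ENNReal.tsum_mul_left]
  refine ENNReal.tsum_le_tsum fun s => ?_
  by_cases hs' : s ∈ Ld Q B
  · rw [Set.indicator_of_mem hs']
    obtain ⟨-, p₀, hp₀, q₀, hq₀, hd, -, -⟩ := hs'
    have h1 : ∀ x ∈ Q ×ˢ Q, x ∉ ({(p₀, q₀), (q₀, p₀)} : Finset (ℕ × ℕ)) →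
        (Lpq B x.1 x.2).indicator g s = 0 := by
      rintro ⟨p, q⟩ hx hne
      rw [Finset.mem_product] at hx
      refine Set.indicator_of_notMem (fun h => hne ?_) _
      have h2 := h.2.1
      rw [hd] at h2
      have h3 : p₀ * q₀ * (p₀ * q₀) = p * q * (p * q) := by exact_mod_cast h2
      have h4 : p₀ * q₀ = p * q := Nat.mul_self_inj.1 h3
      have hpp := hQ p hx.1
      have hpp₀ := hQ p₀ hp₀
      have hqq₀ := hQ q₀ hq₀
      have h5 : p ∣ p₀ * q₀ := h4 ▸ Dvd.intro _ rfl
      rw [Finset.mem_insert, Finset.mem_singleton]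
      rcases (Nat.Prime.dvd_mul hpp).1 h5 with h6 | h6
      · left
        have e1 : p = p₀ := (Nat.prime_dvd_prime_iff_eq hpp hpp₀).1 h6
        subst e1
        have e2 : q₀ = q := Nat.eq_of_mul_eq_mul_left hpp.pos h4
        rw [e2]
      · right
        have e1 : p = q₀ := (Nat.prime_dvd_prime_iff_eq hpp hqq₀).1 h6
        subst e1
        have e2 : p₀ = q := by
          have : p * p₀ = p * q := by rw [mul_comm p p₀]; exact h4
          exact Nat.eq_of_mul_eq_mul_left hpp.pos this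
        rw [e2]
    calc ∑ x ∈ Q ×ˢ Q, (Lpq B x.1 x.2).indicator g s
        ≤ ∑ x ∈ Q ×ˢ Q, if x ∈ ({(p₀, q₀), (q₀, p₀)} : Finset (ℕ × ℕ)) then g s else 0 := by
          refine Finset.sum_le_sum fun x hx => ?_
          by_cases h : x ∈ ({(p₀, q₀), (q₀, p₀)} : Finset (ℕ × ℕ))
          · rw [if_pos h]
            exact Set.indicator_le_self' (fun _ _ => zero_le) s
          · rw [if_neg h, h1 x hx h]
      _ ≤ ∑ x ∈ ({(p₀, q₀), (q₀, p₀)} : Finset (ℕ × ℕ)), g s := by
          rw [← Finset.sum_filter]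
          refine Finset.sum_le_sum_of_subset ?_
          intro x hx
          exact (Finset.mem_filter.1 hx).2
      _ ≤ 2 * g s := by
          rw [Finset.sum_const, nsmul_eq_mul]
          refine mul_le_mul_left ?_ _
          exact_mod_cast Finset.card_le_two
  · rw [Set.indicator_of_notMem hs', mul_zero]
    refine le_of_eq (Finset.sum_eq_zero fun x hx => ?_)
    rw [Finset.mem_product] at hx
    exact Set.indicator_of_notMem (fun h => hs' ⟨h.1, x.1, hx.1, x.2, hx.2, h.2⟩) _

end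

end Pool.Agent.A54.HS
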