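import Pool.Agent.Lib.HS.SpecDi
import Pool.Agent.Lib.HS.Am9

/-!
# Package `HS`, the directional square amplifier, part 4: the inequality
-/

set_option autoImplicit false

namespace Pool.Agent.A54.HS

open MeasureTheory Filter Topology Set
open scoped ContDiff ComplexConjugate UpperHalfPlane MatrixGroups ENNReal
open Pool.Agent.A54.Dyn (G fl base ze io mk4 dom)
open Pool.Agent.A54.Av (Mat NonSc)
open Pool.Agent.A54.Hp Pool.Agent.A54.Hp.Hk Pool.Agent.A54.Hp.A2M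

noncomputable section

lemma hs_Asd (hNm : StmtNm) {Q : Finset ℕ} (hQ : ∀ q ∈ Q, q.Prime) (B : Finset (Fin 2 → ℤ))
    (F : G → ℝ≥0∞) (z : G) :
    hs (Asd Q B F) 1 z = ∑ q ∈ Q, (q : ℝ≥0∞)⁻¹ * HD B q F z := by
  have h1 : hs (Asd Q B F) 1 z = ∑ q ∈ Q, (q : ℝ≥0∞)⁻¹ * hs (T2sd B q F) 1 z := by
    unfold hs Asd
    rw [Summable.tsum_finsetSum fun j _ => ENNReal.summable]
    exact Finset.sum_congr rfl fun q _ => ENNReal.tsum_mul_left
  rw [h1]
  exact Finset.sum_congr rfl fun q hq => by rw [hs_T2sd hNm (hQ q hq)]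

lemma T2d_Asd (hNm : StmtNm) {Q : Finset ℕ} (hQ : ∀ q ∈ Q, q.Prime) (B : Finset (Fin 2 → ℤ))
    (F : G → ℝ≥0∞) (p : ℕ) (x : G) :
    T2d B p (hs (Asd Q B F) 1) x = ∑ q ∈ Q, (q : ℝ≥0∞)⁻¹ * T2d B p (HD B q F) x := by
  unfold T2d
  simp only [hs_Asd hNm hQ]
  rw [Finset.sum_comm]
  exact Finset.sum_congr rfl fun q _ => Finset.mul_sum _ _ _ |>.symm

/-- the pointwise bound -/
lemma dir_le (hNm : StmtNm) {M : ℝ} {Q : Finset ℕ}
    (hQ : ∀ p ∈ Q, p.Prime ∧ M < (p : ℝ)) (B : Finset (Fin 2 → ℤ))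
    (F : G → ℝ≥0∞) (x : G) :
    Aod Q B (hs (Asd Q B F) 1) x ≤
      2 * mi M ^ 2 * (∑' s : Mat, (Ld Q B).indicator (fun s => F (nm s * x)) s) +
        3 * mi M * Hl Q 1 F x + 4 * (Q.card : ℝ≥0∞) * hs F 1 x := by
  classical
  have hQp : ∀ p ∈ Q, p.Prime := fun p hp => (hQ p hp).1
  set g : Mat → ℝ≥0∞ := fun s => F (nm s * x) with hg
  -- one pair
  have h1 : ∀ p ∈ Q, ∀ q ∈ Q, (q : ℝ≥0∞)⁻¹ * T2d B p (HD B q F) x ≤
      mi M * (∑' s : Mat, (Lpq B p q).indicator g s) +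
        (if q = p then 3 * hq F (p * (p * 1)) x + 4 * (p : ℝ≥0∞) * hs F 1 x else 0) := by
    intro p hp q hq'
    by_cases h : q = p
    · subst h
      rw [if_pos rfl]
      have h2 := mul_le_mul_right (pair_eq hNm (hQp q hq') B F x) ((q : ℝ≥0∞)⁻¹)
      refine h2.trans ?_
      have hq0 : (q : ℝ≥0∞) ≠ 0 := by exact_mod_cast (hQp q hq').ne_zero
      have hqt : (q : ℝ≥0∞) ≠ ⊤ := ENNReal.natCast_ne_top q
      have e1 : (q : ℝ≥0∞)⁻¹ * q = 1 := ENNReal.inv_mul_cancel hq0 hqt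
      calc (q : ℝ≥0∞)⁻¹ * ((∑' s : Mat, (Lpq B q q).indicator g s) +
            3 * (q : ℝ≥0∞) * hq F (q * (q * 1)) x + 4 * (q : ℝ≥0∞) ^ 2 * hs F 1 x)
          = (q : ℝ≥0∞)⁻¹ * (∑' s : Mat, (Lpq B q q).indicator g s) +
            (((q : ℝ≥0∞)⁻¹ * q) * (3 * hq F (q * (q * 1)) x) +
              ((q : ℝ≥0∞)⁻¹ * q) * (4 * (q : ℝ≥0∞) * hs F 1 x)) := by ring
        _ ≤ _ := by
            rw [e1, one_mul, one_mul]
            exact add_le_add (mul_le_mul_left (inv_le (hQ q hq').2) _) le_rfl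
    · rw [if_neg h, add_zero]
      exact mul_le_mul' (inv_le (hQ q hq').2) (pair_ne hNm (hQp p hp) (hQp q hq') (Ne.symm h) B F x)
  -- one prime
  have h2 : ∀ p ∈ Q, (p : ℝ≥0∞)⁻¹ * T2d B p (hs (Asd Q B F) 1) x ≤
      mi M ^ 2 * (∑ q ∈ Q, ∑' s : Mat, (Lpq B p q).indicator g s) +
        (3 * mi M * hq F (p * p) x + 4 * hs F 1 x) := by
    intro p hp
    rw [T2d_Asd hNm hQp]
    have h3 := Finset.sum_le_sum (h1 p hp)
    rw [Finset.sum_add_distrib, ← Finset.mul_sum, Finset.sum_ite_eq' Q p, if_pos hp] at h3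
    refine (mul_le_mul_right h3 ((p : ℝ≥0∞)⁻¹)).trans ?_
    have hp0 : (p : ℝ≥0∞) ≠ 0 := by exact_mod_cast (hQp p hp).ne_zero
    have e1 : (p : ℝ≥0∞)⁻¹ * p = 1 := ENNReal.inv_mul_cancel hp0 (ENNReal.natCast_ne_top p)
    calc (p : ℝ≥0∞)⁻¹ * (mi M * (∑ q ∈ Q, ∑' s : Mat, (Lpq B p q).indicator g s) +
          (3 * hq F (p * (p * 1)) x + 4 * (p : ℝ≥0∞) * hs F 1 x))
        = (p : ℝ≥0∞)⁻¹ * mi M * (∑ q ∈ Q, ∑' s : Mat, (Lpq B p q).indicator g s) +
          (3 * (p : ℝ≥0∞)⁻¹ * hq F (p * p) x + ((p : ℝ≥0∞)⁻¹ * p) * (4 * hs F 1 x)) := by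
          rw [mul_one p]
          ring
      _ ≤ _ := by
          rw [e1, one_mul]
          refine add_le_add (mul_le_mul_left ?_ _) (add_le_add (mul_le_mul_left (mul_le_mul_right
            (inv_le (hQ p hp).2) _) _) le_rfl)
          rw [_root_.sq]
          exact mul_le_mul_left (inv_le (hQ p hp).2) _
  -- the sum over the levels
  have h4 : ∑ p ∈ Q, hq F (p * p) x ≤ Hl Q 1 F x := by
    unfold Hl
    refine le_trans (le_of_eq ?_) (ENNReal.sum_le_tsum Q)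
    refine Finset.sum_congr rfl fun p hp => ?_
    rw [if_pos]
    have h5 := sm_mul (hQp p hp) hp (Finset.Subset.refl Q) (sm_one Q)
    rw [mul_one] at h5
    exact h5
  unfold Aod
  calc ∑ p ∈ Q, (p : ℝ≥0∞)⁻¹ * T2d B p (hs (Asd Q B F) 1) x
      ≤ ∑ p ∈ Q, (mi M ^ 2 * (∑ q ∈ Q, ∑' s : Mat, (Lpq B p q).indicator g s) +
        (3 * mi M * hq F (p * p) x + 4 * hs F 1 x)) := Finset.sum_le_sum h2
    _ = mi M ^ 2 * (∑ p ∈ Q, ∑ q ∈ Q, ∑' s : Mat, (Lpq B p q).indicator g s) +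
        (3 * mi M * (∑ p ∈ Q, hq F (p * p) x) + (Q.card : ℝ≥0∞) * (4 * hs F 1 x)) := by
        rw [Finset.sum_add_distrib, Finset.sum_add_distrib, ← Finset.mul_sum, ← Finset.mul_sum,
          Finset.sum_const, nsmul_eq_mul]
    _ ≤ mi M ^ 2 * (2 * ∑' s : Mat, (Ld Q B).indicator g s) +
        (3 * mi M * Hl Q 1 F x + (Q.card : ℝ≥0∞) * (4 * hs F 1 x)) :=
        add_le_add (mul_le_mul_right (two_pairs hQp B g) _)
          (add_le_add (mul_le_mul_right h4 _) le_rfl)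
    _ = _ := by ring

theorem stmtAId (hNu : StmtNuL) (hUnf : StmtUnf) (hNm : StmtNm) (hDds : StmtDds) (hTot : StmtTot) :
    StmtAId := by
  classical
  intro R hR
  obtain ⟨CD, hCD0, hCD⟩ := hDds.2 R hR
  obtain ⟨CL, hCL1, hCL⟩ := low_dir hNu hUnf hNm hTot R hR
  refine ⟨CL + 64 * (CD + 1), by nlinarith, ?_⟩
  intro l Φ hE W hW hWR M hM Q hQM B hB hBM hQl
  have hM0 : 0 < M := by linarith
  have hQ : ∀ p ∈ Q, p.Prime ∧ M < (p : ℝ) ∧ (p : ℝ) ≤ 2 * M := by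
    intro p hp
    have h1 := hQM hp
    unfold Pm at h1
    rw [Finset.mem_filter, Finset.mem_Ioc] at h1
    refine ⟨h1.2, (Nat.floor_lt hM0.le).1 h1.1.1, ?_⟩
    exact (Nat.le_floor_iff (by linarith)).1 h1.1.2
  have hlow := hCL l Φ hE W hW hWR Q B (by
    intro p hp
    obtain ⟨h1, h2, h3⟩ := hQ p hp
    refine ⟨h1, fun u hu => hB u hu p hp, by linarith, (hQl p hp).1, ?_⟩
    refine le_trans (ENNReal.ofReal_le_ofReal ?_) (hQl p hp).2
    have h4 : (0 : ℝ) ≤ B.card * l p ^ 2 := by positivity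
    have h5 : (0 : ℝ) ≤ 64 * (CD + 1) * (B.card * l p ^ 2) := by positivity
    nlinarith)
  set F := AIkM.ff Φ W with hFd
  have hF : Measurable F := AIkM.ff_meas hE.cont hW
  have := countMat
  -- the three integrals
  have i1 : ∫⁻ x, F x * (∑' s : Mat, (Ld Q B).indicator (fun s => F (nm s * x)) s) ∂nu =
      ∑' s : Mat, (Ld Q B).indicator (fun s => Dd Φ W (nm s)) s := by
    simp only [← ENNReal.tsum_mul_left]
    have m1 : ∀ s : Mat, Measurable fun x => F x * (Ld Q B).indicator (fun s => F (nm s * x)) s := by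
      intro s
      by_cases hs' : s ∈ Ld Q B
      · simp only [Set.indicator_of_mem hs']
        exact hF.mul (meas_mul hF _)
      · simp only [Set.indicator_of_notMem hs', mul_zero]
        exact measurable_const
    rw [lintegral_tsum fun s => (m1 s).aemeasurable]
    refine tsum_congr fun s => ?_
    by_cases hs' : s ∈ Ld Q B
    · simp only [Set.indicator_of_mem hs']
      rfl
    · simp only [Set.indicator_of_notMem hs', mul_zero, lintegral_zero]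
  have i2 := Hl_int hE.cont hW Q 1
  have i3 : ∫⁻ x, F x * hs F 1 x ∂nu ≤ ENNReal.ofReal CD * ms Φ W := by
    have h1 : ∫⁻ x, F x * hs F 1 x ∂nu = ∑' γ : SL(2, ℤ), Dd Φ W (io γ) := by
      have h2 : ∫⁻ x, F x * hs F 1 x ∂nu = AIkM.II F 1 := rfl
      rw [h2, AIkM.II_eq hE.cont hW, ← Equiv.tsum_eq eSL (fun s : Mn 1 => Dd Φ W (nm s.1))]
      refine tsum_congr fun γ => ?_
      change Dd Φ W (nm (γ : Mat)) = _
      rw [hNm.2.1]
    rw [h1]
    exact hCD Φ hE.cont W hW hWR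
  set S : G → ℝ≥0∞ := fun x => ∑' s : Mat, (Ld Q B).indicator (fun s => F (nm s * x)) s with hS
  have hSm : Measurable S := by
    refine Measurable.ennreal_tsum fun s => ?_
    by_cases hs' : s ∈ Ld Q B
    · simp only [Set.indicator_of_mem hs']
      exact meas_mul hF _
    · simp only [Set.indicator_of_notMem hs']
      exact measurable_const
  have m1 : Measurable fun x => F x * S x := hF.mul hSm
  have m2 : Measurable fun x => F x * Hl Q 1 F x := hF.mul (meas_Hl Q 1 hF)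
  have m3 : Measurable fun x => F x * hs F 1 x := hF.mul (meas_hs hF 1)
  have hup : ∫⁻ x, F x * Aod Q B (hs (Asd Q B F) 1) x ∂nu ≤
      2 * mi M ^ 2 * (∑' s : Mat, (Ld Q B).indicator (fun s => Dd Φ W (nm s)) s) +
        3 * mi M * (∑' s : Mat, (Lv2 Q 1).indicator (fun s => Dd Φ W (nm s)) s) +
        4 * (Q.card : ℝ≥0∞) * (ENNReal.ofReal CD * ms Φ W) := by
    calc ∫⁻ x, F x * Aod Q B (hs (Asd Q B F) 1) x ∂nu
        ≤ ∫⁻ x, (2 * mi M ^ 2 * (F x * S x) + 3 * mi M * (F x * Hl Q 1 F x) +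
            4 * (Q.card : ℝ≥0∞) * (F x * hs F 1 x)) ∂nu := by
          refine lintegral_mono fun x => ?_
          refine (mul_le_mul_right (dir_le hNm (fun p hp => ⟨(hQ p hp).1, (hQ p hp).2.1⟩) B F x)
            (F x)).trans (le_of_eq ?_)
          ring
      _ = 2 * mi M ^ 2 * (∫⁻ x, F x * S x ∂nu) + 3 * mi M * (∫⁻ x, F x * Hl Q 1 F x ∂nu) +
            4 * (Q.card : ℝ≥0∞) * ∫⁻ x, F x * hs F 1 x ∂nu := by
          rw [lintegral_add_right _ (m3.const_mul _), lintegral_add_left (m1.const_mul _),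
            lintegral_const_mul _ m1, lintegral_const_mul _ m2, lintegral_const_mul _ m3]
      _ ≤ _ := by
          refine add_le_add (add_le_add (le_of_eq ?_) (mul_le_mul_right i2 _)) (mul_le_mul_right i3 _)
          rw [i1]
  have hmi : mi M = ENNReal.ofReal (1 / M) := by
    unfold mi
    rw [one_div, ENNReal.ofReal_inv_of_pos hM0]
  have hmi2 : mi M ^ 2 = ENNReal.ofReal (1 / M ^ 2) := by
    rw [hmi, ← ENNReal.ofReal_pow (by positivity)]
    congr 1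
    rw [one_div, one_div, inv_pow]
  refine hlow.trans ((mul_le_mul_right hup 16).trans ?_)
  rw [← hmi, ← hmi2]
  set A1 := mi M ^ 2 * (∑' s : Mat, (Ld Q B).indicator (fun s => Dd Φ W (nm s)) s)
  set A2 := mi M * (∑' s : Mat, (Lv2 Q 1).indicator (fun s => Dd Φ W (nm s)) s)
  set A3 := (Q.card : ℝ≥0∞) * ms Φ W
  have c1 : (32 : ℝ≥0∞) ≤ ENNReal.ofReal (CL + 64 * (CD + 1)) := by
    rw [show (32 : ℝ≥0∞) = ENNReal.ofReal 32 by norm_num]
    exact ENNReal.ofReal_le_ofReal (by nlinarith)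
  have c2 : (48 : ℝ≥0∞) ≤ ENNReal.ofReal (CL + 64 * (CD + 1)) := by
    rw [show (48 : ℝ≥0∞) = ENNReal.ofReal 48 by norm_num]
    exact ENNReal.ofReal_le_ofReal (by nlinarith)
  have c3 : 64 * ENNReal.ofReal CD ≤ ENNReal.ofReal (CL + 64 * (CD + 1)) := by
    rw [show (64 : ℝ≥0∞) = ENNReal.ofReal 64 by norm_num, ← ENNReal.ofReal_mul (by norm_num)]
    exact ENNReal.ofReal_le_ofReal (by nlinarith)
  calc _ = 32 * A1 + 48 * A2 + (64 * ENNReal.ofReal CD) * A3 := by ring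
    _ ≤ ENNReal.ofReal (CL + 64 * (CD + 1)) * A1 + ENNReal.ofReal (CL + 64 * (CD + 1)) * A2 +
        ENNReal.ofReal (CL + 64 * (CD + 1)) * A3 :=
        add_le_add (add_le_add (mul_le_mul_left c1 _) (mul_le_mul_left c2 _)) (mul_le_mul_left c3 _)
    _ = _ := by ring

end

end Pool.Agent.A54.HS
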