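import Pool.Agent.Lib.HS.Z.Asm
import Pool.Agent.Lib.HS.Z.High
import Pool.Agent.Lib.HS.Z.Low

/-!
# Package `HS`: the counting bound at the bad scales, without hypotheses

helper36. `stmtHS : StmtHS`; with `HS/Top.lean` this gives the first four moments of all sequences of Hecke–Maass forms.
-/

set_option autoImplicit false

namespace Pool.Agent.A54.HS

open MeasureTheory Filter Topology Set
open scoped ContDiff ComplexConjugate UpperHalfPlane MatrixGroups ENNReal
open Pool.Agent.A54.Dyn (G fl base ze io mk4 dom)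
open Pool.Agent.A54.Av (Mat NonSc)
open Pool.Agent.A54.Hp Pool.Agent.A54.Hp.Hk Pool.Agent.A54.Hp.A2M

/-- the low bands -/
theorem zBdLow : StmtBdLow :=
  stmtBdLow HSLow.zLow stmtMc stmtOv stmtSp stmtCz
    (stmtAIl stmtNuL (stmtAI3 stmtNuL pUnf stmtNm pDds pTot) stmtBd) pIsU

/-- **the counting bound at the bad scales** -/
theorem stmtHS : StmtHS := stmtHS_asm zBdLow zHigh

end Pool.Agent.A54.HS
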