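import Mathlib

/-!
# PROJECT H* (MP_a54f13_nt), part (B): isometries of `M_2(ℤ)` (helper72, note 4648, Step 2)

`isoM2`: an additive map `σ` of `M_2(ℤ)` with `det (σ r) = det r` is `r ↦ α r β` or `r ↦ α rᵀ β` with integral
`α, β` and `det α = det β = ± 1`.
-/

set_option autoImplicit false

namespace Pool.Agent.HS

open Matrix

namespace IsoM2

/-- integral `2 × 2` matrices -/
abbrev M2 := Matrix (Fin 2) (Fin 2) ℤ

/-- the bilinear form of the determinant -/
def bf (A B : M2) : ℤ := A 0 0 * B 1 1 + A 1 1 * B 0 0 - A 0 1 * B 1 0 - A 1 0 * B 0 1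

lemma det_add (A B : M2) : (A + B).det = A.det + B.det + bf A B := by
  simp only [det_fin_two, Matrix.add_apply, bf]; ring

lemma conj (x : ℤ) (r : M2) : !![1, 0; 0, x] * r * !![1, 0; 0, x] =
    !![r 0 0, x * r 0 1; x * r 1 0, x * x * r 1 1] := by
  conv_lhs => rw [Matrix.eta_fin_two r]
  rw [Matrix.mul_fin_two, Matrix.mul_fin_two]
  ext i j
  fin_cases i <;> fin_cases j <;> simp <;> ring

lemma tra (r : M2) : rᵀ = !![r 0 0, r 1 0; r 0 1, r 1 1] := by
  ext i j
  fin_cases i <;> fin_cases j <;> simp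

/-- An integral matrix of determinant `0` is a product of a column and a row. -/
lemma rank_one (A : M2) (h : A.det = 0) : ∃ p q : Fin 2 → ℤ, A = !![p 0 * q 0, p 0 * q 1; p 1 * q 0, p 1 * q 1] := by
  rw [det_fin_two] at h
  by_cases h0 : A 0 0 = 0 ∧ A 1 0 = 0
  · refine ⟨![A 0 1, A 1 1], ![0, 1], ?_⟩
    ext i j
    fin_cases i <;> fin_cases j <;> simp [h0.1, h0.2]
  · obtain ⟨g, a, c, hg, hac, ha, hc⟩ : ∃ g a c : ℤ, 0 < g ∧ IsCoprime a c ∧ A 0 0 = g * a ∧ A 1 0 = g * c := by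
      have hne : Int.gcd (A 0 0) (A 1 0) ≠ 0 := by
        rw [Ne, Int.gcd_eq_zero_iff]; exact h0
      have hpos : (0 : ℤ) < (Int.gcd (A 0 0) (A 1 0) : ℤ) := by exact_mod_cast Nat.pos_of_ne_zero hne
      refine ⟨(Int.gcd (A 0 0) (A 1 0) : ℤ), A 0 0 / Int.gcd (A 0 0) (A 1 0), A 1 0 / Int.gcd (A 0 0) (A 1 0),
        hpos, ?_, ?_, ?_⟩
      · rw [Int.isCoprime_iff_gcd_eq_one]
        exact Int.gcd_div_gcd_div_gcd (Nat.pos_of_ne_zero hne)
      · rw [Int.mul_ediv_cancel' (Int.gcd_dvd_left _ _)]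
      · rw [Int.mul_ediv_cancel' (Int.gcd_dvd_right _ _)]
    have h1 : a * A 1 1 = c * A 0 1 := by
      have : g * (a * A 1 1 - c * A 0 1) = 0 := by rw [ha, hc] at h; linear_combination h
      rcases mul_eq_zero.mp this with h | h
      · exact absurd h hg.ne'
      · linarith
    obtain ⟨u, v, huv⟩ := hac
    refine ⟨![a, c], ![g, u * A 0 1 + v * A 1 1], ?_⟩
    ext i j
    fin_cases i <;> fin_cases j
    · simp [ha, mul_comm]
    · simp only [Fin.zero_eta, Fin.mk_one, cons_val_zero, cons_val_one, of_apply, cons_val', cons_val_fin_one]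
      linear_combination -A 0 1 * huv - v * h1
    · simp [hc, mul_comm]
    · simp only [Fin.mk_one, cons_val_zero, cons_val_one, of_apply, cons_val', cons_val_fin_one]
      linear_combination -A 1 1 * huv + u * h1

/-- units of `ℤ` in products -/
lemma pm {a b : ℤ} (h : a * b = 1) : (a = 1 ∧ b = 1) ∨ (a = -1 ∧ b = -1) := by
  rcases Int.eq_one_or_neg_one_of_mul_eq_one h with h1 | h1
  · left; exact ⟨h1, by rw [h1, one_mul] at h; exact h⟩
  · right; refine ⟨h1, ?_⟩; rw [h1] at h; linarith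

/-- An isometry which fixes `e₀₀` and `e₁₁`. -/
lemma fixed (σ : M2 →+ M2) (hσ : ∀ r, (σ r).det = r.det) (h0 : σ !![1, 0; 0, 0] = !![1, 0; 0, 0])
    (h1 : σ !![0, 0; 0, 1] = !![0, 0; 0, 1]) :
    ∃ x : ℤ, (x = 1 ∨ x = -1) ∧ ((∀ r, σ r = !![1, 0; 0, x] * r * !![1, 0; 0, x]) ∨
      ∀ r, σ r = !![1, 0; 0, x] * rᵀ * !![1, 0; 0, x]) := by
  have hb : ∀ A B : M2, bf (σ A) (σ B) = bf A B := by
    intro A B
    have e1 := det_add (σ A) (σ B)
    rw [← map_add, hσ, hσ, hσ, det_add A B] at e1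
    linarith
  set C := σ !![0, 1; 0, 0] with hC
  set D := σ !![0, 0; 1, 0] with hD
  have c0 : C 1 1 = 0 := by
    have := hb !![1, 0; 0, 0] !![0, 1; 0, 0]
    rw [h0, ← hC] at this
    simpa [bf] using this
  have c1 : C 0 0 = 0 := by
    have := hb !![0, 0; 0, 1] !![0, 1; 0, 0]
    rw [h1, ← hC] at this
    simpa [bf] using this
  have d0 : D 1 1 = 0 := by
    have := hb !![1, 0; 0, 0] !![0, 0; 1, 0]
    rw [h0, ← hD] at this
    simpa [bf] using this
  have d1 : D 0 0 = 0 := by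
    have := hb !![0, 0; 0, 1] !![0, 0; 1, 0]
    rw [h1, ← hD] at this
    simpa [bf] using this
  have c2 : C 0 1 * C 1 0 = 0 := by
    have := hσ !![0, 1; 0, 0]
    rw [← hC, det_fin_two, det_fin_two, c0, c1] at this
    simpa using this
  have d2 : D 0 1 * D 1 0 = 0 := by
    have := hσ !![0, 0; 1, 0]
    rw [← hD, det_fin_two, det_fin_two, d0, d1] at this
    simpa using this
  have cd : C 0 1 * D 1 0 + C 1 0 * D 0 1 = 1 := by
    have := hb !![0, 1; 0, 0] !![0, 0; 1, 0]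
    rw [← hC, ← hD] at this
    simp [bf, c0, c1, d0, d1] at this
    linarith
  have hsum : ∀ r : M2, σ r = r 0 0 • !![1, 0; 0, 0] + r 1 1 • !![0, 0; 0, 1] + r 0 1 • C + r 1 0 • D := by
    intro r
    have e : r = r 0 0 • !![1, 0; 0, 0] + r 1 1 • !![0, 0; 0, 1] + r 0 1 • !![0, 1; 0, 0] +
        r 1 0 • !![0, 0; 1, 0] := by
      ext i j
      fin_cases i <;> fin_cases j <;> simp
    conv_lhs => rw [e]
    rw [map_add, map_add, map_add, map_zsmul, map_zsmul, map_zsmul, map_zsmul, h0, h1]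
  rcases mul_eq_zero.mp c2 with hc | hc
  · -- `C = y e₁₀`
    rw [hc, zero_mul, zero_add] at cd
    have hD1 : D 1 0 = 0 := by
      rcases mul_eq_zero.mp d2 with h | h
      · rw [h] at cd; simp at cd
      · exact h
    have hCe : C = !![0, 0; C 1 0, 0] := by
      ext i j; fin_cases i <;> fin_cases j <;> simp [c0, c1, hc]
    have hDe : D = !![0, D 0 1; 0, 0] := by
      ext i j; fin_cases i <;> fin_cases j <;> simp [d0, d1, hD1]
    rcases pm cd with ⟨e1, e2⟩ | ⟨e1, e2⟩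
    · refine ⟨1, Or.inl rfl, Or.inr fun r => ?_⟩
      rw [hsum r, hCe, hDe, e1, e2, conj]
      ext i j
      fin_cases i <;> fin_cases j <;> simp
    · refine ⟨-1, Or.inr rfl, Or.inr fun r => ?_⟩
      rw [hsum r, hCe, hDe, e1, e2, conj]
      ext i j
      fin_cases i <;> fin_cases j <;> simp
  · -- `C = x e₀₁`
    rw [hc, zero_mul, add_zero] at cd
    have hD1 : D 0 1 = 0 := by
      rcases mul_eq_zero.mp d2 with h | h
      · exact h
      · rw [h] at cd; simp at cd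
    have hCe : C = !![0, C 0 1; 0, 0] := by
      ext i j; fin_cases i <;> fin_cases j <;> simp [c0, c1, hc]
    have hDe : D = !![0, 0; D 1 0, 0] := by
      ext i j; fin_cases i <;> fin_cases j <;> simp [d0, d1, hD1]
    rcases pm cd with ⟨e1, e2⟩ | ⟨e1, e2⟩
    · refine ⟨1, Or.inl rfl, Or.inl fun r => ?_⟩
      rw [hsum r, hCe, hDe, e1, e2, conj]
      ext i j
      fin_cases i <;> fin_cases j <;> simp
    · refine ⟨-1, Or.inr rfl, Or.inl fun r => ?_⟩
      rw [hsum r, hCe, hDe, e1, e2, conj]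
      ext i j
      fin_cases i <;> fin_cases j <;> simp

end IsoM2

open IsoM2

/-- **Isometries of `M_2(ℤ)`.** -/
theorem isoM2 (σ : Matrix (Fin 2) (Fin 2) ℤ →+ Matrix (Fin 2) (Fin 2) ℤ) (hσ : ∀ r, (σ r).det = r.det) :
    ∃ α β : Matrix (Fin 2) (Fin 2) ℤ, ((α.det = 1 ∧ β.det = 1) ∨ (α.det = -1 ∧ β.det = -1)) ∧
      ((∀ r, σ r = α * r * β) ∨ ∀ r, σ r = α * rᵀ * β) := by
  obtain ⟨p, p', hA⟩ := rank_one (σ !![1, 0; 0, 0]) (by rw [hσ]; simp [det_fin_two])
  obtain ⟨s, s', hB⟩ := rank_one (σ !![0, 0; 0, 1]) (by rw [hσ]; simp [det_fin_two])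
  have hb : bf (σ !![1, 0; 0, 0]) (σ !![0, 0; 0, 1]) = 1 := by
    have e1 := det_add (σ !![1, 0; 0, 0]) (σ !![0, 0; 0, 1])
    rw [← map_add, hσ, hσ, hσ, det_add !![1, 0; 0, 0] !![0, 0; 0, 1]] at e1
    have e2 : bf !![1, 0; 0, 0] !![0, 0; 0, 1] = 1 := by simp [bf]
    rw [e2] at e1
    linarith
  have hps : (p 0 * s 1 - p 1 * s 0) * (p' 0 * s' 1 - p' 1 * s' 0) = 1 := by
    rw [hA, hB] at hb
    simp [bf] at hb
    linear_combination hb
  set u := p 0 * s 1 - p 1 * s 0 with hu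
  set v := p' 0 * s' 1 - p' 1 * s' 0 with hv
  set α : Matrix (Fin 2) (Fin 2) ℤ := !![p 0, s 0; p 1, s 1] with hα
  set β : Matrix (Fin 2) (Fin 2) ℤ := !![p' 0, p' 1; s' 0, s' 1] with hβ
  have dα : α.det = u := by rw [hα, det_fin_two]; simp [hu]; ring
  have dβ : β.det = v := by rw [hβ, det_fin_two]; simp [hv]
  have huv : (u = 1 ∧ v = 1) ∨ (u = -1 ∧ v = -1) := pm hps
  -- the conjugated isometry
  have huu : u * u = 1 := by rcases huv with ⟨h, -⟩ | ⟨h, -⟩ <;> rw [h] <;> norm_num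
  have hvv : v * v = 1 := by rcases huv with ⟨-, h⟩ | ⟨-, h⟩ <;> rw [h] <;> norm_num
  set α' : Matrix (Fin 2) (Fin 2) ℤ := u • α.adjugate with hα'
  set β' : Matrix (Fin 2) (Fin 2) ℤ := v • β.adjugate with hβ'
  have e1 : α * α' = 1 := by
    rw [hα', Matrix.mul_smul, mul_adjugate, dα, smul_smul, huu, one_smul]
  have e2 : α' * α = 1 := by
    rw [hα', Matrix.smul_mul, adjugate_mul, dα, smul_smul, huu, one_smul]
  have e3 : β * β' = 1 := by
    rw [hβ', Matrix.mul_smul, mul_adjugate, dβ, smul_smul, hvv, one_smul]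
  have e4 : β' * β = 1 := by
    rw [hβ', Matrix.smul_mul, adjugate_mul, dβ, smul_smul, hvv, one_smul]
  let τ : Matrix (Fin 2) (Fin 2) ℤ →+ Matrix (Fin 2) (Fin 2) ℤ :=
    { toFun := fun r => α' * σ r * β'
      map_zero' := by rw [map_zero, Matrix.mul_zero, Matrix.zero_mul]
      map_add' := fun r t => by rw [map_add, Matrix.mul_add, Matrix.add_mul] }
  have hτ : ∀ r, τ r = α' * σ r * β' := fun r => rfl
  have dα' : α'.det * u = 1 := by
    have := congrArg det e2
    rw [det_mul, dα, det_one] at this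
    exact this
  have dβ' : v * β'.det = 1 := by
    have := congrArg det e3
    rw [det_mul, dβ, det_one] at this
    exact this
  have hτd : ∀ r, (τ r).det = r.det := by
    intro r
    rw [hτ, det_mul, det_mul, hσ]
    have h1 : α'.det = u := by
      rcases pm dα' with ⟨a, b⟩ | ⟨a, b⟩ <;> rw [a, b]
    have h2 : β'.det = v := by
      rcases pm dβ' with ⟨a, b⟩ | ⟨a, b⟩ <;> rw [a, b]
    rw [h1, h2]
    rcases huv with ⟨h, h'⟩ | ⟨h, h'⟩ <;> rw [h, h'] <;> ring
  have hσA : σ !![1, 0; 0, 0] = α * !![1, 0; 0, 0] * β := by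
    rw [hA, hα, hβ, Matrix.mul_fin_two, Matrix.mul_fin_two]
    ext i j
    fin_cases i <;> fin_cases j <;> simp
  have hσB : σ !![0, 0; 0, 1] = α * !![0, 0; 0, 1] * β := by
    rw [hB, hα, hβ, Matrix.mul_fin_two, Matrix.mul_fin_two]
    ext i j
    fin_cases i <;> fin_cases j <;> simp
  have t0 : τ !![1, 0; 0, 0] = !![1, 0; 0, 0] := by
    rw [hτ, hσA]
    calc α' * (α * !![1, 0; 0, 0] * β) * β' = (α' * α) * !![1, 0; 0, 0] * (β * β') := by
          simp only [Matrix.mul_assoc]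
      _ = _ := by rw [e2, e3, Matrix.one_mul, Matrix.mul_one]
  have t1 : τ !![0, 0; 0, 1] = !![0, 0; 0, 1] := by
    rw [hτ, hσB]
    calc α' * (α * !![0, 0; 0, 1] * β) * β' = (α' * α) * !![0, 0; 0, 1] * (β * β') := by
          simp only [Matrix.mul_assoc]
      _ = _ := by rw [e2, e3, Matrix.one_mul, Matrix.mul_one]
  obtain ⟨x, hx, hτx⟩ := fixed τ hτd t0 t1
  have hback : ∀ r, σ r = α * τ r * β := by
    intro r
    rw [hτ]
    calc σ r = (α * α') * σ r * (β' * β) := by rw [e1, e4, Matrix.one_mul, Matrix.mul_one]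
      _ = α * (α' * σ r * β') * β := by simp only [Matrix.mul_assoc]
  have dx : (!![1, 0; 0, x] : Matrix (Fin 2) (Fin 2) ℤ).det = x := by
    rw [det_fin_two]; simp
  refine ⟨α * !![1, 0; 0, x], !![1, 0; 0, x] * β, ?_, ?_⟩
  · rw [det_mul, det_mul, dα, dβ, dx]
    rcases huv with ⟨h, h'⟩ | ⟨h, h'⟩ <;> rcases hx with hx | hx <;> rw [h, h', hx] <;> norm_num
  · rcases hτx with h | h
    · left
      intro r
      rw [hback r, h r]
      simp only [Matrix.mul_assoc]
    · right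
      intro r
      rw [hback r, h r]
      simp only [Matrix.mul_assoc]

end Pool.Agent.HS
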