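import Pool.Agent.Lib.HS.Am9
import Pool.Agent.Lib.HS.Che
import Pool.Agent.Lib.HS.SnA
import Pool.Agent.Lib.MP_a54f13_nt.Hp.Sin

/-!
# Package `HS`: the masses of single tubes in the bad case

`SnB`: if all blocks are bad then `ms Φ (Tb R ζ w') ≤ w'^(2/3) w^(-ε)` for all `w ≤ w' ≤ 1`. Proof: `AI3` with
`M^(2k) ≈ w'^(-4/3)`: the returns `s` of the tube of level `n ≤ N = (2M)^(2k)` have their traceless part in a
tube of length `N` and radius `N w' ≥ 1`, so there are at most `N^(3+ε) w'^2` of them (`SnA.cnt_sq`).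
-/

set_option autoImplicit false

namespace Pool.Agent.A54.HS

open MeasureTheory Filter Topology Set
open scoped ContDiff ComplexConjugate UpperHalfPlane MatrixGroups ENNReal
open Pool.Agent.A54.Dyn (G fl base ze io mk4 dom)
open Pool.Agent.A54.Av (Mat NonSc)
open Pool.Agent.A54.Hp Pool.Agent.A54.Hp.Hk Pool.Agent.A54.Hp.A2M

noncomputable section

/-- **SnB** single tubes in the bad case, all widths between `w` and `1` -/
def StmtSnB : Prop := ∀ R ε : ℝ, 1 ≤ R → 0 < ε → ∃ K₀ : ℝ, 1 ≤ K₀ ∧ ∀ K : ℝ, K₀ ≤ K →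
  ∃ w₁ : ℝ, 0 < w₁ ∧ w₁ ≤ 1 ∧ ∀ (l : ℕ → ℝ) (Φ : G → ℂ), HE l Φ → ∀ w : ℝ, 0 < w → w ≤ w₁ → ¬ GdK K l w →
    ∀ w' : ℝ, w ≤ w' → w' ≤ 1 → ∀ ζ : Fin 3 → ℝ,
      ms Φ (Tb R ζ w') ≤ ENNReal.ofReal (w' ^ (2 / 3 : ℝ) * w ^ (-ε))

namespace SnBM

/-- the frame coordinates from the entries of `cj` -/
lemma cj_frame (x : G) (s : Mat) :
    SnA.cA (x 0 0) (x 0 1) (x 1 0) (x 1 1) (SnA.uv s) = cj x x s 0 0 - cj x x s 1 1 ∧
    SnA.cB (x 0 1) (x 1 1) (SnA.uv s) = cj x x s 0 1 ∧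
    SnA.cC (x 0 0) (x 1 0) (SnA.uv s) = cj x x s 1 0 := by
  have e : ∀ i j : Fin 2, cj x x s i j = (x⁻¹ : G) i 0 * ((s 0 0 : ℝ) * x 0 j + (s 0 1 : ℝ) * x 1 j) +
      (x⁻¹ : G) i 1 * ((s 1 0 : ℝ) * x 0 j + (s 1 1 : ℝ) * x 1 j) := by
    intro i j
    unfold cj
    rw [Matrix.mul_apply, Fin.sum_univ_two, Matrix.mul_apply, Matrix.mul_apply, Fin.sum_univ_two,
      Fin.sum_univ_two]
    simp only [Matrix.map_apply]
    show ((x⁻¹ : G) i 0 * (s 0 0 : ℝ) + (x⁻¹ : G) i 1 * (s 1 0 : ℝ)) * x 0 j +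
      ((x⁻¹ : G) i 0 * (s 0 1 : ℝ) + (x⁻¹ : G) i 1 * (s 1 1 : ℝ)) * x 1 j = _
    ring
  rw [e 0 0, e 1 1, e 0 1, e 1 0, Dyn.inv_00, Dyn.inv_01, Dyn.inv_10, Dyn.inv_11]
  unfold SnA.cA SnA.cB SnA.cC SnA.uv
  simp only [Matrix.cons_val_zero, Matrix.cons_val_one, Matrix.cons_val]
  push_cast
  refine ⟨?_, ?_, ?_⟩ <;> ring

/-- the sum over the returns of a tube -/
lemma sum_le (hDds : StmtDds) (hTub : StmtTub) (R δ : ℝ) (hR : 1 ≤ R) (hδ : 0 < δ) :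
    ∃ C : ℝ, 1 ≤ C ∧ ∀ (Φ : G → ℂ), Continuous Φ → ∀ (ζ : Fin 3 → ℝ) (w M : ℝ), 0 < w → w ≤ 1 →
      1 ≤ M → ∀ Q : Finset ℕ, (∀ p ∈ Q, p.Prime ∧ M < (p : ℝ) ∧ (p : ℝ) ≤ 2 * M) → ∀ j : ℕ,
      1 ≤ (2 * M) ^ j * w →
      ∑' s : Mat, (Lv2 Q j).indicator (fun s => Dd Φ (Tb R ζ w) (nm s)) s ≤
        ENNReal.ofReal (C * (((2 * M) ^ j) ^ (3 + δ) * w ^ 2)) * ms Φ (Tb R ζ w) := by
  obtain ⟨Cu, hCu, hU⟩ := hTub R hR
  obtain ⟨Cc, hCc, hcnt⟩ := SnA.cnt_sq R δ hR hδ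
  obtain ⟨hD1, -⟩ := hDds
  set B : ℝ := 4 * Cu ^ 2 with hB
  have hB1 : 1 ≤ B := by nlinarith
  have hB0 : 0 < B := by linarith
  have hC1 : 1 ≤ Cc * (B ^ (1 + δ) * B ^ 2) := by
    have h1 : 1 ≤ B ^ (1 + δ) := Real.one_le_rpow hB1 (by linarith)
    have h2 : 1 ≤ B ^ 2 := one_le_pow₀ hB1
    have h3 : 1 ≤ B ^ (1 + δ) * B ^ 2 := one_le_mul_of_one_le_of_one_le h1 h2
    exact one_le_mul_of_one_le_of_one_le hCc h3
  refine ⟨Cc * (B ^ (1 + δ) * B ^ 2), hC1, ?_⟩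
  intro Φ hΦ ζ w M hw hw1 hM Q hQ j hjw
  have hms : MeasurableSet (Tb R ζ w) := SinN.meas_Tb R ζ w
  have hsub : Tb R ζ w ⊆ Om R := fun g hg => hg.1
  set N : ℝ := (2 * M) ^ j with hN
  have hN1 : 1 ≤ N := one_le_pow₀ (by linarith)
  have hN0 : 0 < N := by linarith
  rcases Set.eq_empty_or_nonempty (Tb R ζ w) with hemp | ⟨x₀, hx₀⟩
  · refine le_of_eq_of_le ?_ zero_le
    refine ENNReal.tsum_eq_zero.2 fun s => ?_
    refine Set.indicator_apply_eq_zero.2 fun _ => (hD1 Φ hΦ _ hms (nm s)).2.2 ?_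
    intro x hx
    rw [hemp] at hx
    exact absurd hx (Set.notMem_empty x)
  refine le_trans (ENNReal.tsum_le_tsum (g := fun s => {s : Mat | s ∈ Lv2 Q j ∧
    ∃ x ∈ Tb R ζ w, nm s * x ∈ Tb R ζ w}.indicator (fun _ => ms Φ (Tb R ζ w)) s) fun s => ?_)
    (SinN.tsum_le _ _ _ ?_)
  · by_cases h1 : s ∈ Lv2 Q j
    · rw [Set.indicator_of_mem h1]
      by_cases h2 : ∃ x ∈ Tb R ζ w, nm s * x ∈ Tb R ζ w
      · rw [Set.indicator_of_mem (show s ∈ {s : Mat | s ∈ Lv2 Q j ∧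
          ∃ x ∈ Tb R ζ w, nm s * x ∈ Tb R ζ w} from ⟨h1, h2⟩)]
        exact (hD1 Φ hΦ _ hms (nm s)).2.1
      · rw [(hD1 Φ hΦ _ hms (nm s)).2.2 (fun x hx hx' => h2 ⟨x, hx, hx'⟩)]
        exact zero_le
    · rw [Set.indicator_of_notMem h1]
      exact zero_le
  · intro T hTm
    have hdet : x₀ 0 0 * x₀ 1 1 - x₀ 0 1 * x₀ 1 0 = 1 := Dyn.det_eq x₀
    have hxR := hsub hx₀
    have h1 := hcnt (x₀ 0 0) (x₀ 0 1) (x₀ 1 0) (x₀ 1 1) (hxR 0 0) (hxR 0 1) (hxR 1 0) (hxR 1 1) hdet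
      (B * N) (B * (N * w)) (one_le_mul_of_one_le_of_one_le hB1 hjw)
      (mul_le_mul_of_nonneg_left (mul_le_of_le_one_right hN0.le hw1) hB0.le) T (fun s hs => ?_)
    · refine h1.trans (le_of_eq ?_)
      rw [Real.mul_rpow hB0.le hN0.le, mul_pow, mul_pow]
      have h2 : N ^ (3 + δ) = N ^ (1 + δ) * N ^ 2 := by
        rw [← Real.rpow_natCast N 2, ← Real.rpow_add hN0]
        congr 1
        push_cast
        ring
      rw [h2]
      ring
    · obtain ⟨⟨-, n, hsm, hdet2⟩, x, hx, hx'⟩ := hTm s hs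
      obtain ⟨-, hn2⟩ := sm_size hM hQ j n hsm
      have hn0 : 0 < n := Nat.pos_of_ne_zero hsm.1
      have hpos : 0 < s.det := by
        rw [hdet2]
        have : (0 : ℤ) < n := by exact_mod_cast hn0
        positivity
      obtain ⟨a00, a11, a01, a10⟩ := hU ζ w hw x₀ hx₀ x hx
      obtain ⟨b00, b11, b01, b10⟩ := hU ζ w hw x₀ hx₀ (nm s * x) hx'
      obtain ⟨c00, c11, c01, c10⟩ := SinN.quot_bd hCu hw hw1 b00 b11 b01 b10 a00 a11 a01 a10
      have hsq : √((s.det : ℤ) : ℝ) = (n : ℝ) := by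
        rw [hdet2]
        push_cast
        exact Real.sqrt_mul_self (Nat.cast_nonneg n)
      have hs0 : (0 : ℝ) ≤ n := Nat.cast_nonneg n
      have hdiag : ∀ y : ℝ, |y| ≤ 2 * Cu ^ 2 → |√((s.det : ℤ) : ℝ) * y| ≤ N * (2 * Cu ^ 2) := by
        intro y hy
        rw [hsq, abs_mul, abs_of_nonneg hs0]
        exact mul_le_mul hn2 hy (abs_nonneg _) hN0.le
      have hoff : ∀ y : ℝ, |y| ≤ 2 * Cu ^ 2 * w →
          |√((s.det : ℤ) : ℝ) * y| ≤ N * (2 * Cu ^ 2 * w) := by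
        intro y hy
        rw [hsq, abs_mul, abs_of_nonneg hs0]
        exact mul_le_mul hn2 hy (abs_nonneg _) hN0.le
      obtain ⟨f1, f2, f3⟩ := cj_frame x₀ s
      have g00 := hdiag _ c00
      have g11 := hdiag _ c11
      have g01 := hoff _ c01
      have g10 := hoff _ c10
      rw [← SinN.cj_eq hpos x₀ x] at g00 g11 g01 g10
      have hNw : 0 ≤ N * w * Cu ^ 2 := by positivity
      refine ⟨?_, ?_, ?_, n, ?_, hdet2⟩
      · rw [f1, hB]
        refine (abs_sub _ _).trans ?_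
        nlinarith
      · rw [f2, hB]
        nlinarith
      · rw [f3, hB]
        nlinarith
      · calc (n : ℝ) ≤ N := hn2
          _ ≤ B * N := le_mul_of_one_le_left hN0.le hB1

/-- real variable part -/
lemma real_part {w w' θ δ C D M x q : ℝ} {k : ℕ} (hw : 0 < w) (hww : w ≤ w') (hw' : w' ≤ 1) (hθ : 0 < θ)
    (hθδ : θ ≤ δ) (hδ : δ ≤ 1 / 16) (hM : M = w ^ (-θ)) (hC : 1 ≤ C) (hD : 1 ≤ D) (hCD : C * D ≤ w ^ (-δ))
    (hx : 0 ≤ x) (hq : M ^ (1 - δ) ≤ q) (hk1 : M ^ k ≤ w' ^ (-(2 / 3) : ℝ))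
    (hk2 : w' ^ (-(2 / 3) : ℝ) ≤ M ^ (k + 1))
    (h : q ^ (k + 1) * x < C ∨ q ^ (2 * (k + 1)) * x ^ 2 ≤
      C / M ^ (2 * (k + 1)) * (D * ((M ^ (2 * (k + 1))) ^ (3 + δ) * w' ^ 2) * x)) :
    x ≤ w' ^ (2 / 3 : ℝ) * w ^ (-(16 * δ)) := by
  have hw0 : 0 < w' := hw.trans_le hww
  have hw1 : w ≤ 1 := hww.trans hw'
  have hδ0 : 0 < δ := hθ.trans_le hθδ
  have hM1 : 1 ≤ M := by
    rw [hM]
    exact Real.one_le_rpow_of_pos_of_le_one_of_nonpos hw hw1 (by linarith)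
  have hM0 : 0 < M := by linarith
  have hq0 : 0 < q := lt_of_lt_of_le (by positivity) hq
  set z : ℝ := w' ^ (-(2 / 3) : ℝ) with hz
  have hz0 : 0 < z := by positivity
  have mono : ∀ a b : ℝ, a ≤ b → w ^ b ≤ w ^ a := fun a b hab =>
    Real.rpow_le_rpow_of_exponent_ge hw hw1 hab
  have hw'w : ∀ a : ℝ, 0 ≤ a → w' ^ (-a) ≤ w ^ (-a) := by
    intro a ha
    rw [Real.rpow_neg hw0.le, Real.rpow_neg hw.le]
    exact inv_anti₀ (by positivity) (Real.rpow_le_rpow hw.le hww ha)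
  have hqM : ∀ m : ℕ, (M ^ m) ^ (1 - δ) ≤ q ^ m := by
    intro m
    calc (M ^ m) ^ (1 - δ) = (M ^ (1 - δ)) ^ m := by
          rw [← Real.rpow_natCast M m, ← Real.rpow_mul hM0.le, ← Real.rpow_natCast (M ^ (1 - δ)) m,
            ← Real.rpow_mul hM0.le]
          congr 1
          ring
      _ ≤ q ^ m := pow_le_pow_left₀ (by positivity) hq m
  rcases h with h | h
  · -- small mass
    have h1 : z ^ (1 - δ) ≤ q ^ (k + 1) :=
      (Real.rpow_le_rpow hz0.le hk2 (by linarith)).trans (hqM (k + 1))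
    have h2 : z ^ (1 - δ) * x ≤ C :=
      (mul_le_mul_of_nonneg_right h1 hx).trans h.le
    have h3 : x ≤ C * (z ^ (1 - δ))⁻¹ := by
      rw [← div_eq_mul_inv, le_div_iff₀ (by positivity)]
      linarith
    have h4 : (z ^ (1 - δ))⁻¹ ≤ w' ^ (2 / 3 : ℝ) * w ^ (-δ) := by
      have e1 : (z ^ (1 - δ))⁻¹ = w' ^ (2 / 3 : ℝ) * w' ^ (-(2 / 3 * δ)) := by
        rw [hz, ← Real.rpow_mul hw0.le, ← Real.rpow_neg hw0.le, ← Real.rpow_add hw0]
        congr 1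
        ring
      rw [e1]
      refine mul_le_mul_of_nonneg_left ?_ (by positivity)
      exact (hw'w _ (by positivity)).trans (mono _ _ (by linarith))
    have h5 : C ≤ w ^ (-δ) := by nlinarith
    calc x ≤ C * (z ^ (1 - δ))⁻¹ := h3
      _ ≤ w ^ (-δ) * (w' ^ (2 / 3 : ℝ) * w ^ (-δ)) :=
          mul_le_mul h5 h4 (by positivity) (by positivity)
      _ = w' ^ (2 / 3 : ℝ) * (w ^ (-δ) * w ^ (-δ)) := by ring
      _ = w' ^ (2 / 3 : ℝ) * w ^ (-(2 * δ)) := by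
          rw [← Real.rpow_add hw]
          congr 2
          ring
      _ ≤ _ := mul_le_mul_of_nonneg_left (mono _ _ (by linarith)) (by positivity)
  · -- large mass
    set g : ℝ := M ^ (2 * (k + 1)) with hg
    have hg0 : 0 < g := by positivity
    rcases hx.eq_or_lt with h0 | h0
    · rw [← h0]
      positivity
    have h1 : g ^ (1 - δ) * x ≤ C * D * (g ^ (2 + δ) * w' ^ 2) := by
      have e1 : g ^ (1 - δ) * x * x ≤ C * D * (g ^ (2 + δ) * w' ^ 2) * x := by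
        calc g ^ (1 - δ) * x * x = g ^ (1 - δ) * x ^ 2 := by ring
          _ ≤ q ^ (2 * (k + 1)) * x ^ 2 := mul_le_mul_of_nonneg_right (hqM _) (by positivity)
          _ ≤ C / g * (D * (g ^ (3 + δ) * w' ^ 2) * x) := h
          _ = C * D * ((g ^ (3 + δ) / g) * w' ^ 2) * x := by ring
          _ = C * D * (g ^ (2 + δ) * w' ^ 2) * x := by
              have e2 : g ^ (3 + δ) / g = g ^ (2 + δ) := by
                rw [div_eq_iff hg0.ne']
                nth_rewrite 3 [← Real.rpow_one g]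
                rw [← Real.rpow_add hg0]
                congr 1
                ring
              rw [e2]
      exact le_of_mul_le_mul_right e1 h0
    have h2 : x ≤ C * D * (g ^ (1 + 2 * δ) * w' ^ 2) := by
      have e1 : g ^ (1 - δ) * x ≤ g ^ (1 - δ) * (C * D * (g ^ (1 + 2 * δ) * w' ^ 2)) := by
        refine h1.trans (le_of_eq ?_)
        have e2 : g ^ (2 + δ) = g ^ (1 - δ) * g ^ (1 + 2 * δ) := by
          rw [← Real.rpow_add hg0]
          congr 1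
          ring
        rw [e2]
        ring
      exact le_of_mul_le_mul_left e1 (by positivity)
    have h3 : g ≤ (M * z) ^ 2 := by
      have e1 : g = (M * M ^ k) ^ 2 := by
        rw [hg]
        ring
      rw [e1]
      exact pow_le_pow_left₀ (by positivity) (mul_le_mul_of_nonneg_left hk1 hM0.le) 2
    have h4 : g ^ (1 + 2 * δ) ≤ M ^ (2 + 4 * δ) * z ^ (2 + 4 * δ) := by
      calc g ^ (1 + 2 * δ) ≤ ((M * z) ^ 2) ^ (1 + 2 * δ) :=
            Real.rpow_le_rpow hg0.le h3 (by linarith)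
        _ = (M * z) ^ (2 + 4 * δ) := by
            rw [← Real.rpow_natCast (M * z) 2, ← Real.rpow_mul (by positivity)]
            congr 1
            push_cast
            ring
        _ = _ := Real.mul_rpow hM0.le hz0.le
    have h5 : M ^ (2 + 4 * δ) ≤ w ^ (-(3 * δ)) := by
      rw [hM, ← Real.rpow_mul hw.le]
      refine mono _ _ ?_
      nlinarith
    have h6 : z ^ (2 + 4 * δ) * w' ^ 2 ≤ w' ^ (2 / 3 : ℝ) * w ^ (-(3 * δ)) := by
      have e1 : z ^ (2 + 4 * δ) * w' ^ 2 = w' ^ (2 / 3 : ℝ) * w' ^ (-(8 / 3 * δ)) := by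
        rw [hz, ← Real.rpow_mul hw0.le, ← Real.rpow_natCast w' 2, ← Real.rpow_add hw0,
          ← Real.rpow_add hw0]
        congr 1
        push_cast
        ring
      rw [e1]
      refine mul_le_mul_of_nonneg_left ?_ (by positivity)
      exact (hw'w _ (by positivity)).trans (mono _ _ (by linarith))
    calc x ≤ C * D * (g ^ (1 + 2 * δ) * w' ^ 2) := h2
      _ ≤ w ^ (-δ) * ((M ^ (2 + 4 * δ) * z ^ (2 + 4 * δ)) * w' ^ 2) := by
          refine mul_le_mul hCD ?_ (by positivity) (by positivity)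
          exact mul_le_mul_of_nonneg_right h4 (by positivity)
      _ = w ^ (-δ) * (M ^ (2 + 4 * δ) * (z ^ (2 + 4 * δ) * w' ^ 2)) := by ring
      _ ≤ w ^ (-δ) * (w ^ (-(3 * δ)) * (w' ^ (2 / 3 : ℝ) * w ^ (-(3 * δ)))) := by
          refine mul_le_mul_of_nonneg_left ?_ (by positivity)
          exact mul_le_mul h5 h6 (by positivity) (by positivity)
      _ = w' ^ (2 / 3 : ℝ) * (w ^ (-δ) * w ^ (-(3 * δ)) * w ^ (-(3 * δ))) := by ring
      _ = w' ^ (2 / 3 : ℝ) * w ^ (-(7 * δ)) := by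
          rw [← Real.rpow_add hw, ← Real.rpow_add hw]
          congr 2
          ring
      _ ≤ _ := mul_le_mul_of_nonneg_left (mono _ _ (by linarith)) (by positivity)

end SnBM

open SnBM

/-- **SnB** -/
theorem stmtSnB (hAI3 : StmtAI3) (hTot : StmtTot) (hDds : StmtDds) (hTub : StmtTub) : StmtSnB := by
  intro R ε hR hε
  obtain ⟨δ, hδdef⟩ : ∃ δ : ℝ, δ = min (ε / 16) (1 / 16) := ⟨_, rfl⟩
  have hδ0 : 0 < δ := by
    rw [hδdef]
    exact lt_min (by linarith) (by norm_num)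
  have hδ1 : δ ≤ 1 / 16 := by
    rw [hδdef]
    exact min_le_right _ _
  have hδε : 16 * δ ≤ ε := by
    have : δ ≤ ε / 16 := by
      rw [hδdef]
      exact min_le_left _ _
    linarith
  obtain ⟨Ct, hCt, hT⟩ := hTot R hR
  obtain ⟨Cs, hCs, hS⟩ := sum_le hDds hTub R δ hR hδ0
  obtain ⟨M₀, hM₀, hBd⟩ := stmtBd δ hδ0
  refine ⟨max 1 (1 / δ), le_max_left _ _, ?_⟩
  intro K hK
  have hK1 : 1 ≤ K := (le_max_left _ _).trans hK
  have hKδ : 1 / δ ≤ K := (le_max_right _ _).trans hK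
  have hK0 : 0 < K := by linarith
  obtain ⟨θ, hθdef⟩ : ∃ θ : ℝ, θ = 1 / (1000 * K) := ⟨_, rfl⟩
  have hθ0 : 0 < θ := by
    rw [hθdef]
    positivity
  have hθδ : θ ≤ δ := by
    rw [hθdef, div_le_iff₀ (by positivity)]
    have h1 : 1 ≤ K * δ := by
      rw [div_le_iff₀ hδ0] at hKδ
      exact hKδ
    nlinarith
  have hθ1 : θ ≤ 1 / 1000 := by
    rw [hθdef]
    exact one_div_le_one_div_of_le (by norm_num) (by linarith)
  choose CA hCA1 hCA using fun k : ℕ => hAI3 (k + 1) R (by omega) hR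
  obtain ⟨m, hm⟩ : ∃ m : ℕ, 1 / θ ≤ (m : ℝ) := exists_nat_ge _
  obtain ⟨Cm, hCm⟩ : ∃ Cm : ℝ, Cm = ∑ k ∈ Finset.range (m + 1), CA k := ⟨_, rfl⟩
  have hCmk : ∀ k ≤ m, CA k ≤ Cm := by
    intro k hk
    rw [hCm]
    exact Finset.single_le_sum (f := CA) (fun i _ => by have := hCA1 i; linarith)
      (Finset.mem_range.2 (by omega))
  have hCm1 : 1 ≤ Cm := (hCA1 0).trans (hCmk 0 (Nat.zero_le _))
  obtain ⟨D, hD⟩ : ∃ D : ℝ, D = Cs * (2 ^ (2 * (m + 1))) ^ (4 : ℕ) := ⟨_, rfl⟩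
  have hB2 : (1 : ℝ) ≤ (2 ^ (2 * (m + 1))) ^ (4 : ℕ) := one_le_pow₀ (one_le_pow₀ (by norm_num))
  have hD1 : 1 ≤ D := by
    rw [hD]
    exact one_le_mul_of_one_le_of_one_le hCs hB2
  have hCD1 : 1 ≤ Cm * D := one_le_mul_of_one_le_of_one_le hCm1 hD1
  refine ⟨min (1 / 2) (min ((Cm * D) ^ (-(1 / δ))) (M₀ ^ (-(1 / θ)))),
    lt_min (by norm_num) (lt_min (by positivity) (by positivity)),
    (min_le_left _ _).trans (by norm_num), ?_⟩
  intro l Φ hE w hw hww1 hG w' hww' hw'1 ζ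
  have hw2 : w ≤ 1 / 2 := hww1.trans (min_le_left _ _)
  have hw1 : w ≤ 1 := by linarith
  have hw'0 : 0 < w' := hw.trans_le hww'
  have hwC : w ≤ (Cm * D) ^ (-(1 / δ)) :=
    hww1.trans ((min_le_right _ _).trans (min_le_left _ _))
  have hwM : w ≤ M₀ ^ (-(1 / θ)) := hww1.trans ((min_le_right _ _).trans (min_le_right _ _))
  have inv_aux : ∀ a b : ℝ, 1 ≤ a → 0 < b → w ≤ a ^ (-(1 / b)) → a ≤ w ^ (-b) := by
    intro a b ha hb h
    have ha0 : 0 < a := by linarith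
    have h1 : w ^ b ≤ a⁻¹ := by
      calc w ^ b ≤ (a ^ (-(1 / b))) ^ b := Real.rpow_le_rpow hw.le h hb.le
        _ = a⁻¹ := by
          rw [← Real.rpow_mul ha0.le]
          have : -(1 / b) * b = -1 := by field_simp
          rw [this, Real.rpow_neg_one]
    rw [Real.rpow_neg hw.le]
    rw [le_inv_comm₀ ha0 (by positivity)]
    exact h1
  have hCD : Cm * D ≤ w ^ (-δ) := inv_aux _ _ hCD1 hδ0 hwC
  obtain ⟨M, hMdef⟩ : ∃ M : ℝ, M = w ^ (-θ) := ⟨_, rfl⟩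
  have hM : M₀ ≤ M := by
    rw [hMdef]
    exact inv_aux _ _ hM₀ hθ0 hwM
  have hM1 : 1 ≤ M := hM₀.trans hM
  have hM0 : 0 < M := by linarith
  have hMlt : 1 < M := by
    rw [hMdef]
    exact Real.one_lt_rpow_of_pos_of_lt_one_of_neg hw (by linarith) (by linarith)
  have hbad : ¬ GdC (1 / 10000) l M := by
    intro h
    refine hG ⟨M, ?_, ?_, h⟩
    · rw [hMdef, hθdef]
    · rw [hMdef]
      exact Real.rpow_le_rpow_of_exponent_ge hw hw1 (by linarith)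
  obtain ⟨hQc, hQl⟩ := hBd l M hM hbad
  set Q := Bad l M with hQ
  have hQM : Q ⊆ Pm M := Finset.filter_subset _ _
  have hQP : ∀ p ∈ Q, p.Prime ∧ M < (p : ℝ) ∧ (p : ℝ) ≤ 2 * M := by
    intro p hp
    have h1 := hQM hp
    unfold Pm at h1
    rw [Finset.mem_filter, Finset.mem_Ioc] at h1
    refine ⟨h1.2, (Nat.floor_lt hM0.le).1 h1.1.1, ?_⟩
    exact (Nat.le_floor_iff (by linarith)).1 h1.1.2
  -- the exponent
  have hz1 : 1 ≤ w' ^ (-(2 / 3) : ℝ) :=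
    Real.one_le_rpow_of_pos_of_le_one_of_nonpos hw'0 hw'1 (by norm_num)
  obtain ⟨k, hk1, hk2⟩ := exists_nat_pow_near hz1 hMlt
  have hkm : k ≤ m := by
    have h1 : M ^ k ≤ w ^ (-(2 / 3) : ℝ) := by
      refine hk1.trans ?_
      rw [Real.rpow_neg hw'0.le, Real.rpow_neg hw.le]
      exact inv_anti₀ (by positivity) (Real.rpow_le_rpow hw.le hww' (by norm_num))
    rw [hMdef, ← Real.rpow_natCast, ← Real.rpow_mul hw.le,
      Real.rpow_le_rpow_left_iff_of_base_lt_one hw (by linarith)] at h1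
    have h2 : (k : ℝ) ≤ 1 / θ := by
      rw [le_div_iff₀ hθ0]
      nlinarith
    exact_mod_cast h2.trans hm
  -- the mass
  have hms : MeasurableSet (Tb R ζ w') := SinN.meas_Tb R ζ w'
  have hsub : Tb R ζ w' ⊆ Om R := fun g hg => hg.1
  obtain ⟨X, hX⟩ : ∃ X : ℝ≥0∞, X = ms Φ (Tb R ζ w') := ⟨_, rfl⟩
  have hXtop : X ≠ ⊤ := by
    have h1 : X ≤ ENNReal.ofReal Ct := by
      rw [hX]
      refine le_trans ?_ (hT l Φ hE)
      exact lintegral_mono_set hsub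
    exact ne_top_of_le_ne_top ENNReal.ofReal_ne_top h1
  obtain ⟨x, hx0, hxX⟩ : ∃ x : ℝ, 0 ≤ x ∧ X = ENNReal.ofReal x :=
    ⟨X.toReal, ENNReal.toReal_nonneg, (ENNReal.ofReal_toReal hXtop).symm⟩
  have hqc : (Q.card : ℝ≥0∞) = ENNReal.ofReal (Q.card : ℝ) := (ENNReal.ofReal_natCast _).symm
  have hq0 : (0 : ℝ) ≤ (Q.card : ℝ) := Nat.cast_nonneg _
  have key : ((Q.card : ℝ)) ^ (k + 1) * x < Cm ∨ ((Q.card : ℝ)) ^ (2 * (k + 1)) * x ^ 2 ≤
      Cm / M ^ (2 * (k + 1)) * (D * ((M ^ (2 * (k + 1))) ^ (3 + δ) * w' ^ 2) * x) := by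
    rcases lt_or_ge ((Q.card : ℝ) ^ (k + 1) * x) (CA k) with h1 | h1
    · exact Or.inl (h1.trans_le (hCmk k hkm))
    · right
      have h2 := hCA k l Φ hE (Tb R ζ w') hms hsub M hM1 Q hQM hQl (by
        rw [← hX, hxX, hqc, ← ENNReal.ofReal_pow hq0, ← ENNReal.ofReal_mul (by positivity)]
        exact ENNReal.ofReal_le_ofReal h1)
      have hpos : 1 ≤ (2 * M) ^ (2 * (k + 1)) * w' := by
        have e1 : w' ^ (-(1 : ℝ)) ≤ (2 * M) ^ (2 * (k + 1)) := by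
          calc w' ^ (-(1 : ℝ)) ≤ w' ^ (-(2 / 3) * 2 : ℝ) :=
                Real.rpow_le_rpow_of_exponent_ge hw'0 hw'1 (by norm_num)
            _ = (w' ^ (-(2 / 3) : ℝ)) ^ 2 := by
                rw [← Real.rpow_natCast (w' ^ (-(2 / 3) : ℝ)) 2, ← Real.rpow_mul hw'0.le]
                norm_num
            _ ≤ (M ^ (k + 1)) ^ 2 := pow_le_pow_left₀ (by positivity) hk2.le 2
            _ = M ^ (2 * (k + 1)) := by ring
            _ ≤ (2 * M) ^ (2 * (k + 1)) := pow_le_pow_left₀ hM0.le (by linarith) _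
        rw [Real.rpow_neg_one] at e1
        rw [← div_le_iff₀ hw'0, one_div]
        exact e1
      have h3 := h2.trans (mul_le_mul_right (hS Φ hE.cont ζ w' M hw'0 hw'1 hM1 Q hQP
        (2 * (k + 1)) hpos) _)
      rw [← hX, hxX, hqc, ← ENNReal.ofReal_pow hq0, ← ENNReal.ofReal_pow hx0,
        ← ENNReal.ofReal_mul (by positivity), ← ENNReal.ofReal_mul (by positivity),
        ← ENNReal.ofReal_mul (by have := hCA1 k; positivity)] at h3
      have hCk0 : 0 ≤ CA k := by have := hCA1 k; linarith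
      rw [ENNReal.ofReal_le_ofReal_iff (by positivity)] at h3
      refine h3.trans ?_
      have e1 : ((2 * M) ^ (2 * (k + 1))) ^ (3 + δ) ≤
          (2 ^ (2 * (m + 1))) ^ (4 : ℕ) * (M ^ (2 * (k + 1))) ^ (3 + δ) := by
        rw [mul_pow, Real.mul_rpow (by positivity) (by positivity)]
        refine mul_le_mul_of_nonneg_right ?_ (by positivity)
        calc ((2 : ℝ) ^ (2 * (k + 1))) ^ (3 + δ) ≤ ((2 : ℝ) ^ (2 * (m + 1))) ^ (3 + δ) := by
              refine Real.rpow_le_rpow (by positivity) ?_ (by linarith)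
              exact pow_le_pow_right₀ (by norm_num) (by omega)
          _ ≤ ((2 : ℝ) ^ (2 * (m + 1))) ^ (4 : ℝ) := by
              refine Real.rpow_le_rpow_of_exponent_le (one_le_pow₀ (by norm_num)) (by linarith)
          _ = ((2 : ℝ) ^ (2 * (m + 1))) ^ (4 : ℕ) := by
              rw [← Real.rpow_natCast ((2 : ℝ) ^ (2 * (m + 1))) 4]
              norm_num
      refine mul_le_mul (div_le_div_of_nonneg_right (hCmk k hkm) (by positivity)) ?_
        (by positivity) (by positivity)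
      refine mul_le_mul_of_nonneg_right ?_ hx0
      rw [hD]
      calc Cs * (((2 * M) ^ (2 * (k + 1))) ^ (3 + δ) * w' ^ 2)
          ≤ Cs * (((2 ^ (2 * (m + 1))) ^ (4 : ℕ) * (M ^ (2 * (k + 1))) ^ (3 + δ)) * w' ^ 2) := by
            refine mul_le_mul_of_nonneg_left ?_ (by linarith)
            exact mul_le_mul_of_nonneg_right e1 (by positivity)
        _ = _ := by ring
  have hfin := real_part hw hww' hw'1 hθ0 hθδ hδ1 hMdef hCm1 hD1 hCD hx0 hQc hk1 hk2.le key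
  rw [← hX, hxX]
  refine ENNReal.ofReal_le_ofReal (hfin.trans ?_)
  refine mul_le_mul_of_nonneg_left ?_ (by positivity)
  exact Real.rpow_le_rpow_of_exponent_ge hw hw1 (by linarith)

end

end Pool.Agent.A54.HS
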