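import Mathlib

/-!
# PROJECT H* (MP_a54f13_nt): square product classification

`homogFactor`: the factors of a nonzero homogeneous polynomial (over a domain) are homogeneous.

`sqClass`: every nonzero form `G0` of degree `n` over a field is `d * α ^ 2` with `d` a squarefree form of degree `k`
and `α` a form of degree `e`, `k + 2 e = n`, and then every form `G` of degree `n` with `G0 * G` a square is
`d * β ^ 2` with a form `β` of degree `e` (the same `d`).

`sqClassTwo`, `sqClassFour`: the cases `n = 2` and `n = 4`, with `k = 0` read off at a point where both forms take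
square values.
-/

set_option autoImplicit false

namespace Pool.Agent.HS

open MvPolynomial

namespace SqClass

variable {σ R : Type*} [CommRing R]

/-- The scaling homomorphism `X i ↦ X i * T`. -/
noncomputable def scale (σ R : Type*) [CommRing R] : MvPolynomial σ R →ₐ[R] Polynomial (MvPolynomial σ R) :=
  aeval (fun i => Polynomial.C (X i) * Polynomial.X)

theorem scale_monomial (s : σ →₀ ℕ) (c : R) :
    scale σ R (monomial s c) = Polynomial.C (monomial s c) * Polynomial.X ^ (Finsupp.degree s) := by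
  rw [scale, aeval_monomial]
  have h1 : (s.prod fun i k => (Polynomial.C (X i : MvPolynomial σ R) * Polynomial.X) ^ k) =
      Polynomial.C (s.prod fun i k => (X i : MvPolynomial σ R) ^ k) * Polynomial.X ^ (Finsupp.degree s) := by
    simp only [mul_pow]
    rw [Finsupp.prod_mul]
    have h2 : (s.prod fun _ k => (Polynomial.X : Polynomial (MvPolynomial σ R)) ^ k) =
        Polynomial.X ^ (Finsupp.degree s) := by
      rw [Finsupp.prod, Finset.prod_pow_eq_pow_sum, Finsupp.degree_apply]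
    rw [h2]
    have h3 : (s.prod fun i k => (Polynomial.C (X i : MvPolynomial σ R)) ^ k) =
        Polynomial.C (s.prod fun i k => (X i : MvPolynomial σ R) ^ k) := by
      rw [Finsupp.prod, Finsupp.prod, map_prod]
      exact Finset.prod_congr rfl (fun i _ => (map_pow _ _ _).symm)
    rw [h3]
  rw [h1, monomial_eq, Polynomial.C_mul, mul_assoc]
  rfl

theorem scale_eq_sum (F : MvPolynomial σ R) :
    scale σ R F = ∑ s ∈ F.support, Polynomial.C (monomial s (coeff s F)) * Polynomial.X ^ (Finsupp.degree s) := by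
  conv_lhs => rw [F.as_sum]
  rw [map_sum]
  exact Finset.sum_congr rfl (fun s _ => scale_monomial s _)

theorem scale_coeff (F : MvPolynomial σ R) (n : ℕ) :
    (scale σ R F).coeff n = homogeneousComponent n F := by
  classical
  rw [scale_eq_sum, Polynomial.finsetSum_coeff, homogeneousComponent_apply, Finset.sum_filter]
  refine Finset.sum_congr rfl (fun s _ => ?_)
  rw [Polynomial.coeff_C_mul, Polynomial.coeff_X_pow]
  by_cases h : Finsupp.degree s = n
  · simp [h]
  · rw [if_neg (fun h' => h h'.symm), if_neg h, mul_zero]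

theorem scale_ne_zero {F : MvPolynomial σ R} (hF : F ≠ 0) : scale σ R F ≠ 0 := by
  intro h
  apply hF
  rw [← sum_homogeneousComponent F]
  refine Finset.sum_eq_zero (fun i _ => ?_)
  rw [← scale_coeff, h, Polynomial.coeff_zero]

theorem scale_homog {F : MvPolynomial σ R} {n : ℕ} (hF : F.IsHomogeneous n) (hF0 : F ≠ 0) :
    (scale σ R F).natDegree = n ∧ (scale σ R F).natTrailingDegree = n := by
  have h1 : scale σ R F = Polynomial.monomial n F := by
    ext m : 1
    rw [scale_coeff, Polynomial.coeff_monomial]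
    split_ifs with h
    · subst h; exact homogeneousComponent_of_mem hF |>.trans (by simp)
    · rw [homogeneousComponent_of_mem hF, if_neg (fun h' => h h'.symm)]
  rw [h1]
  exact ⟨Polynomial.natDegree_monomial_eq n hF0, Polynomial.natTrailingDegree_monomial hF0⟩

theorem homog_of_scale {F : MvPolynomial σ R} {n : ℕ} (h1 : (scale σ R F).natDegree = n)
    (h2 : (scale σ R F).natTrailingDegree = n) : F.IsHomogeneous n := by
  have h3 : ∀ m, m ≠ n → homogeneousComponent m F = 0 := by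
    intro m hm
    rw [← scale_coeff]
    rcases lt_or_gt_of_ne hm with h | h
    · exact Polynomial.coeff_eq_zero_of_lt_natTrailingDegree (by rw [h2]; exact h)
    · exact Polynomial.coeff_eq_zero_of_natDegree_lt (by rw [h1]; exact h)
  have h4 : homogeneousComponent n F = F := by
    conv_rhs => rw [← sum_homogeneousComponent F]
    by_cases hn : n ∈ Finset.range (F.totalDegree + 1)
    · rw [Finset.sum_eq_single_of_mem n hn (fun m _ hm => h3 m hm)]
    · rw [Finset.sum_eq_zero]
      · apply homogeneousComponent_eq_zero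
        simpa using hn
      · intro m hm
        exact h3 m (fun h => hn (h ▸ hm))
  rw [← h4]
  exact homogeneousComponent_isHomogeneous n F

end SqClass

/-- The factors of a nonzero homogeneous polynomial are homogeneous. -/
theorem homogFactor {σ R : Type*} [CommRing R] [IsDomain R] {F G : MvPolynomial σ R} {n : ℕ}
    (h : (F * G).IsHomogeneous n) (h0 : F * G ≠ 0) :
    ∃ a b : ℕ, a + b = n ∧ F.IsHomogeneous a ∧ G.IsHomogeneous b := by
  have hF : F ≠ 0 := left_ne_zero_of_mul h0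
  have hG : G ≠ 0 := right_ne_zero_of_mul h0
  obtain ⟨h1, h2⟩ := SqClass.scale_homog h h0
  rw [map_mul] at h1 h2
  rw [Polynomial.natDegree_mul (SqClass.scale_ne_zero hF) (SqClass.scale_ne_zero hG)] at h1
  rw [Polynomial.natTrailingDegree_mul (SqClass.scale_ne_zero hF) (SqClass.scale_ne_zero hG)] at h2
  have h3 := Polynomial.natTrailingDegree_le_natDegree (SqClass.scale σ R F)
  have h4 := Polynomial.natTrailingDegree_le_natDegree (SqClass.scale σ R G)
  refine ⟨(SqClass.scale σ R F).natDegree, (SqClass.scale σ R G).natDegree, h1,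
    SqClass.homog_of_scale rfl (by omega), SqClass.homog_of_scale rfl (by omega)⟩

/-- A homogeneous polynomial of degree `0` is a constant. -/
theorem homogZero {σ R : Type*} [CommRing R] {F : MvPolynomial σ R} (h : F.IsHomogeneous 0) : ∃ c : R, F = C c :=
  ⟨_, totalDegree_eq_zero_iff_eq_C.mp (Nat.le_zero.mp h.totalDegree_le)⟩

/-- Every nonzero form is a squarefree form times the square of a form. -/
theorem sqPart {σ K : Type*} [Field K] : ∀ (n : ℕ) (G : MvPolynomial σ K), G.IsHomogeneous n → G ≠ 0 →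
    ∃ (k e : ℕ) (d α : MvPolynomial σ K), k + 2 * e = n ∧ d.IsHomogeneous k ∧ α.IsHomogeneous e ∧ Squarefree d ∧
      G = d * α ^ 2 := by
  intro n
  induction n using Nat.strong_induction_on with
  | _ n ih =>
    intro G hG hG0
    by_cases hsq : Squarefree G
    · exact ⟨n, 0, G, 1, by omega, hG, isHomogeneous_one σ K, hsq, by ring⟩
    · rw [Squarefree] at hsq
      push Not at hsq
      obtain ⟨x, ⟨y, hy⟩, hx⟩ := hsq
      obtain ⟨a, b, hab, hxx, hyb⟩ := homogFactor (hy ▸ hG) (hy ▸ hG0)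
      have hxx0 : x * x ≠ 0 := left_ne_zero_of_mul (hy ▸ hG0)
      have hy0 : y ≠ 0 := right_ne_zero_of_mul (hy ▸ hG0)
      obtain ⟨a1, a2, ha, h1, h2⟩ := homogFactor hxx hxx0
      have h12 : a1 = a2 := h1.inj_right h2 (left_ne_zero_of_mul hxx0)
      subst h12
      have ha1 : a1 ≠ 0 := by
        rintro rfl
        obtain ⟨c, hc⟩ := homogZero h1
        apply hx
        rw [hc]
        refine IsUnit.map C (IsUnit.mk0 c ?_)
        rintro rfl
        exact left_ne_zero_of_mul hxx0 (by rw [hc, C_0])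
      obtain ⟨k, e, d, α, hke, hd, hα, hdsq, hyd⟩ := ih b (by omega) y hyb hy0
      exact ⟨k, a1 + e, d, x * α, by omega, hd, h1.mul hα, hdsq, by rw [hy, hyd]; ring⟩

/-- **Square product classification.** `G0 = d * α ^ 2` with `d` squarefree, and all forms `G` of the same degree
with `G0 * G` a square are `d * β ^ 2`. -/
theorem sqClass {σ K : Type*} [Field K] {n : ℕ} {G0 : MvPolynomial σ K} (h : G0.IsHomogeneous n) (h0 : G0 ≠ 0) :
    ∃ (k e : ℕ) (d α : MvPolynomial σ K), k + 2 * e = n ∧ d.IsHomogeneous k ∧ α.IsHomogeneous e ∧ Squarefree d ∧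
      G0 = d * α ^ 2 ∧
      ∀ G : MvPolynomial σ K, G.IsHomogeneous n → IsSquare (G0 * G) →
        ∃ β : MvPolynomial σ K, β.IsHomogeneous e ∧ G = d * β ^ 2 := by
  obtain ⟨k, e, d, α, hke, hd, hα, hsq, hG⟩ := sqPart n G0 h h0
  refine ⟨k, e, d, α, hke, hd, hα, hsq, hG, fun G hGn ⟨s, hs⟩ => ?_⟩
  have hα0 : α ≠ 0 := by
    rintro rfl
    exact h0 (by rw [hG]; ring)
  have hd0 : d ≠ 0 := by
    rintro rfl
    exact h0 (by rw [hG]; ring)
  have h1 : α ^ 2 ∣ s ^ 2 := ⟨d * G, by rw [sq s, ← hs, hG]; ring⟩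
  have h2 : α ∣ s := (IsIntegrallyClosed.pow_dvd_pow_iff two_ne_zero).mp h1
  obtain ⟨r, rfl⟩ := h2
  have h3 : d * G = r ^ 2 := by
    apply mul_left_cancel₀ (pow_ne_zero 2 hα0)
    calc α ^ 2 * (d * G) = G0 * G := by rw [hG]; ring
      _ = α ^ 2 * r ^ 2 := by rw [hs]; ring
  have h4 : d ∣ r := (hsq.dvd_pow_iff_dvd two_ne_zero).mp ⟨G, h3.symm⟩
  obtain ⟨β, rfl⟩ := h4
  have h5 : G = d * β ^ 2 := by
    apply mul_left_cancel₀ hd0
    rw [h3]; ring
  by_cases hG0 : G = 0
  · exact ⟨0, isHomogeneous_zero σ K e, by rw [hG0]; ring⟩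
  · refine ⟨β, ?_, h5⟩
    have hβ0 : β ≠ 0 := by
      rintro rfl
      exact hG0 (by rw [h5]; ring)
    obtain ⟨a, b, hab, hda, hβb⟩ := homogFactor (h5 ▸ hGn) (h5 ▸ hG0)
    have hak : a = k := hda.inj_right hd hd0
    rw [sq] at hβb
    obtain ⟨b1, b2, hb, h6, h7⟩ := homogFactor hβb (mul_ne_zero hβ0 hβ0)
    have h8 : b1 = b2 := h6.inj_right h7 hβ0
    have h9 : b1 = e := by omega
    rw [← h9]
    exact h6

/-- A constant factor of a form with a nonzero square value at a point, the other factor being a square. -/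
theorem const_square {σ : Type*} {c : ℚ} {α : MvPolynomial σ ℚ} {p : σ → ℚ}
    (hp : IsSquare (eval p (C c * α ^ 2))) (hp0 : eval p (C c * α ^ 2) ≠ 0) : ∃ r : ℚ, c = r ^ 2 := by
  obtain ⟨s, hs⟩ := hp
  rw [map_mul, eval_C, map_pow] at hs hp0
  have hα : eval p α ≠ 0 := fun h => hp0 (by rw [h]; ring)
  refine ⟨s / eval p α, ?_⟩
  field_simp
  rw [hs]; ring

/-- The proportional case `e = 0`. -/
theorem const_ratio {σ : Type*} {G0 G d α β : MvPolynomial σ ℚ} (hα : α.IsHomogeneous 0) (hβ : β.IsHomogeneous 0)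
    (h0 : G0 ≠ 0) (hG0 : G0 = d * α ^ 2) (hG : G = d * β ^ 2) : ∃ t : ℚ, G = C (t ^ 2) * G0 := by
  obtain ⟨a, rfl⟩ := homogZero hα
  obtain ⟨b, rfl⟩ := homogZero hβ
  have ha : a ≠ 0 := by
    rintro rfl
    exact h0 (by rw [hG0, C_0]; ring)
  refine ⟨b / a, ?_⟩
  rw [hG, hG0, ← map_pow, ← map_pow, mul_comm (C _), mul_assoc, ← map_mul]
  congr 2
  field_simp

/-- **Quadratic forms** (any number of variables). `G0` has a nonzero square value at `p`. Either all forms `G` with
`G0 * G` a square are `t ^ 2 * G0`, or `G0` and all these forms are squares of linear forms. -/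
theorem sqClassTwo {σ : Type*} {G0 : MvPolynomial σ ℚ} (h : G0.IsHomogeneous 2) {p : σ → ℚ}
    (hp : IsSquare (eval p G0)) (hp0 : eval p G0 ≠ 0) :
    (∀ G : MvPolynomial σ ℚ, G.IsHomogeneous 2 → IsSquare (G0 * G) → ∃ t : ℚ, G = C (t ^ 2) * G0) ∨
    ((∃ L : MvPolynomial σ ℚ, L.IsHomogeneous 1 ∧ G0 = L ^ 2) ∧
      ∀ G : MvPolynomial σ ℚ, G.IsHomogeneous 2 → IsSquare (G0 * G) →
        ∃ L : MvPolynomial σ ℚ, L.IsHomogeneous 1 ∧ G = L ^ 2) := by
  have h0 : G0 ≠ 0 := fun h => hp0 (by rw [h, map_zero])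
  obtain ⟨k, e, d, α, hke, hd, hα, -, hG0, hall⟩ := sqClass h h0
  have he : e = 0 ∨ (e = 1 ∧ k = 0) := by omega
  rcases he with rfl | ⟨rfl, rfl⟩
  · left
    intro G hG hs
    obtain ⟨β, hβ, hGβ⟩ := hall G hG hs
    exact const_ratio hα hβ h0 hG0 hGβ
  · right
    obtain ⟨c, rfl⟩ := homogZero hd
    obtain ⟨r, rfl⟩ := const_square (hG0 ▸ hp) (hG0 ▸ hp0)
    refine ⟨⟨C r * α, ?_, ?_⟩, fun G hG hs => ?_⟩
    · simpa using (isHomogeneous_C σ r).mul hα
    · rw [hG0, map_pow]; ring
    · obtain ⟨β, hβ, hGβ⟩ := hall G hG hs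
      refine ⟨C r * β, ?_, ?_⟩
      · simpa using (isHomogeneous_C σ r).mul hβ
      · rw [hGβ, map_pow]; ring

/-- **Quartic forms** (any number of variables). `G0` has a nonzero square value at `p`. Either all forms `G` with
`G0 * G` a square are `t ^ 2 * G0`, or they are `d * (linear form) ^ 2` with one squarefree quadratic form `d`, or
`G0` and all these forms are squares of quadratic forms. -/
theorem sqClassFour {σ : Type*} {G0 : MvPolynomial σ ℚ} (h : G0.IsHomogeneous 4) {p : σ → ℚ}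
    (hp : IsSquare (eval p G0)) (hp0 : eval p G0 ≠ 0) :
    (∀ G : MvPolynomial σ ℚ, G.IsHomogeneous 4 → IsSquare (G0 * G) → ∃ t : ℚ, G = C (t ^ 2) * G0) ∨
    (∃ d : MvPolynomial σ ℚ, d.IsHomogeneous 2 ∧ Squarefree d ∧
      (∃ L : MvPolynomial σ ℚ, L.IsHomogeneous 1 ∧ G0 = d * L ^ 2) ∧
      ∀ G : MvPolynomial σ ℚ, G.IsHomogeneous 4 → IsSquare (G0 * G) →
        ∃ L : MvPolynomial σ ℚ, L.IsHomogeneous 1 ∧ G = d * L ^ 2) ∨
    ((∃ q : MvPolynomial σ ℚ, q.IsHomogeneous 2 ∧ G0 = q ^ 2) ∧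
      ∀ G : MvPolynomial σ ℚ, G.IsHomogeneous 4 → IsSquare (G0 * G) →
        ∃ q : MvPolynomial σ ℚ, q.IsHomogeneous 2 ∧ G = q ^ 2) := by
  have h0 : G0 ≠ 0 := fun h => hp0 (by rw [h, map_zero])
  obtain ⟨k, e, d, α, hke, hd, hα, hdsq, hG0, hall⟩ := sqClass h h0
  have he : e = 0 ∨ (e = 1 ∧ k = 2) ∨ (e = 2 ∧ k = 0) := by omega
  rcases he with rfl | ⟨rfl, rfl⟩ | ⟨rfl, rfl⟩
  · left
    intro G hG hs
    obtain ⟨β, hβ, hGβ⟩ := hall G hG hs
    exact const_ratio hα hβ h0 hG0 hGβ
  · right; left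
    exact ⟨d, hd, hdsq, ⟨α, hα, hG0⟩, hall⟩
  · right; right
    obtain ⟨c, rfl⟩ := homogZero hd
    obtain ⟨r, rfl⟩ := const_square (hG0 ▸ hp) (hG0 ▸ hp0)
    refine ⟨⟨C r * α, ?_, ?_⟩, fun G hG hs => ?_⟩
    · simpa using (isHomogeneous_C σ r).mul hα
    · rw [hG0, map_pow]; ring
    · obtain ⟨β, hβ, hGβ⟩ := hall G hG hs
      refine ⟨C r * β, ?_, ?_⟩
      · simpa using (isHomogeneous_C σ r).mul hβ
      · rw [hGβ, map_pow]; ring

end Pool.Agent.HS
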